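import Pool.Agent.TH216.MF.Kill
import Pool.Agent.W425.SM.Stmts
import Pool.Agent.W425.MM.Defs
import Pool.Agent.W803.SM.ZF

set_option autoImplicit false

/-! Affinely independent exponents. -/

namespace Pool.Agent.TH216.MF

open MvPolynomial Pool.Agent.H628R4.TZ Pool.Agent.W425.SM Pool.Agent.W425.SV
open Pool.Agent.W425.MM (NonD)
open Pool.Agent.W426.SM (gord face)

variable {r N : ℕ}

lemma ind_complex (v : Fin r → Fin N → ℕ) (hv : Ind v) (w : Fin r → ℂ) (h0 : ∑ j, w j = 0)
    (h1 : ∀ i, ∑ j, w j * (v j i : ℂ) = 0) : ∀ j, w j = 0 := by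
  intro j
  rw [← Module.forall_dual_apply_eq_zero_iff ℚ]
  intro φ
  have h2 := affineIndependent_iff.1 hv Finset.univ (fun j => φ (w j))
    (by rw [← map_sum, h0, map_zero]) (by
      ext i
      rw [Finset.sum_apply]
      simp only [Pi.smul_apply, smul_eq_mul, Pi.zero_apply]
      have h3 : ∀ j, φ (w j) * (v j i : ℚ) = φ (w j * (v j i : ℂ)) := by
        intro j
        have h4 : w j * (v j i : ℂ) = (v j i : ℚ) • w j := by
          rw [Algebra.smul_def, mul_comm]
          simp
        rw [h4, map_smul, smul_eq_mul, mul_comm]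
      simp only [h3]
      rw [← map_sum, h1, map_zero])
  exact h2 j (Finset.mem_univ j)

lemma nonD_of_ind (hr : 0 < r) (v : Fin r → Fin N → ℕ) (hv : Ind v) (c : Fin r → ℂ)
    (hc : ∀ j, c j ≠ 0) : NonD v c := by
  intro u z hz h0
  by_contra hcon
  push Not at hcon
  have h1 := ind_complex v hv
    (fun j => if face v u j then c j * ∏ i, z i ^ v j i else 0) h0 (fun i => by
      refine Eq.trans ?_ (hcon i)
      refine Finset.sum_congr rfl fun j _ => ?_
      split_ifs
      · ring
      · rw [zero_mul])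
  obtain ⟨j, hj⟩ := Pool.Agent.W803.SM.exists_gord hr v u
  have h2 := h1 j
  rw [if_pos (show face v u j from hj)] at h2
  rcases mul_eq_zero.1 h2 with h | h
  · exact hc j h
  · obtain ⟨i, _, hi⟩ := Finset.prod_eq_zero_iff.1 h
    exact pow_ne_zero _ (hz i) hi

/-- the relation of the sparse case is a relation in the general sense -/
lemma relG_of_relM (v : Fin r → Fin N → ℕ) (p : Polynomial ℂ) (h : RelM v p) :
    RelG v (Kil1 v) (Spread v) p := by
  classical
  obtain ⟨M, Cs, q, hc, hrel⟩ := h
  let en := Cs.equivFin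
  refine ⟨M, Cs.card, 0, fun k => (en.symm k : Fin r → ℤ), fun k => Bc v (en.symm k : Fin r → ℤ),
    fun k => q (en.symm k : Fin r → ℤ), fun k => k.elim0, fun k => k.elim0, fun k => ?_,
    fun k => k.elim0, ?_⟩
  · refine ⟨0, fun j => le_refl _, ?_, fun i hi => ?_⟩
    · simp only [Pi.zero_apply, add_zero]
      exact_mod_cast hc _ (en.symm k).2
    · simp only [Pi.zero_apply, add_zero]
      have h1 : ¬ 0 < ∑ j, (en.symm k : Fin r → ℤ) j * (v j i : ℤ) := by
        intro h
        apply hi
        unfold Bc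
        simpa using h
      push Not at h1
      exact_mod_cast h1
  · rw [hrel, Fin.sum_univ_zero, add_zero, ← Finset.sum_coe_sort Cs]
    exact (Equiv.sum_comp en.symm (fun c : Cs => (∏ i ∈ Bc v c, el v i) *
      ((∏ j, if (c : Fin r → ℤ) j < 0 then X j * dm M j else 1) * q c))).symm

end Pool.Agent.TH216.MF
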