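import Pool.Agent.TH216.MF.H3
import Pool.Agent.W195.PZ.Null
import Pool.Agent.W425.SL.Final

set_option autoImplicit false

/-! Poles of the Poincare series, with orders. -/

namespace Pool.Agent.TH216.MF

open MeasureTheory Filter Topology Pool.Agent.W425.PZ Pool.Agent.W206.CU
open Pool.Agent.W427.SMC (igusaZeta)
open Pool.Agent.H628R4.TP (IsBFunction)
open Pool.Agent.W425.MM Pool.Agent.W425.GN
open Pool.Agent.W426.SM (gord IsRay face)
open Pool.Agent.W425.SV (NP)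
open Pool.Agent.W425.ND (spa)
open Pool.Agent.W425.SM (Ind)

/-- **Poles of the Poincare series, orders.** -/
theorem pole_of_poincare_ord (p : ℕ) [hp : Fact p.Prime] {V : Type} [Fintype V]
    (F : MvPolynomial V ℤ)
    (hnull : Tendsto (fun M => ((dens p F M : ℚ) : ℝ)) atTop (𝓝 0)) {T₀ : ℂ} {r : ℕ} (hr : 0 < r)
    (h : IsPoleOfOrder (poincare p F) T₀ r) :
    ∃ (Z : ℂ → ℂ) (s₀ : ℂ), MeromorphicOn Z Set.univ ∧
      (∀ s : ℂ, 0 < s.re → Z s = igusaZeta p F s) ∧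
      meromorphicOrderAt Z s₀ ≤ ((-(r : ℤ) : ℤ) : WithTop ℤ) ∧
      s₀.re = -Real.log ‖T₀‖ / Real.log p := by
  classical
  have hT1 := pole_ne_one p F hnull hr h
  have hT0 := pole_ne_zero hr h
  obtain ⟨A, B, hA, hB, hP⟩ := h
  set D : Polynomial ℂ := (Polynomial.X - Polynomial.C T₀) ^ r * B with hDdef
  have hB0 : B ≠ 0 := by
    rintro rfl
    rw [Polynomial.eval_zero] at hB
    exact hB rfl
  have hD0 : D ≠ 0 := mul_ne_zero (pow_ne_zero _ (Polynomial.X_sub_C_ne_zero _)) hB0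
  have hDT : D.eval T₀ = 0 := by
    rw [hDdef, Polynomial.eval_mul, Polynomial.eval_pow, Polynomial.eval_sub, Polynomial.eval_X,
      Polynomial.eval_C, sub_self, zero_pow hr.ne', zero_mul]
  set φ : ℂ → ℂ := fun s => (p : ℂ) ^ (-s) with hφ
  have hφa : ∀ s, AnalyticAt ℂ φ s := fun s => analyticAt_T p s
  have hpol : ∀ (E : Polynomial ℂ) s, AnalyticAt ℂ (fun s => E.eval (φ s)) s := by
    intro E s
    have h1 := (AnalyticOnNhd.eval_polynomial E (φ s) (Set.mem_univ _)).comp (hφa s)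
    exact h1
  set Nu : ℂ → ℂ := fun s => D.eval (φ s) - (1 - φ s) * A.eval (φ s) with hNu
  set De : ℂ → ℂ := fun s => φ s * D.eval (φ s) with hDe
  have hNa : ∀ s, AnalyticAt ℂ Nu s := fun s =>
    (hpol D s).sub ((analyticAt_const.sub (hφa s)).mul (hpol A s))
  have hDa : ∀ s, AnalyticAt ℂ De s := fun s => (hφa s).mul (hpol D s)
  set G : ℂ → ℂ := Nu * De⁻¹ with hG
  have hGm : ∀ s, MeromorphicAt G s := fun s => (hNa s).meromorphicAt.mul (hDa s).meromorphicAt.inv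
  set Z : ℂ → ℂ := fun s => if 0 < s.re then igusaZeta p F s else G s with hZ
  have hev : ∀ s₁, G =ᶠ[𝓝[≠] s₁] Z := by
    intro s₁
    filter_upwards [ev_ne p hD0 s₁] with s hs
    simp only [hZ]
    split_ifs with h1
    · have hT := norm_T_lt p h1
      have e1 := gen_igusa p F h1 hT
      have e2 := gen_eval p F hP hT
      have hne : De s ≠ 0 := mul_ne_zero (T_ne_zero p s) hs
      show Nu s * (De s)⁻¹ = _
      rw [mul_inv_eq_iff_eq_mul₀ hne]
      simp only [hNu, hDe, hφ]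
      linear_combination (1 - (p : ℂ) ^ (-s)) * e2 - D.eval ((p : ℂ) ^ (-s)) * e1
    · rfl
  set s₀ : ℂ := -(Complex.log T₀ / (Real.log p : ℝ)) with hs₀
  have hlp := logp_pos p
  have hφs : φ s₀ = T₀ := by
    have hlpC : ((Real.log p : ℝ) : ℂ) ≠ 0 := by exact_mod_cast hlp.ne'
    simp only [hφ, hs₀]
    rw [neg_neg, Complex.cpow_def_of_ne_zero (by exact_mod_cast hp.out.ne_zero),
      ← Complex.natCast_log, mul_div_cancel₀ _ hlpC, Complex.exp_log hT0]
  refine ⟨Z, s₀, fun s _ => (hGm s).congr (hev s), fun s hs => if_pos hs, ?_, ?_⟩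
  · rw [← meromorphicOrderAt_congr (hev s₀)]
    have hN0 : Nu s₀ ≠ 0 := by
      simp only [hNu, hφs, hDT, zero_sub]
      exact neg_ne_zero.2 (mul_ne_zero (sub_ne_zero.2 (Ne.symm hT1)) hA)
    have h1 : meromorphicOrderAt Nu s₀ = 0 := by
      rw [(hNa s₀).meromorphicOrderAt_eq, (hNa s₀).analyticOrderAt_eq_zero.2 hN0]
      rfl
    set W : ℂ → ℂ := fun s => φ s - T₀ with hW
    have hWa : AnalyticAt ℂ W s₀ := (hφa s₀).sub analyticAt_const
    set U : ℂ → ℂ := fun s => φ s * B.eval (φ s) with hU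
    have hUa : AnalyticAt ℂ U s₀ := (hφa s₀).mul (hpol B s₀)
    have hU0 : U s₀ ≠ 0 := by
      simp only [hU, hφs]
      exact mul_ne_zero hT0 hB
    have hDeq : De = W ^ r * U := by
      funext s
      simp only [hDe, hW, hU, Pi.mul_apply, Pi.pow_apply, hDdef, Polynomial.eval_mul,
        Polynomial.eval_pow, Polynomial.eval_sub, Polynomial.eval_X, Polynomial.eval_C]
      ring
    have hUo : meromorphicOrderAt U s₀ = 0 := by
      rw [hUa.meromorphicOrderAt_eq, hUa.analyticOrderAt_eq_zero.2 hU0]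
      rfl
    have hWo : meromorphicOrderAt W s₀ = ((1 : ℤ) : WithTop ℤ) := by
      have h7 := ord_lin p hp.out.two_le s₀ T₀
      rw [if_pos hφs] at h7
      exact h7
    have hDo : meromorphicOrderAt De s₀ = ((r : ℤ) : WithTop ℤ) := by
      rw [hDeq, meromorphicOrderAt_mul (hWa.meromorphicAt.pow r) hUa.meromorphicAt, hUo,
        meromorphicOrderAt_pow hWa.meromorphicAt, hWo, add_zero]
      have h8 : ((r : WithTop ℤ) * ((1 : ℤ) : WithTop ℤ)) = ((r : ℤ) : WithTop ℤ) := by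
        rw [WithTop.coe_one, mul_one]
        rfl
      exact h8
    rw [hG, meromorphicOrderAt_mul (hNa s₀).meromorphicAt (hDa s₀).meromorphicAt.inv, h1,
      meromorphicOrderAt_inv, hDo, zero_add]
    exact le_refl _
  · rw [hs₀, Complex.neg_re, Complex.div_ofReal_re, Complex.log_re, neg_div]

variable {N r : ℕ}

/-- **Poles of the Poincare series, generic coefficients.** -/
theorem genP (hr : 0 < r)
    (v : Fin r → Fin N → ℕ) (hv : Function.Injective v) (hv0 : ∀ j, v j ≠ 0)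
    (h : MvPolynomial (Fin N) ℤ) (hh : ∀ w ∈ h.support, NP v w) (hL : HypL v h) :
    ∃ g : MvPolynomial (Fin r) ℚ, g ≠ 0 ∧
      ∀ c : Fin r → ℤ, MvPolynomial.eval (fun j => (c j : ℚ)) g ≠ 0 →
      ∃ S : Finset ℕ, ∀ p : ℕ, p.Prime → p ∉ S →
        ∀ (T₀ : ℂ) (m : ℕ), 0 < m → IsPoleOfOrder (poincare p (spa v c + h)) T₀ m →
        ∀ b : Polynomial ℂ, b ≠ 0 →
          IsBFunction (MvPolynomial.map (Int.castRingHom ℂ) (spa v c + h)) b →
          b.eval ((-Real.log ‖T₀‖ / Real.log p : ℝ) : ℂ) = 0 ∧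
          ∃ σ : ℚ, -Real.log ‖T₀‖ / Real.log p = -(σ : ℝ) ∧ (LocS v h σ →
            m ≤ b.rootMultiplicity ((-Real.log ‖T₀‖ / Real.log p : ℝ) : ℂ)) := by
  obtain ⟨g1, hg1, h1⟩ := genZ hr v hv hv0 h hh hL
  obtain ⟨g2, hg2, h2⟩ := Pool.Agent.W425.GN.gen_ne (F := ℚ) hr v hv
    (MvPolynomial.map (Int.castRingHom ℚ) h)
  refine ⟨g1 * g2, mul_ne_zero hg1 hg2, fun c hc => ?_⟩
  rw [map_mul] at hc
  obtain ⟨S, hS⟩ := h1 c (left_ne_zero_of_mul hc)
  have hmap : MvPolynomial.map (Int.castRingHom ℚ) (spa v c + h) =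
      spa v (fun j => (c j : ℚ)) + MvPolynomial.map (Int.castRingHom ℚ) h := by
    rw [map_add]
    congr 1
    unfold spa
    simp
  have hmapC : MvPolynomial.map (algebraMap ℚ ℂ)
      (spa v (fun j => (c j : ℚ)) + MvPolynomial.map (Int.castRingHom ℚ) h) =
      MvPolynomial.map (Int.castRingHom ℂ) (spa v c + h) := by
    rw [← hmap, MvPolynomial.map_map]
    congr 1
  have hne : spa v c + h ≠ 0 := by
    intro h0
    refine h2 (fun j => ((c j : ℚ) : ℂ)) ?_ ?_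
    · have h5 := MvPolynomial.aeval_algebraMap_apply ℂ (fun j => (c j : ℚ)) g2
      intro h6
      apply right_ne_zero_of_mul hc
      have h7 : ((MvPolynomial.eval (fun j => (c j : ℚ)) g2 : ℚ) : ℂ) = 0 := by
        rw [← h6]
        exact h5.symm
      exact_mod_cast h7
    · have h8 := congrArg (MvPolynomial.map (Int.castRingHom ℂ)) h0
      rw [← hmapC, map_zero, map_add] at h8
      rw [← h8]
      congr 1
      unfold spa
      simp
  refine ⟨S, fun p hp hpS T₀ m hm hP b hb0 hb => ?_⟩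
  have : Fact p.Prime := ⟨hp⟩
  obtain ⟨Z, s₀, hZ, hZi, hZo, hre⟩ := pole_of_poincare_ord p (spa v c + h)
    (Pool.Agent.W195.PZ.null hne) hm hP
  have hneg : meromorphicOrderAt Z s₀ < 0 := lt_of_le_of_lt hZo (by
    have : (-(m : ℤ) : ℤ) < 0 := by omega
    exact_mod_cast this)
  obtain ⟨h3, σ, hσ, h4⟩ := hS p hpS Z hZ hZi s₀ hneg b hb0 hb
  rw [hre] at h3 hσ h4
  refine ⟨h3, σ, hσ, fun hl => ?_⟩
  have h5 := le_trans (h4 hl) hZo
  have h6 : (-(b.rootMultiplicity ((-Real.log ‖T₀‖ / Real.log p : ℝ) : ℂ) : ℤ) : ℤ) ≤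
      -(m : ℤ) := by exact_mod_cast h5
  omega

/-- **Poles of the Poincare series, affinely independent exponents.** -/
theorem indP {n k : ℕ} (hk : 2 ≤ k) (m : Fin k → Fin n → ℕ) (hm : Ind m) (c : Fin k → ℤ)
    (hc : ∀ j, c j ≠ 0) (f : MvPolynomial (Fin n) ℤ)
    (hf : f = ∑ j, MvPolynomial.C (c j) * ∏ i, MvPolynomial.X i ^ m j i) :
    ∃ S : Finset ℕ, ∀ p : ℕ, p.Prime → p ∉ S →
        ∀ (T₀ : ℂ) (μ : ℕ), 0 < μ → IsPoleOfOrder (poincare p f) T₀ μ →
        ∀ b : Polynomial ℂ, b ≠ 0 → IsBFunction (MvPolynomial.map (Int.castRingHom ℂ) f) b →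
          μ ≤ b.rootMultiplicity ((-Real.log ‖T₀‖ / Real.log p : ℝ) : ℂ) := by
  obtain ⟨S, hS⟩ := indZ hk m hm c hc f hf
  have hf0 : f ≠ 0 := by
    intro h0
    have h1 : MvPolynomial.map (Int.castRingHom ℂ) f =
        Pool.Agent.W425.SM.sparse m (fun j => ((c j : ℤ) : ℂ)) := by
      rw [hf]
      unfold Pool.Agent.W425.SM.sparse
      rw [map_sum]
      refine Finset.sum_congr rfl fun j _ => ?_
      rw [map_mul, MvPolynomial.map_C, map_prod]
      simp
    refine Pool.Agent.W425.SL.sparse_ne_zero (by omega : 1 ≤ k) hm (fun j => ((c j : ℤ) : ℂ))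
      (fun j => by exact_mod_cast hc j) ?_
    rw [← h1, h0, map_zero]
  refine ⟨S, fun p hp hpS T₀ μ hμ hP b hb0 hb => ?_⟩
  have : Fact p.Prime := ⟨hp⟩
  obtain ⟨Z, s₀, hZ, hZi, hZo, hre⟩ := pole_of_poincare_ord p f
    (Pool.Agent.W195.PZ.null hf0) hμ hP
  have h5 := le_trans (hS p hpS Z hZ hZi s₀ b hb0 hb) hZo
  rw [hre] at h5
  have h6 : (-(b.rootMultiplicity ((-Real.log ‖T₀‖ / Real.log p : ℝ) : ℂ) : ℤ) : ℤ) ≤
      -(μ : ℤ) := by exact_mod_cast h5
  omega

end Pool.Agent.TH216.MF
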