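import Pool.Agent.TH216.MF.Core
import Pool.Agent.W803.SM.ZF

set_option autoImplicit false

/-! From the functional to power series. -/

namespace Pool.Agent.TH216.MF

open MvPolynomial Filter Pool.Agent.W425.SV
open Pool.Agent.W426.SM (gord face)
open Pool.Agent.W803.SM (filt gord_le exists_gord mem_filt filt_nonempty summable_half)

variable {r N : ℕ}

/-- the kernel polynomial -/
noncomputable def kE (e : Finset (Fin r) → ℂ) : MvPolynomial (Fin r) ℂ :=
  ∑ J : Finset (Fin r), C (e J) * ∏ j ∈ J, (X j - 1)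

/-- the relations between the coefficients -/
def KRel (q : ℕ) (v : Fin r → Fin N → ℕ) (e : Finset (Fin r) → ℂ) : Prop :=
  ∀ (i : Fin N) (j0 : Fin r) (J : Finset (Fin r)), v j0 i = 1 → (∀ j ∈ J, v j i = 0) →
    ((q : ℂ) - 1) * e (insert j0 J) + e J = 0

lemma kern_kE (q : ℕ) (v : Fin r → Fin N → ℕ) (e : Finset (Fin r) → ℂ) (h : KRel q v e) :
    Kern q v (kE e) := by
  classical
  intro i j0 hj0
  set I : Ideal (MvPolynomial (Fin r) ℂ) := Ideal.span {g : MvPolynomial (Fin r) ℂ | ∃ j, 0 < v j i ∧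
      g = X j - C (if j = j0 then (q : ℂ) else 1)} with hI
  unfold kE
  have h1 : (Finset.univ : Finset (Finset (Fin r))) =
      (insert j0 (Finset.univ.erase j0)).powerset := by
    rw [Finset.insert_erase (Finset.mem_univ j0), Finset.powerset_univ]
  rw [h1, Finset.sum_powerset_insert (Finset.notMem_erase _ _), ← Finset.sum_add_distrib]
  refine Ideal.sum_mem _ fun J hJ => ?_
  have hj0J : j0 ∉ J := fun h' => Finset.notMem_erase j0 Finset.univ (Finset.mem_powerset.1 hJ h')
  rw [Finset.prod_insert hj0J]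
  have e1 : C (e J) * ∏ j ∈ J, (X j - 1) + C (e (insert j0 J)) * ((X j0 - 1) *
      ∏ j ∈ J, (X j - 1)) = (C (e J) + C (e (insert j0 J)) * (X j0 - 1)) *
        ∏ j ∈ J, (X j - 1 : MvPolynomial (Fin r) ℂ) := by ring
  rw [e1]
  by_cases hcase : ∀ j ∈ J, v j i = 0
  · apply Ideal.mul_mem_right
    have h2 := h i j0 J hj0 hcase
    have e2 : C (e J) + C (e (insert j0 J)) * (X j0 - 1) =
        C (e (insert j0 J)) * (X j0 - C (q : ℂ) : MvPolynomial (Fin r) ℂ) := by
      have h3 : e J = -(((q : ℂ) - 1) * e (insert j0 J)) := by linear_combination h2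
      rw [h3]
      simp only [map_neg, map_mul, map_sub, map_one]
      ring
    rw [e2]
    apply Ideal.mul_mem_left
    apply Ideal.subset_span
    exact ⟨j0, by omega, by rw [if_pos rfl]⟩
  · push Not at hcase
    obtain ⟨j, hj, hv⟩ := hcase
    apply Ideal.mul_mem_left
    rw [← Finset.mul_prod_erase _ _ hj]
    apply Ideal.mul_mem_right
    apply Ideal.subset_span
    refine ⟨j, Nat.pos_of_ne_zero hv, ?_⟩
    have hne : j ≠ j0 := fun h' => hj0J (h' ▸ hj)
    rw [if_neg hne, map_one]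

lemma act_kE (e : Finset (Fin r) → ℂ) (y : Fin r → ℤ) :
    act r (kE e) (FG fun _ => 1) y = open Classical in
      if ∀ j, -1 ≤ y j then e (Finset.univ.filter fun j => y j = -1) else 0 := by
  classical
  unfold kE
  rw [map_sum, LinearMap.sum_apply, Finset.sum_apply]
  have h1 : ∀ J : Finset (Fin r), act r (C (e J) * ∏ j ∈ J, (X j - 1)) (FG fun _ => 1) y =
      e J * ∏ j, (if j ∈ J then del (y j) else H1 1 (y j)) := by
    intro J
    rw [act_mul, act_C, Pi.smul_apply, smul_eq_mul]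
    congr 1
    have h2 : ∏ j ∈ J, (X j - 1 : MvPolynomial (Fin r) ℂ) =
        ∏ j, Polynomial.aeval (X j : MvPolynomial (Fin r) ℂ)
          (if j ∈ J then (Polynomial.X - Polynomial.C 1) else 1 : Polynomial ℂ) := by
      rw [← Finset.prod_subset (Finset.subset_univ J) (fun j _ hj => by rw [if_neg hj, map_one])]
      refine Finset.prod_congr rfl fun j hj => ?_
      rw [if_pos hj, map_sub, Polynomial.aeval_X, Polynomial.aeval_C]
      simp
    rw [h2, FG, act_prod]
    unfold Fp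
    refine Finset.prod_congr rfl fun j _ => ?_
    split_ifs with hj
    · show act1 (if j ∈ J then _ else _) (H1 1) (y j) = _
      rw [if_pos hj, act1_X_sub]
    · show act1 (if j ∈ J then _ else _) (H1 1) (y j) = _
      rw [if_neg hj, map_one]
      rfl
  simp only [h1]
  by_cases hy : ∀ j, -1 ≤ y j
  · rw [if_pos hy]
    rw [Finset.sum_eq_single (Finset.univ.filter fun j => y j = -1)]
    · have h2 : ∏ j, (if j ∈ (Finset.univ.filter fun j => y j = -1) then del (y j)
          else H1 1 (y j)) = 1 := by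
        refine Finset.prod_eq_one fun j _ => ?_
        by_cases hj : y j = -1
        · rw [if_pos (Finset.mem_filter.2 ⟨Finset.mem_univ j, hj⟩)]
          unfold del
          rw [if_pos hj]
        · have hn : j ∉ (Finset.univ.filter fun j => y j = -1) :=
            fun h => hj (Finset.mem_filter.1 h).2
          rw [if_neg hn]
          unfold H1
          have := hy j
          rw [if_pos (by omega), one_pow]
      rw [h2, mul_one]
    · intro J _ hJ
      have h2 : ∃ j, ¬ (j ∈ J ↔ y j = -1) := by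
        by_contra hc
        push Not at hc
        apply hJ
        ext j
        rw [Finset.mem_filter]
        simpa using hc j
      obtain ⟨j, hj⟩ := h2
      rw [Finset.prod_eq_zero (Finset.mem_univ j), mul_zero]
      by_cases hjJ : j ∈ J
      · rw [if_pos hjJ]
        unfold del
        rw [if_neg fun h => hj ⟨fun _ => h, fun _ => hjJ⟩]
      · rw [if_neg hjJ]
        have h3 : y j = -1 := by
          by_contra h4
          exact hj ⟨fun h => absurd h hjJ, fun h => absurd h h4⟩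
        exact H1_neg _ _ (by omega)
    · intro h
      exact absurd (Finset.mem_univ _) h
  · rw [if_neg hy]
    push Not at hy
    obtain ⟨j, hj⟩ := hy
    refine Finset.sum_eq_zero fun J _ => ?_
    rw [Finset.prod_eq_zero (Finset.mem_univ j), mul_zero]
    split_ifs
    · unfold del
      rw [if_neg (by omega)]
    · exact H1_neg _ _ (by omega)

/-- the terms -/
noncomputable def Wt (v : Fin r → Fin N → ℕ) (e : Finset (Fin r) → ℂ) (t : ℤ) (x : Fin N → ℕ) :
    ℂ := open Classical in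
  if ∀ j, t ≤ ((∑ i, x i * v j i : ℕ) : ℤ) then
    e (Finset.univ.filter fun j => ((∑ i, x i * v j i : ℕ) : ℤ) = t) else 0

/-- the coefficients -/
noncomputable def aT (q : ℕ) (v : Fin r → Fin N → ℕ) (e : Finset (Fin r) → ℂ) (t : ℤ) : ℂ :=
  ∑' x : Fin N → ℕ, (q : ℂ)⁻¹ ^ (∑ i, x i) * Wt v e t x

lemma norm_Wt (v : Fin r → Fin N → ℕ) (e : Finset (Fin r) → ℂ) (t : ℤ) (x : Fin N → ℕ) :
    ‖Wt v e t x‖ ≤ ∑ J, ‖e J‖ := by
  classical
  unfold Wt
  split_ifs
  · exact Finset.single_le_sum (f := fun J => ‖e J‖) (fun _ _ => norm_nonneg _)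
      (Finset.mem_univ _)
  · rw [norm_zero]
    exact Finset.sum_nonneg fun _ _ => norm_nonneg _

lemma norm_pow_inv (q : ℕ) (hq : 2 ≤ q) (x : Fin N → ℕ) :
    ‖(q : ℂ)⁻¹ ^ (∑ i, x i)‖ ≤ ∏ i, ((1 : ℝ) / 2) ^ x i := by
  rw [norm_pow, norm_inv, Complex.norm_natCast, Finset.prod_pow_eq_pow_sum]
  have hq2 : (2 : ℝ) ≤ q := by exact_mod_cast hq
  apply pow_le_pow_left₀ (by positivity)
  rw [one_div]
  exact inv_anti₀ (by norm_num) hq2

lemma summable_aT (q : ℕ) (hq : 2 ≤ q) (v : Fin r → Fin N → ℕ) (e : Finset (Fin r) → ℂ) (t : ℤ) :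
    Summable fun x : Fin N → ℕ => (q : ℂ)⁻¹ ^ (∑ i, x i) * Wt v e t x := by
  refine Summable.of_norm_bounded (g := fun x : Fin N → ℕ => (∏ i, ((1 : ℝ) / 2) ^ x i) *
    ∑ J, ‖e J‖) (summable_half.mul_right _) fun x => ?_
  rw [norm_mul]
  exact mul_le_mul (norm_pow_inv q hq x) (norm_Wt v e t x) (norm_nonneg _) (by positivity)

lemma coeff_aT (q : ℕ) (v : Fin r → Fin N → ℕ) (e : Finset (Fin r) → ℂ) (t : ℤ)
    (x : Fin N →₀ ℕ) : MvPowerSeries.coeff x
      (gen q v (act r (kE e) (FG fun _ => 1)) ∅ (t + 1)) =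
      (q : ℂ)⁻¹ ^ (∑ i, x i) * Wt v e t (fun i => x i) := by
  classical
  rw [coeff_gen, if_pos (by simp), act_kE]
  unfold Wt
  congr 1
  have h2 : ∀ j, ((∑ i, (x i : ℤ) * (v j i : ℤ) - (t + 1) = -1) ↔
      ((∑ i, x i * v j i : ℕ) : ℤ) = t) := by
    intro j
    push_cast
    constructor
    · intro h
      linarith
    · intro h
      linarith
  have h3 : (∀ j, -1 ≤ ∑ i, (x i : ℤ) * (v j i : ℤ) - (t + 1)) ↔
      ∀ j, t ≤ ((∑ i, x i * v j i : ℕ) : ℤ) := by
    refine forall_congr' fun j => ?_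
    push_cast
    constructor
    · intro h
      linarith
    · intro h
      linarith
  simp only [h2, h3]

lemma hasReg_aT (q : ℕ) (hq : 2 ≤ q) (v : Fin r → Fin N → ℕ) (e : Finset (Fin r) → ℂ) (t : ℤ) :
    HasReg (gen q v (act r (kE e) (FG fun _ => 1)) ∅ (t + 1)) (aT q v e t) := by
  obtain ⟨c, hc⟩ := (tame_one q hq v (kE e)).reg ∅ (t + 1)
  have h1 : (fun x => MvPowerSeries.coeff x
      (gen q v (act r (kE e) (FG fun _ => 1)) ∅ (t + 1))) =
      (fun x : Fin N → ℕ => (q : ℂ)⁻¹ ^ (∑ i, x i) * Wt v e t x) ∘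
        (Finsupp.equivFunOnFinite : (Fin N →₀ ℕ) ≃ (Fin N → ℕ)) :=
    funext fun x => coeff_aT q v e t x
  have h2 : Summable fun x : Fin N →₀ ℕ => MvPowerSeries.coeff x
      (gen q v (act r (kE e) (FG fun _ => 1)) ∅ (t + 1)) := by
    rw [h1, Equiv.summable_iff]
    exact summable_aT q hq v e t
  have h3 := hc.hasSum h2
  have h4 : ∑' x : Fin N →₀ ℕ, MvPowerSeries.coeff x
      (gen q v (act r (kE e) (FG fun _ => 1)) ∅ (t + 1)) = aT q v e t := by
    rw [h1]
    exact Equiv.tsum_eq (Finsupp.equivFunOnFinite : (Fin N →₀ ℕ) ≃ (Fin N → ℕ))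
      (fun x : Fin N → ℕ => (q : ℂ)⁻¹ ^ (∑ i, x i) * Wt v e t x)
  rw [← h4, h3]
  exact hc

lemma gen_tau_pow (q : ℕ) (v : Fin r → Fin N → ℕ) (g : MvPolynomial (Fin r) ℂ) (m : ℕ)
    (F : Fn r) (S : Finset (Fin N)) (t : ℤ) :
    gen q v (act r (tau r ^ m * g) F) S t = gen q v (act r g F) S (t - m) := by
  induction m generalizing t with
  | zero => simp
  | succ m ih =>
    rw [pow_succ', mul_assoc, act_mul, gen_tau, ih]
    congr 1
    push_cast
    ring

/-- the recurrence of the coefficients -/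
lemma rec_aT (q : ℕ) (hq : 2 ≤ q) (v : Fin r → Fin N → ℕ) (e : Finset (Fin r) → ℂ)
    (Q : Polynomial ℂ) (h : Z q v (Polynomial.aeval (tau r) Q * kE e)) :
    ∀ᶠ t : ℤ in atTop, ∑ m ∈ Finset.range (Q.natDegree + 1), Q.coeff m * aT q v e (t - m) = 0 := by
  have h1 : Tendsto (fun t : ℤ => t + 1) atTop atTop :=
    tendsto_atTop_add_const_right _ _ tendsto_id
  filter_upwards [h1.eventually h] with t ht
  have h2 : HasReg (gen q v (act r (Polynomial.aeval (tau r) Q * kE e) (FG fun _ => 1)) ∅ (t + 1))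
      (∑ m ∈ Finset.range (Q.natDegree + 1), Q.coeff m * aT q v e (t - m)) := by
    have h3 : act r (Polynomial.aeval (tau r) Q * kE e) (FG fun _ => 1) =
        ∑ m ∈ Finset.range (Q.natDegree + 1),
          Q.coeff m • act r (tau r ^ m * kE e) (FG fun _ => 1) := by
      rw [Polynomial.aeval_eq_sum_range, Finset.sum_mul, map_sum, LinearMap.sum_apply]
      refine Finset.sum_congr rfl fun m _ => ?_
      rw [smul_mul_assoc, map_smul, LinearMap.smul_apply]
    rw [h3, gen_sum]
    refine HasReg.sum _ _ _ fun m _ => ?_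
    rw [gen_smul, gen_tau_pow]
    refine HasReg.smul _ ?_
    have h4 : t + 1 - (m : ℤ) = (t - m) + 1 := by ring
    rw [h4]
    exact hasReg_aT q hq v e (t - m)
  exact (ht.unique h2).symm

lemma norm_aT (q : ℕ) (hq : 2 ≤ q) (v : Fin r → Fin N → ℕ) (e : Finset (Fin r) → ℂ) :
    ∃ K : ℝ, ∀ t, ‖aT q v e t‖ ≤ K := by
  refine ⟨∑' x : Fin N → ℕ, (∏ i, ((1 : ℝ) / 2) ^ x i) * ∑ J, ‖e J‖, fun t => ?_⟩
  refine tsum_of_norm_bounded ((summable_half.mul_right _).hasSum) fun x => ?_
  rw [norm_mul]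
  exact mul_le_mul (norm_pow_inv q hq x) (norm_Wt v e t x) (norm_nonneg _) (by positivity)

lemma gord_iff (hr : 0 < r) (v : Fin r → Fin N → ℕ) (x : Fin N → ℕ) (t : ℕ) :
    (∀ j, (t : ℤ) ≤ ((∑ i, x i * v j i : ℕ) : ℤ)) ↔ t ≤ gord v x := by
  constructor
  · intro h
    obtain ⟨j, hj⟩ := exists_gord hr v x
    have := h j
    rw [hj] at this
    exact_mod_cast this
  · intro h j
    exact_mod_cast h.trans (gord_le v x j)

/-- the terms for natural `t` -/
lemma Wt_nat (hr : 0 < r) (v : Fin r → Fin N → ℕ) (e : Finset (Fin r) → ℂ) (t : ℕ)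
    (x : Fin N → ℕ) : Wt v e t x = if t < gord v x then e ∅ else
      if t = gord v x then e (filt v x) else 0 := by
  classical
  unfold Wt
  rcases lt_trichotomy t (gord v x) with h | h | h
  · rw [if_pos ((gord_iff hr v x t).2 h.le), if_pos h]
    congr 1
    rw [Finset.filter_eq_empty_iff]
    intro j _ hj
    have h1 := gord_le v x j
    have h2 : ∑ i, x i * v j i = t := by exact_mod_cast hj
    omega
  · rw [if_pos ((gord_iff hr v x t).2 h.le), if_neg (by omega), if_pos h]
    congr 1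
    ext j
    rw [mem_filt, Finset.mem_filter]
    constructor
    · rintro ⟨_, h1⟩
      have h2 : ∑ i, x i * v j i = t := by exact_mod_cast h1
      omega
    · intro h1
      exact ⟨Finset.mem_univ _, by exact_mod_cast h1.trans h.symm⟩
  · rw [if_neg fun h1 => absurd ((gord_iff hr v x t).1 h1) (by omega), if_neg (by omega),
      if_neg (by omega)]

/-- the generating function of the coefficients -/
lemma tsum_aT (hr : 0 < r) (q : ℕ) (hq : 2 ≤ q) (v : Fin r → Fin N → ℕ)
    (e : Finset (Fin r) → ℂ) (T : ℂ) (hT : ‖T‖ < 1) :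
    (Summable fun t : ℕ => aT q v e t * T ^ t) ∧ ∑' t : ℕ, aT q v e t * T ^ t =
      ∑' x : Fin N → ℕ, (q : ℂ)⁻¹ ^ (∑ i, x i) *
        (e ∅ * ∑ t ∈ Finset.range (gord v x), T ^ t + e (filt v x) * T ^ gord v x) := by
  let f : ℕ → (Fin N → ℕ) → ℂ := fun t x => (q : ℂ)⁻¹ ^ (∑ i, x i) * Wt v e t x * T ^ t
  have hsum : Summable (Function.uncurry f) := by
    have h1 : Summable fun t : ℕ => ‖T‖ ^ t := summable_geometric_of_lt_one (norm_nonneg _) hT
    have h2 : Summable fun x : Fin N → ℕ => (∏ i, ((1 : ℝ) / 2) ^ x i) * ∑ J, ‖e J‖ :=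
      summable_half.mul_right _
    have hn1 : (0 : ℕ → ℝ) ≤ fun t : ℕ => ‖T‖ ^ t := fun t => pow_nonneg (norm_nonneg T) t
    have hn2 : (0 : (Fin N → ℕ) → ℝ) ≤ fun x : Fin N → ℕ =>
        (∏ i, ((1 : ℝ) / 2) ^ x i) * ∑ J, ‖e J‖ := fun x =>
      mul_nonneg (Finset.prod_nonneg fun i _ => by positivity)
        (Finset.sum_nonneg fun J _ => norm_nonneg (e J))
    have h3 := h1.mul_of_nonneg h2 hn1 hn2
    refine Summable.of_norm_bounded h3 fun p => ?_
    show ‖(q : ℂ)⁻¹ ^ (∑ i, p.2 i) * Wt v e p.1 p.2 * T ^ p.1‖ ≤ _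
    rw [norm_mul, norm_mul, mul_comm, norm_pow T p.1]
    have hb := mul_le_mul (norm_pow_inv q hq p.2) (norm_Wt v e p.1 p.2) (norm_nonneg _)
      (Finset.prod_nonneg fun i _ => by positivity)
    exact mul_le_mul_of_nonneg_left hb (pow_nonneg (norm_nonneg T) p.1)
  have h4 : ∀ t : ℕ, aT q v e t * T ^ t = ∑' x : Fin N → ℕ, f t x := by
    intro t
    unfold aT
    rw [← tsum_mul_right]
  constructor
  · simp only [h4]
    exact hsum.prod
  · simp only [h4]
    rw [← hsum.tsum_comm]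
    refine tsum_congr fun x => ?_
    have h5 : ∀ t : ℕ, f t x =
        (q : ℂ)⁻¹ ^ (∑ i, x i) * (Wt v e t x * T ^ t) := fun t => mul_assoc _ _ _
    simp only [h5]
    rw [tsum_mul_left]
    congr 1
    rw [tsum_eq_sum (s := Finset.range (gord v x + 1)) (fun t ht => by
      rw [Finset.mem_range, not_lt] at ht
      rw [Wt_nat hr, if_neg (by omega), if_neg (by omega), zero_mul]), Finset.sum_range_succ,
      Wt_nat hr, if_neg (lt_irrefl _), if_pos rfl, Finset.mul_sum]
    congr 1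
    refine Finset.sum_congr rfl fun t ht => ?_
    rw [Wt_nat hr, if_pos (Finset.mem_range.1 ht)]

/-- **The series is regular.** -/
theorem series_reg (hr : 0 < r) (q : ℕ) (hq : 2 ≤ q) (v : Fin r → Fin N → ℕ)
    (e : Finset (Fin r) → ℂ) (Q : Polynomial ℂ)
    (h : Z q v (Polynomial.aeval (tau r) Q * kE e)) :
    ∃ A : Polynomial ℂ, ∀ T : ℂ, ‖T‖ < 1 →
      Q.eval T * ∑' x : Fin N → ℕ, (q : ℂ)⁻¹ ^ (∑ i, x i) *
        (e ∅ * ∑ t ∈ Finset.range (gord v x), T ^ t + e (filt v x) * T ^ gord v x) = A.eval T := by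
  classical
  obtain ⟨t0, ht0⟩ := eventually_atTop.1 (rec_aT q hq v e Q h)
  set a : ℕ → ℂ := fun t => aT q v e t with ha
  set φ : PowerSeries ℂ := PowerSeries.mk a with hφ
  set n0 : ℕ := t0.toNat + Q.natDegree + 1 with hn0
  -- the product is a polynomial
  have h1 : ∀ t, n0 ≤ t → PowerSeries.coeff t ((Q : PowerSeries ℂ) * φ) = 0 := by
    intro t ht
    rw [PowerSeries.coeff_mul]
    rw [Finset.Nat.sum_antidiagonal_eq_sum_range_succ_mk]
    simp only [Polynomial.coeff_coe, hφ, PowerSeries.coeff_mk]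
    have h2 := ht0 t (by
      have := Int.self_le_toNat t0
      omega)
    rw [← h2]
    symm
    apply Finset.sum_subset_zero_on_sdiff
    · intro m hm
      rw [Finset.mem_range] at hm ⊢
      omega
    · intro m hm
      rw [Finset.mem_sdiff, Finset.mem_range, Finset.mem_range] at hm
      rw [Polynomial.coeff_eq_zero_of_natDegree_lt (by omega), zero_mul]
    · intro m hm
      rw [Finset.mem_range] at hm
      rw [ha]
      simp only
      congr 2
      omega
  obtain ⟨A, hA⟩ : ∃ A : Polynomial ℂ, (Q : PowerSeries ℂ) * φ = (A : PowerSeries ℂ) := by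
    refine ⟨PowerSeries.trunc n0 ((Q : PowerSeries ℂ) * φ), ?_⟩
    ext t
    rw [Polynomial.coeff_coe, PowerSeries.coeff_trunc]
    split_ifs with ht
    · rfl
    · exact h1 t (by omega)
  refine ⟨A, fun T hT => ?_⟩
  obtain ⟨hs1, hs2⟩ := tsum_aT hr q hq v e T hT
  rw [← hs2]
  obtain ⟨K, hK⟩ := norm_aT q hq v e
  have hsn : Summable fun t : ℕ => ‖a t * T ^ t‖ := hs1.norm
  have hev : ∀ E : Polynomial ℂ, E.eval T = ∑' i, E.coeff i * T ^ i := by
    intro E
    rw [Polynomial.eval_eq_sum_range, tsum_eq_sum]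
    intro i hi
    rw [Polynomial.coeff_eq_zero_of_natDegree_lt, zero_mul]
    rw [Finset.mem_range] at hi
    omega
  have hs : Summable fun i => ‖Q.coeff i * T ^ i‖ := by
    refine summable_of_ne_finset_zero (s := Finset.range (Q.natDegree + 1)) fun i hi => ?_
    rw [Polynomial.coeff_eq_zero_of_natDegree_lt, zero_mul, norm_zero]
    rw [Finset.mem_range] at hi
    omega
  rw [hev Q, hev A, tsum_mul_tsum_eq_tsum_sum_antidiagonal_of_summable_norm hs hsn]
  refine tsum_congr fun n => ?_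
  have h3 := congrArg (PowerSeries.coeff n) hA
  rw [PowerSeries.coeff_mul, Polynomial.coeff_coe] at h3
  rw [← h3, Finset.sum_mul]
  refine Finset.sum_congr rfl fun kl hkl => ?_
  rw [Finset.HasAntidiagonal.mem_antidiagonal] at hkl
  rw [Polynomial.coeff_coe, hφ, PowerSeries.coeff_mk, ← hkl, pow_add]
  ring

end Pool.Agent.TH216.MF
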