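import Pool.Agent.TH216.MF.Core
import Pool.Agent.TH216.MF.Ser
import Pool.Agent.W425.BF.Zf

set_option autoImplicit false

/-! p-adic zeta functions: a value is not a pole. -/

namespace Pool.Agent.TH216.MF

open MeasureTheory Filter Topology Pool.Agent.W426.SM Pool.Agent.W803.SM Pool.Agent.W425.SV
open Pool.Agent.W425.PN (ford_eq qpoly spoly_eq idn_of)
open Pool.Agent.W425.BF (ZMd CRel gam aux)

/-- identity theorem -/
theorem no_pole (F D H : ℂ → ℂ) (hD : Differentiable ℂ D) (hH : Differentiable ℂ H)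
    (hF : MeromorphicOn F Set.univ) (h : ∀ s, 0 < s.re → D s * F s = H s) (s₀ : ℂ)
    (h0 : D s₀ ≠ 0) : ¬ meromorphicOrderAt F s₀ < 0 := by
  intro hs₀
  have hDa : ∀ s, AnalyticAt ℂ D s := fun s => hD.analyticAt s
  have hHa : ∀ s, AnalyticAt ℂ H s := fun s => hH.analyticAt s
  have hG : MeromorphicOn (D * F - H) Set.univ := by
    intro s _
    exact (((hDa s).meromorphicAt).mul (hF s trivial)).sub (hHa s).meromorphicAt
  have h1 : meromorphicOrderAt (D * F - H) 1 = ⊤ := by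
    rw [meromorphicOrderAt_eq_top_iff]
    have hopen : IsOpen {s : ℂ | 0 < s.re} := isOpen_lt continuous_const Complex.continuous_re
    have hmem : {s : ℂ | 0 < s.re} ∈ 𝓝[≠] (1 : ℂ) :=
      nhdsWithin_le_nhds (hopen.mem_nhds (by simp))
    filter_upwards [hmem] with s hs
    simp only [Pi.sub_apply, Pi.mul_apply]
    rw [h s hs, sub_self]
  have h2 : meromorphicOrderAt (D * F - H) s₀ = ⊤ := by
    by_contra h
    exact hG.meromorphicOrderAt_ne_top_of_isPreconnected isPreconnected_univ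
      (Set.mem_univ s₀) (Set.mem_univ 1) h h1
  have h4 : meromorphicOrderAt (D * F) s₀ = meromorphicOrderAt F s₀ :=
    meromorphicOrderAt_mul_of_ne_zero (hDa s₀) h0
  have h5 : meromorphicOrderAt (D * F) s₀ = meromorphicOrderAt H s₀ := by
    apply meromorphicOrderAt_congr
    rw [meromorphicOrderAt_eq_top_iff] at h2
    filter_upwards [h2] with s hs
    exact sub_eq_zero.1 hs
  have h6 := (hHa s₀).meromorphicOrderAt_nonneg
  rw [← h5, h4] at h6
  exact absurd hs₀ (not_lt.2 h6)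

variable {r N : ℕ}

/-- the relation between the two series -/
theorem series_gam (p : ℕ) (hp : 2 ≤ p) (v : Fin r → Fin N → ℕ)
    (C₀ C₁ : Finset (Fin r) → ℝ) (hCR : CRel v p C₀ C₁) :
    ∃ (e : Finset (Fin r) → ℂ) (K : ℂ), KRel p v e ∧ ∀ T : ℂ, ‖T‖ < 1 →
      ∑' x : Fin N → ℕ, (p : ℂ)⁻¹ ^ (∑ i, x i) * T ^ gord v x * (gam p C₀ C₁ (filt v x)).eval T =
        K - (1 - T) * ∑' x : Fin N → ℕ, (p : ℂ)⁻¹ ^ (∑ i, x i) *
          (e ∅ * ∑ t ∈ Finset.range (gord v x), T ^ t + e (filt v x) * T ^ gord v x) := by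
  obtain ⟨E, U, h0, h1, hU, h2⟩ := hCR
  have hp0 : (p : ℂ) ≠ 0 := by exact_mod_cast (by omega : p ≠ 0)
  set e : Finset (Fin r) → ℂ := fun J => (U J : ℂ) - (E : ℂ) * (p : ℂ)⁻¹ with he
  refine ⟨e, ∑' x : Fin N → ℕ, (p : ℂ)⁻¹ ^ (∑ i, x i) * e ∅, ?_, ?_⟩
  · intro i j0 J hj0 hJ
    have h3 := h2 i j0 J hj0 hJ
    have h4 : ((p : ℂ) - 1) * (U (insert j0 J) : ℂ) + (U J : ℂ) = (E : ℂ) := by
      exact_mod_cast congrArg (fun x : ℝ => (x : ℂ)) h3
    rw [he]
    simp only
    have h5 : (U J : ℂ) = (E : ℂ) - ((p : ℂ) - 1) * (U (insert j0 J) : ℂ) := by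
      rw [← h4]; ring
    rw [h5]
    field_simp
    ring
  · intro T hT
    have hgam : ∀ J, (gam p C₀ C₁ J).eval T = e ∅ - e J * (1 - T) := by
      intro J
      unfold gam
      rw [h0, h1, he]
      simp only [Polynomial.eval_add, Polynomial.eval_mul, Polynomial.eval_C, Polynomial.eval_sub,
        Polynomial.eval_one, Polynomial.eval_X]
      rw [hU]
      push_cast
      field_simp
      ring
    have hb : ∀ J, ‖e J‖ ≤ ∑ J, ‖e J‖ := fun J =>
      Finset.single_le_sum (f := fun J => ‖e J‖) (fun _ _ => norm_nonneg _) (Finset.mem_univ _)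
    have hTn : ∀ n : ℕ, ‖T ^ n‖ ≤ 1 := fun n => by
      rw [norm_pow]
      exact pow_le_one₀ (norm_nonneg _) hT.le
    have hT1 : (1 : ℂ) - T ≠ 0 := by
      intro h
      have : T = 1 := (sub_eq_zero.1 h).symm
      rw [this, norm_one] at hT
      exact lt_irrefl _ hT
    have hterm : ∀ x : Fin N → ℕ, (p : ℂ)⁻¹ ^ (∑ i, x i) * T ^ gord v x *
        (gam p C₀ C₁ (filt v x)).eval T = (p : ℂ)⁻¹ ^ (∑ i, x i) * e ∅ -
          (1 - T) * ((p : ℂ)⁻¹ ^ (∑ i, x i) *
          (e ∅ * ∑ t ∈ Finset.range (gord v x), T ^ t + e (filt v x) * T ^ gord v x)) := by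
      intro x
      rw [hgam]
      have hg : (∑ t ∈ Finset.range (gord v x), T ^ t) * (1 - T) = 1 - T ^ gord v x := by
        have := geom_sum_mul_neg T (gord v x)
        rw [this]
      have : (1 - T) * ((p : ℂ)⁻¹ ^ (∑ i, x i) *
          (e ∅ * ∑ t ∈ Finset.range (gord v x), T ^ t + e (filt v x) * T ^ gord v x)) =
          (p : ℂ)⁻¹ ^ (∑ i, x i) * (e ∅ * ((∑ t ∈ Finset.range (gord v x), T ^ t) * (1 - T)) +
            e (filt v x) * (1 - T) * T ^ gord v x) := by ring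
      rw [this, hg]
      ring
    have hs1 : Summable fun x : Fin N → ℕ => (p : ℂ)⁻¹ ^ (∑ i, x i) * e ∅ := by
      refine Summable.of_norm_bounded (g := fun x : Fin N → ℕ => (∏ i, ((1 : ℝ) / 2) ^ x i) *
        ∑ J, ‖e J‖) (summable_half.mul_right _) fun x => ?_
      rw [norm_mul]
      exact mul_le_mul (norm_pow_inv p hp x) (hb _) (norm_nonneg _)
        (Finset.prod_nonneg fun i _ => by positivity)
    have hs3 : Summable fun x : Fin N → ℕ => (p : ℂ)⁻¹ ^ (∑ i, x i) * T ^ gord v x *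
        (gam p C₀ C₁ (filt v x)).eval T := by
      refine Summable.of_norm_bounded (g := fun x : Fin N → ℕ => (∏ i, ((1 : ℝ) / 2) ^ x i) *
        (∑ J, ‖e J‖ + (∑ J, ‖e J‖) * ‖1 - T‖)) (summable_half.mul_right _) fun x => ?_
      rw [norm_mul, norm_mul, hgam, mul_assoc]
      have h3 : ‖T ^ gord v x‖ * ‖e ∅ - e (filt v x) * (1 - T)‖ ≤
          ∑ J, ‖e J‖ + (∑ J, ‖e J‖) * ‖1 - T‖ := by
        have h4 : ‖e ∅ - e (filt v x) * (1 - T)‖ ≤ ∑ J, ‖e J‖ + (∑ J, ‖e J‖) * ‖1 - T‖ := by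
          refine (norm_sub_le _ _).trans (add_le_add (hb _) ?_)
          rw [norm_mul]
          exact mul_le_mul_of_nonneg_right (hb _) (norm_nonneg _)
        calc _ ≤ 1 * ‖e ∅ - e (filt v x) * (1 - T)‖ :=
              mul_le_mul_of_nonneg_right (hTn _) (norm_nonneg _)
          _ ≤ _ := by rw [one_mul]; exact h4
      exact mul_le_mul (norm_pow_inv p hp x) h3 (by positivity)
        (Finset.prod_nonneg fun i _ => by positivity)
    have hs2 : Summable fun x : Fin N → ℕ => (1 - T) * ((p : ℂ)⁻¹ ^ (∑ i, x i) *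
          (e ∅ * ∑ t ∈ Finset.range (gord v x), T ^ t + e (filt v x) * T ^ gord v x)) := by
      have := hs1.sub hs3
      refine this.congr fun x => ?_
      rw [hterm]
      ring
    rw [tsum_congr hterm, hs1.tsum_sub hs2, tsum_mul_left]

/-- **A value is not a pole.** -/
theorem padic_reg (hr : 0 < r) (v : Fin r → Fin N → ℕ) (c : Fin r → ℚ) (h2 : ZMd 0 v c 1) :
    ∃ S : Finset ℕ, ∀ (p : ℕ) [Fact p.Prime], p ∉ S →
      ∀ [MeasurableSpace (Fin N → PadicInt p)] [BorelSpace (Fin N → PadicInt p)],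
      ∀ F : ℂ → ℂ, MeromorphicOn F Set.univ →
        (∀ s : ℂ, 0 < s.re →
          F s = ∫ x, ((‖MvPolynomial.eval₂ (algebraMap ℚ (Padic p))
                    (fun i => ((x i : PadicInt p) : Padic p)) (qpoly v c)‖ : ℝ) : ℂ) ^ s
                  ∂(MeasureTheory.Measure.addHaar : MeasureTheory.Measure (Fin N → PadicInt p))) →
        ∀ s₀ : ℂ, s₀.re ≠ -1 → ∀ pol : Polynomial ℂ, RelG v (Kil1 v) (Spread v) pol →
          pol.eval ((s₀.re : ℝ) : ℂ) ≠ 0 → ¬ meromorphicOrderAt F s₀ < 0 := by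
  obtain ⟨S, hS⟩ := h2
  refine ⟨S, ?_⟩
  intro p hpf hpS hmeas hborel F hF hFI s₀ hs1 pol hpol hpe
  obtain ⟨V, C₀, C₁, hV, hCR, hint⟩ := hS p hpS
  have hp : 2 ≤ p := hpf.out.two_le
  have hp0 : (p : ℂ) ≠ 0 := by exact_mod_cast (by omega : p ≠ 0)
  have hlog : Real.log p ≠ 0 := (Real.log_pos (by exact_mod_cast (by omega : 1 < p))).ne'
  obtain ⟨e, K, he, heq⟩ := series_gam p hp v C₀ C₁ hCR
  set T0 : ℂ := (p : ℂ) ^ (-s₀) with hT0
  have hT00 : T0 ≠ 0 := by
    rw [hT0, Ne, Complex.cpow_eq_zero_iff]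
    tauto
  have hnT0 : -Real.log ‖T0‖ / Real.log p = s₀.re := by
    rw [hT0, Complex.norm_natCast_cpow_of_pos (by omega), Real.log_rpow (by positivity),
      Complex.neg_re]
    field_simp
  obtain ⟨Q, hQ, hZ⟩ := core p hp v pol hpol (kE e) (kern_kE p v e he) T0 hT00 (by
    rw [hnT0]
    exact hpe)
  obtain ⟨A, hA⟩ := series_reg hr p hp v e Q hZ
  have hpow : ∀ (a N : ℕ) (s : ℂ), (p : ℂ) ^ (-((a : ℂ) + s * N)) =
      (p : ℂ)⁻¹ ^ a * ((p : ℂ) ^ (-s)) ^ N := by
    intro a N s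
    rw [neg_add, Complex.cpow_add _ _ hp0, Complex.cpow_neg, Complex.cpow_natCast, inv_pow,
      ← Complex.cpow_nat_mul]
    congr 2
    ring
  have hdt : Differentiable ℂ fun s : ℂ => (p : ℂ) ^ (-s) := diff_pow hp differentiable_id.neg
  refine no_pole F (fun s => Q.eval ((p : ℂ) ^ (-s)) * (1 - (p : ℂ) ^ (-(1 + s))))
    (fun s => V * (Q.eval ((p : ℂ) ^ (-s)) * K - (1 - (p : ℂ) ^ (-s)) * A.eval ((p : ℂ) ^ (-s))))
    ?_ ?_ hF ?_ s₀ ?_
  · refine ((Polynomial.differentiable Q).comp hdt).mul ?_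
    exact (differentiable_const _).sub (diff_pow hp (by fun_prop))
  · refine (differentiable_const _).mul ?_
    refine (((Polynomial.differentiable Q).comp hdt).mul (differentiable_const _)).sub ?_
    exact ((differentiable_const _).sub hdt).mul ((Polynomial.differentiable A).comp hdt)
  · intro s hs
    set t : ℂ := (p : ℂ) ^ (-s) with ht
    have ht1 : ‖t‖ < 1 := by
      rw [ht, Complex.norm_natCast_cpow_of_pos (by omega)]
      refine Real.rpow_lt_one_of_one_lt_of_neg (by exact_mod_cast (by omega : 1 < p)) ?_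
      rw [Complex.neg_re]
      linarith
    have hX : (p : ℂ) ^ (-(1 + s)) = (p : ℂ)⁻¹ * t := by
      have := hpow 1 1 s
      simpa using this
    have hX1 : 1 - (p : ℂ)⁻¹ * t ≠ 0 := by
      intro h
      have h3 : (p : ℂ)⁻¹ * t = 1 := (sub_eq_zero.1 h).symm
      have h4 : ‖(p : ℂ)⁻¹ * t‖ < 1 := by
        rw [norm_mul, norm_inv, Complex.norm_natCast]
        have h5 : ((p : ℝ))⁻¹ ≤ 1 := inv_le_one_of_one_le₀ (by exact_mod_cast (by omega : 1 ≤ p))
        calc (p : ℝ)⁻¹ * ‖t‖ ≤ 1 * ‖t‖ := by gcongr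
          _ < 1 := by rw [one_mul]; exact ht1
      rw [h3, norm_one] at h4
      exact lt_irrefl _ h4
    have hsum : ∀ u : Fin N → ℕ,
        (1 - (p : ℂ) ^ (-(1 + s))) * (((p : ℂ) ^ (-(((∑ i, u i : ℕ) : ℂ) + s * ford 0 v 1 u))) *
                ((C₀ (Finset.univ.filter fun j => ∑ i, u i * v j i = gord v u) : ℂ) +
                  (C₁ (Finset.univ.filter fun j => ∑ i, u i * v j i = gord v u) : ℂ) *
                    ((p : ℂ) ^ (-(((1 : ℕ) : ℂ) * s)) /
                      (1 - (p : ℂ) ^ (-(1 + ((1 : ℕ) : ℂ) * s)))))) =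
        (p : ℂ)⁻¹ ^ (∑ x, u x) * t ^ gord v u * (gam p C₀ C₁ (filt v u)).eval t := by
      intro u
      rw [ford_eq, hpow, Nat.cast_one, one_mul, hX, ← ht]
      unfold gam
      simp only [Polynomial.eval_add, Polynomial.eval_mul, Polynomial.eval_C,
        Polynomial.eval_sub, Polynomial.eval_one, Polynomial.eval_X]
      show _ = (p : ℂ)⁻¹ ^ (∑ x, u x) * t ^ gord v u *
        ((C₀ (Finset.univ.filter fun j => ∑ i, u i * v j i = gord v u) : ℂ) *
          (1 - (p : ℂ)⁻¹ * t) +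
          (C₁ (Finset.univ.filter fun j => ∑ i, u i * v j i = gord v u) : ℂ) * t)
      exact aux _ _ _ _ _ hX1
    have hI : (1 - (p : ℂ) ^ (-(1 + s))) * F s = V * (K - (1 - t) * ∑' x : Fin N → ℕ,
        (p : ℂ)⁻¹ ^ (∑ i, x i) * (e ∅ * ∑ t' ∈ Finset.range (gord v x), t ^ t' +
          e (filt v x) * t ^ gord v x)) := by
      rw [hFI s hs, ← heq t ht1, ← tsum_congr hsum, tsum_mul_left]
      have h6 := hint s hs
      have h7 : ∫ x, ((‖MvPolynomial.eval₂ (algebraMap ℚ (Padic p))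
                    (fun i => ((x i : PadicInt p) : Padic p)) (qpoly v c)‖ : ℝ) : ℂ) ^ s
                  ∂(MeasureTheory.Measure.addHaar : MeasureTheory.Measure (Fin N → PadicInt p)) =
          ∫ x, ((pval p (spoly 0 v c 1) x : ℝ) : ℂ) ^ s
              ∂(Measure.addHaar : Measure (Fin N → PadicInt p)) := by
        rw [spoly_eq]
        rfl
      rw [h7, h6]
      ring
    show Q.eval t * (1 - (p : ℂ) ^ (-(1 + s))) * F s =
      V * (Q.eval t * K - (1 - t) * A.eval t)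
    rw [mul_assoc, hI, ← hA t ht1]
    ring
  · refine mul_ne_zero hQ ?_
    intro h
    have h1 : (p : ℂ) ^ (-(1 + s₀)) = 1 := (sub_eq_zero.1 h).symm
    have h3 := congrArg norm h1
    rw [Complex.norm_natCast_cpow_of_pos (by omega), norm_one] at h3
    have h9 := congrArg Real.log h3
    rw [Real.log_rpow (by positivity), Real.log_one] at h9
    rcases mul_eq_zero.1 h9 with h | h
    · rw [Complex.neg_re, Complex.add_re, Complex.one_re] at h
      exact hs1 (by linarith)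
    · exact hlog h

end Pool.Agent.TH216.MF
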