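import Pool.Agent.TH216.MF.CrMu
import Pool.Agent.TH216.MF.PFin

set_option autoImplicit false

/-! p-adic zeta functions: the orders of the poles. -/

namespace Pool.Agent.TH216.MF

open MeasureTheory Filter Topology Pool.Agent.W426.SM Pool.Agent.W803.SM Pool.Agent.W425.SV
open Pool.Agent.W425.PN (ford_eq qpoly spoly_eq idn_of)
open Pool.Agent.W425.BF (ZMd CRel gam aux)

/-- identity theorem, with orders -/
theorem ord_bound (F D H : ℂ → ℂ) (hD : Differentiable ℂ D) (hH : Differentiable ℂ H)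
    (hF : MeromorphicOn F Set.univ) (h : ∀ s, 0 < s.re → D s * F s = H s) (s₀ : ℂ) (n : ℕ)
    (h0 : meromorphicOrderAt D s₀ ≤ ((n : ℤ) : WithTop ℤ)) :
    ((-(n : ℤ) : ℤ) : WithTop ℤ) ≤ meromorphicOrderAt F s₀ := by
  have hDa : ∀ s, AnalyticAt ℂ D s := fun s => hD.analyticAt s
  have hHa : ∀ s, AnalyticAt ℂ H s := fun s => hH.analyticAt s
  have hG : MeromorphicOn (D * F - H) Set.univ := by
    intro s _
    exact (((hDa s).meromorphicAt).mul (hF s trivial)).sub (hHa s).meromorphicAt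
  have h1 : meromorphicOrderAt (D * F - H) 1 = ⊤ := by
    rw [meromorphicOrderAt_eq_top_iff]
    have hopen : IsOpen {s : ℂ | 0 < s.re} := isOpen_lt continuous_const Complex.continuous_re
    have hmem : {s : ℂ | 0 < s.re} ∈ 𝓝[≠] (1 : ℂ) :=
      nhdsWithin_le_nhds (hopen.mem_nhds (by simp))
    filter_upwards [hmem] with s hs
    simp only [Pi.sub_apply, Pi.mul_apply]
    rw [h s hs, sub_self]
  have h2 : meromorphicOrderAt (D * F - H) s₀ = ⊤ := by
    by_contra h
    exact hG.meromorphicOrderAt_ne_top_of_isPreconnected isPreconnected_univ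
      (Set.mem_univ s₀) (Set.mem_univ 1) h h1
  have h4 : meromorphicOrderAt (D * F) s₀ = meromorphicOrderAt D s₀ + meromorphicOrderAt F s₀ :=
    meromorphicOrderAt_mul (hDa s₀).meromorphicAt (hF s₀ trivial)
  have h5 : meromorphicOrderAt (D * F) s₀ = meromorphicOrderAt H s₀ := by
    apply meromorphicOrderAt_congr
    rw [meromorphicOrderAt_eq_top_iff] at h2
    filter_upwards [h2] with s hs
    exact sub_eq_zero.1 hs
  have h6 := (hHa s₀).meromorphicOrderAt_nonneg
  rw [← h5, h4] at h6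
  cases hF' : meromorphicOrderAt F s₀ with
  | top => exact le_top
  | coe a =>
    cases hD' : meromorphicOrderAt D s₀ with
    | top =>
      rw [hD'] at h0
      exact absurd h0 (by simp)
    | coe b =>
      rw [hD', hF'] at h6
      rw [hD'] at h0
      have h7 : 0 ≤ b + a := by exact_mod_cast h6
      have h8 : b ≤ n := by exact_mod_cast h0
      exact_mod_cast (by linarith : -(n : ℤ) ≤ a)

/-- the order of a linear factor -/
lemma ord_lin (p : ℕ) (hp : 2 ≤ p) (s₀ β : ℂ) :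
    meromorphicOrderAt (fun s : ℂ => (p : ℂ) ^ (-s) - β) s₀ =
      if (p : ℂ) ^ (-s₀) = β then 1 else 0 := by
  have hp0 : (p : ℂ) ≠ 0 := by exact_mod_cast (by omega : p ≠ 0)
  have hlog : Real.log p ≠ 0 := (Real.log_pos (by exact_mod_cast (by omega : 1 < p))).ne'
  have hdt : Differentiable ℂ fun s : ℂ => (p : ℂ) ^ (-s) := diff_pow hp differentiable_id.neg
  have ha0 : AnalyticAt ℂ (fun s : ℂ => (p : ℂ) ^ (-s)) s₀ := hdt.analyticAt s₀
  have ha : AnalyticAt ℂ (fun s : ℂ => (p : ℂ) ^ (-s) - β) s₀ :=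
    (hdt.sub (differentiable_const β)).analyticAt s₀
  rw [ha.meromorphicOrderAt_eq]
  split_ifs with h
  · have hder : deriv (fun s : ℂ => (p : ℂ) ^ (-s)) s₀ ≠ 0 := by
      have h1 : HasDerivAt (fun s : ℂ => (p : ℂ) ^ (-s)) ((p : ℂ) ^ (-s₀) * Complex.log p * -1)
          s₀ := (hasDerivAt_neg s₀).const_cpow (Or.inl hp0)
      rw [h1.deriv]
      refine mul_ne_zero (mul_ne_zero ?_ ?_) (by norm_num)
      · rw [Ne, Complex.cpow_eq_zero_iff]
        tauto
      · intro h
        have h2 : Complex.log (p : ℂ) = ((Real.log p : ℝ) : ℂ) := (Complex.natCast_log).symm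
        rw [h2] at h
        exact hlog (by exact_mod_cast h)
    have h1 := ha0.analyticOrderAt_sub_eq_one_of_deriv_ne_zero hder
    rw [← h, h1]
    rfl
  · rw [ha.analyticOrderAt_eq_zero.2 (sub_ne_zero.2 h)]
    rfl

variable {r N : ℕ}

/-- **The orders of the poles.** -/
theorem padic_ord (hr : 0 < r) (v : Fin r → Fin N → ℕ) (c : Fin r → ℚ) (h2 : ZMd 0 v c 1) :
    ∃ S : Finset ℕ, ∀ (p : ℕ) [Fact p.Prime], p ∉ S →
      ∀ [MeasurableSpace (Fin N → PadicInt p)] [BorelSpace (Fin N → PadicInt p)],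
      ∀ F : ℂ → ℂ, MeromorphicOn F Set.univ →
        (∀ s : ℂ, 0 < s.re →
          F s = ∫ x, ((‖MvPolynomial.eval₂ (algebraMap ℚ (Padic p))
                    (fun i => ((x i : PadicInt p) : Padic p)) (qpoly v c)‖ : ℝ) : ℂ) ^ s
                  ∂(MeasureTheory.Measure.addHaar : MeasureTheory.Measure (Fin N → PadicInt p))) →
        ∀ s₀ : ℂ, ∀ pol : Polynomial ℂ, pol ≠ 0 → RelG v (Kil1 v) (Spread v) pol →
          ((-(((Polynomial.X + 1) * pol).rootMultiplicity ((s₀.re : ℝ) : ℂ) : ℤ) : ℤ) :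
            WithTop ℤ) ≤ meromorphicOrderAt F s₀ := by
  obtain ⟨S, hS⟩ := h2
  refine ⟨S, ?_⟩
  intro p hpf hpS hmeas hborel F hF hFI s₀ pol hpol0 hpol
  obtain ⟨V, C₀, C₁, hV, hCR, hint⟩ := hS p hpS
  have hp : 2 ≤ p := hpf.out.two_le
  have hp0 : (p : ℂ) ≠ 0 := by exact_mod_cast (by omega : p ≠ 0)
  have hlog : Real.log p ≠ 0 := (Real.log_pos (by exact_mod_cast (by omega : 1 < p))).ne'
  obtain ⟨e, K, he, heq⟩ := series_gam p hp v C₀ C₁ hCR
  set T0 : ℂ := (p : ℂ) ^ (-s₀) with hT0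
  have hT00 : T0 ≠ 0 := by
    rw [hT0, Ne, Complex.cpow_eq_zero_iff]
    tauto
  have hnT0 : -Real.log ‖T0‖ / Real.log p = s₀.re := by
    rw [hT0, Complex.norm_natCast_cpow_of_pos (by omega), Real.log_rpow (by positivity),
      Complex.neg_re]
    field_simp
  obtain ⟨Q1, hQ1, hZ⟩ := crMu p hp v pol hpol (kE e) (kern_kE p v e he) T0 hT00 hpol0
  rw [hnT0] at hZ
  set μ : ℕ := pol.rootMultiplicity ((s₀.re : ℝ) : ℂ) with hμ
  set Q : Polynomial ℂ := Q1 * (Polynomial.X - Polynomial.C T0) ^ μ with hQd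
  obtain ⟨A, hA⟩ := series_reg hr p hp v e Q hZ
  have hpow : ∀ (a N : ℕ) (s : ℂ), (p : ℂ) ^ (-((a : ℂ) + s * N)) =
      (p : ℂ)⁻¹ ^ a * ((p : ℂ) ^ (-s)) ^ N := by
    intro a N s
    rw [neg_add, Complex.cpow_add _ _ hp0, Complex.cpow_neg, Complex.cpow_natCast, inv_pow,
      ← Complex.cpow_nat_mul]
    congr 2
    ring
  have hdt : Differentiable ℂ fun s : ℂ => (p : ℂ) ^ (-s) := diff_pow hp differentiable_id.neg
  refine ord_bound F (fun s => Q.eval ((p : ℂ) ^ (-s)) * (1 - (p : ℂ) ^ (-(1 + s))))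
    (fun s => V * (Q.eval ((p : ℂ) ^ (-s)) * K - (1 - (p : ℂ) ^ (-s)) * A.eval ((p : ℂ) ^ (-s))))
    ?_ ?_ hF ?_ s₀ _ ?_
  · refine ((Polynomial.differentiable Q).comp hdt).mul ?_
    exact (differentiable_const _).sub (diff_pow hp (by fun_prop))
  · refine (differentiable_const _).mul ?_
    refine (((Polynomial.differentiable Q).comp hdt).mul (differentiable_const _)).sub ?_
    exact ((differentiable_const _).sub hdt).mul ((Polynomial.differentiable A).comp hdt)
  · intro s hs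
    set t : ℂ := (p : ℂ) ^ (-s) with ht
    have ht1 : ‖t‖ < 1 := by
      rw [ht, Complex.norm_natCast_cpow_of_pos (by omega)]
      refine Real.rpow_lt_one_of_one_lt_of_neg (by exact_mod_cast (by omega : 1 < p)) ?_
      rw [Complex.neg_re]
      linarith
    have hX : (p : ℂ) ^ (-(1 + s)) = (p : ℂ)⁻¹ * t := by
      have := hpow 1 1 s
      simpa using this
    have hX1 : 1 - (p : ℂ)⁻¹ * t ≠ 0 := by
      intro h
      have h3 : (p : ℂ)⁻¹ * t = 1 := (sub_eq_zero.1 h).symm
      have h4 : ‖(p : ℂ)⁻¹ * t‖ < 1 := by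
        rw [norm_mul, norm_inv, Complex.norm_natCast]
        have h5 : ((p : ℝ))⁻¹ ≤ 1 := inv_le_one_of_one_le₀ (by exact_mod_cast (by omega : 1 ≤ p))
        calc (p : ℝ)⁻¹ * ‖t‖ ≤ 1 * ‖t‖ := by gcongr
          _ < 1 := by rw [one_mul]; exact ht1
      rw [h3, norm_one] at h4
      exact lt_irrefl _ h4
    have hsum : ∀ u : Fin N → ℕ,
        (1 - (p : ℂ) ^ (-(1 + s))) * (((p : ℂ) ^ (-(((∑ i, u i : ℕ) : ℂ) + s * ford 0 v 1 u))) *
                ((C₀ (Finset.univ.filter fun j => ∑ i, u i * v j i = gord v u) : ℂ) +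
                  (C₁ (Finset.univ.filter fun j => ∑ i, u i * v j i = gord v u) : ℂ) *
                    ((p : ℂ) ^ (-(((1 : ℕ) : ℂ) * s)) /
                      (1 - (p : ℂ) ^ (-(1 + ((1 : ℕ) : ℂ) * s)))))) =
        (p : ℂ)⁻¹ ^ (∑ x, u x) * t ^ gord v u * (gam p C₀ C₁ (filt v u)).eval t := by
      intro u
      rw [ford_eq, hpow, Nat.cast_one, one_mul, hX, ← ht]
      unfold gam
      simp only [Polynomial.eval_add, Polynomial.eval_mul, Polynomial.eval_C,
        Polynomial.eval_sub, Polynomial.eval_one, Polynomial.eval_X]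
      show _ = (p : ℂ)⁻¹ ^ (∑ x, u x) * t ^ gord v u *
        ((C₀ (Finset.univ.filter fun j => ∑ i, u i * v j i = gord v u) : ℂ) *
          (1 - (p : ℂ)⁻¹ * t) +
          (C₁ (Finset.univ.filter fun j => ∑ i, u i * v j i = gord v u) : ℂ) * t)
      exact aux _ _ _ _ _ hX1
    have hI : (1 - (p : ℂ) ^ (-(1 + s))) * F s = V * (K - (1 - t) * ∑' x : Fin N → ℕ,
        (p : ℂ)⁻¹ ^ (∑ i, x i) * (e ∅ * ∑ t' ∈ Finset.range (gord v x), t ^ t' +
          e (filt v x) * t ^ gord v x)) := by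
      rw [hFI s hs, ← heq t ht1, ← tsum_congr hsum, tsum_mul_left]
      have h6 := hint s hs
      have h7 : ∫ x, ((‖MvPolynomial.eval₂ (algebraMap ℚ (Padic p))
                    (fun i => ((x i : PadicInt p) : Padic p)) (qpoly v c)‖ : ℝ) : ℂ) ^ s
                  ∂(MeasureTheory.Measure.addHaar : MeasureTheory.Measure (Fin N → PadicInt p)) =
          ∫ x, ((pval p (spoly 0 v c 1) x : ℝ) : ℂ) ^ s
              ∂(Measure.addHaar : Measure (Fin N → PadicInt p)) := by
        rw [spoly_eq]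
        rfl
      rw [h7, h6]
      ring
    show Q.eval t * (1 - (p : ℂ) ^ (-(1 + s))) * F s =
      V * (Q.eval t * K - (1 - t) * A.eval t)
    rw [mul_assoc, hI, ← hA t ht1]
    ring
  · -- the order of `D`
    have hD : (fun s : ℂ => Q.eval ((p : ℂ) ^ (-s)) * (1 - (p : ℂ) ^ (-(1 + s)))) =
        (fun s : ℂ => Q1.eval ((p : ℂ) ^ (-s)) * (-(p : ℂ)⁻¹)) *
          ((fun s : ℂ => (p : ℂ) ^ (-s) - T0) ^ μ * (fun s : ℂ => (p : ℂ) ^ (-s) - (p : ℂ))) := by
      funext s
      have hX : (p : ℂ) ^ (-(1 + s)) = (p : ℂ)⁻¹ * (p : ℂ) ^ (-s) := by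
        have := hpow 1 1 s
        simpa using this
      simp only [Pi.mul_apply, Pi.pow_apply]
      rw [hX, hQd, Polynomial.eval_mul, Polynomial.eval_pow, Polynomial.eval_sub,
        Polynomial.eval_X, Polynomial.eval_C]
      field_simp
      ring
    have ha0 : AnalyticAt ℂ (fun s : ℂ => (p : ℂ) ^ (-s)) s₀ := hdt.analyticAt s₀
    have ha1 : AnalyticAt ℂ (fun s : ℂ => Q1.eval ((p : ℂ) ^ (-s)) * (-(p : ℂ)⁻¹)) s₀ := by
      refine Differentiable.analyticAt ?_ s₀
      exact ((Polynomial.differentiable Q1).comp hdt).mul (differentiable_const _)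
    have ha2 : ∀ β : ℂ, MeromorphicAt (fun s : ℂ => (p : ℂ) ^ (-s) - β) s₀ := fun β =>
      (ha0.sub analyticAt_const).meromorphicAt
    rw [hD, meromorphicOrderAt_mul_of_ne_zero ha1
      (mul_ne_zero hQ1 (neg_ne_zero.2 (inv_ne_zero hp0))),
      meromorphicOrderAt_mul ((ha2 _).pow μ) (ha2 _), meromorphicOrderAt_pow (ha2 _)]
    rw [ord_lin p hp s₀ T0, if_pos rfl]
    have ho2 : meromorphicOrderAt (fun s : ℂ => (p : ℂ) ^ (-s) - (p : ℂ)) s₀ ≤
        ((((Polynomial.X + 1 : Polynomial ℂ)).rootMultiplicity ((s₀.re : ℝ) : ℂ) : ℤ) :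
          WithTop ℤ) := by
      have hX1 : (Polynomial.X + 1 : Polynomial ℂ) = Polynomial.X - Polynomial.C (-1) := by
        simp
      rw [ord_lin p hp s₀ p]
      split_ifs with h2
      · have h : s₀.re = -1 := by
          have h3 := congrArg norm h2
          rw [Complex.norm_natCast_cpow_of_pos (by omega), Complex.norm_natCast,
            Complex.neg_re] at h3
          have h4 := congrArg Real.log h3
          rw [Real.log_rpow (by positivity)] at h4
          have h5 : (-s₀.re - 1) * Real.log p = 0 := by linarith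
          rcases mul_eq_zero.1 h5 with h6 | h6
          · linarith
          · exact absurd h6 hlog
        have h1 : (Polynomial.X + 1 : Polynomial ℂ).rootMultiplicity ((s₀.re : ℝ) : ℂ) = 1 := by
          rw [hX1, h]
          have : (((-1 : ℝ)) : ℂ) = -1 := by push_cast; rfl
          rw [this]
          exact Polynomial.rootMultiplicity_X_sub_C_self
        rw [h1]
        rfl
      · exact_mod_cast Nat.zero_le _
    have hmul : ((Polynomial.X + 1) * pol).rootMultiplicity ((s₀.re : ℝ) : ℂ) =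
        (Polynomial.X + 1 : Polynomial ℂ).rootMultiplicity ((s₀.re : ℝ) : ℂ) + μ := by
      refine Polynomial.rootMultiplicity_mul (mul_ne_zero ?_ hpol0)
      intro h
      have := congrArg (Polynomial.eval 0) h
      simp at this
    rw [hmul]
    push_cast
    rw [add_comm, mul_one]
    exact add_le_add_left ho2 _

end Pool.Agent.TH216.MF
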