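import Pool.Agent.TH216.MF.H2
import Pool.Agent.TH216.MF.PFinM
import Pool.Agent.TH216.MF.Ind
import Pool.Agent.W425.PZ.Fin2

set_option autoImplicit false

/-! p-adic results: affinely independent exponents with orders, generic coefficients. -/

namespace Pool.Agent.TH216.MF

open MvPolynomial MeasureTheory Pool.Agent.H628R4.TP Pool.Agent.W425.SM Pool.Agent.W425.MM
open Pool.Agent.W425.GN
open Pool.Agent.W426.SM (gord IsRay face)
open Pool.Agent.W425.BF (zm zma BD)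
open Pool.Agent.W425.PN (qpoly idn_of)
open Pool.Agent.W425.SV (NP)
open Pool.Agent.W425.ND (spa)
open Pool.Agent.W427.SMC (igusaZeta)
open Pool.Agent.W425.PZ

/-- affinely independent exponents, orders -/
theorem h1ord {n k : ℕ} (hk : 2 ≤ k) (m : Fin k → Fin n → ℕ) (hm : Ind m) (c : Fin k → ℚ)
    (hc : ∀ j, c j ≠ 0) :
    ∃ S : Finset ℕ, ∀ (p : ℕ) [Fact p.Prime], p ∉ S →
      ∀ [MeasurableSpace (Fin n → PadicInt p)] [BorelSpace (Fin n → PadicInt p)],
      ∀ F : ℂ → ℂ, MeromorphicOn F Set.univ →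
        (∀ s : ℂ, 0 < s.re →
          F s = ∫ x, ((‖MvPolynomial.eval₂ (algebraMap ℚ (Padic p))
                    (fun i => ((x i : PadicInt p) : Padic p)) (qpoly m c)‖ : ℝ) : ℂ) ^ s
                  ∂(MeasureTheory.Measure.addHaar : MeasureTheory.Measure (Fin n → PadicInt p))) →
        ∀ s₀ : ℂ, ∀ b : Polynomial ℂ, b ≠ 0 →
          IsBFunction (MvPolynomial.map (algebraMap ℚ ℂ) (qpoly m c)) b →
          ((-(b.rootMultiplicity ((s₀.re : ℝ) : ℂ) : ℤ) : ℤ) : WithTop ℤ) ≤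
            meromorphicOrderAt F s₀ := by
  have hk0 : 0 < k := by omega
  have hnd := nonD_of_ind hk0 m hm (fun j => ((c j : ℚ) : ℂ)) (fun j => by exact_mod_cast hc j)
  have hZ := zm 0 m c 1 one_pos (zma Pool.Agent.W318.BF.main Pool.Agent.W386.BF.main m c hc hk0
    fun u => idn_of m c hnd u)
  obtain ⟨S, hS⟩ := padic_ord hk0 m c hZ
  refine ⟨S, ?_⟩
  intro p hp hpS _ _ F hF hFI s₀ b hb0 hb
  have hq : MvPolynomial.map (algebraMap ℚ ℂ) (qpoly m c) =
      sparse m (fun j => ((c j : ℚ) : ℂ)) := by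
    unfold qpoly sparse
    rw [map_sum]
    refine Finset.sum_congr rfl fun j _ => ?_
    rw [map_mul, MvPolynomial.map_C, map_prod]
    simp
  rw [hq] at hb
  obtain ⟨P, hbP, hP⟩ := Pool.Agent.W525.SM.taskA m _ b hk hm
    (fun j => by exact_mod_cast hc j) hb
  have hP0 : P ≠ 0 := by
    rintro rfl
    rw [mul_zero] at hbP
    exact hb0 hbP
  have h1 := hS p hpS F hF hFI s₀ P hP0 (relG_of_relM m P hP)
  rw [← hbP] at h1
  exact h1

/-- the hypothesis on the rays -/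
def HypL {R : Type} [CommRing R] {N r : ℕ} (v : Fin r → Fin N → ℕ) (h : MvPolynomial (Fin N) R) :
    Prop :=
  ∀ a : Fin N → ℕ, IsRay v a → 0 < gord v a → ∑ i, a i = gord v a ∨
    (∃ a' : Fin N → ℕ, 0 < gord v a' ∧ NonB v False a' ∧
      ((∑ i, a i : ℕ) : ℚ) / gord v a = ((∑ i, a' i : ℕ) : ℚ) / gord v a') ∨
    LocS v h (((∑ i, a i : ℕ) : ℚ) / gord v a)

theorem LocS.map {R S : Type} [CommRing R] [CommRing S] (φ : R →+* S) {N r : ℕ}
    {v : Fin r → Fin N → ℕ} {h : MvPolynomial (Fin N) R} {σ : ℚ} (hB : LocS v h σ) :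
    LocS v (MvPolynomial.map φ h) σ := by
  intro j1
  obtain ⟨i, hi⟩ := hB j1
  refine ⟨i, fun a ha hg hf hs => ?_⟩
  rcases hi a ha hg hf hs with ⟨h1, h2⟩ | ⟨hai, j0, hf0, hv1, hu, hw⟩
  · exact Or.inl ⟨h1, fun w hw => h2 w (MvPolynomial.support_map_subset _ _ hw)⟩
  · exact Or.inr ⟨hai, j0, hf0, hv1, hu, fun w hw' =>
      hw w (MvPolynomial.support_map_subset _ _ hw')⟩

theorem HypL.map {R S : Type} [CommRing R] [CommRing S] (φ : R →+* S) {N r : ℕ}
    {v : Fin r → Fin N → ℕ} {h : MvPolynomial (Fin N) R} (hB : HypL v h) :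
    HypL v (MvPolynomial.map φ h) := by
  intro a ha hg
  rcases hB a ha hg with h1 | h1 | h1
  · exact Or.inl h1
  · exact Or.inr (Or.inl h1)
  · exact Or.inr (Or.inr (h1.map φ))

variable {N r : ℕ}

/-- both conclusions for one polynomial -/
theorem conclM_root {v : Fin r → Fin N → ℕ} {h : MvPolynomial (Fin N) ℚ} {c : Fin r → ℚ}
    (hC : ConclM v h c) (hL : HypL v h) :
      ∃ S : Finset ℕ, ∀ (p : ℕ) [Fact p.Prime], p ∉ S →
      ∀ [MeasurableSpace (Fin N → PadicInt p)] [BorelSpace (Fin N → PadicInt p)],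
      ∀ F : ℂ → ℂ, MeromorphicOn F Set.univ →
        (∀ s : ℂ, 0 < s.re →
          F s = ∫ x, ((‖MvPolynomial.eval₂ (algebraMap ℚ (Padic p))
                    (fun i => ((x i : PadicInt p) : Padic p)) (spa v c + h)‖ : ℝ) : ℂ) ^ s
                  ∂(MeasureTheory.Measure.addHaar : MeasureTheory.Measure (Fin N → PadicInt p))) →
        ∀ s₀ : ℂ, meromorphicOrderAt F s₀ < 0 → ∀ b : Polynomial ℂ, b ≠ 0 →
          IsBFunction (MvPolynomial.map (algebraMap ℚ ℂ) (spa v c + h)) b →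
          b.eval (s₀.re : ℂ) = 0 ∧
          ∃ σ : ℚ, s₀.re = -(σ : ℝ) ∧ (LocS v h σ →
            ((-(b.rootMultiplicity ((s₀.re : ℝ) : ℂ) : ℤ) : ℤ) : WithTop ℤ) ≤
              meromorphicOrderAt F s₀) := by
  obtain ⟨S, hS⟩ := hC
  refine ⟨S, fun p _ hp _ _ F hF hFI s₀ hs₀ b hb0 hb => ?_⟩
  obtain ⟨h3, h4, α, hα, hα', h5⟩ := hS p hp F hF hFI s₀ hs₀ b hb0 hb
  refine ⟨?_, -α, by rw [hα]; push_cast; ring, h5⟩
  have hcast : ((s₀.re : ℝ) : ℂ) = (α : ℂ) := by
    rw [hα]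
    push_cast
    rfl
  rcases hα' with rfl | ⟨a, ha, hg, hαa⟩
  · rw [hcast]
    push_cast
    exact h3
  · rcases hL a ha hg with h6 | ⟨a', hg', hn', he⟩ | h6
    · have : α = -1 := by
        rw [hαa, h6, div_self (by exact_mod_cast hg.ne')]
      rw [hcast, this]
      push_cast
      exact h3
    · rw [hcast, hαa, he]
      have := h4 a' hg' hn'
      push_cast at this ⊢
      exact this
    · have h7 := h5 (by rw [hαa, neg_neg]; exact h6)
      have h8 := lt_of_le_of_lt h7 hs₀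
      have h9 : (-(b.rootMultiplicity ((s₀.re : ℝ) : ℂ) : ℤ) : ℤ) < 0 := by exact_mod_cast h8
      have h10 : 0 < b.rootMultiplicity ((s₀.re : ℝ) : ℂ) := by omega
      exact (Polynomial.rootMultiplicity_pos hb0).1 h10

theorem genQ (hr : 0 < r)
    (v : Fin r → Fin N → ℕ) (hv : Function.Injective v) (hv0 : ∀ j, v j ≠ 0)
    (h : MvPolynomial (Fin N) ℚ) (hh : ∀ w ∈ h.support, NP v w) (hL : HypL v h) :
    ∃ g : MvPolynomial (Fin r) ℚ, g ≠ 0 ∧ ∀ c : Fin r → ℚ, eval c g ≠ 0 →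
      ∃ S : Finset ℕ, ∀ (p : ℕ) [Fact p.Prime], p ∉ S →
      ∀ [MeasurableSpace (Fin N → PadicInt p)] [BorelSpace (Fin N → PadicInt p)],
      ∀ F : ℂ → ℂ, MeromorphicOn F Set.univ →
        (∀ s : ℂ, 0 < s.re →
          F s = ∫ x, ((‖MvPolynomial.eval₂ (algebraMap ℚ (Padic p))
                    (fun i => ((x i : PadicInt p) : Padic p)) (spa v c + h)‖ : ℝ) : ℂ) ^ s
                  ∂(MeasureTheory.Measure.addHaar : MeasureTheory.Measure (Fin N → PadicInt p))) →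
        ∀ s₀ : ℂ, meromorphicOrderAt F s₀ < 0 → ∀ b : Polynomial ℂ,
          IsBFunction (MvPolynomial.map (algebraMap ℚ ℂ) (spa v c + h)) b →
          b.eval (s₀.re : ℂ) = 0 := by
  obtain ⟨g, hg, hgc⟩ := gen_ord hr v hv hv0 h hh
  refine ⟨g, hg, fun c hc => ?_⟩
  obtain ⟨S, hS⟩ := conclM_root (hgc c hc) hL
  refine ⟨S, fun p _ hp _ _ F hF hFI s₀ hs₀ b hb => ?_⟩
  by_cases hb0 : b = 0
  · rw [hb0, Polynomial.eval_zero]
  · exact (hS p hp F hF hFI s₀ hs₀ b hb0 hb).1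

/-- both conclusions, for the normalised zeta function of an integral polynomial -/
theorem genZ (hr : 0 < r)
    (v : Fin r → Fin N → ℕ) (hv : Function.Injective v) (hv0 : ∀ j, v j ≠ 0)
    (h : MvPolynomial (Fin N) ℤ) (hh : ∀ w ∈ h.support, NP v w) (hL : HypL v h) :
    ∃ g : MvPolynomial (Fin r) ℚ, g ≠ 0 ∧ ∀ c : Fin r → ℤ, eval (fun j => (c j : ℚ)) g ≠ 0 →
      ∃ S : Finset ℕ, ∀ (p : ℕ) [Fact p.Prime], p ∉ S → ∀ Z : ℂ → ℂ, MeromorphicOn Z Set.univ →
        (∀ s : ℂ, 0 < s.re → Z s = igusaZeta p (spa v c + h) s) →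
        ∀ s₀ : ℂ, meromorphicOrderAt Z s₀ < 0 → ∀ b : Polynomial ℂ, b ≠ 0 →
          IsBFunction (MvPolynomial.map (Int.castRingHom ℂ) (spa v c + h)) b →
          b.eval (s₀.re : ℂ) = 0 ∧
          ∃ σ : ℚ, s₀.re = -(σ : ℝ) ∧ (LocS v h σ →
            ((-(b.rootMultiplicity ((s₀.re : ℝ) : ℂ) : ℤ) : ℤ) : WithTop ℤ) ≤
              meromorphicOrderAt Z s₀) := by
  obtain ⟨g1, hg1, h1⟩ := gen_ord hr v hv hv0
    (MvPolynomial.map (Int.castRingHom ℚ) h)
    (fun w hw => hh w (MvPolynomial.support_map_subset _ _ hw))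
  refine ⟨g1, hg1, fun c hc => ?_⟩
  obtain ⟨S, hS⟩ := conclM_root (h1 (fun j => (c j : ℚ)) hc) (hL.map _)
  have hmap : MvPolynomial.map (Int.castRingHom ℚ) (spa v c + h) =
      spa v (fun j => (c j : ℚ)) + MvPolynomial.map (Int.castRingHom ℚ) h := by
    rw [map_add]
    congr 1
    unfold spa
    simp
  have hmapC : MvPolynomial.map (algebraMap ℚ ℂ)
      (spa v (fun j => (c j : ℚ)) + MvPolynomial.map (Int.castRingHom ℚ) h) =
      MvPolynomial.map (Int.castRingHom ℂ) (spa v c + h) := by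
    rw [← hmap, MvPolynomial.map_map]
    congr 1
  refine ⟨S, fun p hpf hpS Z hZ hZi s₀ hs₀ b hb0 hb => ?_⟩
  let _ : MeasurableSpace (Fin N → PadicInt p) := borel _
  have _ : BorelSpace (Fin N → PadicInt p) := ⟨rfl⟩
  set V : ℂ := (((Measure.addHaar : Measure (Fin N → PadicInt p)) Set.univ).toReal : ℂ) with hV
  have hV0 : V ≠ 0 := by
    have : (0 : ℝ) < ((Measure.addHaar : Measure (Fin N → PadicInt p)) Set.univ).toReal :=
      ENNReal.toReal_pos ((isOpen_univ.measure_pos _ Set.univ_nonempty).ne') (measure_ne_top _ _)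
    rw [hV]
    exact_mod_cast this.ne'
  have hord : meromorphicOrderAt (fun s => V * Z s) s₀ = meromorphicOrderAt Z s₀ := by
    have h5 := meromorphicOrderAt_mul_of_ne_zero (f := Z) (g := fun _ : ℂ => V)
      (analyticAt_const (x := s₀)) hV0
    exact h5
  obtain ⟨h3, σ, hσ, h4⟩ := hS p hpS (fun s => V * Z s)
    (fun s hs => (MeromorphicAt.const V s).mul (hZ s hs))
    (fun s hs => by
      rw [hZi s hs, ← integral_haar p (spa v c + h) s, hmap]) s₀ (by rw [hord]; exact hs₀) b hb0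
    (by rw [hmapC]; exact hb)
  refine ⟨h3, σ, hσ, fun hl => ?_⟩
  rw [← hord]
  exact h4 (hl.map _)

/-- affinely independent exponents, integral coefficients -/
theorem indZ {n k : ℕ} (hk : 2 ≤ k) (m : Fin k → Fin n → ℕ) (hm : Ind m) (c : Fin k → ℤ)
    (hc : ∀ j, c j ≠ 0) (f : MvPolynomial (Fin n) ℤ)
    (hf : f = ∑ j, MvPolynomial.C (c j) * ∏ i, MvPolynomial.X i ^ m j i) :
    ∃ S : Finset ℕ, ∀ (p : ℕ) [Fact p.Prime], p ∉ S → ∀ Z : ℂ → ℂ, MeromorphicOn Z Set.univ →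
        (∀ s : ℂ, 0 < s.re → Z s = igusaZeta p f s) →
        ∀ s₀ : ℂ, ∀ b : Polynomial ℂ, b ≠ 0 →
          IsBFunction (MvPolynomial.map (Int.castRingHom ℂ) f) b →
          ((-(b.rootMultiplicity ((s₀.re : ℝ) : ℂ) : ℤ) : ℤ) : WithTop ℤ) ≤
              meromorphicOrderAt Z s₀ := by
  obtain ⟨S, hS⟩ := h1ord hk m hm (fun j => (c j : ℚ)) (fun j => by exact_mod_cast hc j)
  have hmap : MvPolynomial.map (Int.castRingHom ℚ) f = qpoly m (fun j => (c j : ℚ)) := by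
    rw [hf]
    unfold qpoly
    simp
  have hmapC : MvPolynomial.map (algebraMap ℚ ℂ) (qpoly m (fun j => (c j : ℚ))) =
      MvPolynomial.map (Int.castRingHom ℂ) f := by
    rw [← hmap, MvPolynomial.map_map]
    congr 1
  refine ⟨S, fun p hpf hpS Z hZ hZi s₀ b hb0 hb => ?_⟩
  let _ : MeasurableSpace (Fin n → PadicInt p) := borel _
  have _ : BorelSpace (Fin n → PadicInt p) := ⟨rfl⟩
  set V : ℂ := (((Measure.addHaar : Measure (Fin n → PadicInt p)) Set.univ).toReal : ℂ) with hV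
  have hV0 : V ≠ 0 := by
    have : (0 : ℝ) < ((Measure.addHaar : Measure (Fin n → PadicInt p)) Set.univ).toReal :=
      ENNReal.toReal_pos ((isOpen_univ.measure_pos _ Set.univ_nonempty).ne') (measure_ne_top _ _)
    rw [hV]
    exact_mod_cast this.ne'
  have hord : meromorphicOrderAt (fun s => V * Z s) s₀ = meromorphicOrderAt Z s₀ := by
    have h5 := meromorphicOrderAt_mul_of_ne_zero (f := Z) (g := fun _ : ℂ => V)
      (analyticAt_const (x := s₀)) hV0
    exact h5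
  rw [← hord]
  exact hS p hpS (fun s => V * Z s)
    (fun s hs => (MeromorphicAt.const V s).mul (hZ s hs))
    (fun s hs => by
      rw [hZi s hs, ← integral_haar p f s, hmap]) s₀ b hb0 (by rw [hmapC]; exact hb)

end Pool.Agent.TH216.MF
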