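import Pool.Agent.TH216.MF.MotL

set_option autoImplicit false

/-! Motivic zeta functions, generic coefficients: global and local `b`-functions. -/

namespace Pool.Agent.TH216.MC

open MvPolynomial Pool.Agent.H628R4.TP Pool.Agent.W425.MM Pool.Agent.W425.GN
open Pool.Agent.W425.ND (spa)
open Pool.Agent.W426.SM (gord IsRay face)
open Pool.Agent.W425.BF (B1 BD shf shf_eval shf_ne hz hz_support hz_eq cof gen_rootsJ hp_nonB
  spa_add)
open Pool.Agent.W425.SV (NP RelV Kil1)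
open Pool.Agent.W425.SM (Ind)
open Pool.Agent.TH216.MF (RelG KilU kept ke LocS ke_mem relG_of_relV relG_ext rel_of_not_HP)
open Pool.Agent.W428.MOT (Pt Constr ratRing sp LuMu InRat zetaE)
open Pool.Agent.W375.MG (zetaG Good)

variable {r N : ℕ}

/-- the hypothesis on the rays; `loc` is for the local `b`-function at the origin -/
def HypM {R : Type} [CommRing R] (loc : Prop) (v : Fin r → Fin N → ℕ) (h : MvPolynomial (Fin N) R) :
    Prop :=
  ∀ a : Fin N → ℕ, IsRay v a → 0 < gord v a → ∑ i, a i = gord v a ∨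
    (∃ a' : Fin N → ℕ, 0 < gord v a' ∧ NonB v loc a' ∧
      ((∑ i, a i : ℕ) : ℚ) / gord v a = ((∑ i, a' i : ℕ) : ℚ) / gord v a') ∨
    LocS v h (((∑ i, a i : ℕ) : ℚ) / gord v a)

lemma eval_ne_of_mult {p : Polynomial ℂ} (hp : p ≠ 0) (α : ℂ)
    (h : ((Polynomial.X + 1) * p).rootMultiplicity α ≤ 0) : p.eval α ≠ 0 := by
  intro h0
  have h1 : (Polynomial.X + 1) * p ≠ 0 := by
    refine mul_ne_zero ?_ hp
    intro h2
    have h3 := congrArg (Polynomial.eval 0) h2
    simp at h3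
  have h2 : 0 < ((Polynomial.X + 1) * p).rootMultiplicity α := by
    rw [Polynomial.rootMultiplicity_pos h1]
    show ((Polynomial.X + 1) * p).eval α = 0
    rw [Polynomial.eval_mul, h0, mul_zero]
  omega

theorem relF [NeZero r] {F : Type} [Field F] (v : Fin r → Fin N → ℕ)
    (hv : Function.Injective v) (hv0 : ∀ j, v j ≠ 0) (h : MvPolynomial (Fin N) F)
    (hh : ∀ w ∈ h.support, NP v w) (α : ℚ) (hn : ¬ HP v h α 0) :
    ∃ (θ : Fin (r + (kept v h).card) → ℤ) (p : Polynomial ℂ),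
      RelG (Fin.append v (ke v h)) (Kil1 (Fin.append v (ke v h)))
        (KilU (Fin.append v (ke v h)) θ) p ∧ p.eval (α : ℂ) ≠ 0 := by
  obtain ⟨θ, p, hp0, hrel, hmult⟩ := rel_of_not_HP v hv hv0 h hh α 0 hn
  exact ⟨θ, p, hrel, eval_ne_of_mult hp0 _ hmult⟩

lemma ke_np {F : Type} [Field F] (v : Fin r → Fin N → ℕ) (h : MvPolynomial (Fin N) F)
    (hh : ∀ w ∈ h.support, NP v w) (l : Fin (kept v h).card) :
    NP v (Finsupp.equivFunOnFinite.symm (ke v h l)) := by
  obtain ⟨w, hw, hwe, -⟩ := ke_mem v h l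
  have : Finsupp.equivFunOnFinite.symm (ke v h l) = w := by
    ext i
    exact hwe i
  rw [this]
  exact hh w hw

theorem relL [NeZero r] {F : Type} [Field F] (v : Fin r → Fin N → ℕ)
    (hv : Function.Injective v) (hv0 : ∀ j, v j ≠ 0) (h : MvPolynomial (Fin N) F)
    (hh : ∀ w ∈ h.support, NP v w) (α : ℚ) (hn : ¬ HPL v h α 0) :
    ∃ (θ : Fin (r + (kept v h).card) → ℤ) (p : Polynomial ℂ),
      RelG (Fin.append v (ke v h)) (Kil1 (Fin.append v (ke v h)))
        (KilU (Fin.append v (ke v h)) θ) p ∧ p.eval (α : ℂ) ≠ 0 := by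
  unfold HPL at hn
  push Not at hn
  obtain ⟨F', _, _, a, h', ha, hs, b', hb', hnd⟩ := hn
  have hb0 : b' ≠ 0 := fun h => hnd (h ▸ dvd_zero _)
  have hJ := (feqL_iff _ b').2 hb'
  obtain ⟨θ, hθ⟩ := Pool.Agent.W422.GC.exists_heights r
  obtain ⟨p, q, hbp, hp⟩ := Pool.Agent.W422.GC.rel_of_unit True _ unit_cond v a hv hv0 ha h'
    (fun w hw => hh w (hs w hw)) θ hθ b' hb0 hJ
  have hp0 : p ≠ 0 := by
    rintro rfl
    apply hb0
    rw [hbp]
    simp
  obtain ⟨θ1, h1⟩ := relG_of_relV v θ True p hp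
  obtain ⟨θ', hθ'⟩ := relG_ext v (ke v h) (ke_np v h hh) θ1 p h1
  refine ⟨θ', p, hθ', eval_ne_of_mult hp0 _ ?_⟩
  have h1 : (Polynomial.X + 1) * p ∣ b' := ⟨q, hbp⟩
  have h2 := Polynomial.rootMultiplicity_le_rootMultiplicity_of_dvd hb0 h1 (α : ℂ)
  refine h2.trans ?_
  by_contra hcon
  push Not at hcon
  exact hnd ((Polynomial.le_rootMultiplicity_iff hb0).1 hcon)

theorem hpl_nonB [NeZero r] {F : Type} [Field F] (v : Fin r → Fin N → ℕ)
    (hv : Function.Injective v) (hv0 : ∀ j, v j ≠ 0) (h : MvPolynomial (Fin N) F)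
    (hh : ∀ w ∈ h.support, Pool.Agent.W425.SV.NP v w)
    (u : Fin N → ℕ) (hgu : 0 < gord v u) (hu : NonB v True u) :
    HPL v h (-(((∑ i, u i : ℕ) : ℚ) / gord v u)) 0 := by
  intro F' _ _ a h' ha hs b hb
  have hh' : ∀ w ∈ h'.support, Pool.Agent.W425.SV.NP v w := fun w hw => hh w (hs w hw)
  rw [zero_add, pow_one, Polynomial.dvd_iff_isRoot]
  have h2 := (root_strong True _ unit_cond v a hv hv0 ha h' hh' b ((feqL_iff _ _).2 hb)).2 u hgu hu
  show b.eval _ = 0
  rw [← h2]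
  congr 1
  push_cast
  ring

/-- the roots of the `b`-functions, from the universal property -/
theorem rootsF {F : Type} [Field F] [Algebra F ℂ] (hr : 0 < r) (v : Fin r → Fin N → ℕ)
    (hv : Function.Injective v) (hv0 : ∀ j, v j ≠ 0) (h : MvPolynomial (Fin N) F)
    (hh : ∀ w ∈ h.support, NP v w) :
    ∃ g : MvPolynomial (Fin r) F, g ≠ 0 ∧ ∀ c : Fin r → ℂ, aeval c g ≠ 0 →
      ∀ b : Polynomial ℂ, IsBFunction (spa v c + MvPolynomial.map (algebraMap F ℂ) h) b →
        b.eval (-1) = 0 ∧ ∀ α : ℚ, HP v h α 0 → b.eval (α : ℂ) = 0 := by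
  have hne : NeZero r := ⟨by omega⟩
  obtain ⟨g, hg, hgb⟩ := univ pF4 pR1 hr v hv h
  refine ⟨g, hg, fun c hc b hb => ?_⟩
  have h1 : ∀ α : ℚ, HP v h α 0 → b.eval (α : ℂ) = 0 := by
    intro α hα
    have h2 := hgb c hc b ((bfun_iff _ _).1 hb) α 0 hα
    rw [zero_add, pow_one, Polynomial.dvd_iff_isRoot] at h2
    exact h2
  refine ⟨?_, h1⟩
  have h2 := h1 (-1) (hp_root v hv hv0 h hh)
  push_cast at h2
  exact h2

theorem rootsL {F : Type} [Field F] [Algebra F ℂ] (hr : 0 < r) (v : Fin r → Fin N → ℕ)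
    (hv : Function.Injective v) (hv0 : ∀ j, v j ≠ 0) (h : MvPolynomial (Fin N) F)
    (hh : ∀ w ∈ h.support, NP v w) :
    ∃ g : MvPolynomial (Fin r) F, g ≠ 0 ∧ ∀ c : Fin r → ℂ, aeval c g ≠ 0 →
      ∀ b : Polynomial ℂ, IsLocalBFunction (spa v c + MvPolynomial.map (algebraMap F ℂ) h) b →
        b.eval (-1) = 0 ∧ ∀ α : ℚ, HPL v h α 0 → b.eval (α : ℂ) = 0 := by
  have hne : NeZero r := ⟨by omega⟩
  obtain ⟨g1, hg1, hgb⟩ := univL pF4 pR1 pG2 hr v hv h
  obtain ⟨g3, hg3, h3⟩ := gen_ne hr v hv h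
  refine ⟨g1 * g3, mul_ne_zero hg1 hg3, fun c hc b hb => ?_⟩
  rw [map_mul] at hc
  have hL : FEqL (spa v c + MvPolynomial.map (algebraMap F ℂ) h) b := by
    obtain ⟨_, d, P, hd, hP⟩ := Pool.Agent.W368.SL.taskL1 _ _
      (h3 c (right_ne_zero_of_mul hc)) (Pool.Agent.W425.SV.f_const hv0 c h hh)
      (Pool.Agent.W425.SL.toSL hb)
    refine (feqL_iff _ _).1 ((Pool.Agent.W591.GC.J_iff _ _ b).2
      ⟨d, Pool.Agent.W591.GC.mem_S1.2 hd, P, fun s => ?_⟩)
    rw [← hP s]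
    ring
  have h1 : ∀ α : ℚ, HPL v h α 0 → b.eval (α : ℂ) = 0 := by
    intro α hα
    have h2 := hgb c (left_ne_zero_of_mul hc) b hL α 0 hα
    rw [zero_add, pow_one, Polynomial.dvd_iff_isRoot] at h2
    exact h2
  refine ⟨?_, h1⟩
  have h2 := h1 (-1) (hpl_root v hv hv0 h hh)
  push_cast at h2
  exact h2

/-- the conclusion for all the coefficients `c` with `g(c) ≠ 0` -/
def ConM {F : Type} [Field F] [Algebra F ℂ] (BF : MvPolynomial (Fin N) ℂ → Polynomial ℂ → Prop)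
    (v : Fin r → Fin N → ℕ) (h : MvPolynomial (Fin N) F) (g : MvPolynomial (Fin r) F) : Prop :=
  ∀ (k : Type) [Field k] [Algebra F k] [Algebra k ℂ]
      [IsScalarTower F k ℂ] (c : Fin r → k), aeval (fun j => algebraMap k ℂ (c j)) g ≠ 0 →
      ∃ S : Finset (ℤ × ℤ),
        (∀ p ∈ S, p.1 < 0 ∧ 0 < p.2 ∧ ∀ b : Polynomial ℂ, BF
          (spa v (fun j => algebraMap k ℂ (c j)) + MvPolynomial.map (algebraMap F ℂ) h) b →
            b.eval ((p.1 : ℂ) / p.2) = 0) ∧
        (∀ (K : Type) [Field K] [Algebra k K] (W : Set (Pt K (Fin N)))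
          (E : Set (AlgebraicClosure K)), Constr W → Good E →
          zetaG (spa v (fun j => algebraMap k K (c j)) +
            MvPolynomial.map ((algebraMap k K).comp (algebraMap F k)) h) W E ∈ ratRing K S) ∧
        InRat (LuMu (spa v c + MvPolynomial.map (algebraMap F k) h)) S
          (zetaE (spa v c + MvPolynomial.map (algebraMap F k) h))

theorem gen0 {F : Type} [Field F] [Algebra F ℂ] (hr : 0 < r)
    (BF : MvPolynomial (Fin N) ℂ → Polynomial ℂ → Prop) (P : ℚ → Prop) (loc : Prop)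
    (v : Fin r → Fin N → ℕ) (hv : Function.Injective v)
    (h : MvPolynomial (Fin N) F) (hh : ∀ w ∈ h.support, NP v w)
    (hvh : ∀ w ∈ h.support, ∀ j, ¬ ∀ x, w x = v j x)
    (hP : ∀ α, ¬ P α → ∃ (θ : Fin (r + (kept v h).card) → ℤ) (p : Polynomial ℂ),
      RelG (Fin.append v (ke v h)) (Kil1 (Fin.append v (ke v h)))
        (KilU (Fin.append v (ke v h)) θ) p ∧ p.eval (α : ℂ) ≠ 0)
    (hroot : ∃ g : MvPolynomial (Fin r) F, g ≠ 0 ∧ ∀ c : Fin r → ℂ, aeval c g ≠ 0 →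
      ∀ b : Polynomial ℂ, BF (spa v c + MvPolynomial.map (algebraMap F ℂ) h) b →
        b.eval (-1) = 0 ∧ ∀ α : ℚ, P α → b.eval (α : ℂ) = 0)
    (hNB : ∀ u : Fin N → ℕ, 0 < gord v u → NonB v loc u →
      P (-(((∑ i, u i : ℕ) : ℚ) / gord v u))) (hL : HypM loc v h) :
    ∃ g : MvPolynomial (Fin r) F, g ≠ 0 ∧ ConM BF v h g := by
  classical
  obtain ⟨g1, hg1, h1⟩ := hroot
  obtain ⟨g2, hg2, h2⟩ := gen_nonDF pF4 hr v (we h) (we_np v h hh) (wc h)
  have hg3 : (∏ j : Fin r, (X j : MvPolynomial (Fin r) F)) ≠ 0 :=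
    Finset.prod_ne_zero_iff.2 fun j _ => X_ne_zero j
  refine ⟨g1 * g2 * ∏ j : Fin r, (X j : MvPolynomial (Fin r) F),
    mul_ne_zero (mul_ne_zero hg1 hg2) hg3, fun k _ _ _ _ c hc => ?_⟩
  rw [map_mul, map_mul, map_prod] at hc
  have hcne : ∀ j, c j ≠ 0 := by
    intro j hj
    have h5 := Finset.prod_ne_zero_iff.1 (right_ne_zero_of_mul hc) j (Finset.mem_univ j)
    rw [aeval_X, hj, map_zero] at h5
    exact h5 rfl
  have hb := h1 _ (left_ne_zero_of_mul (left_ne_zero_of_mul hc))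
  have hnd := h2 _ (right_ne_zero_of_mul (left_ne_zero_of_mul hc))
  have hnk : NonD (Fin.append v (we h)) (fun j => algebraMap k ℂ
      (Fin.append c (fun l => algebraMap F k (wc h l)) j)) := by
    rw [append_map]
    simp only [← IsScalarTower.algebraMap_apply F k ℂ]
    exact hnd
  obtain ⟨S, hS, hz⟩ := gen_S0 hr v hv h hh hvh P hP
  obtain ⟨hz1, hz2⟩ := hz k c hcne hnk
  refine ⟨S, fun p hp => ?_, hz1, hz2⟩
  rcases hS p hp with rfl | ⟨a, ha, hg, hLP, rfl⟩
  · refine ⟨by norm_num, by norm_num, fun b hb' => ?_⟩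
    have e : (((-1 : ℤ) : ℂ) / ((1 : ℤ) : ℂ)) = -1 := by
      push_cast
      ring
    rw [e]
    exact (hb b hb').1
  · refine ⟨pos_of_ray ha, Int.natCast_pos.2 hg, fun b hb' => ?_⟩
    have hkey : ∀ α : ℚ, P α → α = -(((∑ i, a i : ℕ) : ℚ) / gord v a) →
        b.eval (((-((∑ i, a i : ℕ) : ℤ) : ℤ) : ℂ) / ((gord v a : ℤ) : ℂ)) = 0 := by
      intro α hα hα'
      have h3 := (hb b hb').2 α hα
      rw [← h3, hα']
      congr 1
      push_cast
      ring
    rcases hL a ha hg with h6 | ⟨a', hg', hn', he⟩ | h6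
    · have e : (((-((∑ i, a i : ℕ) : ℤ) : ℤ) : ℂ) / ((gord v a : ℤ) : ℂ)) = -1 := by
        rw [h6]
        have : ((gord v a : ℕ) : ℂ) ≠ 0 := by exact_mod_cast hg.ne'
        push_cast
        field_simp
      rw [e]
      exact (hb b hb').1
    · exact hkey _ (hNB a' hg' hn') (by rw [he])
    · exact hkey _ (hLP h6) rfl

lemma locS_hz' {F : Type} [Field F] (v : Fin r → Fin N → ℕ) (hv : Function.Injective v)
    (h : MvPolynomial (Fin N) F) (σ : ℚ) (hB : LocS v h σ) : LocS v (hz v h) σ := by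
  intro j1
  obtain ⟨i, hi⟩ := hB j1
  refine ⟨i, fun a ha hg hf hs => ?_⟩
  rcases hi a ha hg hf hs with ⟨h1, h2⟩ | ⟨hai, j0, hf0, hv1, hu, hw⟩
  · exact Or.inl ⟨h1, fun w hw => h2 w ((hz_support v hv h).1 w hw)⟩
  · exact Or.inr ⟨hai, j0, hf0, hv1, hu, fun w hw' => hw w ((hz_support v hv h).1 w hw')⟩

lemma hypM_hz {F : Type} [Field F] (loc : Prop) (v : Fin r → Fin N → ℕ)
    (hv : Function.Injective v) (h : MvPolynomial (Fin N) F) (hB : HypM loc v h) :
    HypM loc v (hz v h) := by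
  intro a ha hg
  rcases hB a ha hg with h1 | h1 | h1
  · exact Or.inl h1
  · exact Or.inr (Or.inl h1)
  · exact Or.inr (Or.inr (locS_hz' v hv h _ h1))

/-- the shift of the coefficients -/
theorem conM_shift {F : Type} [Field F] [Algebra F ℂ]
    (BF : MvPolynomial (Fin N) ℂ → Polynomial ℂ → Prop) (v : Fin r → Fin N → ℕ)
    (h : MvPolynomial (Fin N) F) (g : MvPolynomial (Fin r) F) (hC : ConM BF v (hz v h) g) :
    ConM BF v h (shf (cof v h) g) := by
  intro k _ _ _ _ c hc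
  have hmap : ∀ {K : Type} [Field K] (φ : F →+* K) (c' : Fin r → K),
      spa v c' + MvPolynomial.map φ h =
        spa v (fun j => c' j + φ (cof v h j)) + MvPolynomial.map φ (hz v h) := by
    intro K _ φ c'
    rw [spa_add]
    unfold hz
    rw [map_sub, map_spa]
    ring
  rw [shf_eval] at hc
  have hc' : aeval (fun j => algebraMap k ℂ (c j + algebraMap F k (cof v h j))) g ≠ 0 := by
    have e : (fun j => algebraMap k ℂ (c j + algebraMap F k (cof v h j))) =
        fun j => algebraMap k ℂ (c j) + algebraMap F ℂ (cof v h j) := by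
      funext j
      rw [map_add, ← IsScalarTower.algebraMap_apply]
    rw [e]
    exact hc
  obtain ⟨S, hS, hz1, hz2⟩ := hC k (fun j => c j + algebraMap F k (cof v h j)) hc'
  refine ⟨S, fun p hp => ?_, fun K _ _ W E hW hE => ?_, ?_⟩
  · obtain ⟨h1, h2, h3⟩ := hS p hp
    refine ⟨h1, h2, fun b hb => h3 b ?_⟩
    rw [hmap] at hb
    have e : (fun j => algebraMap k ℂ (c j + algebraMap F k (cof v h j))) =
        fun j => algebraMap k ℂ (c j) + algebraMap F ℂ (cof v h j) := by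
      funext j
      rw [map_add, ← IsScalarTower.algebraMap_apply]
    rw [e]
    exact hb
  · rw [hmap]
    have h3 := hz1 K W E hW hE
    have e : (fun j => algebraMap k K (c j + algebraMap F k (cof v h j))) =
        fun j => algebraMap k K (c j) + ((algebraMap k K).comp (algebraMap F k)) (cof v h j) := by
      funext j
      rw [map_add]
      rfl
    rw [e] at h3
    exact h3
  · rw [hmap]
    exact hz2

/-- **Generic coefficients, global `b`-functions.** -/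
theorem gen_mot {F : Type} [Field F] [Algebra F ℂ] (hr : 0 < r)
    (v : Fin r → Fin N → ℕ) (hv : Function.Injective v) (hv0 : ∀ j, v j ≠ 0)
    (h : MvPolynomial (Fin N) F) (hh : ∀ w ∈ h.support, NP v w) (hL : HypM False v h) :
    ∃ g : MvPolynomial (Fin r) F, g ≠ 0 ∧ ConM IsBFunction v h g := by
  have hne : NeZero r := ⟨by omega⟩
  have hh' : ∀ w ∈ (hz v h).support, NP v w := fun w hw => hh w ((hz_support v hv h).1 w hw)
  obtain ⟨g, hg, hgc⟩ := gen0 hr IsBFunction (fun α => HP v (hz v h) α 0) False v hv (hz v h) hh'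
    (hz_support v hv h).2 (fun α hα => relF v hv hv0 (hz v h) hh' α hα)
    (rootsF hr v hv hv0 (hz v h) hh') (fun u hu hn => hp_nonB v hv hv0 (hz v h) hh' u hu hn)
    (hypM_hz False v hv h hL)
  exact ⟨shf (cof v h) g, shf_ne _ _ hg, conM_shift _ v h g hgc⟩

/-- **Generic coefficients, local `b`-functions at the origin.** -/
theorem gen_motLoc {F : Type} [Field F] [Algebra F ℂ] (hr : 0 < r)
    (v : Fin r → Fin N → ℕ) (hv : Function.Injective v) (hv0 : ∀ j, v j ≠ 0)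
    (h : MvPolynomial (Fin N) F) (hh : ∀ w ∈ h.support, NP v w) (hL : HypM True v h) :
    ∃ g : MvPolynomial (Fin r) F, g ≠ 0 ∧ ConM IsLocalBFunction v h g := by
  have hne : NeZero r := ⟨by omega⟩
  have hh' : ∀ w ∈ (hz v h).support, NP v w := fun w hw => hh w ((hz_support v hv h).1 w hw)
  obtain ⟨g, hg, hgc⟩ := gen0 hr IsLocalBFunction (fun α => HPL v (hz v h) α 0) True v hv
    (hz v h) hh'
    (hz_support v hv h).2 (fun α hα => relL v hv hv0 (hz v h) hh' α hα)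
    (rootsL hr v hv hv0 (hz v h) hh') (fun u hu hn => hpl_nonB v hv hv0 (hz v h) hh' u hu hn)
    (hypM_hz True v hv h hL)
  exact ⟨shf (cof v h) g, shf_ne _ _ hg, conM_shift _ v h g hgc⟩

end Pool.Agent.TH216.MC
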