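import Pool.Agent.TH216.MF.MotK
import Pool.Agent.TH216.MF.ExtL
import Pool.Agent.TH216.MF.H3
import Pool.Agent.W425.GN.MotL

set_option autoImplicit false

/-! Motivic zeta functions: affinely independent exponents and generic coefficients. -/

namespace Pool.Agent.TH216.MC

open MvPolynomial Pool.Agent.H628R4.TP Pool.Agent.W425.MM Pool.Agent.W425.GN
open Pool.Agent.W425.ND (spa)
open Pool.Agent.W426.SM (gord IsRay face)
open Pool.Agent.W803.SM (gord_le exists_gord)
open Pool.Agent.W425.BF (B1 BD shf shf_eval shf_ne hz hz_support hz_eq cof gen_rootsJ)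
open Pool.Agent.W425.SV (NP RelV Kil1)
open Pool.Agent.W425.SM (Ind)
open Pool.Agent.TH216.MF (RelG KilU Spread KRelJ RecJ recJ_ind recJ_gen krelJ_phi aJ_phi PhiC InC
  kept ke LocS mem_kept ke_mem inC_append inC_self hypS_of_locS relG_of_relV relG_ext
  relG_of_relM nonD_of_ind locS_hz)
open Pool.Agent.W428.MOT (Pt Constr ratRing sp LuMu InRat zetaE)
open Pool.Agent.W375.MG (zetaG Good)

/-- the bad levels -/
def HB {n r : ℕ} (m : Fin r → Fin n → ℕ) (Bad : ℚ → Prop) : Prop :=
  ∀ J : Finset (Fin n), ∀ q : ℕ, 2 ≤ q → ∀ e : Finset (Fin r) → ℂ, KRelJ q m J e →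
      ∀ T0 : ℂ, T0 ≠ 0 → ∀ σ : ℚ, Bad σ → Real.log ‖T0‖ / Real.log q = (σ : ℝ) →
      RecJ q m e J T0

theorem both {n r : ℕ} (m : Fin r → Fin n → ℕ) (hr0 : 0 < r) (Bad : ℚ → Prop) (hB : HB m Bad) :
    ∃ S : Finset (ℤ × ℤ),
      (∀ p ∈ S, p = (-1, 1) ∨ ∃ a : Fin n → ℕ, IsRay m a ∧ 0 < gord m a ∧
        ¬ Bad (((∑ i, a i : ℕ) : ℚ) / gord m a) ∧
        p = (-((∑ i, a i : ℕ) : ℤ), (gord m a : ℤ))) ∧
      (∀ (K : Type) [Field K] [CharZero K] (c : Fin r → K), Mot.NonG m c → (∀ j, c j ≠ 0) →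
      ∀ (W : Set (Pt K (Fin n))) (E : Set (AlgebraicClosure K)), Constr W → Good E →
        zetaG (sp 0 m c 1) W E ∈ ratRing K S) ∧
      ∀ (k : Type) [Field k] [CharZero k] (c : Fin r → k), Mot.NonG m c → (∀ j, c j ≠ 0) →
        InRat (LuMu (sp 0 m c 1)) S (zetaE (sp 0 m c 1)) := by
  obtain ⟨S1, h1, h1'⟩ := fin_bad m hr0 Bad hB
  obtain ⟨S2, h2, h2'⟩ := efin_bad m hr0 Bad hB
  refine ⟨S1 ∪ S2, fun p hp => (Finset.mem_union.1 hp).elim (h1 p) (h2 p), ?_, ?_⟩
  · intro K _ _ c hN hc W E hW hE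
    refine Algebra.adjoin_mono (Set.union_subset_union_right _ ?_) (h1' K c hN hc W E hW hE)
    rintro g ⟨p, hp, rfl⟩
    exact ⟨p, Finset.mem_coe.2 (Finset.mem_union_left _ (Finset.mem_coe.1 hp)), rfl⟩
  · intro k _ _ c hN hc
    have h3 := h2' k c hN hc
    unfold InRat at h3 ⊢
    refine Algebra.adjoin_mono (Set.union_subset_union_right _ ?_) h3
    rintro g ⟨p, hp, rfl⟩
    exact ⟨p, Finset.mem_coe.2 (Finset.mem_union_right _ (Finset.mem_coe.1 hp)), rfl⟩

theorem hb_ind {n r : ℕ} (m : Fin r → Fin n → ℕ) (P : Polynomial ℂ)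
    (hP : RelG m (Kil1 m) (Spread m) P) : HB m fun σ => P.eval (-(σ : ℂ)) ≠ 0 := by
  intro J q hq e he T0 hT0 σ hσ hlog
  refine recJ_ind q hq m P hP J e he T0 hT0 ?_
  have h1 : ((-Real.log ‖T0‖ / Real.log q : ℝ) : ℂ) = -(σ : ℂ) := by
    rw [neg_div, hlog]
    push_cast
    rfl
  rw [h1]
  exact hσ

variable {r N : ℕ}

/-- every member of a finite set of candidate pairs -/
theorem pos_of_ray {m : Fin r → Fin N → ℕ} {a : Fin N → ℕ} (ha : IsRay m a) :
    -((∑ i, a i : ℕ) : ℤ) < 0 := by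
  have h4 : 0 < ∑ i, a i := by
    by_contra hcon
    exact ha.1 (funext fun i =>
      Finset.sum_eq_zero_iff.1 (Nat.eq_zero_of_not_pos hcon) i (Finset.mem_univ i))
  simp only [Left.neg_neg_iff]
  exact_mod_cast h4

/-- **Affinely independent exponents.** -/
theorem ind_mot {k : Type} [Field k] [Algebra k ℂ] (hr : 2 ≤ r) (v : Fin r → Fin N → ℕ)
    (hv : Ind v) (c : Fin r → k) (hc : ∀ j, c j ≠ 0) :
    ∃ S : Finset (ℤ × ℤ),
      (∀ p ∈ S, p.1 < 0 ∧ 0 < p.2 ∧ ∀ b : Polynomial ℂ, IsBFunction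
        (spa v (fun j => algebraMap k ℂ (c j))) b → b.eval ((p.1 : ℂ) / p.2) = 0) ∧
      (∀ (K : Type) [Field K] [Algebra k K] (W : Set (Pt K (Fin N)))
        (E : Set (AlgebraicClosure K)), Constr W → Good E →
        zetaG (spa v (fun j => algebraMap k K (c j))) W E ∈ ratRing K S) ∧
      InRat (LuMu (spa v c)) S (zetaE (spa v c)) := by
  classical
  have hr0 : 0 < r := by omega
  have hkc : CharZero k := RingHom.charZero (algebraMap k ℂ)
  set f : MvPolynomial (Fin N) ℂ := spa v (fun j => algebraMap k ℂ (c j)) with hf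
  have hcC : ∀ j, algebraMap k ℂ (c j) ≠ 0 := fun j => (map_ne_zero _).2 (hc j)
  have hnd : NonD v (fun j => algebraMap k ℂ (c j)) := nonD_of_ind hr0 v hv _ hcC
  have hA : ∀ b : Polynomial ℂ, IsBFunction f b → ∃ P, b = (Polynomial.X + 1) * P ∧
      RelG v (Kil1 v) (Spread v) P := by
    intro b hb
    obtain ⟨P, h1, h2⟩ := Pool.Agent.W525.SM.taskA v _ b hr hv hcC hb
    exact ⟨P, h1, relG_of_relM v P h2⟩
  have hB : HB v fun σ => ∃ b, IsBFunction f b ∧ b.eval (-(σ : ℂ)) ≠ 0 := by
    rintro J q hq e he T0 hT0 σ ⟨b, hb, hne⟩ hlog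
    obtain ⟨P, h1, h2⟩ := hA b hb
    refine hb_ind v P h2 J q hq e he T0 hT0 σ ?_ hlog
    intro h3
    apply hne
    rw [h1, Polynomial.eval_mul, h3, mul_zero]
  obtain ⟨S, hS, hz1, hz2⟩ := both v hr0 _ hB
  have hsp : ∀ {K : Type} [Field K] (c' : Fin r → K), spa v c' = sp 0 v c' 1 := by
    intro K _ c'
    unfold sp spa
    simp
  refine ⟨S, fun p hp => ?_, ?_, ?_⟩
  · rcases hS p hp with rfl | ⟨a, ha, hg, hn, rfl⟩
    · refine ⟨by norm_num, by norm_num, fun b hb => ?_⟩
      obtain ⟨P, h1, -⟩ := hA b hb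
      rw [h1, Polynomial.eval_mul]
      simp
    · refine ⟨pos_of_ray ha, Int.natCast_pos.2 hg, fun b hb => ?_⟩
      by_contra hne
      apply hn
      refine ⟨b, hb, ?_⟩
      have e : -((((∑ i, a i : ℕ) : ℚ) / gord v a : ℚ) : ℂ) =
          ((-((∑ i, a i : ℕ) : ℤ) : ℤ) : ℂ) / ((gord v a : ℤ) : ℂ) := by
        push_cast
        ring
      rw [e]
      exact hne
  · intro K _ _ W E hW hE
    have hK : CharZero K := charZero_of_injective_algebraMap (algebraMap k K).injective
    rw [hsp]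
    refine hz1 K _ (nonG_of_nonD _ _ ?_) (fun j => (map_ne_zero _).2 (hc j)) W E hW hE
    have h4 := nonD_ext (k := k) (L := AlgebraicClosure K) _ _ hnd
    have h5 : (fun j => algebraMap K (AlgebraicClosure K) (algebraMap k K (c j))) =
        fun j => algebraMap k (AlgebraicClosure K) (c j) := by
      funext j
      rw [← IsScalarTower.algebraMap_apply]
    rw [h5]
    exact h4
  · rw [hsp]
    exact hz2 k c (nonG_of_nonD _ _ (nonD_ext (k := k) (L := AlgebraicClosure k) _ _ hnd)) hc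

/-! ### Generic coefficients -/

/-- the bad levels, for exponents with those of `h` -/
theorem hb_gen (hr : 0 < r) {F : Type} [Field F] (v : Fin r → Fin N → ℕ)
    (hv : Function.Injective v) (h : MvPolynomial (Fin N) F) (hh : ∀ w ∈ h.support, NP v w)
    (hvh : ∀ w ∈ h.support, ∀ j, ¬ ∀ x, w x = v j x) (P : ℚ → Prop)
    (hP : ∀ α, ¬ P α → ∃ (θ : Fin (r + (kept v h).card) → ℤ) (p : Polynomial ℂ),
      RelG (Fin.append v (ke v h)) (Kil1 (Fin.append v (ke v h)))
        (KilU (Fin.append v (ke v h)) θ) p ∧ p.eval (α : ℂ) ≠ 0) :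
    HB (Fin.append v (we h)) fun σ => LocS v h σ ∧ ¬ P (-σ) := by
  classical
  have hminj : Function.Injective (Fin.append v (we h)) := by
    intro j j'
    refine Fin.addCases (fun j => ?_) (fun l => ?_) j <;>
      refine Fin.addCases (fun j' => ?_) (fun l' => ?_) j'
    · rw [Fin.append_left, Fin.append_left]
      intro h3
      rw [hv h3]
    · rw [Fin.append_left, Fin.append_right]
      intro h3
      exact absurd (fun x => (congrFun h3 x).symm)
        (hvh _ (h.support.equivFin.symm l').2 j)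
    · rw [Fin.append_left, Fin.append_right]
      intro h3
      exact absurd (fun x => congrFun h3 x) (hvh _ (h.support.equivFin.symm l).2 j')
    · rw [Fin.append_right, Fin.append_right]
      intro h3
      have h4 : (h.support.equivFin.symm l) = (h.support.equivFin.symm l') :=
        Subtype.ext (Finsupp.ext fun x => congrFun h3 x)
      rw [h.support.equivFin.symm.injective h4]
  have hma : ∀ j', ∃ j, Fin.append v (we h) j = Fin.append v (ke v h) j' := by
    intro j'
    refine Fin.addCases (fun j => ?_) (fun l => ?_) j'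
    · exact ⟨Fin.castAdd _ j, by rw [Fin.append_left, Fin.append_left]⟩
    · obtain ⟨w, hw, hwe, -⟩ := ke_mem v h l
      refine ⟨Fin.natAdd r (h.support.equivFin ⟨w, hw⟩), ?_⟩
      rw [Fin.append_right, Fin.append_right]
      funext i
      rw [hwe]
      unfold we
      rw [Equiv.symm_apply_apply]
  have hmb : ∀ j, InC (Fin.append v (ke v h)) Finset.univ (Fin.append v (we h) j) := by
    intro j
    refine Fin.addCases (fun j => ?_) (fun l => ?_) j
    · rw [Fin.append_left]
      exact inC_append v _ _ (inC_self v _ j (Finset.mem_univ _))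
    · rw [Fin.append_right]
      by_cases hC : InC v Finset.univ (we h l)
      · exact inC_append v _ _ hC
      · have hmem : (h.support.equivFin.symm l).1 ∈ kept v h :=
          (mem_kept v h _).2 ⟨(h.support.equivFin.symm l).2, hC⟩
        have h3 : Fin.append v (ke v h) (Fin.natAdd r ((kept v h).equivFin ⟨_, hmem⟩)) =
            we h l := by
          rw [Fin.append_right]
          funext i
          unfold ke
          rw [Equiv.symm_apply_apply]
          rfl
        rw [← h3]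
        exact inC_self _ _ _ (Finset.mem_univ _)
  rintro J q hq e he T0 hT0 σ ⟨hL, hPσ⟩ hlog
  obtain ⟨θ, p, hrel, hp⟩ := hP _ hPσ
  have he' := krelJ_phi (Fin.append v (we h)) (Fin.append v (ke v h)) hminj hma q J e he
  have h1 : ((-Real.log ‖T0‖ / Real.log q : ℝ) : ℂ) = ((-σ : ℚ) : ℂ) := by
    rw [neg_div, hlog]
    push_cast
    rfl
  obtain ⟨Q, hQ, hrec⟩ := recJ_gen q hq (Fin.append v (ke v h)) p θ hrel J _ he' T0 hT0
    (by rw [h1]; exact hp) (by rw [hlog]; exact hypS_of_locS hr v h hh σ hL)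
  refine ⟨Q, hQ, ?_⟩
  filter_upwards [hrec] with t ht
  rw [← ht]
  refine Finset.sum_congr rfl fun m _ => ?_
  rw [aJ_phi (Fin.append v (we h)) (Fin.append v (ke v h)) (by omega) (by omega) hma hmb]

/-- the rings, for all the coefficients -/
theorem gen_S0 (hr : 0 < r) {F : Type} [Field F] (v : Fin r → Fin N → ℕ)
    (hv : Function.Injective v) (h : MvPolynomial (Fin N) F) (hh : ∀ w ∈ h.support, NP v w)
    (hvh : ∀ w ∈ h.support, ∀ j, ¬ ∀ x, w x = v j x) (P : ℚ → Prop)
    (hP : ∀ α, ¬ P α → ∃ (θ : Fin (r + (kept v h).card) → ℤ) (p : Polynomial ℂ),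
      RelG (Fin.append v (ke v h)) (Kil1 (Fin.append v (ke v h)))
        (KilU (Fin.append v (ke v h)) θ) p ∧ p.eval (α : ℂ) ≠ 0) :
    ∃ S : Finset (ℤ × ℤ),
      (∀ p ∈ S, p = (-1, 1) ∨ ∃ a : Fin N → ℕ, IsRay v a ∧ 0 < gord v a ∧
        (LocS v h (((∑ i, a i : ℕ) : ℚ) / gord v a) → P (-(((∑ i, a i : ℕ) : ℚ) / gord v a))) ∧
        p = (-((∑ i, a i : ℕ) : ℤ), (gord v a : ℤ))) ∧
      ∀ (k : Type) [Field k] [Algebra F k] [Algebra k ℂ] (c : Fin r → k), (∀ j, c j ≠ 0) →
        NonD (Fin.append v (we h)) (fun j => algebraMap k ℂ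
          (Fin.append c (fun l => algebraMap F k (wc h l)) j)) →
        (∀ (K : Type) [Field K] [Algebra k K] (W : Set (Pt K (Fin N)))
          (E : Set (AlgebraicClosure K)), Constr W → Good E →
          zetaG (spa v (fun j => algebraMap k K (c j)) +
            MvPolynomial.map ((algebraMap k K).comp (algebraMap F k)) h) W E ∈ ratRing K S) ∧
        InRat (LuMu (spa v c + MvPolynomial.map (algebraMap F k) h)) S
          (zetaE (spa v c + MvPolynomial.map (algebraMap F k) h)) := by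
  classical
  have hray := pRAY v (we h) hr (we_np v h hh)
  obtain ⟨S, hS, hz1, hz2⟩ := both (Fin.append v (we h)) (by omega) _
    (hb_gen hr v hv h hh hvh P hP)
  refine ⟨S, fun p hp => ?_, fun k _ _ _ c hc hnk => ⟨fun K _ _ W E hW hE => ?_, ?_⟩⟩
  · rcases hS p hp with h1 | ⟨a, ha, hg, hn, h1⟩
    · exact Or.inl h1
    · right
      obtain ⟨hga, hra⟩ := hray a
      rw [hga] at hg hn h1
      refine ⟨a, hra ha, hg, fun hL => ?_, h1⟩
      by_contra hcon
      exact hn ⟨hL, hcon⟩
  · have hK : CharZero K := by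
      have hkc : CharZero k := RingHom.charZero (algebraMap k ℂ)
      exact charZero_of_injective_algebraMap (algebraMap k K).injective
    rw [sp_eq]
    refine hz1 K _ (nonG_of_nonD _ _ ?_) (fun j => ?_) W E hW hE
    · have h4 := nonD_ext (k := k) (L := AlgebraicClosure K) _ _ hnk
      have h5 : (fun j => algebraMap K (AlgebraicClosure K)
          (Fin.append (fun j => algebraMap k K (c j))
            (fun l => (algebraMap k K).comp (algebraMap F k) (wc h l)) j)) =
          fun j => algebraMap k (AlgebraicClosure K)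
            (Fin.append c (fun l => algebraMap F k (wc h l)) j) := by
        rw [append_map, append_map]
        congr 1
      rw [h5]
      exact h4
    · refine Fin.addCases (fun j => ?_) (fun l => ?_) j
      · rw [Fin.append_left]
        exact (map_ne_zero _).2 (hc j)
      · rw [Fin.append_right]
        exact (map_ne_zero _).2 (mem_support_iff.1 (h.support.equivFin.symm l).2)
  · have hkc : CharZero k := RingHom.charZero (algebraMap k ℂ)
    rw [sp_eq]
    refine hz2 k _ (nonG_of_nonD _ _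
      (nonD_ext (k := k) (L := AlgebraicClosure k) _ _ hnk)) (fun j => ?_)
    refine Fin.addCases (fun j => ?_) (fun l => ?_) j
    · rw [Fin.append_left]
      exact hc j
    · rw [Fin.append_right]
      exact (map_ne_zero _).2 (mem_support_iff.1 (h.support.equivFin.symm l).2)

end Pool.Agent.TH216.MC
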