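import Pool.Agent.TH216.HD
import Pool.Agent.TH216.MF.MotM

set_option autoImplicit false

/-! The conditions of `Pool.Agent.TH216.HD`, and the motivic zeta functions. -/

namespace Pool.Agent.TH216.HD

open MvPolynomial Pool.Agent.H628R4.TP
open Pool.Agent.W428.MOT (Pt Constr ratRing LuMu InRat zetaE)
open Pool.Agent.W375.MG (zetaG Good)

variable {r n : ℕ}

lemma inC_iff (v : Fin r → Fin n → ℕ) (w : Fin n →₀ ℕ) :
    Pool.Agent.TH216.MF.InC v Finset.univ (fun i => w i) ↔ InHull v w := by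
  constructor
  · rintro ⟨l, h1, -, h3, h4⟩
    exact ⟨l, h1, h3, h4⟩
  · rintro ⟨l, h1, h3, h4⟩
    exact ⟨l, h1, fun j hj => absurd (Finset.mem_univ j) hj, h3, h4⟩

lemma simH_iff {R : Type} [CommRing R] (v : Fin r → Fin n → ℕ) (h : MvPolynomial (Fin n) R)
    (a : Fin n → ℕ) : Pool.Agent.TH216.MF.SimH v h a ↔ Simp v h a := by
  refine and_congr Iff.rfl (forall_congr' fun w => forall_congr' fun _ => forall_congr' fun _ => ?_)
  exact inC_iff v w

lemma locS_iff {R : Type} [CommRing R] (v : Fin r → Fin n → ℕ) (h : MvPolynomial (Fin n) R)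
    (σ : ℚ) : Pool.Agent.TH216.MF.LocS v h σ ↔ LocS v h σ := by
  refine forall_congr' fun j1 => exists_congr fun i => forall_congr' fun a => forall_congr' fun _ =>
    forall_congr' fun _ => forall_congr' fun _ => forall_congr' fun _ => ?_
  exact or_congr (simH_iff v h a) Iff.rfl

lemma hyp_iff {R : Type} [CommRing R] (loc : Prop) (v : Fin r → Fin n → ℕ)
    (h : MvPolynomial (Fin n) R) : Pool.Agent.TH216.MC.HypM loc v h ↔ Hyp loc v h := by
  refine forall_congr' fun a => forall_congr' fun _ => forall_congr' fun _ => ?_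
  exact or_congr Iff.rfl (or_congr Iff.rfl (locS_iff v h _))

lemma map_poly {F k K : Type} [Field F] [Field k] [Field K] [Algebra F k] [Algebra k K]
    (v : Fin r → Fin n → ℕ) (c : Fin r → k) (h : MvPolynomial (Fin n) F) :
    MvPolynomial.map (algebraMap k K) (poly v c h) =
      Pool.Agent.W425.ND.spa v (fun j => algebraMap k K (c j)) +
        MvPolynomial.map ((algebraMap k K).comp (algebraMap F k)) h := by
  unfold poly Pool.Agent.W425.ND.spa
  rw [map_add, MvPolynomial.map_map]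
  congr 1
  simp

/-- the conclusion, with `poly` -/
lemma con_poly {F : Type} [Field F] [Algebra F ℂ]
    (BF : MvPolynomial (Fin n) ℂ → Polynomial ℂ → Prop)
    (v : Fin r → Fin n → ℕ) (h : MvPolynomial (Fin n) F) (g : MvPolynomial (Fin r) F)
    (hC : Pool.Agent.TH216.MC.ConM BF v h g) (k : Type) [Field k] [Algebra F k] [Algebra k ℂ]
    [IsScalarTower F k ℂ] (c : Fin r → k) (hc : aeval c g ≠ 0) :
    ∃ S : Finset (ℤ × ℤ),
      (∀ p ∈ S, p.1 < 0 ∧ 0 < p.2 ∧ ∀ b : Polynomial ℂ,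
        BF (poly v (fun j => algebraMap k ℂ (c j)) h) b → b.eval ((p.1 : ℂ) / p.2) = 0) ∧
      (∀ (K : Type) [Field K] [Algebra k K] (W : Set (Pt K (Fin n)))
        (E : Set (AlgebraicClosure K)), Constr W → Good E →
        zetaG (MvPolynomial.map (algebraMap k K) (poly v c h)) W E ∈ ratRing K S) ∧
      InRat (LuMu (poly v c h)) S (zetaE (poly v c h)) := by
  obtain ⟨S, hS, hz, hE⟩ := hC k c (fun h0 => hc (by
    have h1 : algebraMap k ℂ (aeval c g) = 0 := by
      rw [← h0, ← aeval_algebraMap_apply]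
      rfl
    exact (map_eq_zero _).1 h1))
  refine ⟨S, hS, fun K _ _ W E hW hE => ?_, hE⟩
  rw [map_poly]
  exact hz K W E hW hE

/-- generic coefficients, global `b`-functions -/
theorem genM {F : Type} [Field F] [Algebra F ℂ] (hr : 0 < r)
    (v : Fin r → Fin n → ℕ) (hv : Function.Injective v) (hv0 : ∀ j, v j ≠ 0)
    (h : MvPolynomial (Fin n) F) (hh : ∀ w ∈ h.support, InPoly v w) (hL : Hyp False v h) :
    ∃ g : MvPolynomial (Fin r) F, g ≠ 0 ∧ ∀ (k : Type) [Field k] [Algebra F k] [Algebra k ℂ]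
      [IsScalarTower F k ℂ] (c : Fin r → k), aeval c g ≠ 0 →
      ∃ S : Finset (ℤ × ℤ),
        (∀ p ∈ S, p.1 < 0 ∧ 0 < p.2 ∧ ∀ b : Polynomial ℂ,
          IsBFunction (poly v (fun j => algebraMap k ℂ (c j)) h) b →
            b.eval ((p.1 : ℂ) / p.2) = 0) ∧
        (∀ (K : Type) [Field K] [Algebra k K] (W : Set (Pt K (Fin n)))
          (E : Set (AlgebraicClosure K)), Constr W → Good E →
          zetaG (MvPolynomial.map (algebraMap k K) (poly v c h)) W E ∈ ratRing K S) ∧
        InRat (LuMu (poly v c h)) S (zetaE (poly v c h)) := by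
  obtain ⟨g, hg, hgz⟩ := Pool.Agent.TH216.MC.gen_mot (F := F) hr v hv hv0 h hh
    ((hyp_iff _ v h).2 hL)
  exact ⟨g, hg, fun k _ _ _ _ c hc => con_poly _ v h g hgz k c hc⟩

/-- generic coefficients, local `b`-functions at the origin -/
theorem genL {F : Type} [Field F] [Algebra F ℂ] (hr : 0 < r)
    (v : Fin r → Fin n → ℕ) (hv : Function.Injective v) (hv0 : ∀ j, v j ≠ 0)
    (h : MvPolynomial (Fin n) F) (hh : ∀ w ∈ h.support, InPoly v w) (hL : Hyp True v h) :
    ∃ g : MvPolynomial (Fin r) F, g ≠ 0 ∧ ∀ (k : Type) [Field k] [Algebra F k] [Algebra k ℂ]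
      [IsScalarTower F k ℂ] (c : Fin r → k), aeval c g ≠ 0 →
      ∃ S : Finset (ℤ × ℤ),
        (∀ p ∈ S, p.1 < 0 ∧ 0 < p.2 ∧ ∀ b : Polynomial ℂ,
          IsLocalBFunction (poly v (fun j => algebraMap k ℂ (c j)) h) b →
            b.eval ((p.1 : ℂ) / p.2) = 0) ∧
        (∀ (K : Type) [Field K] [Algebra k K] (W : Set (Pt K (Fin n)))
          (E : Set (AlgebraicClosure K)), Constr W → Good E →
          zetaG (MvPolynomial.map (algebraMap k K) (poly v c h)) W E ∈ ratRing K S) ∧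
        InRat (LuMu (poly v c h)) S (zetaE (poly v c h)) := by
  obtain ⟨g, hg, hgz⟩ := Pool.Agent.TH216.MC.gen_motLoc (F := F) hr v hv hv0 h hh
    ((hyp_iff _ v h).2 hL)
  exact ⟨g, hg, fun k _ _ _ _ c hc => con_poly _ v h g hgz k c hc⟩

end Pool.Agent.TH216.HD
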