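import Pool.Agent.TH216.MF.Null

set_option autoImplicit false
set_option linter.unusedSectionVars false
set_option linter.unusedSimpArgs false

/-! Steps A and B with multiplicities. -/

namespace Pool.Agent.TH216.MF

open MvPolynomial Pool.Agent.H628R4.TZ Pool.Agent.W425.SM

variable {r N : ℕ}

section
variable {A : Type*} [CommRing A] [Algebra ℂ A] [Algebra ℚ A]

/-- The local statement, with multiplicities. -/
theorem stepAM (q : ℕ) (hq : 2 ≤ q) (v : Fin r → Fin N → ℕ) (G : ℕ) (hG : Good v G)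
    (M n n0 : ℕ) (c : Fin n → Fin r → ℤ) (B : Fin n → Finset (Fin N))
    (Q : Fin n → MvPolynomial (Fin r) ℂ) (c0 : Fin n0 → Fin r → ℤ)
    (Q0 : Fin n0 → MvPolynomial (Fin r) ℂ) (p : Polynomial ℂ) (μ : ℕ) (p1 : Polynomial ℂ)
    (hrel : Polynomial.aeval (∑ j, X j : MvPolynomial (Fin r) ℂ) p * ∏ j, dm M j =
      ∑ k, (∏ i ∈ B k, el v i) * ((∏ j, if c k j < 0 then X j * dm M j else 1) * Q k) +
      ∑ k, (∏ j, if c0 k j < 0 then X j * dm M j else 1) * Q0 k)
    (I : Ideal (MvPolynomial (Fin r) ℂ)) (hI1 : ∀ k, gen1 q v G M (c k) (B k) ∈ I)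
    (hI0 : ∀ k, gen1 q v G M (c0 k) ∅ ∈ I)
    (ts : Fin r → ℂ) (hts : ∀ j, ts j ≠ 0)
    (hpp : p = (Polynomial.X -
      Polynomial.C ((-Real.log ‖∏ j, ts j‖ / Real.log q : ℝ) : ℂ)) ^ μ * p1)
    (hp : p1.eval ((-Real.log ‖∏ j, ts j‖ / Real.log q : ℝ) : ℂ) ≠ 0)
    (t : Fin r → A) (ht : ∀ j, IsNilpotent (t j - algebraMap ℂ A (ts j))) :
    aeval t ((tau r - C (∏ j, ts j)) ^ μ * ∏ j, dj q G M j) ∈
      I.map (aeval t : MvPolynomial (Fin r) ℂ →ₐ[ℂ] A) := by
  classical
  obtain ⟨X0, hX1, hX2, hX3, hX4⟩ := exX q hq v G hG M ts hts p1 hp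
  have hq1 : (1 : ℝ) < q := by exact_mod_cast (by omega : 1 < q)
  have hlog : Real.log q ≠ 0 := (Real.log_pos hq1).ne'
  have hq0 : (q : ℂ) ≠ 0 := by
    have : q ≠ 0 := by omega
    exact_mod_cast this
  set lam : ℂ := (Real.log q : ℂ) with hlam
  have hlam0 : lam ≠ 0 := by
    rw [hlam]
    exact_mod_cast hlog
  -- logarithms
  have h1 : ∀ j, ∃ Y : A, IsNilpotent Y ∧ t j = algebraMap ℂ A (ts j) * IsNilpotent.exp Y := by
    intro j
    have hn : IsNilpotent (algebraMap ℂ A (ts j)⁻¹ * (t j - algebraMap ℂ A (ts j))) :=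
      (Commute.all _ _).isNilpotent_mul_left (ht j)
    obtain ⟨Y, c, hY, hYe⟩ := exists_log hn
    refine ⟨Y, ?_, ?_⟩
    · rw [hY]
      exact (Commute.all _ _).isNilpotent_mul_right hn
    · rw [hYe, mul_add, mul_one, ← mul_assoc, ← map_mul, mul_inv_cancel₀ (hts j), map_one, one_mul]
      ring
  choose Y hYn hYt using h1
  set x : Fin r → A := fun j => algebraMap ℂ A (X0 j) - algebraMap ℂ A lam⁻¹ * Y j with hx
  have hxn : ∀ j, IsNilpotent (x j - algebraMap ℂ A (X0 j)) := by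
    intro j
    rw [hx]
    have e : algebraMap ℂ A (X0 j) - algebraMap ℂ A lam⁻¹ * Y j - algebraMap ℂ A (X0 j) =
        -(algebraMap ℂ A lam⁻¹ * Y j) := by ring
    simp only [e]
    exact ((Commute.all _ _).isNilpotent_mul_left (hYn j)).neg
  -- `el`
  have hel : ∀ i, aeval t (elm q v i) ∣ aeval x (el v i) := by
    intro i
    by_cases hi : aeval ts (elm q v i) = 0
    · -- both are unit multiples of `S`
      have hYn' : ∀ j, IsNilpotent ((v j i : A) * Y j) := fun j => (exp_nsmul (hYn j) (v j i)).1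
      obtain ⟨hS, hSe⟩ := exp_sum Finset.univ (fun j => (v j i : A) * Y j) fun j _ => hYn' j
      obtain ⟨u, hu, hue⟩ := exp_unit hS
      set S : A := ∑ j, (v j i : A) * Y j with hSd
      have h2 : aeval t (elm q v i) = - (S * u) := by
        unfold elm
        rw [map_sub, map_one, map_mul, map_prod, aeval_C]
        have h3 : ∏ j, aeval t ((X j : MvPolynomial (Fin r) ℂ) ^ v j i) =
            algebraMap ℂ A (∏ j, ts j ^ v j i) * IsNilpotent.exp S := by
          rw [hSe, map_prod, ← Finset.prod_mul_distrib]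
          refine Finset.prod_congr rfl fun j _ => ?_
          rw [map_pow, aeval_X, hYt j, mul_pow, map_pow, (exp_nsmul (hYn j) (v j i)).2]
        rw [h3, (norm_rel q hq v ts i hts hi).1, ← mul_assoc, ← map_mul, inv_mul_cancel₀ hq0,
          map_one, one_mul, hue]
        ring
      have h4 : aeval x (el v i) = - (algebraMap ℂ A lam⁻¹ * S) := by
        rw [aeval_el]
        have h5 : ∑ j, (v j i : A) * x j = algebraMap ℂ A (∑ j, (v j i : ℂ) * X0 j) -
            algebraMap ℂ A lam⁻¹ * S := by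
          rw [map_sum, hSd, Finset.mul_sum, ← Finset.sum_sub_distrib]
          refine Finset.sum_congr rfl fun j _ => ?_
          rw [hx, map_mul, map_natCast]
          ring
        rw [h5, ← add_sub_assoc, ← map_one (algebraMap ℂ A), ← map_add, hX1 i hi, map_zero]
        ring
      rw [h2, h4, neg_dvd, dvd_neg]
      obtain ⟨w, hw⟩ := hu.exists_right_inv
      refine ⟨w * algebraMap ℂ A lam⁻¹, ?_⟩
      calc algebraMap ℂ A lam⁻¹ * S = (u * w) * (algebraMap ℂ A lam⁻¹ * S) := by rw [hw, one_mul]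
        _ = S * u * (w * algebraMap ℂ A lam⁻¹) := by ring
    · exact (unit_aeval ts t ht _ hi).dvd
  -- `dm`
  have hdm : ∀ j, aeval x (dm M j) ∣ aeval t (dj q G M j) := by
    intro j
    rw [aeval_dm, aeval_dj]
    refine Finset.prod_dvd_prod_of_dvd _ _ fun m hm => ?_
    by_cases h2 : X0 j + ((m + 1 : ℕ) : ℂ) = 0
    · obtain ⟨hY1, hY2⟩ := exp_nsmul (hYn j) G
      obtain ⟨u, hu, hue⟩ := exp_unit hY1
      have h3 := hX4 j m hm h2
      have h4 : 1 - algebraMap ℂ A ((q : ℂ)⁻¹ ^ ((m + 1) * G)) * t j ^ G =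
          - ((G : A) * Y j * u) := by
        rw [hYt j, mul_pow, ← map_pow, ← mul_assoc, ← map_mul, h3, map_one, one_mul, ← hY2, hue]
        ring
      have h5 : x j + ((m + 1 : ℕ) : A) = - (algebraMap ℂ A lam⁻¹ * Y j) := by
        have h6 : (((m + 1 : ℕ) : A)) = algebraMap ℂ A ((m + 1 : ℕ) : ℂ) := (map_natCast _ _).symm
        rw [hx, h6]
        have h7 := congrArg (algebraMap ℂ A) h2
        rw [map_add, map_zero] at h7
        linear_combination h7
      rw [h4, h5, neg_dvd, dvd_neg]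
      refine ⟨algebraMap ℂ A lam * (G : A) * u, ?_⟩
      have h8 : algebraMap ℂ A lam⁻¹ * algebraMap ℂ A lam = 1 := by
        rw [← map_mul, inv_mul_cancel₀ hlam0, map_one]
      linear_combination (-(G : A) * Y j * u) * h8
    · refine IsUnit.dvd ?_
      have h3 := unit_add (A := A) h2 (hxn j)
      have e : algebraMap ℂ A (X0 j + ((m + 1 : ℕ) : ℂ)) + (x j - algebraMap ℂ A (X0 j)) =
          x j + ((m + 1 : ℕ) : A) := by
        rw [map_add, map_natCast]
        ring
      rwa [e] at h3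
  -- `X_j`
  have hXj : ∀ j, (1 - t j) ∣ x j := by
    intro j
    by_cases h2 : ts j = 1
    · obtain ⟨u, hu, hue⟩ := exp_unit (hYn j)
      have h3 : 1 - t j = - (Y j * u) := by
        rw [hYt j, h2, map_one, one_mul, hue]
        ring
      have h4 : x j = - (algebraMap ℂ A lam⁻¹ * Y j) := by
        rw [hx]
        simp only
        rw [hX2 j h2, map_zero, zero_sub]
      rw [h3, h4, neg_dvd, dvd_neg]
      obtain ⟨w, hw⟩ := hu.exists_right_inv
      refine ⟨w * algebraMap ℂ A lam⁻¹, ?_⟩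
      calc algebraMap ℂ A lam⁻¹ * Y j = (u * w) * (algebraMap ℂ A lam⁻¹ * Y j) := by
            rw [hw, one_mul]
        _ = Y j * u * (w * algebraMap ℂ A lam⁻¹) := by ring
    · refine IsUnit.dvd ?_
      have h3 : (1 : ℂ) - ts j ≠ 0 := sub_ne_zero.2 fun h => h2 h.symm
      have h4 := unit_add (A := A) h3 (ht j).neg
      have e : algebraMap ℂ A (1 - ts j) + -(t j - algebraMap ℂ A (ts j)) = 1 - t j := by
        rw [map_sub, map_one]
        ring
      rwa [e] at h4
  choose z hz using hdm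
  -- the relation
  have hR := congrArg (aeval x) hrel
  rw [map_mul, map_add, map_sum, map_sum, ← Polynomial.aeval_algHom_apply, map_sum] at hR
  simp only [aeval_X] at hR
  -- the unit
  have hU : IsUnit (Polynomial.aeval (∑ j, x j) p1) := by
    have h2 : aeval X0 (Polynomial.aeval (∑ j, X j : MvPolynomial (Fin r) ℂ) p1) ≠ 0 := by
      rw [← Polynomial.aeval_algHom_apply, map_sum]
      simp only [aeval_X]
      rw [Polynomial.coe_aeval_eq_eval]
      exact hX3
    have h3 := unit_aeval X0 x hxn _ h2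
    rw [← Polynomial.aeval_algHom_apply, map_sum] at h3
    simp only [aeval_X] at h3
    exact h3
  -- the linear factor
  set s0 : ℂ := ((-Real.log ‖∏ j, ts j‖ / Real.log q : ℝ) : ℂ) with hs0
  have hlin : (∑ j, x j - algebraMap ℂ A s0) ∣ aeval t (tau r - C (∏ j, ts j)) := by
    by_cases h2 : ∑ j, X0 j = s0
    · obtain ⟨hS, hSe⟩ := exp_sum Finset.univ Y fun j _ => hYn j
      obtain ⟨u, hu, hue⟩ := exp_unit hS
      have h3 : aeval t (tau r - C (∏ j, ts j)) =
          algebraMap ℂ A (∏ j, ts j) * ((∑ j, Y j) * u) := by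
        unfold tau
        rw [map_sub, map_prod, aeval_C]
        have h4 : ∏ j, aeval t (X j : MvPolynomial (Fin r) ℂ) =
            algebraMap ℂ A (∏ j, ts j) * IsNilpotent.exp (∑ j, Y j) := by
          rw [hSe, map_prod, ← Finset.prod_mul_distrib]
          refine Finset.prod_congr rfl fun j _ => ?_
          rw [aeval_X, hYt j]
        rw [h4, hue]
        ring
      have h5 : ∑ j, x j - algebraMap ℂ A s0 = -(algebraMap ℂ A lam⁻¹ * ∑ j, Y j) := by
        rw [← h2, map_sum, hx, Finset.sum_sub_distrib, ← Finset.mul_sum]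
        ring
      rw [h3, h5, neg_dvd]
      refine ⟨algebraMap ℂ A lam * (algebraMap ℂ A (∏ j, ts j) * u), ?_⟩
      have h8 : algebraMap ℂ A lam⁻¹ * algebraMap ℂ A lam = 1 := by
        rw [← map_mul, inv_mul_cancel₀ hlam0, map_one]
      linear_combination (-(algebraMap ℂ A (∏ j, ts j)) * (∑ j, Y j) * u) * h8
    · refine IsUnit.dvd ?_
      have hn : IsNilpotent (∑ j, (x j - algebraMap ℂ A (X0 j))) := by
        have : ∀ s : Finset (Fin r), IsNilpotent (∑ j ∈ s, (x j - algebraMap ℂ A (X0 j))) := by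
          intro s
          induction s using Finset.induction_on with
          | empty => simp
          | insert a s ha ih =>
            rw [Finset.sum_insert ha]
            exact (Commute.all _ _).isNilpotent_add (hxn a) ih
        exact this _
      have h3 := unit_add (A := A) (sub_ne_zero.2 h2) hn
      have e : algebraMap ℂ A (∑ j, X0 j - s0) + ∑ j, (x j - algebraMap ℂ A (X0 j)) =
          ∑ j, x j - algebraMap ℂ A s0 := by
        rw [map_sub, map_sum, Finset.sum_sub_distrib]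
        ring
      rwa [e] at h3
  -- membership of the terms
  have hterm : ∀ (c : Fin r → ℤ) (B : Finset (Fin N)) (Q : MvPolynomial (Fin r) ℂ),
      gen1 q v G M c B ∈ I →
      aeval x ((∏ i ∈ B, el v i) * ((∏ j, if c j < 0 then X j * dm M j else 1) * Q)) * ∏ j, z j ∈
        I.map (aeval t : MvPolynomial (Fin r) ℂ →ₐ[ℂ] A) := by
    intro c B Q hg
    have h2 := Ideal.mem_map_of_mem (aeval t : MvPolynomial (Fin r) ℂ →ₐ[ℂ] A) hg
    refine Ideal.mem_of_dvd _ ?_ h2
    unfold gen1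
    rw [map_mul, map_mul, map_mul, map_prod, map_prod, map_prod, map_prod]
    have h3 : ∏ i ∈ B, aeval t (elm q v i) ∣ ∏ i ∈ B, aeval x (el v i) :=
      Finset.prod_dvd_prod_of_dvd _ _ fun i _ => hel i
    have h4 : ∏ j, aeval t (if c j < 0 then (1 - X j) * dj q G M j else 1) ∣
        (∏ j, aeval x (if c j < 0 then X j * dm M j else 1)) * ∏ j, z j := by
      rw [← Finset.prod_mul_distrib]
      refine Finset.prod_dvd_prod_of_dvd _ _ fun j _ => ?_
      split_ifs with hj
      · rw [map_mul, map_mul, map_sub, map_one, aeval_X, aeval_X, mul_assoc, ← hz j]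
        exact mul_dvd_mul_right (hXj j) _
      · rw [map_one]
        exact one_dvd _
    have h5 := mul_dvd_mul h3 h4
    refine h5.trans ⟨aeval x Q, ?_⟩
    ring
  have h2 : Polynomial.aeval (∑ j, x j) p * aeval t (∏ j, dj q G M j) ∈
      I.map (aeval t : MvPolynomial (Fin r) ℂ →ₐ[ℂ] A) := by
    have h3 : Polynomial.aeval (∑ j, x j) p * aeval t (∏ j, dj q G M j) =
        (∑ k, aeval x ((∏ i ∈ B k, el v i) *
          ((∏ j, if c k j < 0 then X j * dm M j else 1) * Q k))) * ∏ j, z j +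
        (∑ k, aeval x ((∏ j, if c0 k j < 0 then X j * dm M j else 1) * Q0 k)) * ∏ j, z j := by
      rw [← add_mul, ← hR, map_prod, map_prod, mul_assoc, ← Finset.prod_mul_distrib]
      congr 1
      exact Finset.prod_congr rfl fun j _ => hz j
    rw [h3, Finset.sum_mul, Finset.sum_mul]
    refine Ideal.add_mem _ (Ideal.sum_mem _ fun k _ => hterm _ _ _ (hI1 k))
      (Ideal.sum_mem _ fun k _ => ?_)
    have h4 := hterm (c0 k) ∅ (Q0 k) (hI0 k)
    rw [Finset.prod_empty, one_mul] at h4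
    exact h4
  rw [hpp, map_mul, map_pow, map_sub, Polynomial.aeval_X, Polynomial.aeval_C] at h2
  have h3 : (∑ j, x j - algebraMap ℂ A s0) ^ μ * aeval t (∏ j, dj q G M j) ∈
      I.map (aeval t : MvPolynomial (Fin r) ℂ →ₐ[ℂ] A) := by
    refine (Ideal.unit_mul_mem_iff_mem _ hU).1 ?_
    have e : Polynomial.aeval (∑ j, x j) p1 * ((∑ j, x j - algebraMap ℂ A s0) ^ μ *
        aeval t (∏ j, dj q G M j)) = (∑ j, x j - algebraMap ℂ A s0) ^ μ *
          Polynomial.aeval (∑ j, x j) p1 * aeval t (∏ j, dj q G M j) := by ring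
    rw [e]
    exact h2
  refine Ideal.mem_of_dvd _ ?_ h3
  rw [map_mul, map_pow]
  exact mul_dvd_mul_right (pow_dvd_pow_of_dvd hlin μ) _

end

/-- The global consequence, with multiplicities. -/
theorem stepBM (q : ℕ) (hq : 2 ≤ q) (v : Fin r → Fin N → ℕ) (G : ℕ) (hG : Good v G)
    (T1 : (Fin r → ℤ) → Finset (Fin N) → Prop) (T0' : (Fin r → ℤ) → Prop) (p : Polynomial ℂ)
    (hrel : RelG v T1 T0' p) (T0 : ℂ) (hT0 : T0 ≠ 0) (μ : ℕ) (p1 : Polynomial ℂ)
    (hpp : p = (Polynomial.X - Polynomial.C ((-Real.log ‖T0‖ / Real.log q : ℝ) : ℂ)) ^ μ * p1)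
    (hp : p1.eval ((-Real.log ‖T0‖ / Real.log q : ℝ) : ℂ) ≠ 0) :
    ∃ (M : ℕ) (h : MvPolynomial (Fin r) ℂ),
      (1 - (tau r - C T0) * h) * ((tau r - C T0) ^ μ * ∏ j, dj q G M j) ∈
        Id q v G M T1 T0' := by
  obtain ⟨M, n, n0, c, B, Q, c0, Q0, hc, hc0, hrel⟩ := hrel
  refine ⟨M, ?_⟩
  apply null
  intro ts hts k
  have hts0 : ∀ j, ts j ≠ 0 := by
    intro j hj
    apply hT0
    rw [← hts]
    exact Finset.prod_eq_zero (Finset.mem_univ j) hj
  set m : Ideal (MvPolynomial (Fin r) ℂ) :=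
    RingHom.ker (aeval ts : MvPolynomial (Fin r) ℂ →ₐ[ℂ] ℂ) with hm
  have h1 := stepAM (A := MvPolynomial (Fin r) ℂ ⧸ m ^ k) q hq v G hG M n n0 c B Q c0 Q0 p μ p1 hrel
    (Id q v G M T1 T0')
    (fun k => Ideal.subset_span (Or.inl ⟨_, _, hc k, rfl⟩))
    (fun k => Ideal.subset_span (Or.inr ⟨_, hc0 k, rfl⟩)) ts hts0 (by rw [hts]; exact hpp) (by rw [hts]; exact hp)
    (fun j => Ideal.Quotient.mk (m ^ k) (X j)) (by
      intro j
      refine ⟨k, ?_⟩
      have h2 : Ideal.Quotient.mk (m ^ k) (X j) - algebraMap ℂ _ (ts j) =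
          Ideal.Quotient.mk (m ^ k) (X j - C (ts j)) := by
        rw [map_sub]
        rfl
      rw [h2, ← map_pow, Ideal.Quotient.eq_zero_iff_mem]
      refine Ideal.pow_mem_pow ?_ k
      rw [hm, RingHom.mem_ker, map_sub, aeval_X]
      simp [algHom_C])
  have h3 : (aeval (fun j => Ideal.Quotient.mk (m ^ k) (X j)) :
      MvPolynomial (Fin r) ℂ →ₐ[ℂ] MvPolynomial (Fin r) ℂ ⧸ m ^ k) =
      Ideal.Quotient.mkₐ ℂ (m ^ k) := by
    apply MvPolynomial.algHom_ext
    intro j
    rw [aeval_X]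
    rfl
  rw [h3, hts] at h1
  exact (Ideal.mem_quotient_iff_mem_sup).1 h1

end Pool.Agent.TH216.MF
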