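import Pool.Agent.TH216.MF.Core
import Pool.Agent.TH216.MF.StepM

set_option autoImplicit false

/-! The main theorem of the multiplicative functional argument, with multiplicities. -/

namespace Pool.Agent.TH216.MF

open MvPolynomial Filter Pool.Agent.W425.SV

variable {r N : ℕ}

/-- **Main theorem, with multiplicities.** -/
theorem crMu (q : ℕ) (hq : 2 ≤ q) (v : Fin r → Fin N → ℕ) (p : Polynomial ℂ)
    (hrel : RelG v (Kil1 v) (Spread v) p) (k : MvPolynomial (Fin r) ℂ) (hk : Kern q v k)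
    (T0 : ℂ) (hT0 : T0 ≠ 0) (hp0 : p ≠ 0) :
    ∃ Q : Polynomial ℂ, Q.eval T0 ≠ 0 ∧
      Z q v (Polynomial.aeval (tau r) (Q * (Polynomial.X - Polynomial.C T0) ^
        p.rootMultiplicity ((-Real.log ‖T0‖ / Real.log q : ℝ) : ℂ)) * k) := by
  classical
  obtain ⟨G, hG, hGG⟩ := exG v
  set s0 : ℂ := ((-Real.log ‖T0‖ / Real.log q : ℝ) : ℂ) with hs0
  set μ : ℕ := p.rootMultiplicity s0 with hμ
  obtain ⟨p1, hpp, hnd⟩ := Polynomial.exists_eq_pow_rootMultiplicity_mul_and_not_dvd p hp0 s0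
  have hp1 : p1.eval s0 ≠ 0 := fun h => hnd (Polynomial.dvd_iff_isRoot.2 h)
  obtain ⟨M, h, hh⟩ := stepBM q hq v G hGG (Kil1 v) (Spread v) p hrel T0 hT0 μ p1 hpp hp1
  obtain ⟨E, Q, hQ, hQI⟩ := stepC q hq v T0
  obtain ⟨Rt, c, hRt, hF⟩ := FG_one (r := r) q G M hq hG
  refine ⟨Q, hQ, ?_⟩
  set u : MvPolynomial (Fin r) ℂ := (tau r - C T0) * h with hu
  set e0 : MvPolynomial (Fin r) ℂ := (tau r - C T0) ^ μ with he0
  -- one step
  have h1 : ∀ w, Z q v (k * w * (e0 * (1 - u))) := by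
    intro w
    have h2 : ∀ ρ ∈ Fintype.piFinset fun _ : Fin r => Rt, ∀ᶠ t : ℤ in atTop,
        HasReg (gen q v (act r (k * w * ((1 - u) * (e0 * ∏ j, dj q G M j))) (FG ρ)) ∅ t) 0 := by
      intro ρ hρ
      exact kill_Id hq hG hk hh ρ (fun j => hRt _ (Fintype.mem_piFinset.1 hρ j)) w
    have h3 := (eventually_all_finset _).2 h2
    have e3 : ∀ P : MvPolynomial (Fin r) ℂ, k * w * (e0 * (1 - u)) * P =
        k * w * ((1 - u) * (e0 * P)) := fun P => by ring
    unfold Z
    filter_upwards [h3] with t ht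
    have e : act r (k * w * (e0 * (1 - u))) (FG fun _ => 1) =
        ∑ ρ ∈ Fintype.piFinset fun _ : Fin r => Rt, (∏ j, c (ρ j)) •
          act r (k * w * ((1 - u) * (e0 * ∏ j, dj q G M j))) (FG ρ) := by
      rw [hF, map_sum]
      refine Finset.sum_congr rfl fun ρ _ => ?_
      rw [map_smul, ← act_mul, e3]
    rw [e, gen_sum]
    have h4 := HasReg.sum (Fintype.piFinset fun _ : Fin r => Rt)
      (fun ρ => gen q v ((∏ j, c (ρ j)) • act r (k * w * ((1 - u) * (e0 * ∏ j, dj q G M j))) (FG ρ)) ∅ t)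
      (fun _ => 0) (fun ρ hρ => by
        rw [gen_smul]
        simpa using (ht ρ hρ).smul (∏ j, c (ρ j)))
    simpa using h4
  -- iteration
  have h2 : ∀ n : ℕ, Z q v (k * (e0 * (1 - u ^ n))) := by
    intro n
    induction n with
    | zero =>
      simpa using Z.zero q v
    | succ n ih =>
      have e : k * (e0 * (1 - u ^ (n + 1))) = k * (e0 * (1 - u ^ n)) +
          k * u ^ n * (e0 * (1 - u)) := by ring
      rw [e]
      exact ih.add (h1 _)
  have e : Polynomial.aeval (tau r) (Q * (Polynomial.X - Polynomial.C T0) ^ μ) * k =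
      Polynomial.aeval (tau r) Q * (k * (e0 * (1 - u ^ E))) +
      (k * e0 * h ^ E) * Polynomial.aeval (tau r) ((Polynomial.X - Polynomial.C T0) ^ E * Q) := by
    have e2 : ∀ n, Polynomial.aeval (tau r) ((Polynomial.X - Polynomial.C T0) ^ n) =
        (tau r - C T0) ^ n := by
      intro n
      rw [map_pow, map_sub, Polynomial.aeval_X, Polynomial.aeval_C]
      rfl
    rw [map_mul, map_mul, e2, e2, hu, mul_pow, he0]
    ring
  rw [e]
  exact ((h2 E).poly Q).add (Z.of_I1 hq hQI _)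

end Pool.Agent.TH216.MF
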