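import Pool.Agent.TH216.MF.CoreU

set_option autoImplicit false

/-! The criterion, from the geometry of the polyhedra. -/

namespace Pool.Agent.TH216.MF

open MvPolynomial Filter Pool.Agent.W425.SV

variable {r N : ℕ}

/-- the polyhedron -/
def Pt (v : Fin r → Fin N → ℕ) (A : Finset (Fin N)) (Z : Finset (Fin r)) : Set (Fin N → ℚ) :=
  {a | (∀ i, 0 ≤ a i) ∧ (∀ i, i ∉ A → a i = 0) ∧ (∀ j, 1 ≤ ∑ i, a i * (v j i : ℚ)) ∧
      ∀ j, j ∉ Z → ∑ i, a i * (v j i : ℚ) = 1}

/-- all coordinates are determined up to finitely many values -/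
def Forced (v : Fin r → Fin N → ℕ) (A : Finset (Fin N)) (Z : Finset (Fin r)) : Prop :=
  ∀ w : Fin r → ℚ, (∀ i ∈ A, ∑ j, w j * (v j i : ℚ) = 0) → (∀ j ∈ Z, w j = 0) → ∀ j, w j = 0

/-- the condition on the faces at the level `σ` -/
def HypS (v : Fin r → Fin N → ℕ) (σ : ℝ) : Prop :=
  ∀ (A : Finset (Fin N)) (Z : Finset (Fin r)), (Pt v A Z).Nonempty →
    (∀ a ∈ Pt v A Z, ((∑ i, a i : ℚ) : ℝ) = σ) → (∀ i ∈ A, ∃ j, j ∉ Z ∧ 0 < v j i) →
    Forced v A Z ∨
    ∃ i ∈ A, ∃ j0, v j0 i = 1 ∧ (∀ a ∈ Pt v A Z, a i ≠ 0) ∧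
      ∀ j, j ≠ j0 → 0 < v j i → ∀ a ∈ Pt v A Z, ∑ i, a i * (v j i : ℚ) ≠ 1

/-- no point in the polyhedron gives a generator -/
lemma kil1_of_empty (v : Fin r → Fin N → ℕ) (A : Finset (Fin N)) (Z : Finset (Fin r))
    (h : ¬ (Pt v A Z).Nonempty) :
    ∃ c : Fin r → ℤ, Kil1 v c (Finset.univ \ A) ∧ ∀ j, c j < 0 → j ∉ Z := by
  by_contra hcon
  apply h
  obtain ⟨a, h1, h2, h3, h4⟩ := farkas_pair v A Z (by
    intro γ h1 h2
    by_contra h3
    push Not at h3
    exact hcon (kil1_of v A Z γ h1 h2 h3))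
  exact ⟨a, h1, h2, h3, h4⟩

/-- integral form -/
lemma pair_int' (v : Fin r → Fin N → ℕ) (A : Finset (Fin N)) (Z : Finset (Fin r))
    (a : Fin N → ℚ) (ha : ∀ i, 0 ≤ a i) (hA : ∀ i, i ∉ A → a i = 0)
    (hZ : ∀ j, j ∉ Z → ∑ i, a i * (v j i : ℚ) = 1) :
    ∃ (s : ℕ) (b : Fin N → ℕ), 0 < s ∧ ((∀ i, i ∉ A → b i = 0) ∧ ∀ i, (b i : ℚ) = a i * s) ∧
      ∀ j, j ∉ Z → ∑ i, b i * v j i = s := by
  classical
  set s : ℕ := ∏ i, (a i).den with hs
  have hs0 : 0 < s := Finset.prod_pos fun i _ => (a i).den_pos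
  have h1 : ∀ i, ∃ b : ℕ, (b : ℚ) = a i * s := by
    intro i
    have h2 : (a i).den ∣ s := Finset.dvd_prod_of_mem _ (Finset.mem_univ i)
    obtain ⟨k, hk⟩ := h2
    refine ⟨(a i).num.toNat * k, ?_⟩
    have h3 : 0 ≤ (a i).num := Rat.num_nonneg.2 (ha i)
    have h4 : (((a i).num.toNat : ℕ) : ℚ) = (a i).num := by
      have := Int.toNat_of_nonneg h3
      exact_mod_cast congrArg (fun z : ℤ => (z : ℚ)) this
    rw [hk]
    push_cast
    rw [h4]
    have h6 : (a i) * (a i).den = (a i).num := Rat.mul_den_eq_num _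
    rw [← mul_assoc, h6]
  choose b hb using h1
  refine ⟨s, b, hs0, ⟨fun i hi => ?_, hb⟩, fun j hj => ?_⟩
  · have := hb i
    rw [hA i hi, zero_mul] at this
    exact_mod_cast this
  · have h2 : ((∑ i, b i * v j i : ℕ) : ℚ) = s := by
      push_cast
      simp only [hb]
      have h3 := hZ j hj
      calc ∑ i, a i * (s : ℚ) * (v j i : ℚ) = (s : ℚ) * ∑ i, a i * (v j i : ℚ) := by
            rw [Finset.mul_sum]
            exact Finset.sum_congr rfl fun i _ => by ring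
        _ = s := by rw [h3, mul_one]
    exact_mod_cast h2

lemma zeros_pow (q : ℕ) (hq : 2 ≤ q) (v : Fin r → Fin N → ℕ) (A : Finset (Fin N))
    (Z : Finset (Fin r)) (t : Fin r → ℂ) (ht : ∀ j, t j ≠ 0)
    (hA : ∀ i ∈ A, aeval t (elm q v i) = 0) (hZ : ∀ j ∈ Z, t j = 1)
    (e : Fin r → ℤ) (k : Fin N → ℤ) (k' : Fin r → ℤ) (hk : ∀ i, i ∉ A → k i = 0)
    (hk' : ∀ j, j ∉ Z → k' j = 0) (he : ∀ j, e j = ∑ i, k i * (v j i : ℤ) + k' j) :
    ∏ j, t j ^ e j = (q : ℂ) ^ (∑ i, k i) := by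
  classical
  have hq0 : (q : ℂ) ≠ 0 := by
    have : q ≠ 0 := by omega
    exact_mod_cast this
  have h4 : ∀ j', t j' ^ (e j') = ∏ i, (t j' ^ v j' i) ^ k i := by
    intro j'
    have h5 : t j' ^ k' j' = 1 := by
      by_cases hj' : j' ∈ Z
      · rw [hZ j' hj', one_zpow]
      · rw [hk' j' hj', zpow_zero]
    have h6 : ∀ s : Finset (Fin N), t j' ^ (∑ i ∈ s, k i * (v j' i : ℤ)) =
        ∏ i ∈ s, (t j' ^ v j' i) ^ k i := by
      intro s
      induction s using Finset.induction_on with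
      | empty => simp
      | insert a s ha ih =>
        rw [Finset.sum_insert ha, Finset.prod_insert ha, zpow_add₀ (ht j'), ih]
        congr 1
        rw [mul_comm, zpow_mul, zpow_natCast]
    rw [he, zpow_add₀ (ht j'), h5, mul_one, h6]
  simp only [h4]
  rw [Finset.prod_comm]
  have h7 : ∀ s : Finset (Fin N), (q : ℂ) ^ (∑ i ∈ s, k i) = ∏ i ∈ s, (q : ℂ) ^ k i := by
    intro s
    induction s using Finset.induction_on with
    | empty => simp
    | insert a s ha ih =>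
      rw [Finset.sum_insert ha, Finset.prod_insert ha, zpow_add₀ hq0, ih]
  rw [h7]
  refine Finset.prod_congr rfl fun i _ => ?_
  rw [Finset.prod_zpow]
  by_cases hi : i ∈ A
  · rw [(norm_rel q hq v t i ht (hA i hi)).1]
  · rw [hk i hi, zpow_zero, zpow_zero]

/-- the values of the monomials at the forced points -/
lemma forced_value (q : ℕ) (hq : 2 ≤ q) (v : Fin r → Fin N → ℕ) (G : ℕ) (hG : Good v G)
    (A : Finset (Fin N)) (Z : Finset (Fin r)) (hF : Forced v A Z) (w : Fin r → ℕ) :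
    ∃ κ : ℤ, ∀ t : Fin r → ℂ, (∀ j, t j ≠ 0) → (∀ i ∈ A, aeval t (elm q v i) = 0) →
      (∀ j ∈ Z, t j = 1) → (∏ j, t j ^ w j) ^ G = (q : ℂ) ^ κ := by
  classical
  have h1 : ∀ j, ∃ κ : ℤ, ∀ t : Fin r → ℂ, (∀ j, t j ≠ 0) → (∀ i ∈ A, aeval t (elm q v i) = 0) →
      (∀ j ∈ Z, t j = 1) → t j ^ G = (q : ℂ) ^ κ := by
    intro j
    obtain ⟨k, k', hk, hk', hkk⟩ := hG A Z j (fun w h1 h2 => hF w h1 h2 j)
    refine ⟨∑ i, k i, fun t ht hA hZ => ?_⟩
    have h2 := zeros_pow q hq v A Z t ht hA hZ (fun j' => if j' = j then (G : ℤ) else 0) k k' hk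
      hk' hkk
    rw [← h2, Finset.prod_eq_single j]
    · rw [if_pos rfl, zpow_natCast]
    · intro j' _ hj'
      rw [if_neg hj', zpow_zero]
    · simp
  choose κ hκ using h1
  refine ⟨∑ j, (w j : ℤ) * κ j, fun t ht hA hZ => ?_⟩
  have hq0 : (q : ℂ) ≠ 0 := by
    have : q ≠ 0 := by omega
    exact_mod_cast this
  have h7 : ∀ s : Finset (Fin r), (q : ℂ) ^ (∑ j ∈ s, (w j : ℤ) * κ j) =
      ∏ j ∈ s, ((q : ℂ) ^ κ j) ^ w j := by
    intro s
    induction s using Finset.induction_on with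
    | empty => simp
    | insert a s ha ih =>
      rw [Finset.sum_insert ha, Finset.prod_insert ha, zpow_add₀ hq0, ih]
      congr 1
      rw [mul_comm, zpow_mul, zpow_natCast]
  rw [h7, ← Finset.prod_pow]
  refine Finset.prod_congr rfl fun j _ => ?_
  rw [← hκ j t ht hA hZ, ← pow_mul, ← pow_mul, mul_comm]

/-- at the points of the other kind the kernel is in the ideal -/
lemma local_mem (q : ℕ) (hq : 2 ≤ q) (v : Fin r → Fin N → ℕ) (k : MvPolynomial (Fin r) ℂ)
    (hk : Kern q v k) (t : Fin r → ℂ) (A : Finset (Fin N)) (Z : Finset (Fin r))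
    (hA : ∀ i, i ∈ A ↔ aeval t (elm q v i) = 0) (hZ : ∀ j, j ∈ Z ↔ t j = 1)
    (hne : (Pt v A Z).Nonempty)
    (hB : ∃ i ∈ A, ∃ j0, v j0 i = 1 ∧ (∀ a ∈ Pt v A Z, a i ≠ 0) ∧
      ∀ j, j ≠ j0 → 0 < v j i → ∀ a ∈ Pt v A Z, ∑ i, a i * (v j i : ℚ) ≠ 1) :
    ∃ g : MvPolynomial (Fin r) ℂ, aeval t g ≠ 0 ∧ k * g ∈ I1 q v := by
  classical
  obtain ⟨i, hi, j0, hj0, h1, h2⟩ := hB
  have hq0 : (q : ℂ) ≠ 0 := by
    have : q ≠ 0 := by omega
    exact_mod_cast this
  obtain ⟨a0, ha0⟩ := hne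
  -- the direction `i`
  obtain ⟨c1, hc1, hc1Z⟩ := kil1_of_empty v (A.erase i) Z (by
    rintro ⟨a, ha⟩
    refine h1 a ⟨ha.1, fun i' hi' => ha.2.1 i' fun h => hi' (Finset.mem_of_mem_erase h),
      ha.2.2.1, ha.2.2.2⟩ (ha.2.1 i (Finset.notMem_erase i A)))
  set g1 : MvPolynomial (Fin r) ℂ := (∏ i' ∈ Finset.univ \ A, elm q v i') *
    ∏ j, (if c1 j < 0 then (1 - X j) else 1) with hg1
  have hg1t : aeval t g1 ≠ 0 := by
    rw [hg1, map_mul, map_prod, map_prod]
    refine mul_ne_zero (Finset.prod_ne_zero_iff.2 fun i' hi' => ?_)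
      (Finset.prod_ne_zero_iff.2 fun j _ => ?_)
    · rw [Finset.mem_sdiff] at hi'
      exact fun h => hi'.2 ((hA i').2 h)
    · split_ifs with hj
      · rw [map_sub, map_one, aeval_X, sub_ne_zero]
        exact fun h => hc1Z j hj ((hZ j).2 h.symm)
      · rw [map_one]
        exact one_ne_zero
  have hg1I : elm q v i * g1 ∈ I1 q v := by
    have h3 : (∏ i' ∈ Finset.univ \ A.erase i, elm q v i') =
        elm q v i * ∏ i' ∈ Finset.univ \ A, elm q v i' := by
      have h4 : Finset.univ \ A.erase i = insert i (Finset.univ \ A) := by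
        ext x
        simp only [Finset.mem_sdiff, Finset.mem_univ, true_and, Finset.mem_erase,
          Finset.mem_insert]
        tauto
      rw [h4, Finset.prod_insert]
      rw [Finset.mem_sdiff]
      exact fun h => h.2 hi
    have h5 : elm q v i * g1 = (∏ i' ∈ Finset.univ \ A.erase i, elm q v i') *
        ∏ j, (if c1 j < 0 then (1 - X j) else 1) := by
      rw [h3, hg1]
      ring
    rw [h5]
    exact Ideal.subset_span ⟨c1, _, hc1, rfl⟩
  -- the variables
  have h3 : ∀ j, ∃ g : MvPolynomial (Fin r) ℂ, aeval t g ≠ 0 ∧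
      (j ≠ j0 → 0 < v j i → (1 - X j) * g ∈ I1 q v) := by
    intro j
    by_cases hj : j ≠ j0 ∧ 0 < v j i
    swap
    · exact ⟨1, by rw [map_one]; exact one_ne_zero, fun h4 h5 => absurd ⟨h4, h5⟩ hj⟩
    obtain ⟨hj1, hj2⟩ := hj
    have hjZ : j ∈ Z := by
      by_contra hjZ
      exact h2 j hj1 hj2 a0 ha0 (ha0.2.2.2 j hjZ)
    obtain ⟨c, hc, hcZ⟩ := kil1_of_empty v A (Z.erase j) (by
      rintro ⟨a, ha⟩
      refine h2 j hj1 hj2 a ⟨ha.1, ha.2.1, ha.2.2.1, fun j' hj' => ha.2.2.2 j' fun h =>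
        hj' (Finset.mem_of_mem_erase h)⟩ (ha.2.2.2 j (Finset.notMem_erase j Z)))
    set g : MvPolynomial (Fin r) ℂ := (∏ i' ∈ Finset.univ \ A, elm q v i') *
      ∏ j' ∈ Finset.univ.erase j, (if c j' < 0 then (1 - X j') else 1) with hg
    refine ⟨g, ?_, fun _ _ => ?_⟩
    · rw [hg, map_mul, map_prod, map_prod]
      refine mul_ne_zero (Finset.prod_ne_zero_iff.2 fun i' hi' => ?_)
        (Finset.prod_ne_zero_iff.2 fun j' hj' => ?_)
      · rw [Finset.mem_sdiff] at hi'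
        exact fun h => hi'.2 ((hA i').2 h)
      · split_ifs with hc'
        · rw [map_sub, map_one, aeval_X, sub_ne_zero]
          refine fun h => hcZ j' hc' (Finset.mem_erase.2 ⟨Finset.ne_of_mem_erase hj', ?_⟩)
          exact (hZ j').2 h.symm
        · rw [map_one]
          exact one_ne_zero
    · have h5 : (∏ i' ∈ Finset.univ \ A, elm q v i') *
          ∏ j', (if c j' < 0 then (1 - X j') else 1) ∈ I1 q v :=
        Ideal.subset_span ⟨c, _, hc, rfl⟩
      rw [← Finset.mul_prod_erase _ _ (Finset.mem_univ j)] at h5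
      by_cases hcj : c j < 0
      · rw [if_pos hcj] at h5
        have e : (1 - X j) * g = (∏ i' ∈ Finset.univ \ A, elm q v i') *
          ((1 - X j) * ∏ j' ∈ Finset.univ.erase j, (if c j' < 0 then (1 - X j') else 1)) := by
          rw [hg]
          ring
        rw [e]
        exact h5
      · rw [if_neg hcj, one_mul] at h5
        exact Ideal.mul_mem_left _ _ h5
  choose g2 hg2t hg2I using h3
  set g : MvPolynomial (Fin r) ℂ := g1 * ∏ j, g2 j with hg
  -- the colon ideal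
  let J : Ideal (MvPolynomial (Fin r) ℂ) :=
    { carrier := {y | y * g ∈ I1 q v}
      add_mem' := by
        intro a b ha hb
        simp only [Set.mem_ofPred_eq, add_mul] at *
        exact (I1 q v).add_mem ha hb
      zero_mem' := by simp
      smul_mem' := by
        intro c a ha
        simp only [Set.mem_ofPred_eq, smul_eq_mul, mul_assoc] at *
        exact (I1 q v).mul_mem_left _ ha }
  have hJ1 : elm q v i ∈ J := by
    show elm q v i * g ∈ I1 q v
    rw [hg, ← mul_assoc]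
    exact Ideal.mul_mem_right _ _ hg1I
  have hJ2 : ∀ j, j ≠ j0 → 0 < v j i → (1 - X j) ∈ J := by
    intro j h4 h5
    show (1 - X j) * g ∈ I1 q v
    have e : (1 - X j) * g = ((1 - X j) * g2 j) * (g1 * ∏ j' ∈ Finset.univ.erase j, g2 j') := by
      rw [hg, ← Finset.mul_prod_erase _ _ (Finset.mem_univ j)]
      ring
    rw [e]
    exact Ideal.mul_mem_right _ _ (hg2I j h4 h5)
  have hX : ∀ j, j ≠ j0 → 0 < v j i → Ideal.Quotient.mk J (X j) = 1 := by
    intro j h4 h5
    have h6 := Ideal.Quotient.eq_zero_iff_mem.2 (hJ2 j h4 h5)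
    rw [map_sub, map_one, sub_eq_zero] at h6
    exact h6.symm
  have hX0 : Ideal.Quotient.mk J (X j0) = Ideal.Quotient.mk J (C (q : ℂ)) := by
    have h6 := Ideal.Quotient.eq_zero_iff_mem.2 hJ1
    unfold elm at h6
    rw [map_sub, map_one, map_mul, map_prod,
      ← Finset.mul_prod_erase _ _ (Finset.mem_univ j0), hj0, pow_one] at h6
    have h7 : ∏ j ∈ Finset.univ.erase j0, Ideal.Quotient.mk J (X j ^ v j i) = 1 := by
      refine Finset.prod_eq_one fun j hj => ?_
      rw [map_pow]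
      by_cases h8 : 0 < v j i
      · rw [hX j (Finset.ne_of_mem_erase hj) h8, one_pow]
      · rw [Nat.eq_zero_of_not_pos h8, pow_zero]
    rw [h7, mul_one, sub_eq_zero] at h6
    have h8 : Ideal.Quotient.mk J (C (q : ℂ)) * Ideal.Quotient.mk J (C ((q : ℂ)⁻¹)) = 1 := by
      rw [← map_mul, ← C_mul, mul_inv_cancel₀ hq0, C_1, map_one]
    calc Ideal.Quotient.mk J (X j0) = (Ideal.Quotient.mk J (C (q : ℂ)) *
          Ideal.Quotient.mk J (C ((q : ℂ)⁻¹))) * Ideal.Quotient.mk J (X j0) := by rw [h8, one_mul]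
      _ = Ideal.Quotient.mk J (C (q : ℂ)) *
          (Ideal.Quotient.mk J (C ((q : ℂ)⁻¹)) * Ideal.Quotient.mk J (X j0)) := by ring
      _ = Ideal.Quotient.mk J (C (q : ℂ)) := by rw [← h6, mul_one]
  have hkJ : k ∈ J := by
    have h4 := hk i j0 hj0
    refine (Ideal.span_le.2 ?_) h4
    rintro x ⟨j, hj, rfl⟩
    refine Ideal.Quotient.eq_zero_iff_mem.1 ?_
    rw [map_sub]
    by_cases h5 : j = j0
    · rw [if_pos h5, h5, hX0, sub_self]
    · rw [if_neg h5, hX j h5 hj, C_1, map_one, sub_self]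
  refine ⟨g, ?_, hkJ⟩
  rw [hg, map_mul, map_prod]
  exact mul_ne_zero hg1t (Finset.prod_ne_zero_iff.2 fun j _ => hg2t j)

/-- **The criterion.** -/
theorem crit_of_hyp (q : ℕ) (hq : 2 ≤ q) (v : Fin r → Fin N → ℕ) (k : MvPolynomial (Fin r) ℂ)
    (hk : Kern q v k) (T0 : ℂ) (hT0 : T0 ≠ 0) (w0 : Fin r → ℕ)
    (hσ : HypS v (Real.log ‖T0‖ / Real.log q)) : Crit q v k T0 w0 := by
  classical
  obtain ⟨G, hG, hGG⟩ := exG v
  obtain ⟨E, Q, hQ, hQI⟩ := stepC q hq v T0
  have hq0 : (q : ℂ) ≠ 0 := by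
    have : q ≠ 0 := by omega
    exact_mod_cast this
  have hq1 : (1 : ℝ) < q := by exact_mod_cast (by omega : 1 < q)
  have hlog : Real.log q ≠ 0 := (Real.log_pos hq1).ne'
  -- the finitely many values
  have hκ : ∀ p : Finset (Fin N) × Finset (Fin r), ∃ κ : ℤ, Forced v p.1 p.2 →
      ∀ t : Fin r → ℂ, (∀ j, t j ≠ 0) → (∀ i ∈ p.1, aeval t (elm q v i) = 0) →
      (∀ j ∈ p.2, t j = 1) → (∏ j, t j ^ w0 j) ^ G = (q : ℂ) ^ κ := by
    intro p
    by_cases hp : Forced v p.1 p.2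
    · obtain ⟨κ, hκ⟩ := forced_value q hq v G hGG p.1 p.2 hp w0
      exact ⟨κ, fun _ => hκ⟩
    · exact ⟨0, fun h => absurd h hp⟩
  choose κ hκ using hκ
  let J : Ideal (MvPolynomial (Fin r) ℂ) :=
    { carrier := {y | k * y ∈ I1 q v}
      add_mem' := by
        intro a b ha hb
        simp only [Set.mem_ofPred_eq, mul_add] at *
        exact (I1 q v).add_mem ha hb
      zero_mem' := by simp
      smul_mem' := by
        intro c a ha
        simp only [Set.mem_ofPred_eq, smul_eq_mul] at *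
        have e : k * (c * a) = c * (k * a) := by ring
        rw [e]
        exact (I1 q v).mul_mem_left _ ha }
  have hIJ : I1 q v ≤ J := fun x hx => (I1 q v).mul_mem_left _ hx
  set K : Ideal (MvPolynomial (Fin r) ℂ) := J ⊔ Ideal.span {tau r - C T0} with hK
  set Pi : MvPolynomial (Fin r) ℂ := ∏ p : Finset (Fin N) × Finset (Fin r),
    (um w0 ^ G - C ((q : ℂ) ^ κ p)) with hPi
  have hrad : Pi ∈ K.radical := by
    rw [← vanishingIdeal_zeroLocus_eq_radical (K := ℂ), mem_vanishingIdeal_iff]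
    intro t ht
    have htau : ∏ j, t j = T0 := by
      have h3 := (mem_zeroLocus_iff.1 ht) (tau r - C T0)
        (Ideal.mem_sup_right (Ideal.subset_span rfl))
      unfold tau at h3
      rw [map_sub, map_prod, sub_eq_zero] at h3
      simpa [algHom_C] using h3
    have ht0 : ∀ j, t j ≠ 0 := by
      intro j hj
      apply hT0
      rw [← htau]
      exact Finset.prod_eq_zero (Finset.mem_univ j) hj
    have htJ : ∀ g ∈ J, aeval t g = 0 := fun g hg =>
      (mem_zeroLocus_iff.1 ht) g (Ideal.mem_sup_left hg)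
    have htI : t ∈ zeroLocus ℂ (I1 q v) := mem_zeroLocus_iff.2 fun g hg => htJ g (hIJ hg)
    set A : Finset (Fin N) := Finset.univ.filter fun i => aeval t (elm q v i) = 0 with hA
    set Z : Finset (Fin r) := Finset.univ.filter fun j => t j = 1 with hZ
    have hA' : ∀ i, i ∈ A ↔ aeval t (elm q v i) = 0 := fun i => by
      rw [hA, Finset.mem_filter]
      exact ⟨fun h => h.2, fun h => ⟨Finset.mem_univ _, h⟩⟩
    have hZ' : ∀ j, j ∈ Z ↔ t j = 1 := fun j => by
      rw [hZ, Finset.mem_filter]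
      exact ⟨fun h => h.2, fun h => ⟨Finset.mem_univ _, h⟩⟩
    obtain ⟨a, ha, haA, haj, haZ⟩ := zero_pair q v t htI
    have hne : (Pt v A Z).Nonempty := ⟨a, ha, fun i hi => haA i fun h => hi ((hA' i).2 h), haj,
      fun j hj => haZ j fun h => hj ((hZ' j).2 h)⟩
    have hsum : ∀ a ∈ Pt v A Z, ((∑ i, a i : ℚ) : ℝ) = Real.log ‖T0‖ / Real.log q := by
      rintro a ⟨h1, h2, h3, h4⟩
      obtain ⟨s, b, hs, hb1, hb2⟩ := pair_int' v A Z a h1 h2 h4
      have h5 := tau_pow q hq v t s b (fun i hi => hb1.1 i fun h => hi ((hA' i).1 h))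
        (fun j hj => hb2 j fun h => hj ((hZ' j).1 h))
      rw [htau] at h5
      have h6 := congrArg (fun z : ℂ => Real.log ‖z‖) h5
      simp only [norm_pow, Complex.norm_natCast, Real.log_pow] at h6
      have h7 : ((∑ i, b i : ℕ) : ℝ) = (s : ℝ) * ((∑ i, a i : ℚ) : ℝ) := by
        have h8 : ((∑ i, b i : ℕ) : ℚ) = (s : ℚ) * ∑ i, a i := by
          push_cast
          rw [Finset.mul_sum]
          exact Finset.sum_congr rfl fun i _ => by rw [hb1.2 i, mul_comm]
        have h9 := congrArg (fun z : ℚ => (z : ℝ)) h8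
        push_cast at h9 ⊢
        exact h9
      rw [h7] at h6
      have hs' : (s : ℝ) ≠ 0 := by exact_mod_cast hs.ne'
      rw [eq_div_iff hlog]
      apply mul_left_cancel₀ hs'
      linarith
    have hprem : ∀ i ∈ A, ∃ j, j ∉ Z ∧ 0 < v j i := by
      intro i hi
      by_contra hcon
      push Not at hcon
      have h1 := (norm_rel q hq v t i ht0 ((hA' i).1 hi)).1
      have h2 : ∏ j, t j ^ v j i = 1 := by
        refine Finset.prod_eq_one fun j _ => ?_
        by_cases hj : j ∈ Z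
        · rw [(hZ' j).1 hj, one_pow]
        · rw [Nat.le_zero.1 (hcon j hj), pow_zero]
      rw [h2] at h1
      have h3 : (q : ℕ) = 1 := by exact_mod_cast h1.symm
      omega
    rcases hσ A Z hne hsum hprem with hF | hB
    · have h1 := hκ (A, Z) hF t ht0 (fun i hi => (hA' i).1 hi) (fun j hj => (hZ' j).1 hj)
      rw [hPi, map_prod]
      refine Finset.prod_eq_zero (Finset.mem_univ (A, Z)) ?_
      have h2 : aeval t (um w0 : MvPolynomial (Fin r) ℂ) = ∏ j, t j ^ w0 j := by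
        unfold um
        rw [map_prod]
        simp
      rw [map_sub, map_pow, h2, h1]
      simp [algHom_C]
    · exfalso
      obtain ⟨g, hg, hgI⟩ := local_mem q hq v k hk t A Z hA' hZ' hne hB
      exact hg (htJ g hgI)
  obtain ⟨n, hn⟩ := Ideal.mem_radical_iff.1 hrad
  obtain ⟨b, hb, x, hx, hbx⟩ := Submodule.mem_sup.1 hn
  obtain ⟨y, hy⟩ := Ideal.mem_span_singleton'.1 hx
  obtain ⟨d, hd⟩ : b ∣ (b + x) ^ E - x ^ E := by
    have := sub_dvd_pow_sub_pow (b + x) x E
    rwa [add_sub_cancel_right] at this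
  refine ⟨(∏ p : Finset (Fin N) × Finset (Fin r),
    (Polynomial.X ^ G - Polynomial.C ((q : ℂ) ^ κ p))) ^ (n * E), Q, ?_, hQ, ?_⟩
  · rw [Polynomial.eval_pow, Polynomial.eval_prod]
    refine pow_ne_zero _ (Finset.prod_ne_zero_iff.2 fun p _ => ?_)
    rw [Polynomial.eval_sub, Polynomial.eval_pow, Polynomial.eval_X, Polynomial.eval_C,
      zero_pow hG.ne', zero_sub]
    exact neg_ne_zero.2 (zpow_ne_zero _ hq0)
  · have h1 : Polynomial.aeval (um w0) ((∏ p : Finset (Fin N) × Finset (Fin r),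
        (Polynomial.X ^ G - Polynomial.C ((q : ℂ) ^ κ p))) ^ (n * E)) = Pi ^ (n * E) := by
      rw [map_pow, map_prod, hPi]
      congr 1
      refine Finset.prod_congr rfl fun p _ => ?_
      rw [map_sub, map_pow, Polynomial.aeval_X, Polynomial.aeval_C]
      rfl
    have e2 : ∀ n, Polynomial.aeval (tau r) ((Polynomial.X - Polynomial.C T0) ^ n) =
        (tau r - C T0) ^ n := by
      intro n
      rw [map_pow, map_sub, Polynomial.aeval_X, Polynomial.aeval_C]
      rfl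
    rw [map_mul, e2] at hQI
    have h2 : k * (Polynomial.aeval (tau r) Q * Pi ^ (n * E)) =
        (k * b) * (d * Polynomial.aeval (tau r) Q) +
          (k * y ^ E) * ((tau r - C T0) ^ E * Polynomial.aeval (tau r) Q) := by
      have h3 : Pi ^ (n * E) = b * d + (y * (tau r - C T0)) ^ E := by
        rw [pow_mul, ← hbx, ← hd, hy]
        ring
      rw [h3, mul_pow]
      ring
    rw [h1, h2]
    exact (I1 q v).add_mem ((I1 q v).mul_mem_right _ hb) ((I1 q v).mul_mem_left _ hQI)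

end Pool.Agent.TH216.MF
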