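import Pool.Agent.TH216.MF.Ser

set_option autoImplicit false

/-! Exponents in the convex hulls of other exponents. -/

namespace Pool.Agent.TH216.MF

open Pool.Agent.W426.SM (gord face)
open Pool.Agent.W803.SM (filt gord_le exists_gord mem_filt filt_nonempty)

variable {R R' N : ℕ}

/-- `w` is a convex combination of the `v j`, `j ∈ J` -/
def InC (v : Fin R' → Fin N → ℕ) (J : Finset (Fin R')) (w : Fin N → ℕ) : Prop :=
  ∃ l : Fin R' → ℝ, (∀ j, 0 ≤ l j) ∧ (∀ j, j ∉ J → l j = 0) ∧ ∑ j, l j = 1 ∧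
    ∀ i, ∑ j, l j * (v j i : ℝ) = (w i : ℝ)

open Classical in
/-- the exponents in the convex hull -/
noncomputable def PhiC (m : Fin R → Fin N → ℕ) (v : Fin R' → Fin N → ℕ) (J : Finset (Fin R')) :
    Finset (Fin R) := Finset.univ.filter fun j => InC v J (m j)

lemma mem_PhiC (m : Fin R → Fin N → ℕ) (v : Fin R' → Fin N → ℕ) (J : Finset (Fin R'))
    (j : Fin R) : j ∈ PhiC m v J ↔ InC v J (m j) := by
  classical
  unfold PhiC
  exact ⟨fun h => (Finset.mem_filter.1 h).2, fun h => Finset.mem_filter.2 ⟨Finset.mem_univ _, h⟩⟩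

lemma phi_empty (m : Fin R → Fin N → ℕ) (v : Fin R' → Fin N → ℕ) : PhiC m v ∅ = ∅ := by
  rw [Finset.eq_empty_iff_forall_notMem]
  intro j hj
  rw [mem_PhiC] at hj
  obtain ⟨l, -, h2, h3, -⟩ := hj
  rw [Finset.sum_eq_zero fun j _ => h2 j (Finset.notMem_empty _)] at h3
  exact zero_ne_one h3

lemma inC_self (v : Fin R' → Fin N → ℕ) (J : Finset (Fin R')) (j : Fin R') (hj : j ∈ J) :
    InC v J (v j) := by
  classical
  refine ⟨fun j' => if j' = j then 1 else 0, fun j' => ?_, fun j' hj' => ?_, ?_, fun i => ?_⟩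
  · dsimp only
    split_ifs <;> norm_num
  · dsimp only
    rw [if_neg]
    rintro rfl
    exact hj' hj
  · simp
  · simp

lemma inC_mono {v : Fin R' → Fin N → ℕ} {J K : Finset (Fin R')} (h : J ⊆ K) {w : Fin N → ℕ}
    (hw : InC v J w) : InC v K w := by
  obtain ⟨l, h1, h2, h3, h4⟩ := hw
  exact ⟨l, h1, fun j hj => h2 j fun h' => hj (h h'), h3, h4⟩

lemma inC_pair {v : Fin R' → Fin N → ℕ} {w : Fin N → ℕ} {l : Fin R' → ℝ}
    (h4 : ∀ i, ∑ j, l j * (v j i : ℝ) = (w i : ℝ)) (x : Fin N → ℕ) :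
    ((∑ i, x i * w i : ℕ) : ℝ) = ∑ j, l j * ((∑ i, x i * v j i : ℕ) : ℝ) := by
  push_cast
  simp only [← h4, Finset.mul_sum]
  rw [Finset.sum_comm]
  refine Finset.sum_congr rfl fun j _ => Finset.sum_congr rfl fun i _ => ?_
  ring

lemma gord_inC (v : Fin R' → Fin N → ℕ) (J : Finset (Fin R')) (w : Fin N → ℕ)
    (hw : InC v J w) (x : Fin N → ℕ) : gord v x ≤ ∑ i, x i * w i := by
  obtain ⟨l, h1, h2, h3, h4⟩ := hw
  have h5 := inC_pair h4 x
  have h6 : (gord v x : ℝ) ≤ ((∑ i, x i * w i : ℕ) : ℝ) := by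
    rw [h5]
    calc (gord v x : ℝ) = ∑ j, l j * (gord v x : ℝ) := by rw [← Finset.sum_mul, h3, one_mul]
      _ ≤ _ := Finset.sum_le_sum fun j _ =>
        mul_le_mul_of_nonneg_left (by exact_mod_cast gord_le v x j) (h1 j)
  exact_mod_cast h6

/-- a convex combination on the face is a convex combination of the elements of the face -/
lemma inC_face (v : Fin R' → Fin N → ℕ) (w : Fin N → ℕ) (hw : InC v Finset.univ w)
    (x : Fin N → ℕ) (hx : ∑ i, x i * w i = gord v x) : InC v (filt v x) w := by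
  obtain ⟨l, h1, h2, h3, h4⟩ := hw
  refine ⟨l, h1, fun j hj => ?_, h3, h4⟩
  by_contra hne
  have h5 := inC_pair h4 x
  rw [hx] at h5
  have h6 : (gord v x : ℝ) < ∑ j, l j * ((∑ i, x i * v j i : ℕ) : ℝ) := by
    calc (gord v x : ℝ) = ∑ j, l j * (gord v x : ℝ) := by rw [← Finset.sum_mul, h3, one_mul]
      _ < _ := by
        refine Finset.sum_lt_sum (fun j _ =>
          mul_le_mul_of_nonneg_left (by exact_mod_cast gord_le v x j) (h1 j))
          ⟨j, Finset.mem_univ j, ?_⟩
        refine mul_lt_mul_of_pos_left ?_ (lt_of_le_of_ne (h1 j) (Ne.symm hne))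
        have h7 := gord_le v x j
        have h8 : gord v x ≠ ∑ i, x i * v j i := fun h => hj (mem_filt.2 h.symm)
        exact_mod_cast lt_of_le_of_ne h7 h8
  linarith

section
variable (m : Fin R → Fin N → ℕ) (m' : Fin R' → Fin N → ℕ) (hR : 0 < R) (hR' : 0 < R')
  (ha : ∀ j', ∃ j, m j = m' j') (hb : ∀ j, InC m' Finset.univ (m j))
include hR hR' ha hb

lemma gord_conv (x : Fin N → ℕ) : gord m x = gord m' x := by
  refine le_antisymm ?_ ?_
  · obtain ⟨j', hj'⟩ := exists_gord hR' m' x
    obtain ⟨j, hj⟩ := ha j'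
    rw [← hj', ← hj]
    exact gord_le m x j
  · obtain ⟨j, hj⟩ := exists_gord hR m x
    rw [← hj]
    exact gord_inC m' _ _ (hb j) x

lemma phi_filt (x : Fin N → ℕ) : PhiC m m' (filt m' x) = filt m x := by
  ext j
  rw [mem_PhiC, mem_filt, gord_conv m m' hR hR' ha hb x]
  constructor
  · rintro ⟨l, h1, h2, h3, h4⟩
    have h5 := inC_pair h4 x
    have h6 : ∑ j, l j * ((∑ i, x i * m' j i : ℕ) : ℝ) = gord m' x := by
      have h7 : ∀ j, l j * ((∑ i, x i * m' j i : ℕ) : ℝ) = l j * gord m' x := by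
        intro j
        by_cases hj : j ∈ filt m' x
        · rw [mem_filt.1 hj]
        · rw [h2 j hj, zero_mul, zero_mul]
      simp only [h7]
      rw [← Finset.sum_mul, h3, one_mul]
    rw [h6] at h5
    exact_mod_cast h5
  · intro h
    exact inC_face m' _ (hb j) x h

end

/-- the relations for the convex hulls -/
lemma krel_phi (m : Fin R → Fin N → ℕ) (m' : Fin R' → Fin N → ℕ) (hm : Function.Injective m)
    (ha : ∀ j', ∃ j, m j = m' j') (q : ℕ) (e : Finset (Fin R) → ℂ) (h : KRel q m e) :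
    KRel q m' (fun J => e (PhiC m m' J)) := by
  classical
  intro i j0 J hj0 hJ
  obtain ⟨k0, hk0⟩ := ha j0
  have h1 : PhiC m m' (insert j0 J) = insert k0 (PhiC m m' J) := by
    ext j
    rw [mem_PhiC, Finset.mem_insert, mem_PhiC]
    constructor
    · rintro ⟨l, h1, h2, h3, h4⟩
      -- the coefficient of `j0` is the entry `i` of `m j`
      have h5 : l j0 = (m j i : ℝ) := by
        rw [← h4 i, Finset.sum_eq_single j0]
        · rw [hj0, Nat.cast_one, mul_one]
        · intro j' _ hj'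
          by_cases hJ' : j' ∈ J
          · rw [hJ j' hJ', Nat.cast_zero, mul_zero]
          · rw [h2 j' (by
              rw [Finset.mem_insert, not_or]
              exact ⟨hj', hJ'⟩), zero_mul]
        · simp
      have h6 : l j0 ≤ 1 := by
        rw [← h3]
        exact Finset.single_le_sum (fun j _ => h1 j) (Finset.mem_univ j0)
      rw [h5] at h6
      have h7 : m j i ≤ 1 := by exact_mod_cast h6
      rcases Nat.le_one_iff_eq_zero_or_eq_one.1 h7 with h8 | h8
      · right
        refine ⟨l, h1, fun j' hj' => ?_, h3, h4⟩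
        by_cases h9 : j' = j0
        · rw [h9, h5, h8, Nat.cast_zero]
        · exact h2 j' (by
            rw [Finset.mem_insert, not_or]
            exact ⟨h9, hj'⟩)
      · left
        rw [h8, Nat.cast_one] at h5
        have h9 : ∀ j', j' ≠ j0 → l j' = 0 := by
          intro j' hj'
          have h10 := h3
          rw [← Finset.add_sum_erase _ _ (Finset.mem_univ j0), h5] at h10
          have h11 : ∑ x ∈ Finset.univ.erase j0, l x = 0 := by linarith
          exact (Finset.sum_eq_zero_iff_of_nonneg fun x _ => h1 x).1 h11 j'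
            (Finset.mem_erase.2 ⟨hj', Finset.mem_univ _⟩)
        apply hm
        rw [hk0]
        funext i'
        have h10 := h4 i'
        rw [Finset.sum_eq_single j0 (fun j' _ hj' => by rw [h9 j' hj', zero_mul]) (by simp), h5,
          one_mul] at h10
        exact_mod_cast h10.symm
    · rintro (h2 | h2)
      · rw [h2, hk0]
        exact inC_self m' _ j0 (Finset.mem_insert_self _ _)
      · exact inC_mono (Finset.subset_insert _ _) h2
  simp only [h1]
  refine h i k0 (PhiC m m' J) (by rw [hk0, hj0]) fun j hj => ?_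
  rw [mem_PhiC] at hj
  obtain ⟨l, h2, h3, h4, h5⟩ := hj
  have h6 : (m j i : ℝ) = 0 := by
    rw [← h5 i]
    refine Finset.sum_eq_zero fun j' _ => ?_
    by_cases hj' : j' ∈ J
    · rw [hJ j' hj', Nat.cast_zero, mul_zero]
    · rw [h3 j' hj', zero_mul]
  exact_mod_cast h6

end Pool.Agent.TH216.MF
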