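import Pool.Agent.TH216.MF.MotC
import Pool.Agent.W29.MTRat
import Pool.Agent.W230.MTZCF

set_option autoImplicit false

/-! Motivic transfer: the universal series. -/

namespace Pool.Agent.TH216.MF

open Filter
open Pool.Agent.W426.SM (gord ford IsRay)
open Pool.Agent.W803.SM (filt summable_half)
open Pool.Agent.W428.MOT (amin free Adm cp Phi S_CP2 S_RAT)

variable {r N : ℕ}

/-- the series of `τ` -/
noncomputable def cser (v : Fin r → Fin N → ℕ) (J : Finset (Fin N)) (τ : Finset (Fin r)) :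
    PowerSeries (Polynomial ℤ) := PowerSeries.mk fun M => cp 0 v 1 J τ M M

/-- the coefficients of the universal series -/
noncomputable def cf (v : Fin r → Fin N → ℕ) (J : Finset (Fin N)) (κ τ : Finset (Fin r)) :
    Polynomial ℤ := open Classical in
  if bas v J τ = κ then (-1) ^ (τ.card + κ.card) *
    (1 - Polynomial.X) ^ (mx v J κ - (frc v J τ + τ.card)) *
      Polynomial.X ^ (J.card - (mx v J κ - τ.card)) else 0

/-- the universal series of `κ` -/
noncomputable def Psi (v : Fin r → Fin N → ℕ) (J : Finset (Fin N)) (κ : Finset (Fin r)) :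
    PowerSeries (Polynomial ℤ) := ∑ τ, PowerSeries.C (cf v J κ τ) * cser v J τ

/-- the universal series of the constants -/
noncomputable def Omg (v : Fin r → Fin N → ℕ) (J : Finset (Fin N)) :
    PowerSeries (Polynomial ℤ) :=
  ∑ τ, PowerSeries.C ((1 - Polynomial.X) ^ (J.card - frc v J τ)) * cser v J τ

open Classical in
/-- the regular series -/
noncomputable def Gd (v : Fin r → Fin N → ℕ) (J : Finset (Fin N)) (κ : Finset (Fin r)) :
    PowerSeries (Polynomial ℤ) :=
  if κ = ∅ then (PowerSeries.X - 1) * Psi v J ∅ + Omg v J else Psi v J κ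

/-- the values -/
noncomputable def Sm (q : ℕ) (v : Fin r → Fin N → ℕ) (J : Finset (Fin N))
    (e : Finset (Fin r) → ℂ) (M : ℕ) : ℂ :=
  ∑' x : Fin N → ℕ, iv (Adm J x ∧ gord v x = M) ((q : ℂ)⁻¹ ^ (∑ i, x i) * e (filt v x))

lemma q_ne {q : ℕ} (hq : 2 ≤ q) : (q : ℂ) ≠ 0 := by
  have : q ≠ 0 := by omega
  exact_mod_cast this

lemma bas_card (v : Fin r → Fin N → ℕ) (J : Finset (Fin N)) (τ : Finset (Fin r)) :
    (bas v J τ).card ≤ τ.card := Finset.card_le_card (bas_sub v J τ)

lemma one_sub_inv {q : ℕ} (hq : 2 ≤ q) (a : ℕ) :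
    (1 - (q : ℂ)⁻¹) ^ a = ((q : ℂ) - 1) ^ a * (q : ℂ)⁻¹ ^ a := by
  rw [← mul_pow]
  congr 1
  have := q_ne hq
  field_simp

lemma evq_cf {q : ℕ} (hq : 2 ≤ q) (v : Fin r → Fin N → ℕ) (J : Finset (Fin N))
    (κ τ : Finset (Fin r)) :
    evq q (cf v J κ τ) * (1 - (q : ℂ)⁻¹) ^ frc v J τ = (q : ℂ)⁻¹ ^ J.card * eK q v J κ τ := by
  classical
  unfold cf eK
  split_ifs with h
  · have h1 := le_mx v J τ
    rw [h] at h1
    have h2 := bas_card v J τ
    rw [h] at h2
    have h3 := frc_le v J κ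
    have h4 : mx v J κ = frc v J κ + κ.card := rfl
    rw [map_mul, map_mul, map_pow, map_pow, map_pow, map_neg, map_sub, map_one, evq_X]
    set E := mx v J κ - (frc v J τ + τ.card) with hE
    have e1 : mx v J κ - τ.card = E + frc v J τ := by omega
    obtain ⟨d, hd⟩ : ∃ d, J.card = (E + frc v J τ) + d := ⟨J.card - (E + frc v J τ), by omega⟩
    rw [e1, hd, show E + frc v J τ + d - (E + frc v J τ) = d by omega, pow_add _ _ d]
    have h5 := one_sub_inv hq (E + frc v J τ)
    rw [pow_add (1 - (q : ℂ)⁻¹)] at h5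
    linear_combination ((-1) ^ (τ.card + κ.card) * (q : ℂ)⁻¹ ^ d) * h5
  · rw [map_zero, zero_mul, mul_zero]

lemma coeff_Psi {q : ℕ} (hr : 0 < r) (hq : 2 ≤ q) (v : Fin r → Fin N → ℕ) (J : Finset (Fin N))
    (κ : Finset (Fin r)) (M : ℕ) :
    evq q (PowerSeries.coeff M (Psi v J κ)) = (q : ℂ)⁻¹ ^ J.card * Sm q v J (eK q v J κ) M := by
  unfold Psi
  rw [map_sum, map_sum]
  have h1 : ∀ τ, evq q (PowerSeries.coeff M (PowerSeries.C (cf v J κ τ) * cser v J τ)) =
      evq q (cf v J κ τ) * evq q (cp 0 v 1 J τ M M) := by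
    intro τ
    rw [PowerSeries.coeff_C_mul, map_mul]
    unfold cser
    rw [PowerSeries.coeff_mk]
  rw [Finset.sum_congr rfl fun τ _ => h1 τ, sum_cp_eval hr q hq]
  unfold Sm
  rw [← tsum_mul_left]
  refine tsum_congr fun x => ?_
  rw [evq_cf hq, mul_comm ((q : ℂ)⁻¹ ^ J.card) (iv _ _), iv_mul]
  congr 1
  ring

lemma coeff_Omg {q : ℕ} (hr : 0 < r) (hq : 2 ≤ q) (v : Fin r → Fin N → ℕ) (J : Finset (Fin N))
    (M : ℕ) :
    evq q (PowerSeries.coeff M (Omg v J)) =
      (q : ℂ)⁻¹ ^ J.card * Sm q v J (fun _ => ((q : ℂ) - 1) ^ J.card) M := by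
  unfold Omg
  rw [map_sum, map_sum]
  have h1 : ∀ τ, evq q (PowerSeries.coeff M
      (PowerSeries.C ((1 - Polynomial.X) ^ (J.card - frc v J τ)) * cser v J τ)) =
      (1 - (q : ℂ)⁻¹) ^ (J.card - frc v J τ) * evq q (cp 0 v 1 J τ M M) := by
    intro τ
    rw [PowerSeries.coeff_C_mul, map_mul, map_pow, map_sub, map_one, evq_X]
    unfold cser
    rw [PowerSeries.coeff_mk]
  rw [Finset.sum_congr rfl fun τ _ => h1 τ, sum_cp_eval hr q hq v J
    (fun τ => (1 - (q : ℂ)⁻¹) ^ (J.card - frc v J τ))]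
  unfold Sm
  rw [← tsum_mul_left]
  refine tsum_congr fun x => ?_
  rw [← pow_add, Nat.sub_add_cancel (frc_le v J _), one_sub_inv hq,
    mul_comm ((q : ℂ)⁻¹ ^ J.card) (iv _ _), iv_mul]
  congr 1
  ring

lemma aJ_iv (hr : 0 < r) (q : ℕ) (v : Fin r → Fin N → ℕ) (J : Finset (Fin N))
    (e : Finset (Fin r) → ℂ) (M : ℕ) : aJ q v e J M = ∑' x : Fin N → ℕ, iv (Adm J x)
      ((q : ℂ)⁻¹ ^ (∑ i, x i) * (if M < gord v x then e ∅ else
        if M = gord v x then e (filt v x) else 0)) := by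
  classical
  rw [aJ_nat hr]
  refine tsum_congr fun x => ?_
  by_cases h : ∀ i, x i ≠ 0 ↔ i ∈ J
  · rw [if_pos h, iv_pos (show Adm J x from h)]
  · rw [if_neg h, iv_neg (show ¬ Adm J x from h)]

/-- if `e ∅ = 0` -/
lemma aJ_eq (hr : 0 < r) (q : ℕ) (v : Fin r → Fin N → ℕ) (J : Finset (Fin N))
    (e : Finset (Fin r) → ℂ) (he : e ∅ = 0) (M : ℕ) : aJ q v e J M = Sm q v J e M := by
  rw [aJ_iv hr]
  unfold Sm
  refine tsum_congr fun x => ?_
  by_cases h1 : Adm J x
  · rw [iv_pos h1]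
    by_cases h2 : gord v x = M
    · rw [iv_pos ⟨h1, h2⟩, if_neg (by omega), if_pos h2.symm]
    · rw [iv_neg fun h => h2 h.2, he, if_neg (show ¬ M = gord v x from fun h => h2 h.symm)]
      split_ifs <;> rw [mul_zero]
  · rw [iv_neg h1, iv_neg fun h => h1 h.1]

/-- the differences -/
lemma aJ_diff (hr : 0 < r) (q : ℕ) (hq : 2 ≤ q) (v : Fin r → Fin N → ℕ) (J : Finset (Fin N))
    (e : Finset (Fin r) → ℂ) :
    ∃ B : ℂ, aJ q v e J ((0 : ℕ) : ℤ) = B + Sm q v J e 0 - Sm q v J (fun _ => e ∅) 0 ∧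
      ∀ M : ℕ, aJ q v e J ((M + 1 : ℕ) : ℤ) = aJ q v e J M + Sm q v J e (M + 1) -
        Sm q v J (fun _ => e ∅) (M + 1) - Sm q v J e M := by
  classical
  set G : ℕ → ℂ := fun M => ∑' x : Fin N → ℕ, iv (Adm J x ∧ M ≤ gord v x)
    ((q : ℂ)⁻¹ ^ (∑ i, x i) * e ∅) with hG
  have hsG : ∀ M, Summable fun x : Fin N → ℕ => iv (Adm J x ∧ M ≤ gord v x)
      ((q : ℂ)⁻¹ ^ (∑ i, x i) * e ∅) := fun M =>
    summable_Q q hq _ (fun _ => e ∅) _ (fun _ => le_rfl)
  have hsS : ∀ (e : Finset (Fin r) → ℂ) M, Summable fun x : Fin N → ℕ =>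
      iv (Adm J x ∧ gord v x = M) ((q : ℂ)⁻¹ ^ (∑ i, x i) * e (filt v x)) := fun e M =>
    summable_Q q hq _ (fun x => e (filt v x)) (∑ J, ‖e J‖) fun x =>
      Finset.single_le_sum (f := fun J => ‖e J‖) (fun _ _ => norm_nonneg _) (Finset.mem_univ _)
  have hA : ∀ M : ℕ, aJ q v e J M = G (M + 1) + Sm q v J e M := by
    intro M
    rw [aJ_iv hr]
    simp only [hG]
    unfold Sm
    rw [← (hsG (M + 1)).tsum_add (hsS e M)]
    refine tsum_congr fun x => ?_
    by_cases h1 : Adm J x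
    · rw [iv_pos h1]
      rcases lt_trichotomy M (gord v x) with h2 | h2 | h2
      · rw [if_pos h2, iv_pos ⟨h1, h2⟩, iv_neg fun h => by omega, add_zero]
      · rw [if_neg (by omega), if_pos h2, iv_neg fun h => by omega, iv_pos ⟨h1, h2.symm⟩, zero_add]
      · rw [if_neg (by omega), if_neg (by omega), iv_neg fun h => by omega,
          iv_neg fun h => by omega, mul_zero, add_zero]
    · rw [iv_neg h1, iv_neg fun h => h1 h.1, iv_neg fun h => h1 h.1, add_zero]
  have hGd : ∀ M, G M = G (M + 1) + Sm q v J (fun _ => e ∅) M := by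
    intro M
    simp only [hG]
    unfold Sm
    rw [← (hsG (M + 1)).tsum_add (hsS (fun _ => e ∅) M)]
    refine tsum_congr fun x => ?_
    by_cases h1 : Adm J x
    · rcases lt_trichotomy M (gord v x) with h2 | h2 | h2
      · rw [iv_pos ⟨h1, h2.le⟩, iv_pos ⟨h1, h2⟩, iv_neg fun h => by omega, add_zero]
      · rw [iv_pos ⟨h1, h2.le⟩, iv_neg fun h => by omega, iv_pos ⟨h1, h2.symm⟩, zero_add]
      · rw [iv_neg fun h => by omega, iv_neg fun h => by omega, iv_neg fun h => by omega,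
          add_zero]
    · rw [iv_neg fun h => h1 h.1, iv_neg fun h => h1 h.1, iv_neg fun h => h1 h.1, add_zero]
  refine ⟨G 0, ?_, fun M => ?_⟩
  · rw [hA 0, hGd 0]
    ring
  · rw [hA (M + 1), hA M, hGd (M + 1)]
    ring

/-- **The universal series at `y = 1 / q`.** -/
lemma gd_rec (hr : 0 < r) (q : ℕ) (hq : 2 ≤ q) (v : Fin r → Fin N → ℕ) (J : Finset (Fin N))
    (κ : Finset (Fin r)) (T0 : ℂ) (h : RecJ q v (eK q v J κ) J T0) :
    ∃ Q A : Polynomial ℂ, Q.eval T0 ≠ 0 ∧
      (Q : PowerSeries ℂ) * PowerSeries.map (evq q) (Gd v J κ) = (A : PowerSeries ℂ) := by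
  classical
  obtain ⟨Q, hQ, hrec⟩ := h
  obtain ⟨A, hA⟩ := rec_poly _ Q hrec
  by_cases hκ : κ = ∅
  · subst hκ
    obtain ⟨B, hB0, hB⟩ := aJ_diff hr q hq v J (eK q v J ∅)
    have he : eK q v J ∅ ∅ = ((q : ℂ) - 1) ^ J.card := by
      rw [eK_empty, if_pos rfl]
    rw [he] at hB0 hB
    have h1 : PowerSeries.map (evq q) (Gd v J ∅) = PowerSeries.C ((q : ℂ)⁻¹ ^ J.card) *
        (PowerSeries.C B + (PowerSeries.X - 1) *
          PowerSeries.mk (fun t : ℕ => aJ q v (eK q v J ∅) J t)) := by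
      ext M
      unfold Gd
      rw [if_pos rfl, PowerSeries.coeff_map, PowerSeries.coeff_C_mul, sub_mul, sub_mul, one_mul,
        one_mul, map_add, map_add, map_sub, map_sub, map_add, map_sub]
      rcases M with _ | M
      · rw [PowerSeries.coeff_zero_X_mul, PowerSeries.coeff_zero_X_mul, coeff_Psi hr hq,
          coeff_Omg hr hq, PowerSeries.coeff_zero_C, PowerSeries.coeff_mk, hB0, map_zero]
        ring
      · rw [PowerSeries.coeff_succ_X_mul, PowerSeries.coeff_succ_X_mul, coeff_Psi hr hq,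
          coeff_Psi hr hq, coeff_Omg hr hq, PowerSeries.coeff_C, if_neg (Nat.succ_ne_zero M),
          PowerSeries.coeff_mk, PowerSeries.coeff_mk, hB M]
        ring
    refine ⟨Q, Polynomial.C ((q : ℂ)⁻¹ ^ J.card) * (Polynomial.C B * Q +
      (Polynomial.X - 1) * A), hQ, ?_⟩
    rw [h1]
    push_cast
    rw [← hA]
    ring
  · refine ⟨Q, Polynomial.C ((q : ℂ)⁻¹ ^ J.card) * A, hQ, ?_⟩
    have he : eK q v J κ ∅ = 0 := by
      rw [eK_empty, if_neg hκ]
    have h1 : PowerSeries.map (evq q) (Gd v J κ) = PowerSeries.C ((q : ℂ)⁻¹ ^ J.card) *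
          PowerSeries.mk (fun t : ℕ => aJ q v (eK q v J κ) J t) := by
      ext M
      unfold Gd
      rw [if_neg hκ, PowerSeries.coeff_map, PowerSeries.coeff_C_mul, PowerSeries.coeff_mk,
        coeff_Psi hr hq, aJ_eq hr q v J _ he]
    rw [h1]
    push_cast
    rw [← hA]
    ring

/-! ### removal of roots -/

lemma root_rem (Φ : PowerSeries ℂ) (Db Dg P : Polynomial ℂ) (hDb : Db ≠ 0)
    (h : ((Db * Dg : Polynomial ℂ) : PowerSeries ℂ) * Φ = (P : PowerSeries ℂ))
    (hr : ∀ T0 : ℂ, Db.eval T0 = 0 → ∃ Q A : Polynomial ℂ, Q.eval T0 ≠ 0 ∧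
      (Q : PowerSeries ℂ) * Φ = (A : PowerSeries ℂ)) :
    ∃ U : Polynomial ℂ, (Dg : PowerSeries ℂ) * Φ = (U : PowerSeries ℂ) ∧
      U.natDegree ≤ P.natDegree := by
  let 𝔞 : Ideal (Polynomial ℂ) :=
    { carrier := {Q | ∃ A : Polynomial ℂ, (Q : PowerSeries ℂ) * ((Dg : PowerSeries ℂ) * Φ) =
        (A : PowerSeries ℂ)}
      add_mem' := by
        rintro a b ⟨A, hA⟩ ⟨B, hB⟩
        exact ⟨A + B, by push_cast; rw [add_mul, hA, hB]⟩
      zero_mem' := ⟨0, by simp⟩
      smul_mem' := by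
        rintro c a ⟨A, hA⟩
        exact ⟨c * A, by rw [smul_eq_mul]; push_cast; rw [mul_assoc, hA]⟩ }
  have hDb𝔞 : Db ∈ 𝔞 := ⟨P, by rw [← h]; push_cast; ring⟩
  set g := Submodule.IsPrincipal.generator 𝔞 with hg
  have hgs : Ideal.span {g} = 𝔞 := Ideal.span_singleton_generator 𝔞
  have hgd : ∀ Q ∈ 𝔞, g ∣ Q := fun Q hQ => by
    rw [← hgs] at hQ
    exact Ideal.mem_span_singleton.1 hQ
  have hg0 : g ≠ 0 := by
    intro h0
    have := hgd Db hDb𝔞
    rw [h0, zero_dvd_iff] at this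
    exact hDb this
  have htop : 𝔞 = ⊤ := by
    by_contra hne
    have hnu : ¬ IsUnit g := by
      intro hu
      apply hne
      rw [← hgs]
      exact Ideal.span_singleton_eq_top.2 hu
    have hdeg : g.degree ≠ 0 := fun hd => hnu (Polynomial.isUnit_iff_degree_eq_zero.2 hd)
    obtain ⟨T0, hT0⟩ := IsAlgClosed.exists_root g hdeg
    have hz : ∀ Q ∈ 𝔞, Q.eval T0 = 0 := fun Q hQ => by
      obtain ⟨c, hc⟩ := hgd Q hQ
      rw [hc, Polynomial.eval_mul, hT0, zero_mul]
    obtain ⟨Q, A, hQ, hA⟩ := hr T0 (hz Db hDb𝔞)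
    exact hQ (hz Q ⟨Dg * A, by push_cast; rw [← hA]; ring⟩)
  obtain ⟨U, hU⟩ : (1 : Polynomial ℂ) ∈ 𝔞 := by rw [htop]; trivial
  rw [Polynomial.coe_one, one_mul] at hU
  refine ⟨U, hU, ?_⟩
  have h2 : Db * U = P := by
    have h3 : ((Db * U : Polynomial ℂ) : PowerSeries ℂ) = (P : PowerSeries ℂ) := by
      rw [← h]
      push_cast
      rw [← hU]
      ring
    exact_mod_cast h3
  by_cases hU0 : U = 0
  · rw [hU0, Polynomial.natDegree_zero]
    exact Nat.zero_le _
  · rw [← h2, Polynomial.natDegree_mul hDb hU0]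
    omega

/-- the factor of `a` -/
noncomputable def fac (v : Fin r → Fin N → ℕ) (a : Fin N → ℕ) : PowerSeries (Polynomial ℤ) :=
  1 - PowerSeries.C (Polynomial.X ^ (∑ i, a i)) * PowerSeries.X ^ gord v a

/-- the factor of `a`, `y = 1 / q` -/
noncomputable def fq (q : ℕ) (v : Fin r → Fin N → ℕ) (a : Fin N → ℕ) : Polynomial ℂ :=
  1 - Polynomial.C ((q : ℂ)⁻¹ ^ (∑ i, a i)) * Polynomial.X ^ gord v a

lemma map_fac (q : ℕ) (v : Fin r → Fin N → ℕ) (a : Fin N → ℕ) :
    PowerSeries.map (evq q) (fac v a) = (fq q v a : PowerSeries ℂ) := by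
  unfold fac fq
  have h1 : PowerSeries.map (evq q) (PowerSeries.X ^ gord v a) = PowerSeries.X ^ gord v a := by
    rw [map_pow, PowerSeries.map_X]
  rw [map_sub, map_one, map_mul, PowerSeries.map_C, h1, map_pow, evq_X]
  push_cast
  rfl

lemma map_facs (q : ℕ) (v : Fin r → Fin N → ℕ) (l : List (Fin N → ℕ)) :
    PowerSeries.map (evq q) (l.map (fac v)).prod = (((l.map (fq q v)).prod : Polynomial ℂ) :
      PowerSeries ℂ) := by
  induction l with
  | nil => simp
  | cons a l ih =>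
    rw [List.map_cons, List.prod_cons, List.map_cons, List.prod_cons, map_mul, ih, map_fac]
    push_cast
    rfl

lemma fq_ne (q : ℕ) (v : Fin r → Fin N → ℕ) (a : Fin N → ℕ) (ha : 0 < gord v a) :
    fq q v a ≠ 0 := by
  intro h
  have h1 := congrArg (Polynomial.eval 0) h
  unfold fq at h1
  simp [ha.ne'] at h1

lemma fqs_ne (q : ℕ) (v : Fin r → Fin N → ℕ) (l : List (Fin N → ℕ))
    (hl : ∀ a ∈ l, 0 < gord v a) : (l.map (fq q v)).prod ≠ 0 := by
  induction l with
  | nil => simp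
  | cons a l ih =>
    rw [List.map_cons, List.prod_cons]
    exact mul_ne_zero (fq_ne q v a (hl a List.mem_cons_self))
      (ih fun b hb => hl b (List.mem_cons_of_mem _ hb))

lemma fqs_root (q : ℕ) (v : Fin r → Fin N → ℕ) (l : List (Fin N → ℕ)) (T0 : ℂ)
    (h : (l.map (fq q v)).prod.eval T0 = 0) : ∃ a ∈ l, (fq q v a).eval T0 = 0 := by
  induction l with
  | nil => simp at h
  | cons a l ih =>
    rw [List.map_cons, List.prod_cons, Polynomial.eval_mul, mul_eq_zero] at h
    rcases h with h | h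
    · exact ⟨a, List.mem_cons_self, h⟩
    · obtain ⟨b, hb, h'⟩ := ih h
      exact ⟨b, List.mem_cons_of_mem _ hb, h'⟩

/-- from all integers `q ≥ 2` to the universal series -/
lemma univ_good (v : Fin r → Fin N → ℕ) (Φ : PowerSeries (Polynomial ℤ))
    (lb lg : List (Fin N → ℕ)) (P : Polynomial (Polynomial ℤ))
    (h : Φ * ((lb.map (fac v)).prod * (lg.map (fac v)).prod) =
      (P : PowerSeries (Polynomial ℤ)))
    (hlb : ∀ a ∈ lb, 0 < gord v a)
    (hr : ∀ q : ℕ, 2 ≤ q → ∀ T0 : ℂ, ∀ a ∈ lb, (fq q v a).eval T0 = 0 →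
      ∃ Q A : Polynomial ℂ, Q.eval T0 ≠ 0 ∧
        (Q : PowerSeries ℂ) * PowerSeries.map (evq q) Φ = (A : PowerSeries ℂ)) :
    ∃ P' : Polynomial (Polynomial ℤ), Φ * (lg.map (fac v)).prod =
      (P' : PowerSeries (Polynomial ℤ)) := by
  set U : PowerSeries (Polynomial ℤ) := Φ * (lg.map (fac v)).prod with hU
  have key : ∀ n, P.natDegree < n → PowerSeries.coeff n U = 0 := by
    intro n hn
    have h1 : ∀ q : ℕ, 2 ≤ q → evq q (PowerSeries.coeff n U) = 0 := by
      intro q hq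
      obtain ⟨U', hU', hdeg⟩ := root_rem (PowerSeries.map (evq q) Φ) (lb.map (fq q v)).prod
        (lg.map (fq q v)).prod (P.map (evq q)) (fqs_ne q v lb hlb) (by
          have h2 := congrArg (PowerSeries.map (evq q)) h
          rw [map_mul, map_mul, map_facs, map_facs, ← Polynomial.polynomial_map_coe] at h2
          rw [← h2]
          push_cast
          ring) (fun T0 hT0 => by
          obtain ⟨a, ha, ha0⟩ := fqs_root q v lb T0 hT0
          exact hr q hq T0 a ha ha0)
      have h3 : PowerSeries.map (evq q) U = (U' : PowerSeries ℂ) := by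
        rw [hU, map_mul, map_facs, ← hU']
        ring
      have h4 := congrArg (PowerSeries.coeff n) h3
      rw [PowerSeries.coeff_map, Polynomial.coeff_coe] at h4
      rw [h4]
      apply Polynomial.coeff_eq_zero_of_natDegree_lt
      exact (hdeg.trans (Polynomial.natDegree_map_le)).trans_lt hn
    -- infinitely many roots
    set c := PowerSeries.coeff n U with hc
    have h2 : c.map (Int.castRingHom ℂ) = 0 := by
      apply Polynomial.eq_zero_of_infinite_isRoot
      have hinj : Function.Injective fun q : ℕ => ((q + 2 : ℕ) : ℂ)⁻¹ := by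
        intro a b hab
        have := inv_injective hab
        have h5 : a + 2 = b + 2 := by exact_mod_cast this
        omega
      refine (Set.infinite_range_of_injective hinj).mono ?_
      rintro _ ⟨q, rfl⟩
      have h5 := h1 (q + 2) (by omega)
      unfold evq at h5
      rw [Polynomial.coe_eval₂RingHom] at h5
      show Polynomial.eval _ _ = 0
      rw [Polynomial.eval_map]
      exact h5
    exact (Polynomial.map_eq_zero_iff (RingHom.injective_int _)).1 h2
  refine ⟨PowerSeries.trunc (P.natDegree + 1) U, ?_⟩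
  ext1 n
  rw [Polynomial.coeff_coe, PowerSeries.coeff_trunc]
  split_ifs with hn
  · rfl
  · exact key n (by omega)

/-- polynomials -/
def IsPol (Φ : PowerSeries (Polynomial ℤ)) : Prop :=
  ∃ P : Polynomial (Polynomial ℤ), Φ = (P : PowerSeries (Polynomial ℤ))

lemma IsPol.add {Φ Ψ : PowerSeries (Polynomial ℤ)} (h : IsPol Φ) (h' : IsPol Ψ) :
    IsPol (Φ + Ψ) := by
  obtain ⟨P, rfl⟩ := h
  obtain ⟨P', rfl⟩ := h'
  exact ⟨P + P', by push_cast; rfl⟩

lemma IsPol.mul {Φ Ψ : PowerSeries (Polynomial ℤ)} (h : IsPol Φ) (h' : IsPol Ψ) :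
    IsPol (Φ * Ψ) := by
  obtain ⟨P, rfl⟩ := h
  obtain ⟨P', rfl⟩ := h'
  exact ⟨P * P', by push_cast; rfl⟩

lemma IsPol.C (a : Polynomial ℤ) : IsPol (PowerSeries.C a) := ⟨Polynomial.C a, by simp⟩

lemma IsPol.X : IsPol PowerSeries.X := ⟨Polynomial.X, by simp⟩

lemma IsPol.one : IsPol 1 := ⟨1, by simp⟩

lemma IsPol.neg {Φ : PowerSeries (Polynomial ℤ)} (h : IsPol Φ) : IsPol (-Φ) := by
  obtain ⟨P, rfl⟩ := h
  exact ⟨-P, by push_cast; rfl⟩

lemma IsPol.sub {Φ Ψ : PowerSeries (Polynomial ℤ)} (h : IsPol Φ) (h' : IsPol Ψ) :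
    IsPol (Φ - Ψ) := by
  rw [sub_eq_add_neg]
  exact h.add h'.neg

lemma IsPol.pow {Φ : PowerSeries (Polynomial ℤ)} (h : IsPol Φ) (n : ℕ) : IsPol (Φ ^ n) := by
  induction n with
  | zero => rw [pow_zero]; exact IsPol.one
  | succ n ih => rw [pow_succ]; exact ih.mul h

lemma IsPol.fac (v : Fin r → Fin N → ℕ) (a : Fin N → ℕ) : IsPol (fac v a) :=
  IsPol.one.sub ((IsPol.C _).mul (IsPol.X.pow _))

lemma IsPol.facs (v : Fin r → Fin N → ℕ) (l : List (Fin N → ℕ)) :
    IsPol (l.map (Pool.Agent.TH216.MF.fac v)).prod := by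
  induction l with
  | nil => simpa using IsPol.one
  | cons a l ih =>
    rw [List.map_cons, List.prod_cons]
    exact (IsPol.fac v a).mul ih

lemma IsPol.sum {ι : Type} (s : Finset ι) (Φ : ι → PowerSeries (Polynomial ℤ))
    (h : ∀ i ∈ s, IsPol (Φ i)) : IsPol (∑ i ∈ s, Φ i) := by
  classical
  induction s using Finset.induction_on with
  | empty => exact ⟨0, by simp⟩
  | insert a s ha ih =>
    rw [Finset.sum_insert ha]
    exact (h a (Finset.mem_insert_self _ _)).add
      (ih fun i hi => h i (Finset.mem_insert_of_mem hi))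

lemma prod_flat (v : Fin r → Fin N → ℕ) (l : Finset (Fin r) → List (Fin N → ℕ))
    (L : List (Finset (Fin r))) :
    ((L.flatMap l).map (fac v)).prod = (L.map fun τ => ((l τ).map (fac v)).prod).prod := by
  induction L with
  | nil => simp
  | cons a L ih =>
    rw [List.flatMap_cons, List.map_append, List.prod_append, ih, List.map_cons, List.prod_cons]

open Classical in
lemma prod_split (v : Fin r → Fin N → ℕ) (p : (Fin N → ℕ) → Prop) (L : List (Fin N → ℕ)) :
    (L.map (fac v)).prod = ((L.filter fun a => p a).map (fac v)).prod *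
      ((L.filter fun a => ¬ p a).map (fac v)).prod := by
  induction L with
  | nil => simp
  | cons a L ih =>
    rw [List.map_cons, List.prod_cons, ih]
    by_cases h : p a
    · rw [List.filter_cons_of_pos (by simpa using h), List.filter_cons_of_neg (by simpa using h),
        List.map_cons, List.prod_cons]
      ring
    · rw [List.filter_cons_of_neg (by simpa using h), List.filter_cons_of_pos (by simpa using h),
        List.map_cons, List.prod_cons]
      ring

/-- **The formal theorem.** -/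
theorem formal (hr : 0 < r) (v : Fin r → Fin N → ℕ) (J : Finset (Fin N)) (Bad : ℚ → Prop)
    (hB : ∀ q : ℕ, 2 ≤ q → ∀ e : Finset (Fin r) → ℂ, KRelJ q v J e → ∀ T0 : ℂ, T0 ≠ 0 →
      ∀ σ : ℚ, Bad σ → Real.log ‖T0‖ / Real.log q = (σ : ℝ) → RecJ q v e J T0) :
    ∃ l : List (Fin N → ℕ), (∀ a ∈ l, IsRay v a ∧ 0 < gord v a ∧
        ¬ Bad (((∑ i, a i : ℕ) : ℚ) / gord v a)) ∧
      ∀ κ, IsPol (Gd v J κ * (l.map (fac v)).prod) := by
  classical
  have hford : ∀ a : Fin N → ℕ, ford 0 v 1 a = gord v a := fun a => by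
    unfold ford
    simp
  have h3 : S_RAT := Pool.Agent.W29.MTRat.main Pool.Agent.W346.MTCp2.main
    Pool.Agent.W230.MTZCF.main
  choose l P hl hP using fun τ : Finset (Fin r) => h3 (0 : Fin N → ℕ) v 1 J τ hr one_pos
  simp only [hford] at hl hP
  set L := (Finset.univ : Finset (Finset (Fin r))).toList.flatMap l with hL
  have hLm : ∀ a ∈ L, IsRay v a ∧ 0 < gord v a := by
    intro a ha
    rw [hL, List.mem_flatMap] at ha
    obtain ⟨τ, -, ha⟩ := ha
    exact hl τ a ha
  have hprod : (L.map (fac v)).prod = ∏ τ, ((l τ).map (fac v)).prod := by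
    rw [hL, prod_flat, Finset.prod_map_toList]
  have hc : ∀ τ, IsPol (cser v J τ * (L.map (fac v)).prod) := by
    intro τ
    rw [hprod, ← Finset.mul_prod_erase _ _ (Finset.mem_univ τ), ← mul_assoc]
    have h4 : IsPol (cser v J τ * ((l τ).map (fac v)).prod) := ⟨P τ, hP τ⟩
    refine h4.mul ?_
    have h5 : ∀ s : Finset (Finset (Fin r)), IsPol (∏ τ ∈ s, ((l τ).map (fac v)).prod) := by
      intro s
      induction s using Finset.induction_on with
      | empty => simpa using IsPol.one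
      | insert a s ha ih =>
        rw [Finset.prod_insert ha]
        exact (IsPol.facs v _).mul ih
    exact h5 _
  have hsum : ∀ c : Finset (Fin r) → Polynomial ℤ,
      IsPol ((∑ τ, PowerSeries.C (c τ) * cser v J τ) * (L.map (fac v)).prod) := by
    intro c
    rw [Finset.sum_mul]
    refine IsPol.sum _ _ fun τ _ => ?_
    rw [mul_assoc]
    exact (IsPol.C _).mul (hc τ)
  have hG : ∀ κ, IsPol (Gd v J κ * (L.map (fac v)).prod) := by
    intro κ
    unfold Gd
    split_ifs
    · rw [add_mul, mul_assoc]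
      exact ((IsPol.X.sub IsPol.one).mul (hsum _)).add (hsum _)
    · exact hsum _
  set p : (Fin N → ℕ) → Prop := fun a => Bad (((∑ i, a i : ℕ) : ℚ) / gord v a) with hp
  refine ⟨L.filter fun a => ¬ p a, fun a ha => ?_, fun κ => ?_⟩
  · rw [List.mem_filter] at ha
    obtain ⟨h4, h5⟩ := hLm a ha.1
    have h6 : ¬ p a := by simpa using ha.2
    exact ⟨h4, h5, h6⟩
  · obtain ⟨P', hP'⟩ := hG κ
    rw [prod_split v p L] at hP'
    refine univ_good v _ _ _ P' hP' (fun a ha => (hLm a (List.mem_filter.1 ha).1).2) ?_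
    intro q hq T0 a ha h0
    have ha1 := hLm a (List.mem_filter.1 ha).1
    have hpa : p a := by simpa using (List.mem_filter.1 ha).2
    refine gd_rec hr q hq v J κ T0 (hB q hq _ (krelJ_eK q v J κ) T0 ?_ _ hpa ?_)
    · rintro rfl
      unfold fq at h0
      simp [ha1.2.ne'] at h0
    · have h1 : (q : ℂ)⁻¹ ^ (∑ i, a i) * T0 ^ gord v a = 1 := by
        unfold fq at h0
        rw [Polynomial.eval_sub, Polynomial.eval_one, Polynomial.eval_mul, Polynomial.eval_C,
          Polynomial.eval_pow, Polynomial.eval_X] at h0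
        linear_combination -h0
      have h2 := congrArg norm h1
      rw [norm_mul, norm_pow, norm_pow, norm_inv, Complex.norm_natCast, norm_one] at h2
      have hq0 : (0 : ℝ) < q := by
        have : 0 < q := by omega
        exact_mod_cast this
      have hT : ‖T0‖ ^ gord v a = (q : ℝ) ^ (∑ i, a i) := by
        rw [inv_pow] at h2
        field_simp at h2
        linarith
      have hlog := congrArg Real.log hT
      rw [Real.log_pow, Real.log_pow] at hlog
      have hg : ((gord v a : ℕ) : ℝ) ≠ 0 := by exact_mod_cast ha1.2.ne'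
      have hlq : Real.log q ≠ 0 := (Real.log_pos (by exact_mod_cast (by omega : 1 < q))).ne'
      push_cast at hlog ⊢
      field_simp
      linarith

end Pool.Agent.TH216.MF
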