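import Pool.Agent.TH216.MF.Crit
import Pool.Agent.W425.BF.Stm

set_option autoImplicit false

/-! The condition of the criterion, in terms of the rays of the normal fan. -/

namespace Pool.Agent.TH216.MF

open Pool.Agent.W426.SM (gord IsRay face)
open Pool.Agent.W803.SM (gord_le exists_gord)
open Pool.Agent.W425.BF (B1)

variable {r N : ℕ}

lemma Pt.mono {v : Fin r → Fin N → ℕ} {A A' : Finset (Fin N)} {Z Z' : Finset (Fin r)}
    (hA : A' ⊆ A) (hZ : Z' ⊆ Z) {a : Fin N → ℚ} (h : a ∈ Pt v A' Z') : a ∈ Pt v A Z :=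
  ⟨h.1, fun i hi => h.2.1 i fun h' => hi (hA h'), h.2.2.1, fun j hj => h.2.2.2 j fun h' => hj (hZ h')⟩

/-- moving until a new constraint becomes tight -/
lemma move (v : Fin r → Fin N → ℕ) (A : Finset (Fin N)) (Z : Finset (Fin r)) (a w : Fin N → ℚ)
    (ha : a ∈ Pt v A Z) (hw1 : ∀ i, a i = 0 → w i = 0)
    (hw2 : ∀ j, ∑ i, a i * (v j i : ℚ) = 1 → ∑ i, w i * (v j i : ℚ) = 0) (hneg : ∃ i, w i < 0) :
    ∃ a' ∈ Pt v A Z,
      (Finset.univ.filter fun i => a' i ≠ 0).card +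
        (Finset.univ.filter fun j => ∑ i, a' i * (v j i : ℚ) ≠ 1).card <
      (Finset.univ.filter fun i => a i ≠ 0).card +
        (Finset.univ.filter fun j => ∑ i, a i * (v j i : ℚ) ≠ 1).card := by
  classical
  obtain ⟨i0, hi0⟩ := hneg
  set L : Fin r → ℚ := fun j => ∑ i, w i * (v j i : ℚ) with hL
  set av : Fin r → ℚ := fun j => ∑ i, a i * (v j i : ℚ) with hav
  let f : Fin N ⊕ Fin r → ℚ := Sum.elim (fun i => a i / (- w i)) (fun j => (av j - 1) / (- L j))
  let S : Finset (Fin N ⊕ Fin r) := Finset.univ.filter fun x =>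
    Sum.elim (fun i => w i < 0) (fun j => L j < 0) x
  have hS : S.Nonempty := ⟨Sum.inl i0, Finset.mem_filter.2 ⟨Finset.mem_univ _, hi0⟩⟩
  obtain ⟨s0, hs0, hmin⟩ := Finset.exists_min_image S f hS
  set ε : ℚ := f s0 with hε
  have h1av : ∀ j, 0 ≤ av j - 1 := fun j => sub_nonneg.2 (ha.2.2.1 j)
  have hε0 : 0 ≤ ε := by
    rcases s0 with i | j
    · have h2 : w i < 0 := (Finset.mem_filter.1 hs0).2
      exact div_nonneg (ha.1 i) (by linarith)
    · have h2 : L j < 0 := (Finset.mem_filter.1 hs0).2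
      exact div_nonneg (h1av j) (by linarith)
  have hav' : ∀ j, ∑ i, (a i + ε * w i) * (v j i : ℚ) = av j + ε * L j := by
    intro j
    rw [hav, hL]
    simp only [add_mul, Finset.sum_add_distrib, Finset.mul_sum]
    congr 1
    exact Finset.sum_congr rfl fun i _ => by ring
  have hmem : (fun i => a i + ε * w i) ∈ Pt v A Z := by
    refine ⟨fun i => ?_, fun i hi => ?_, fun j => ?_, fun j hj => ?_⟩
    · by_cases h2 : w i < 0
      · have h3 : ε ≤ a i / (- w i) := hmin (Sum.inl i) (Finset.mem_filter.2 ⟨Finset.mem_univ _, h2⟩)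
        rw [le_div_iff₀ (by linarith)] at h3
        show 0 ≤ a i + ε * w i
        linarith
      · push Not at h2
        have := mul_nonneg hε0 h2
        have := ha.1 i
        show 0 ≤ a i + ε * w i
        linarith
    · show a i + ε * w i = 0
      rw [ha.2.1 i hi, hw1 i (ha.2.1 i hi)]
      ring
    · rw [hav']
      by_cases h2 : L j < 0
      · have h3 : ε ≤ (av j - 1) / (- L j) :=
          hmin (Sum.inr j) (Finset.mem_filter.2 ⟨Finset.mem_univ _, h2⟩)
        rw [le_div_iff₀ (by linarith)] at h3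
        linarith
      · push Not at h2
        have := mul_nonneg hε0 h2
        have := h1av j
        linarith
    · rw [hav']
      have h2 : av j = 1 := ha.2.2.2 j hj
      rw [h2, show L j = 0 from hw2 j h2]
      ring
  refine ⟨_, hmem, ?_⟩
  have hsub1 : (Finset.univ.filter fun i => a i + ε * w i ≠ 0) ⊆
      Finset.univ.filter fun i => a i ≠ 0 := by
    intro i hi
    rw [Finset.mem_filter] at hi ⊢
    refine ⟨Finset.mem_univ _, fun h => hi.2 ?_⟩
    rw [h, hw1 i h]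
    ring
  have hsub2 : (Finset.univ.filter fun j => ∑ i, (a i + ε * w i) * (v j i : ℚ) ≠ 1) ⊆
      Finset.univ.filter fun j => ∑ i, a i * (v j i : ℚ) ≠ 1 := by
    intro j hj
    rw [Finset.mem_filter] at hj ⊢
    refine ⟨Finset.mem_univ _, fun h => hj.2 ?_⟩
    rw [hav', show av j = 1 from h, show L j = 0 from hw2 j h]
    ring
  have hc1 := Finset.card_le_card hsub1
  have hc2 := Finset.card_le_card hsub2
  rcases s0 with i | j
  · have h2 : w i < 0 := (Finset.mem_filter.1 hs0).2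
    have h3 : ε = a i / (- w i) := rfl
    have h4 : a i + ε * w i = 0 := by
      rw [h3, div_neg, neg_mul, div_mul_cancel₀ _ h2.ne, add_neg_cancel]
    have h5 : a i ≠ 0 := fun h => by
      have := hw1 i h
      linarith
    have h6 := Finset.card_lt_card (Finset.ssubset_iff_subset_ne.2 ⟨hsub1, fun h => by
      have h7 : i ∈ (Finset.univ.filter fun i => a i + ε * w i ≠ 0) := by
        rw [h]
        exact Finset.mem_filter.2 ⟨Finset.mem_univ _, h5⟩
      exact (Finset.mem_filter.1 h7).2 h4⟩)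
    exact add_lt_add_of_lt_of_le h6 hc2
  · have h2 : L j < 0 := (Finset.mem_filter.1 hs0).2
    have h3 : ε = (av j - 1) / (- L j) := rfl
    have h4 : ∑ i, (a i + ε * w i) * (v j i : ℚ) = 1 := by
      rw [hav', h3, div_neg, neg_mul, div_mul_cancel₀ _ h2.ne]
      ring
    have h5 : av j ≠ 1 := fun h => by
      have h6 : L j = 0 := hw2 j h
      linarith
    have h6 := Finset.card_lt_card (Finset.ssubset_iff_subset_ne.2 ⟨hsub2, fun h => by
      have h7 : j ∈ (Finset.univ.filter fun j => ∑ i, (a i + ε * w i) * (v j i : ℚ) ≠ 1) := by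
        rw [h]
        exact Finset.mem_filter.2 ⟨Finset.mem_univ _, h5⟩
      exact (Finset.mem_filter.1 h7).2 h4⟩)
    exact add_lt_add_of_le_of_lt hc1 h6

lemma exists_minimal_of_wf {α : Type*} {μ : α → ℕ} {S : Set α} (h : S.Nonempty) :
    ∃ a ∈ S, ∀ b ∈ S, ¬ μ b < μ a := by
  classical
  have hex : ∃ n, ∃ a ∈ S, μ a = n := by
    obtain ⟨a, ha⟩ := h
    exact ⟨μ a, a, ha, rfl⟩
  obtain ⟨a, ha, hn⟩ := Nat.find_spec hex
  refine ⟨a, ha, fun b hb hlt => ?_⟩
  rw [hn] at hlt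
  exact Nat.find_min hex hlt ⟨b, hb, rfl⟩

/-- existence of a vertex -/
lemma exists_vertex (v : Fin r → Fin N → ℕ) (A : Finset (Fin N)) (Z : Finset (Fin r))
    (h : (Pt v A Z).Nonempty) :
    ∃ a ∈ Pt v A Z, ∀ w : Fin N → ℚ, (∀ i, a i = 0 → w i = 0) →
      (∀ j, ∑ i, a i * (v j i : ℚ) = 1 → ∑ i, w i * (v j i : ℚ) = 0) → w = 0 := by
  classical
  let μ : (Fin N → ℚ) → ℕ := fun a => (Finset.univ.filter fun i => a i ≠ 0).card +
        (Finset.univ.filter fun j => ∑ i, a i * (v j i : ℚ) ≠ 1).card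
  obtain ⟨a, ha, hmin⟩ := exists_minimal_of_wf (μ := μ) h
  refine ⟨a, ha, fun w hw1 hw2 => ?_⟩
  by_contra hne
  obtain ⟨i, hi⟩ : ∃ i, w i ≠ 0 := by
    by_contra hcon
    push Not at hcon
    exact hne (funext hcon)
  rcases lt_or_gt_of_ne hi with hi | hi
  · obtain ⟨a', ha', hlt⟩ := move v A Z a w ha hw1 hw2 ⟨i, hi⟩
    exact hmin a' ha' hlt
  · obtain ⟨a', ha', hlt⟩ := move v A Z a (fun i => - w i) ha (fun i h => by rw [hw1 i h, neg_zero])
      (fun j h => by
        simp only [neg_mul, Finset.sum_neg_distrib]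
        rw [hw2 j h, neg_zero]) ⟨i, by simpa using hi⟩
    exact hmin a' ha' hlt

/-- the ray of a vertex -/
lemma ray_of_vertex (hr : 0 < r) (v : Fin r → Fin N → ℕ) (A : Finset (Fin N))
    (Z : Finset (Fin r)) (h : (Pt v A Z).Nonempty) :
    ∃ (a : Fin N → ℚ) (b : Fin N → ℕ), a ∈ Pt v A Z ∧ (∀ i, b i = 0 ↔ a i = 0) ∧ IsRay v b ∧
      0 < gord v b ∧ (∀ j, face v b j ↔ ∑ i, a i * (v j i : ℚ) = 1) ∧
      ((∑ i, b i : ℕ) : ℚ) / gord v b = ∑ i, a i := by
  classical
  obtain ⟨a, ha, hvert⟩ := exists_vertex v A Z h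
  obtain ⟨s, b, hs, ⟨-, hb⟩, -⟩ := pair_int' v A Z a ha.1 ha.2.1 ha.2.2.2
  have hs' : (0 : ℚ) < s := by exact_mod_cast hs
  have hb0 : ∀ i, b i = 0 ↔ a i = 0 := by
    intro i
    have h1 := hb i
    constructor
    · intro h2
      rw [h2, Nat.cast_zero] at h1
      exact (mul_eq_zero.1 h1.symm).resolve_right hs'.ne'
    · intro h2
      rw [h2, zero_mul] at h1
      exact_mod_cast h1
  have hbv : ∀ j, ((∑ i, b i * v j i : ℕ) : ℚ) = s * ∑ i, a i * (v j i : ℚ) := by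
    intro j
    push_cast
    rw [Finset.mul_sum]
    refine Finset.sum_congr rfl fun i _ => ?_
    rw [hb]
    ring
  have hge : ∀ j, s ≤ ∑ i, b i * v j i := by
    intro j
    have h1 := hbv j
    have h2 := ha.2.2.1 j
    have h3 : (s : ℚ) ≤ ((∑ i, b i * v j i : ℕ) : ℚ) := by
      rw [h1]
      nlinarith
    exact_mod_cast h3
  obtain ⟨j1, hj1⟩ : ∃ j, ∑ i, a i * (v j i : ℚ) = 1 := by
    by_contra hcon
    push Not at hcon
    have h1 := hvert a (fun i hi => hi) (fun j hj => absurd hj (hcon j))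
    have h2 := ha.2.2.1 ⟨0, hr⟩
    rw [h1] at h2
    simp at h2
    exact absurd h2 (by norm_num)
  have heq : ∀ j, ∑ i, b i * v j i = s ↔ ∑ i, a i * (v j i : ℚ) = 1 := by
    intro j
    have h1 := hbv j
    constructor
    · intro h2
      rw [h2] at h1
      field_simp at h1
      exact h1.symm
    · intro h2
      rw [h2, mul_one] at h1
      exact_mod_cast h1
  have hgord : gord v b = s := by
    refine le_antisymm ?_ ?_
    · rw [← (heq j1).2 hj1]
      exact gord_le v b j1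
    · obtain ⟨j, hj⟩ := exists_gord hr v b
      rw [← hj]
      exact hge j
  have hface : ∀ j, face v b j ↔ ∑ i, a i * (v j i : ℚ) = 1 := by
    intro j
    unfold face
    rw [hgord]
    exact heq j
  refine ⟨a, b, ha, hb0, ⟨?_, fun u hu1 hu2 => ?_⟩, by rw [hgord]; exact hs, hface, ?_⟩
  · intro h1
    have h2 : a = 0 := funext fun i => (hb0 i).1 (congrFun h1 i)
    rw [h2] at hj1
    simp at hj1
  · set x : ℚ := ∑ i, u i * (v j1 i : ℚ) with hx
    have h1 := hvert (fun i => u i - x * a i) (fun i hi => by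
      rw [hu1 i ((hb0 i).2 hi), hi]
      ring) (fun j hj => by
      have h2 := hu2 j j1 ((hface j).2 hj) ((hface j1).2 hj1)
      simp only [sub_mul, Finset.sum_sub_distrib]
      have h3 : ∑ i, x * a i * (v j i : ℚ) = x * ∑ i, a i * (v j i : ℚ) := by
        rw [Finset.mul_sum]
        exact Finset.sum_congr rfl fun i _ => by ring
      rw [h3, hj, h2, mul_one, sub_self])
    refine ⟨x / s, fun i => ?_⟩
    have h2 := congrFun h1 i
    simp only [Pi.zero_apply] at h2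
    rw [hb i]
    field_simp
    linarith
  · rw [hgord, div_eq_iff hs'.ne']
    push_cast
    rw [Finset.sum_mul]
    exact Finset.sum_congr rfl fun i _ => hb i

/-- the vectors `(v j i)_{a i ≠ 0}`, for the `j` in the face of `a`, are linearly independent -/
def SimR (v : Fin r → Fin N → ℕ) (a : Fin N → ℕ) : Prop :=
  ∀ w : Fin r → ℚ, (∀ j, ¬ face v a j → w j = 0) →
    (∀ i, a i ≠ 0 → ∑ j, w j * (v j i : ℚ) = 0) → ∀ j, w j = 0

/-- **The condition, in terms of rays.** -/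
theorem hypS_of (hr : 0 < r) (v : Fin r → Fin N → ℕ) (σ : ℝ)
    (h : ∀ j1 : Fin r, ∃ i, ∀ a : Fin N → ℕ, IsRay v a → 0 < gord v a → face v a j1 →
      ((∑ i, a i : ℕ) : ℝ) / gord v a = σ → SimR v a ∨ B1 v i a) : HypS v σ := by
  classical
  intro A Z hne hconst hprem
  -- rays of the faces
  have hray : ∀ (A' : Finset (Fin N)) (Z' : Finset (Fin r)), A' ⊆ A → Z' ⊆ Z →
      (Pt v A' Z').Nonempty → ∃ (a : Fin N → ℚ) (b : Fin N → ℕ), a ∈ Pt v A' Z' ∧
        (∀ i, b i = 0 ↔ a i = 0) ∧ IsRay v b ∧ 0 < gord v b ∧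
        (∀ j, face v b j ↔ ∑ i, a i * (v j i : ℚ) = 1) ∧
        ((∑ i, b i : ℕ) : ℝ) / gord v b = σ := by
    intro A' Z' hA' hZ' hne'
    obtain ⟨a, b, h1, h2, h3, h4, h5, h6⟩ := ray_of_vertex hr v A' Z' hne'
    refine ⟨a, b, h1, h2, h3, h4, h5, ?_⟩
    rw [← hconst a (Pt.mono hA' hZ' h1), ← h6]
    push_cast
    rfl
  obtain ⟨a0, b0, ha0, hb0, hr0, hg0, hf0, hs0⟩ := hray A Z (Finset.Subset.refl _)
    (Finset.Subset.refl _) hne
  -- a vertex outside `Z`
  obtain ⟨i1, hi1⟩ : ∃ i, i ∈ A := by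
    by_contra hcon
    push Not at hcon
    have h1 := ha0.2.2.1 ⟨0, hr⟩
    have h2 : ∑ i, a0 i * (v ⟨0, hr⟩ i : ℚ) = 0 := Finset.sum_eq_zero fun i _ => by
      rw [ha0.2.1 i (hcon i), zero_mul]
    rw [h2] at h1
    exact absurd h1 (by norm_num)
  obtain ⟨j1, hj1, -⟩ := hprem i1 hi1
  obtain ⟨i, hi⟩ := h j1
  have hforced : ∀ (a : Fin N → ℚ) (b : Fin N → ℕ), a ∈ Pt v A Z → (∀ i, b i = 0 ↔ a i = 0) →
      (∀ j, face v b j ↔ ∑ i, a i * (v j i : ℚ) = 1) → SimR v b → Forced v A Z := by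
    intro a b ha hb hf hsim w hw1 hw2
    refine hsim w (fun j hj => ?_) (fun i hi => ?_)
    · apply hw2
      by_contra hjZ
      exact hj ((hf j).2 (ha.2.2.2 j hjZ))
    · apply hw1
      by_contra hiA
      exact hi ((hb i).2 (ha.2.1 i hiA))
  by_cases hsim : Forced v A Z
  · exact Or.inl hsim
  right
  have hB : ∀ (A' : Finset (Fin N)) (Z' : Finset (Fin r)), A' ⊆ A → Z' ⊆ Z →
      (Pt v A' Z').Nonempty → ∃ (a : Fin N → ℚ) (b : Fin N → ℕ), a ∈ Pt v A' Z' ∧
        (∀ i, b i = 0 ↔ a i = 0) ∧ (∀ j, face v b j ↔ ∑ i, a i * (v j i : ℚ) = 1) ∧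
        B1 v i b := by
    intro A' Z' hA' hZ' hne'
    obtain ⟨a, b, h1, h2, h3, h4, h5, h6⟩ := hray A' Z' hA' hZ' hne'
    refine ⟨a, b, h1, h2, h5, ?_⟩
    have hm := Pt.mono hA' hZ' h1
    rcases hi b h3 h4 ((h5 j1).2 (hm.2.2.2 j1 hj1)) h6 with h7 | h7
    · exact absurd (hforced a b hm h2 h5 h7) hsim
    · exact h7
  obtain ⟨a1, b1, ha1, hb1, hf1, hB1⟩ := hB A Z (Finset.Subset.refl _)
    (Finset.Subset.refl _) hne
  obtain ⟨hb1i, j0, hj0f, hj0, hj0u⟩ := hB1
  have hiA : i ∈ A := by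
    by_contra hiA
    exact hb1i ((hb1 i).2 (ha1.2.1 i hiA))
  refine ⟨i, hiA, j0, hj0, fun a ha hai => ?_, fun j hj hji a ha haj => ?_⟩
  · obtain ⟨a2, b2, ha2, hb2, hf2, hB2⟩ := hB (A.erase i) Z (Finset.erase_subset _ _)
      (Finset.Subset.refl _) ⟨a, ha.1, fun i' hi' => by
        by_cases h1 : i' = i
        · rw [h1]; exact hai
        · exact ha.2.1 i' fun h2 => hi' (Finset.mem_erase.2 ⟨h1, h2⟩), ha.2.2.1, ha.2.2.2⟩
    exact hB2.1 ((hb2 i).2 (ha2.2.1 i (Finset.notMem_erase i A)))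
  · obtain ⟨a2, b2, ha2, hb2, hf2, hB2⟩ := hB A (Z.erase j) (Finset.Subset.refl _)
      (Finset.erase_subset _ _) ⟨a, ha.1, ha.2.1, ha.2.2.1, fun j' hj' => by
        by_cases h1 : j' = j
        · rw [h1]; exact haj
        · exact ha.2.2.2 j' fun h2 => hj' (Finset.mem_erase.2 ⟨h1, h2⟩)⟩
    obtain ⟨hb2i, j0', hj0f', hj0', hj0u'⟩ := hB2
    obtain ⟨j2, hj2Z, hj2⟩ := hprem i hiA
    have h3 : j2 = j0 := by
      by_contra h4
      have := hj0u j2 ((hf1 j2).2 (ha1.2.2.2 j2 hj2Z)) h4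
      omega
    have h4 : j2 = j0' := by
      by_contra h4
      have := hj0u' j2 ((hf2 j2).2 (ha2.2.2.2 j2 fun h5 => hj2Z (Finset.mem_of_mem_erase h5))) h4
      omega
    have h5 : j = j0' := by
      by_contra h6
      have := hj0u' j ((hf2 j).2 (ha2.2.2.2 j (Finset.notMem_erase j Z))) h6
      omega
    exact hj (h5.trans (h4.symm.trans h3))

end Pool.Agent.TH216.MF
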