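import Pool.Agent.TH216.MF.PFinM
import Pool.Agent.TH216.MF.Rays
import Pool.Agent.TH216.MF.Conv

set_option autoImplicit false

/-! p-adic zeta functions: the orders of the poles, general form. -/

namespace Pool.Agent.TH216.MF

open MeasureTheory Filter Topology Pool.Agent.W426.SM Pool.Agent.W803.SM Pool.Agent.W425.SV
open Pool.Agent.W425.PN (ford_eq qpoly spoly_eq idn_of)
open Pool.Agent.W425.BF (ZMd CRel gam aux)

variable {N : ℕ}

/-- **The orders of the poles, general form.** -/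
theorem padic_gen {R R' : ℕ} (hR : 0 < R) (hR' : 0 < R') (v : Fin R → Fin N → ℕ)
    (v' : Fin R' → Fin N → ℕ) (hv : Function.Injective v) (ha : ∀ j', ∃ j, v j = v' j')
    (hb : ∀ j, InC v' Finset.univ (v j)) (c : Fin R → ℚ) (h2 : ZMd 0 v c 1) :
    ∃ S : Finset ℕ, ∀ (p : ℕ) [Fact p.Prime], p ∉ S →
      ∀ [MeasurableSpace (Fin N → PadicInt p)] [BorelSpace (Fin N → PadicInt p)],
      ∀ F : ℂ → ℂ, MeromorphicOn F Set.univ →
        (∀ s : ℂ, 0 < s.re →
          F s = ∫ x, ((‖MvPolynomial.eval₂ (algebraMap ℚ (Padic p))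
                    (fun i => ((x i : PadicInt p) : Padic p)) (qpoly v c)‖ : ℝ) : ℂ) ^ s
                  ∂(MeasureTheory.Measure.addHaar : MeasureTheory.Measure (Fin N → PadicInt p))) →
        ∀ s₀ : ℂ, ∀ pol : Polynomial ℂ, pol ≠ 0 → ∀ θ : Fin R' → ℤ,
          RelG v' (Kil1 v') (KilU v' θ) pol → HypS v' (-s₀.re) →
          ((-(((Polynomial.X + 1) * pol).rootMultiplicity ((s₀.re : ℝ) : ℂ) : ℤ) : ℤ) :
            WithTop ℤ) ≤ meromorphicOrderAt F s₀ := by
  obtain ⟨S, hS⟩ := h2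
  refine ⟨S, ?_⟩
  intro p hpf hpS hmeas hborel F hF hFI s₀ pol hpol0 θ hpol hσ
  obtain ⟨V, C₀, C₁, hV, hCR, hint⟩ := hS p hpS
  have hp : 2 ≤ p := hpf.out.two_le
  have hp0 : (p : ℂ) ≠ 0 := by exact_mod_cast (by omega : p ≠ 0)
  have hlog : Real.log p ≠ 0 := (Real.log_pos (by exact_mod_cast (by omega : 1 < p))).ne'
  obtain ⟨e, K, he, heq⟩ := series_gam p hp v C₀ C₁ hCR
  set T0 : ℂ := (p : ℂ) ^ (-s₀) with hT0
  have hT00 : T0 ≠ 0 := by
    rw [hT0, Ne, Complex.cpow_eq_zero_iff]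
    tauto
  have hnT0 : -Real.log ‖T0‖ / Real.log p = s₀.re := by
    rw [hT0, Complex.norm_natCast_cpow_of_pos (by omega), Real.log_rpow (by positivity),
      Complex.neg_re]
    field_simp
  set e' : Finset (Fin R') → ℂ := fun J => e (PhiC v v' J) with he'
  have hke' : KRel p v' e' := krel_phi v v' hv ha p e he
  have hsig : Real.log ‖T0‖ / Real.log p = -s₀.re := by
    rw [← hnT0]
    ring
  set D : ℤ := ∑ j, |θ j| with hD
  have hθD : ∀ j, 0 ≤ D - θ j := by
    intro j
    have h1 := Finset.single_le_sum (f := fun j => |θ j|) (fun j _ => abs_nonneg _)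
      (Finset.mem_univ j)
    have h3 := le_abs_self (θ j)
    have h4 : |θ j| ≤ D := h1
    linarith
  obtain ⟨Q1, hQ1, hZ⟩ := coreU p hp v' pol θ D (fun j => (D - θ j).toNat)
    (fun j => Int.toNat_of_nonneg (hθD j)) hpol (kE e') (kern_kE p v' e' hke') T0 hT00 hpol0
    (crit_of_hyp p hp v' _ (kern_kE p v' e' hke') T0 hT00 _ (by rw [hsig]; exact hσ))
  have hZ := hZ 1
  rw [mul_one] at hZ
  rw [hnT0] at hZ
  set μ : ℕ := pol.rootMultiplicity ((s₀.re : ℝ) : ℂ) with hμ
  set Q : Polynomial ℂ := Q1 * (Polynomial.X - Polynomial.C T0) ^ μ with hQd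
  obtain ⟨A, hA⟩ := series_reg hR' p hp v' e' Q hZ
  have hg := gord_conv v v' hR hR' ha hb
  have hfl : ∀ x, e' (filt v' x) = e (filt v x) := fun x => by
    rw [he']
    simp only
    rw [phi_filt v v' hR hR' ha hb x]
  have he0 : e' ∅ = e ∅ := by
    rw [he']
    simp only
    rw [phi_empty]
  simp only [hfl, he0, ← hg] at hA
  have hpow : ∀ (a N : ℕ) (s : ℂ), (p : ℂ) ^ (-((a : ℂ) + s * N)) =
      (p : ℂ)⁻¹ ^ a * ((p : ℂ) ^ (-s)) ^ N := by
    intro a N s
    rw [neg_add, Complex.cpow_add _ _ hp0, Complex.cpow_neg, Complex.cpow_natCast, inv_pow,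
      ← Complex.cpow_nat_mul]
    congr 2
    ring
  have hdt : Differentiable ℂ fun s : ℂ => (p : ℂ) ^ (-s) := diff_pow hp differentiable_id.neg
  refine ord_bound F (fun s => Q.eval ((p : ℂ) ^ (-s)) * (1 - (p : ℂ) ^ (-(1 + s))))
    (fun s => V * (Q.eval ((p : ℂ) ^ (-s)) * K - (1 - (p : ℂ) ^ (-s)) * A.eval ((p : ℂ) ^ (-s))))
    ?_ ?_ hF ?_ s₀ _ ?_
  · refine ((Polynomial.differentiable Q).comp hdt).mul ?_
    exact (differentiable_const _).sub (diff_pow hp (by fun_prop))
  · refine (differentiable_const _).mul ?_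
    refine (((Polynomial.differentiable Q).comp hdt).mul (differentiable_const _)).sub ?_
    exact ((differentiable_const _).sub hdt).mul ((Polynomial.differentiable A).comp hdt)
  · intro s hs
    set t : ℂ := (p : ℂ) ^ (-s) with ht
    have ht1 : ‖t‖ < 1 := by
      rw [ht, Complex.norm_natCast_cpow_of_pos (by omega)]
      refine Real.rpow_lt_one_of_one_lt_of_neg (by exact_mod_cast (by omega : 1 < p)) ?_
      rw [Complex.neg_re]
      linarith
    have hX : (p : ℂ) ^ (-(1 + s)) = (p : ℂ)⁻¹ * t := by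
      have := hpow 1 1 s
      simpa using this
    have hX1 : 1 - (p : ℂ)⁻¹ * t ≠ 0 := by
      intro h
      have h3 : (p : ℂ)⁻¹ * t = 1 := (sub_eq_zero.1 h).symm
      have h4 : ‖(p : ℂ)⁻¹ * t‖ < 1 := by
        rw [norm_mul, norm_inv, Complex.norm_natCast]
        have h5 : ((p : ℝ))⁻¹ ≤ 1 := inv_le_one_of_one_le₀ (by exact_mod_cast (by omega : 1 ≤ p))
        calc (p : ℝ)⁻¹ * ‖t‖ ≤ 1 * ‖t‖ := by gcongr
          _ < 1 := by rw [one_mul]; exact ht1
      rw [h3, norm_one] at h4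
      exact lt_irrefl _ h4
    have hsum : ∀ u : Fin N → ℕ,
        (1 - (p : ℂ) ^ (-(1 + s))) * (((p : ℂ) ^ (-(((∑ i, u i : ℕ) : ℂ) + s * ford 0 v 1 u))) *
                ((C₀ (Finset.univ.filter fun j => ∑ i, u i * v j i = gord v u) : ℂ) +
                  (C₁ (Finset.univ.filter fun j => ∑ i, u i * v j i = gord v u) : ℂ) *
                    ((p : ℂ) ^ (-(((1 : ℕ) : ℂ) * s)) /
                      (1 - (p : ℂ) ^ (-(1 + ((1 : ℕ) : ℂ) * s)))))) =
        (p : ℂ)⁻¹ ^ (∑ x, u x) * t ^ gord v u * (gam p C₀ C₁ (filt v u)).eval t := by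
      intro u
      rw [ford_eq, hpow, Nat.cast_one, one_mul, hX, ← ht]
      unfold gam
      simp only [Polynomial.eval_add, Polynomial.eval_mul, Polynomial.eval_C,
        Polynomial.eval_sub, Polynomial.eval_one, Polynomial.eval_X]
      show _ = (p : ℂ)⁻¹ ^ (∑ x, u x) * t ^ gord v u *
        ((C₀ (Finset.univ.filter fun j => ∑ i, u i * v j i = gord v u) : ℂ) *
          (1 - (p : ℂ)⁻¹ * t) +
          (C₁ (Finset.univ.filter fun j => ∑ i, u i * v j i = gord v u) : ℂ) * t)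
      exact aux _ _ _ _ _ hX1
    have hI : (1 - (p : ℂ) ^ (-(1 + s))) * F s = V * (K - (1 - t) * ∑' x : Fin N → ℕ,
        (p : ℂ)⁻¹ ^ (∑ i, x i) * (e ∅ * ∑ t' ∈ Finset.range (gord v x), t ^ t' +
          e (filt v x) * t ^ gord v x)) := by
      rw [hFI s hs, ← heq t ht1, ← tsum_congr hsum, tsum_mul_left]
      have h6 := hint s hs
      have h7 : ∫ x, ((‖MvPolynomial.eval₂ (algebraMap ℚ (Padic p))
                    (fun i => ((x i : PadicInt p) : Padic p)) (qpoly v c)‖ : ℝ) : ℂ) ^ s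
                  ∂(MeasureTheory.Measure.addHaar : MeasureTheory.Measure (Fin N → PadicInt p)) =
          ∫ x, ((pval p (spoly 0 v c 1) x : ℝ) : ℂ) ^ s
              ∂(Measure.addHaar : Measure (Fin N → PadicInt p)) := by
        rw [spoly_eq]
        rfl
      rw [h7, h6]
      ring
    show Q.eval t * (1 - (p : ℂ) ^ (-(1 + s))) * F s =
      V * (Q.eval t * K - (1 - t) * A.eval t)
    rw [mul_assoc, hI, ← hA t ht1]
    ring
  · -- the order of `D`
    have hD : (fun s : ℂ => Q.eval ((p : ℂ) ^ (-s)) * (1 - (p : ℂ) ^ (-(1 + s)))) =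
        (fun s : ℂ => Q1.eval ((p : ℂ) ^ (-s)) * (-(p : ℂ)⁻¹)) *
          ((fun s : ℂ => (p : ℂ) ^ (-s) - T0) ^ μ * (fun s : ℂ => (p : ℂ) ^ (-s) - (p : ℂ))) := by
      funext s
      have hX : (p : ℂ) ^ (-(1 + s)) = (p : ℂ)⁻¹ * (p : ℂ) ^ (-s) := by
        have := hpow 1 1 s
        simpa using this
      simp only [Pi.mul_apply, Pi.pow_apply]
      rw [hX, hQd, Polynomial.eval_mul, Polynomial.eval_pow, Polynomial.eval_sub,
        Polynomial.eval_X, Polynomial.eval_C]
      field_simp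
      ring
    have ha0 : AnalyticAt ℂ (fun s : ℂ => (p : ℂ) ^ (-s)) s₀ := hdt.analyticAt s₀
    have ha1 : AnalyticAt ℂ (fun s : ℂ => Q1.eval ((p : ℂ) ^ (-s)) * (-(p : ℂ)⁻¹)) s₀ := by
      refine Differentiable.analyticAt ?_ s₀
      exact ((Polynomial.differentiable Q1).comp hdt).mul (differentiable_const _)
    have ha2 : ∀ β : ℂ, MeromorphicAt (fun s : ℂ => (p : ℂ) ^ (-s) - β) s₀ := fun β =>
      (ha0.sub analyticAt_const).meromorphicAt
    rw [hD, meromorphicOrderAt_mul_of_ne_zero ha1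
      (mul_ne_zero hQ1 (neg_ne_zero.2 (inv_ne_zero hp0))),
      meromorphicOrderAt_mul ((ha2 _).pow μ) (ha2 _), meromorphicOrderAt_pow (ha2 _)]
    rw [ord_lin p hp s₀ T0, if_pos rfl]
    have ho2 : meromorphicOrderAt (fun s : ℂ => (p : ℂ) ^ (-s) - (p : ℂ)) s₀ ≤
        ((((Polynomial.X + 1 : Polynomial ℂ)).rootMultiplicity ((s₀.re : ℝ) : ℂ) : ℤ) :
          WithTop ℤ) := by
      have hX1 : (Polynomial.X + 1 : Polynomial ℂ) = Polynomial.X - Polynomial.C (-1) := by
        simp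
      rw [ord_lin p hp s₀ p]
      split_ifs with h2
      · have h : s₀.re = -1 := by
          have h3 := congrArg norm h2
          rw [Complex.norm_natCast_cpow_of_pos (by omega), Complex.norm_natCast,
            Complex.neg_re] at h3
          have h4 := congrArg Real.log h3
          rw [Real.log_rpow (by positivity)] at h4
          have h5 : (-s₀.re - 1) * Real.log p = 0 := by linarith
          rcases mul_eq_zero.1 h5 with h6 | h6
          · linarith
          · exact absurd h6 hlog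
        have h1 : (Polynomial.X + 1 : Polynomial ℂ).rootMultiplicity ((s₀.re : ℝ) : ℂ) = 1 := by
          rw [hX1, h]
          have : (((-1 : ℝ)) : ℂ) = -1 := by push_cast; rfl
          rw [this]
          exact Polynomial.rootMultiplicity_X_sub_C_self
        rw [h1]
        rfl
      · exact_mod_cast Nat.zero_le _
    have hmul : ((Polynomial.X + 1) * pol).rootMultiplicity ((s₀.re : ℝ) : ℂ) =
        (Polynomial.X + 1 : Polynomial ℂ).rootMultiplicity ((s₀.re : ℝ) : ℂ) + μ := by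
      refine Polynomial.rootMultiplicity_mul (mul_ne_zero ?_ hpol0)
      intro h
      have := congrArg (Polynomial.eval 0) h
      simp at this
    rw [hmul]
    push_cast
    rw [add_comm, mul_one]
    exact add_le_add_left ho2 _

end Pool.Agent.TH216.MF
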