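import Pool.Agent.TH216.MF.PFinU

set_option autoImplicit false

/-! Motivic transfer: the analytic input, for the points with a given support. -/

namespace Pool.Agent.TH216.MF

open MvPolynomial Filter Pool.Agent.W425.SV
open Pool.Agent.W426.SM (gord face)
open Pool.Agent.W803.SM (filt gord_le exists_gord mem_filt filt_nonempty summable_half)

variable {r N : ℕ}

/-- the relations in the directions in `J` -/
def KRelJ (q : ℕ) (v : Fin r → Fin N → ℕ) (J : Finset (Fin N)) (e : Finset (Fin r) → ℂ) : Prop :=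
  ∀ i ∈ J, ∀ (j0 : Fin r) (τ : Finset (Fin r)), v j0 i = 1 → (∀ j ∈ τ, v j i = 0) →
    ((q : ℂ) - 1) * e (insert j0 τ) + e τ = 0

/-- the multiplier -/
noncomputable def wJ (q : ℕ) (v : Fin r → Fin N → ℕ) (J : Finset (Fin N)) :
    MvPolynomial (Fin r) ℂ :=
  (∏ i ∈ Jᶜ, elm q v i) * ∏ i ∈ J, (C ((q : ℂ)⁻¹) * ∏ j, X j ^ v j i)

lemma kern_dir (q : ℕ) (v : Fin r → Fin N → ℕ) (e : Finset (Fin r) → ℂ) (i : Fin N)
    (h : ∀ (j0 : Fin r) (τ : Finset (Fin r)), v j0 i = 1 → (∀ j ∈ τ, v j i = 0) →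
      ((q : ℂ) - 1) * e (insert j0 τ) + e τ = 0) (j0 : Fin r) (hj0 : v j0 i = 1) :
    kE e ∈ Ideal.span {g : MvPolynomial (Fin r) ℂ | ∃ j, 0 < v j i ∧
      g = X j - C (if j = j0 then (q : ℂ) else 1)} := by
  classical
  set I : Ideal (MvPolynomial (Fin r) ℂ) := Ideal.span {g : MvPolynomial (Fin r) ℂ | ∃ j, 0 < v j i ∧
      g = X j - C (if j = j0 then (q : ℂ) else 1)} with hI
  unfold kE
  have h1 : (Finset.univ : Finset (Finset (Fin r))) =
      (insert j0 (Finset.univ.erase j0)).powerset := by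
    rw [Finset.insert_erase (Finset.mem_univ j0), Finset.powerset_univ]
  rw [h1, Finset.sum_powerset_insert (Finset.notMem_erase _ _), ← Finset.sum_add_distrib]
  refine Ideal.sum_mem _ fun J hJ => ?_
  have hj0J : j0 ∉ J := fun h' => Finset.notMem_erase j0 Finset.univ (Finset.mem_powerset.1 hJ h')
  rw [Finset.prod_insert hj0J]
  have e1 : C (e J) * ∏ j ∈ J, (X j - 1) + C (e (insert j0 J)) * ((X j0 - 1) *
      ∏ j ∈ J, (X j - 1)) = (C (e J) + C (e (insert j0 J)) * (X j0 - 1)) *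
        ∏ j ∈ J, (X j - 1 : MvPolynomial (Fin r) ℂ) := by ring
  rw [e1]
  by_cases hcase : ∀ j ∈ J, v j i = 0
  · apply Ideal.mul_mem_right
    have h2 := h j0 J hj0 hcase
    have e2 : C (e J) + C (e (insert j0 J)) * (X j0 - 1) =
        C (e (insert j0 J)) * (X j0 - C (q : ℂ) : MvPolynomial (Fin r) ℂ) := by
      have h3 : e J = -(((q : ℂ) - 1) * e (insert j0 J)) := by linear_combination h2
      rw [h3]
      simp only [map_neg, map_mul, map_sub, map_one]
      ring
    rw [e2]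
    apply Ideal.mul_mem_left
    apply Ideal.subset_span
    exact ⟨j0, by omega, by rw [if_pos rfl]⟩
  · push Not at hcase
    obtain ⟨j, hj, hv⟩ := hcase
    apply Ideal.mul_mem_left
    rw [← Finset.mul_prod_erase _ _ hj]
    apply Ideal.mul_mem_right
    apply Ideal.subset_span
    refine ⟨j, Nat.pos_of_ne_zero hv, ?_⟩
    have hne : j ≠ j0 := fun h' => hj0J (h' ▸ hj)
    rw [if_neg hne, map_one]

lemma elm_dir {q : ℕ} (hq : 2 ≤ q) (v : Fin r → Fin N → ℕ) (i : Fin N) (j0 : Fin r)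
    (hj0 : v j0 i = 1) :
    elm q v i ∈ Ideal.span {g : MvPolynomial (Fin r) ℂ | ∃ j, 0 < v j i ∧
      g = X j - C (if j = j0 then (q : ℂ) else 1)} := by
  classical
  set I : Ideal (MvPolynomial (Fin r) ℂ) := Ideal.span {g : MvPolynomial (Fin r) ℂ | ∃ j, 0 < v j i ∧
      g = X j - C (if j = j0 then (q : ℂ) else 1)} with hI
  rw [← Ideal.Quotient.eq_zero_iff_mem]
  have h1 : ∀ j, 0 < v j i → (Ideal.Quotient.mk I) (X j) =
      (Ideal.Quotient.mk I) (C (if j = j0 then (q : ℂ) else 1)) := by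
    intro j hj
    rw [Ideal.Quotient.eq]
    exact Ideal.subset_span ⟨j, hj, rfl⟩
  unfold elm
  rw [map_sub, map_one, map_mul, map_prod]
  have h2 : ∀ j, (Ideal.Quotient.mk I) (X j ^ v j i) =
      (Ideal.Quotient.mk I) (C (if j = j0 then (q : ℂ) else 1)) := by
    intro j
    rcases Nat.eq_zero_or_pos (v j i) with h | h
    · have hne : j ≠ j0 := by
        rintro rfl
        omega
      rw [h, pow_zero, if_neg hne, map_one, map_one, map_one]
    · rw [map_pow, h1 j h]
      by_cases hj : j = j0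
      · rw [hj, hj0, pow_one]
      · rw [if_neg hj, map_one, map_one, one_pow]
  rw [Finset.prod_congr rfl fun j _ => h2 j, ← map_prod, ← map_mul, ← map_prod, ← C_mul,
    Finset.prod_ite_eq' Finset.univ j0]
  rw [if_pos (Finset.mem_univ _), inv_mul_cancel₀ (by
    have : q ≠ 0 := by omega
    exact_mod_cast this), map_one, map_one, sub_self]

lemma kern_J {q : ℕ} (hq : 2 ≤ q) (v : Fin r → Fin N → ℕ) (J : Finset (Fin N))
    (e : Finset (Fin r) → ℂ) (h : KRelJ q v J e) : Kern q v (kE e * wJ q v J) := by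
  classical
  intro i j0 hj0
  by_cases hi : i ∈ J
  · exact Ideal.mul_mem_right _ _ (kern_dir q v e i (h i hi) j0 hj0)
  · apply Ideal.mul_mem_left
    unfold wJ
    apply Ideal.mul_mem_right
    rw [← Finset.mul_prod_erase _ _ (Finset.mem_compl.2 hi)]
    exact Ideal.mul_mem_right _ _ (elm_dir hq v i j0 hj0)

/-- the coefficients, for the points with support `J` -/
noncomputable def aJ (q : ℕ) (v : Fin r → Fin N → ℕ) (e : Finset (Fin r) → ℂ)
    (J : Finset (Fin N)) (t : ℤ) : ℂ :=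
  ∑' x : Fin N → ℕ, open Classical in if ∀ i, x i ≠ 0 ↔ i ∈ J then
    (q : ℂ)⁻¹ ^ (∑ i, x i) * Wt v e t x else 0

lemma act_mon (v : Fin r → ℕ) (a : ℂ) (F : Fn r) (y : Fin r → ℤ) :
    act r (C a * ∏ j, X j ^ v j) F y = a * F (fun j => y j + (v j : ℤ)) := by
  have h : C a * ∏ j, (X j : MvPolynomial (Fin r) ℂ) ^ v j =
      monomial (Finsupp.equivFunOnFinite.symm fun j => v j) a := by
    rw [monomial_eq]
    congr 1
    rw [Finsupp.prod_fintype]
    · simp
    · simp
  rw [h, act_monomial]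
  simp

lemma act_mons (q : ℕ) (v : Fin r → Fin N → ℕ) (F : Fn r) (J : Finset (Fin N)) :
    ∀ y : Fin r → ℤ, act r (∏ i ∈ J, (C ((q : ℂ)⁻¹) * ∏ j, X j ^ v j i)) F y =
      (q : ℂ)⁻¹ ^ J.card * F (fun j => y j + ∑ i ∈ J, (v j i : ℤ)) := by
  classical
  induction J using Finset.induction_on with
  | empty =>
    intro y
    rw [Finset.prod_empty, act_one]
    simp
  | insert a J ha ih =>
    intro y
    rw [Finset.prod_insert ha, act_mul, act_mon, ih, Finset.card_insert_of_notMem ha, pow_succ]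
    have e1 : (fun j => y j + (v j a : ℤ) + ∑ i ∈ J, (v j i : ℤ)) =
        fun j => y j + ∑ i ∈ insert a J, (v j i : ℤ) := by
      funext j
      rw [Finset.sum_insert ha]
      ring
    rw [e1]
    ring

/-- the indicator of `J` -/
def ind (J : Finset (Fin N)) : Fin N → ℕ := fun i => open Classical in if i ∈ J then 1 else 0

lemma coeff_aJ (q : ℕ) (v : Fin r → Fin N → ℕ) (e : Finset (Fin r) → ℂ) (J : Finset (Fin N))
    (t : ℤ) (x : Fin N →₀ ℕ) : MvPowerSeries.coeff x
      (gen q v (act r ((∏ i ∈ J, (C ((q : ℂ)⁻¹) * ∏ j, X j ^ v j i)) * kE e) (FG fun _ => 1))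
        (Jᶜ) (t + 1)) = open Classical in if ∀ i ∈ Jᶜ, x i = 0 then
      (q : ℂ)⁻¹ ^ (∑ i, (x i + ind J i)) * Wt v e t (fun i => x i + ind J i) else 0 := by
  classical
  rw [coeff_gen]
  split_ifs with hx
  swap
  · rfl
  rw [act_mul, act_mons]
  have h1 : ∀ z : Fin N →₀ ℕ, act r (kE e) (FG fun _ => 1)
      (fun j => ∑ i, (z i : ℤ) * (v j i : ℤ) - (t + 1)) = Wt v e t (fun i => z i) := by
    intro z
    have h2 := coeff_aT q v e t z
    rw [coeff_gen, if_pos (by simp)] at h2
    by_cases hq : (q : ℂ)⁻¹ ^ (∑ i, z i) = 0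
    · -- independent of `q`
      have h3 := coeff_aT 1 v e t z
      rw [coeff_gen, if_pos (by simp)] at h3
      simpa using h3
    · exact mul_left_cancel₀ hq h2
  have h2 := h1 (Finsupp.equivFunOnFinite.symm fun i => x i + ind J i)
  have h3 : (fun j => ∑ i, (x i : ℤ) * (v j i : ℤ) - (t + 1) + ∑ i ∈ J, (v j i : ℤ)) =
      fun j => ∑ i, (((Finsupp.equivFunOnFinite.symm fun i => x i + ind J i) i : ℕ) : ℤ) *
        (v j i : ℤ) - (t + 1) := by
    funext j
    have h4 : ∑ i ∈ J, (v j i : ℤ) = ∑ i, (ind J i : ℤ) * (v j i : ℤ) := by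
      rw [← Finset.sum_filter_add_sum_filter_not Finset.univ (fun i => i ∈ J)]
      rw [Finset.sum_eq_zero (s := Finset.univ.filter fun i => i ∉ J), add_zero]
      · refine Finset.sum_congr (by ext i; simp) fun i hi => ?_
        unfold ind
        rw [if_pos (by simpa using hi)]
        simp
      · intro i hi
        unfold ind
        rw [if_neg (Finset.mem_filter.1 hi).2]
        simp
    rw [h4]
    simp only [Finsupp.equivFunOnFinite_symm_apply_apply]
    push_cast
    simp only [add_mul, Finset.sum_add_distrib]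
    ring
  rw [h3, h2]
  have h5 : ∑ i, (x i + ind J i) = ∑ i, x i + J.card := by
    rw [Finset.sum_add_distrib]
    congr 1
    unfold ind
    simp
  rw [h5, pow_add]
  simp only [Finsupp.equivFunOnFinite_symm_apply_apply]
  ring

lemma summable_aJ (q : ℕ) (hq : 2 ≤ q) (v : Fin r → Fin N → ℕ) (e : Finset (Fin r) → ℂ)
    (J : Finset (Fin N)) (t : ℤ) :
    Summable fun x : Fin N → ℕ => open Classical in if ∀ i, x i ≠ 0 ↔ i ∈ J then
      (q : ℂ)⁻¹ ^ (∑ i, x i) * Wt v e t x else 0 := by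
  classical
  refine Summable.of_norm_bounded (g := fun x : Fin N → ℕ => (∏ i, ((1 : ℝ) / 2) ^ x i) *
    ∑ J, ‖e J‖) (summable_half.mul_right _) fun x => ?_
  have hn : 0 ≤ ∑ J, ‖e J‖ := Finset.sum_nonneg fun _ _ => norm_nonneg _
  split_ifs
  · rw [norm_mul]
    exact mul_le_mul (norm_pow_inv q hq x) (norm_Wt v e t x) (norm_nonneg _) (by positivity)
  · rw [norm_zero]
    exact mul_nonneg (Finset.prod_nonneg fun i _ => by positivity) hn

lemma hasReg_aJ (q : ℕ) (hq : 2 ≤ q) (v : Fin r → Fin N → ℕ) (e : Finset (Fin r) → ℂ)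
    (J : Finset (Fin N)) (t : ℤ) :
    HasReg (gen q v (act r (kE e * wJ q v J) (FG fun _ => 1)) ∅ (t + 1)) (aJ q v e J t) := by
  classical
  have e0 : kE e * wJ q v J = (∏ i ∈ Jᶜ, elm q v i) *
      ((∏ i ∈ J, (C ((q : ℂ)⁻¹) * ∏ j, X j ^ v j i)) * kE e) := by
    unfold wJ
    ring
  rw [e0, act_mul]
  refine stokes_all q v _ _ ∅ _ _ (fun g => ?_) (Finset.disjoint_empty_right _) ?_
  · rw [← act_mul]
    exact tame_one q hq v _
  rw [Finset.union_empty]
  obtain ⟨c, hc⟩ := (tame_one q hq v ((∏ i ∈ J, (C ((q : ℂ)⁻¹) * ∏ j, X j ^ v j i)) *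
    kE e)).reg (Jᶜ) (t + 1)
  -- the bijection
  set f : (Fin N → ℕ) → ℂ := fun x => if ∀ i, x i ≠ 0 ↔ i ∈ J then
      (q : ℂ)⁻¹ ^ (∑ i, x i) * Wt v e t x else 0 with hf
  have hinj : Function.Injective fun x : Fin N →₀ ℕ => (fun i => x i + ind J i : Fin N → ℕ) := by
    intro x y hxy
    ext i
    have := congrFun hxy i
    simp only at this
    omega
  set g : (Fin N → ℕ) → ℂ := fun x => if ∀ i ∈ Jᶜ, x i = 0 then f x else 0 with hg
  have h1 : (fun x : Fin N →₀ ℕ => MvPowerSeries.coeff x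
      (gen q v (act r ((∏ i ∈ J, (C ((q : ℂ)⁻¹) * ∏ j, X j ^ v j i)) * kE e) (FG fun _ => 1))
        (Jᶜ) (t + 1))) = fun x : Fin N →₀ ℕ => f (fun i => x i + ind J i) := by
    funext x
    rw [coeff_aJ]
    simp only [hf]
    have h2 : (∀ i ∈ Jᶜ, x i = 0) ↔ ∀ i, x i + ind J i ≠ 0 ↔ i ∈ J := by
      constructor
      · intro h i
        by_cases hi : i ∈ J
        · unfold ind
          simp [hi]
        · have h3 := h i (Finset.mem_compl.2 hi)
          unfold ind
          simp [hi, h3]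
      · intro h i hi
        have hi' := Finset.mem_compl.1 hi
        have h3 := (h i).not.2 hi'
        push Not at h3
        omega
    by_cases h3 : ∀ i ∈ Jᶜ, x i = 0
    · rw [if_pos h3, if_pos (h2.1 h3)]
    · rw [if_neg h3, if_neg fun h => h3 (h2.2 h)]
  have hfs : Summable f := summable_aJ q hq v e J t
  have hsum : HasSum (fun x : Fin N →₀ ℕ => f (fun i => x i + ind J i)) (∑' x, f x) := by
    have h2 := (hinj.hasSum_iff (f := f) (a := ∑' x, f x) ?_).2 hfs.hasSum
    · exact h2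
    · intro x hx
      simp only [hf]
      rw [if_neg]
      intro h
      apply hx
      refine ⟨Finsupp.equivFunOnFinite.symm fun i => x i - ind J i, ?_⟩
      funext i
      simp only [Finsupp.equivFunOnFinite_symm_apply_apply]
      by_cases hi : i ∈ J
      · have := (h i).2 hi
        unfold ind
        rw [if_pos hi]
        omega
      · unfold ind
        rw [if_neg hi]
        omega
  have h3 := hc.hasSum (by rw [h1]; exact hsum.summable)
  rw [h1, hsum.tsum_eq] at h3
  have h4 : aJ q v e J t = c := h3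
  rw [h4]
  exact hc

/-- the recurrence -/
def RecJ (q : ℕ) (v : Fin r → Fin N → ℕ) (e : Finset (Fin r) → ℂ) (J : Finset (Fin N))
    (T0 : ℂ) : Prop :=
  ∃ Q : Polynomial ℂ, Q.eval T0 ≠ 0 ∧
    ∀ᶠ t : ℤ in atTop, ∑ m ∈ Finset.range (Q.natDegree + 1), Q.coeff m * aJ q v e J (t - m) = 0

lemma rec_aJ (q : ℕ) (hq : 2 ≤ q) (v : Fin r → Fin N → ℕ) (e : Finset (Fin r) → ℂ)
    (J : Finset (Fin N)) (Q : Polynomial ℂ)
    (h : Z q v (Polynomial.aeval (tau r) Q * (kE e * wJ q v J))) :
    ∀ᶠ t : ℤ in atTop,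
      ∑ m ∈ Finset.range (Q.natDegree + 1), Q.coeff m * aJ q v e J (t - m) = 0 := by
  have h1 : Tendsto (fun t : ℤ => t + 1) atTop atTop :=
    tendsto_atTop_add_const_right _ _ tendsto_id
  filter_upwards [h1.eventually h] with t ht
  have h2 : HasReg (gen q v (act r (Polynomial.aeval (tau r) Q * (kE e * wJ q v J))
      (FG fun _ => 1)) ∅ (t + 1))
      (∑ m ∈ Finset.range (Q.natDegree + 1), Q.coeff m * aJ q v e J (t - m)) := by
    have h3 : act r (Polynomial.aeval (tau r) Q * (kE e * wJ q v J)) (FG fun _ => 1) =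
        ∑ m ∈ Finset.range (Q.natDegree + 1),
          Q.coeff m • act r (tau r ^ m * (kE e * wJ q v J)) (FG fun _ => 1) := by
      rw [Polynomial.aeval_eq_sum_range, Finset.sum_mul, map_sum, LinearMap.sum_apply]
      refine Finset.sum_congr rfl fun m _ => ?_
      rw [smul_mul_assoc, map_smul, LinearMap.smul_apply]
    rw [h3, gen_sum]
    refine HasReg.sum _ _ _ fun m _ => ?_
    rw [gen_smul, gen_tau_pow]
    refine HasReg.smul _ ?_
    have h4 : t + 1 - (m : ℤ) = (t - m) + 1 := by ring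
    rw [h4]
    exact hasReg_aJ q hq v e J (t - m)
  exact (ht.unique h2).symm

/-- the product with the series is a polynomial -/
lemma rec_poly (a : ℤ → ℂ) (Q : Polynomial ℂ)
    (h : ∀ᶠ t : ℤ in atTop, ∑ m ∈ Finset.range (Q.natDegree + 1), Q.coeff m * a (t - m) = 0) :
    ∃ A : Polynomial ℂ, (Q : PowerSeries ℂ) * PowerSeries.mk (fun t : ℕ => a t) =
      (A : PowerSeries ℂ) := by
  classical
  obtain ⟨t0, ht0⟩ := eventually_atTop.1 h
  set φ : PowerSeries ℂ := PowerSeries.mk (fun t : ℕ => a t) with hφ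
  set n0 : ℕ := t0.toNat + Q.natDegree + 1 with hn0
  have h1 : ∀ t, n0 ≤ t → PowerSeries.coeff t ((Q : PowerSeries ℂ) * φ) = 0 := by
    intro t ht
    rw [PowerSeries.coeff_mul]
    rw [Finset.Nat.sum_antidiagonal_eq_sum_range_succ_mk]
    simp only [Polynomial.coeff_coe, hφ, PowerSeries.coeff_mk]
    have h2 := ht0 t (by
      have := Int.self_le_toNat t0
      omega)
    rw [← h2]
    symm
    apply Finset.sum_subset_zero_on_sdiff
    · intro m hm
      rw [Finset.mem_range] at hm ⊢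
      omega
    · intro m hm
      rw [Finset.mem_sdiff, Finset.mem_range, Finset.mem_range] at hm
      rw [Polynomial.coeff_eq_zero_of_natDegree_lt (by omega), zero_mul]
    · intro m hm
      rw [Finset.mem_range] at hm
      congr 2
      omega
  refine ⟨PowerSeries.trunc n0 ((Q : PowerSeries ℂ) * φ), ?_⟩
  ext t
  rw [Polynomial.coeff_coe, PowerSeries.coeff_trunc]
  split_ifs with ht
  · rfl
  · exact h1 t (by omega)

/-- affinely independent exponents -/
theorem recJ_ind (q : ℕ) (hq : 2 ≤ q) (v : Fin r → Fin N → ℕ) (p : Polynomial ℂ)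
    (hrel : RelG v (Kil1 v) (Spread v) p) (J : Finset (Fin N)) (e : Finset (Fin r) → ℂ)
    (he : KRelJ q v J e) (T0 : ℂ) (hT0 : T0 ≠ 0)
    (hp : p.eval ((-Real.log ‖T0‖ / Real.log q : ℝ) : ℂ) ≠ 0) : RecJ q v e J T0 := by
  have hp0 : p ≠ 0 := by
    rintro rfl
    exact hp Polynomial.eval_zero
  obtain ⟨Q, hQ, hZ⟩ := crMu q hq v p hrel _ (kern_J hq v J e he) T0 hT0 hp0
  have h0 : p.rootMultiplicity ((-Real.log ‖T0‖ / Real.log q : ℝ) : ℂ) = 0 :=
    Polynomial.rootMultiplicity_eq_zero hp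
  rw [h0, pow_zero, mul_one] at hZ
  exact ⟨Q, hQ, rec_aJ q hq v e J Q hZ⟩

/-- the general form -/
theorem recJ_gen (q : ℕ) (hq : 2 ≤ q) (v : Fin r → Fin N → ℕ) (p : Polynomial ℂ)
    (θ : Fin r → ℤ) (hrel : RelG v (Kil1 v) (KilU v θ) p) (J : Finset (Fin N))
    (e : Finset (Fin r) → ℂ)
    (he : KRelJ q v J e) (T0 : ℂ) (hT0 : T0 ≠ 0)
    (hp : p.eval ((-Real.log ‖T0‖ / Real.log q : ℝ) : ℂ) ≠ 0)
    (hσ : HypS v (Real.log ‖T0‖ / Real.log q)) : RecJ q v e J T0 := by
  have hp0 : p ≠ 0 := by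
    rintro rfl
    exact hp Polynomial.eval_zero
  set D : ℤ := ∑ j, |θ j| with hD
  have hθD : ∀ j, 0 ≤ D - θ j := by
    intro j
    have h1 := Finset.single_le_sum (f := fun j => |θ j|) (fun j _ => abs_nonneg _)
      (Finset.mem_univ j)
    have h3 := le_abs_self (θ j)
    have h4 : |θ j| ≤ D := h1
    linarith
  obtain ⟨Q, hQ, hZ⟩ := coreU q hq v p θ D (fun j => (D - θ j).toNat)
    (fun j => Int.toNat_of_nonneg (hθD j)) hrel _ (kern_J hq v J e he) T0 hT0 hp0
    (crit_of_hyp q hq v _ (kern_J hq v J e he) T0 hT0 _ hσ)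
  have h0 : p.rootMultiplicity ((-Real.log ‖T0‖ / Real.log q : ℝ) : ℂ) = 0 :=
    Polynomial.rootMultiplicity_eq_zero hp
  have hZ := hZ 1
  rw [h0, pow_zero, mul_one, mul_one] at hZ
  exact ⟨Q, hQ, rec_aJ q hq v e J Q hZ⟩

/-- the relations for the convex hulls -/
lemma krelJ_phi {R R' : ℕ} (m : Fin R → Fin N → ℕ) (m' : Fin R' → Fin N → ℕ)
    (hm : Function.Injective m)
    (ha : ∀ j', ∃ j, m j = m' j') (q : ℕ) (J : Finset (Fin N)) (e : Finset (Fin R) → ℂ)
    (h : KRelJ q m J e) :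
    KRelJ q m' J (fun τ => e (PhiC m m' τ)) := by
  classical
  intro i hi j0 τ hj0 hτ
  obtain ⟨k0, hk0⟩ := ha j0
  have h1 : PhiC m m' (insert j0 τ) = insert k0 (PhiC m m' τ) := by
    ext j
    rw [mem_PhiC, Finset.mem_insert, mem_PhiC]
    constructor
    · rintro ⟨l, h1, h2, h3, h4⟩
      have h5 : l j0 = (m j i : ℝ) := by
        rw [← h4 i, Finset.sum_eq_single j0]
        · rw [hj0, Nat.cast_one, mul_one]
        · intro j' _ hj'
          by_cases hJ' : j' ∈ τ
          · rw [hτ j' hJ', Nat.cast_zero, mul_zero]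
          · rw [h2 j' (by
              rw [Finset.mem_insert, not_or]
              exact ⟨hj', hJ'⟩), zero_mul]
        · simp
      have h6 : l j0 ≤ 1 := by
        rw [← h3]
        exact Finset.single_le_sum (fun j _ => h1 j) (Finset.mem_univ j0)
      rw [h5] at h6
      have h7 : m j i ≤ 1 := by exact_mod_cast h6
      rcases Nat.le_one_iff_eq_zero_or_eq_one.1 h7 with h8 | h8
      · right
        refine ⟨l, h1, fun j' hj' => ?_, h3, h4⟩
        by_cases h9 : j' = j0
        · rw [h9, h5, h8, Nat.cast_zero]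
        · exact h2 j' (by
            rw [Finset.mem_insert, not_or]
            exact ⟨h9, hj'⟩)
      · left
        rw [h8, Nat.cast_one] at h5
        have h9 : ∀ j', j' ≠ j0 → l j' = 0 := by
          intro j' hj'
          have h10 := h3
          rw [← Finset.add_sum_erase _ _ (Finset.mem_univ j0), h5] at h10
          have h11 : ∑ x ∈ Finset.univ.erase j0, l x = 0 := by linarith
          exact (Finset.sum_eq_zero_iff_of_nonneg fun x _ => h1 x).1 h11 j'
            (Finset.mem_erase.2 ⟨hj', Finset.mem_univ _⟩)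
        apply hm
        rw [hk0]
        funext i'
        have h10 := h4 i'
        rw [Finset.sum_eq_single j0 (fun j' _ hj' => by rw [h9 j' hj', zero_mul]) (by simp), h5,
          one_mul] at h10
        exact_mod_cast h10.symm
    · rintro (h2 | h2)
      · rw [h2, hk0]
        exact inC_self m' _ j0 (Finset.mem_insert_self _ _)
      · exact inC_mono (Finset.subset_insert _ _) h2
  simp only [h1]
  refine h i hi k0 (PhiC m m' τ) (by rw [hk0, hj0]) fun j hj => ?_
  rw [mem_PhiC] at hj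
  obtain ⟨l, h2, h3, h4, h5⟩ := hj
  have h6 : (m j i : ℝ) = 0 := by
    rw [← h5 i]
    refine Finset.sum_eq_zero fun j' _ => ?_
    by_cases hj' : j' ∈ τ
    · rw [hτ j' hj', Nat.cast_zero, mul_zero]
    · rw [h3 j' hj', zero_mul]
  exact_mod_cast h6

/-- the coefficients for the convex hulls -/
lemma aJ_phi {R R' : ℕ} (m : Fin R → Fin N → ℕ) (m' : Fin R' → Fin N → ℕ) (hR : 0 < R)
    (hR' : 0 < R') (ha : ∀ j', ∃ j, m j = m' j') (hb : ∀ j, InC m' Finset.univ (m j))
    (q : ℕ) (J : Finset (Fin N)) (e : Finset (Fin R) → ℂ) (t : ℤ) :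
    aJ q m' (fun τ => e (PhiC m m' τ)) J t = aJ q m e J t := by
  classical
  unfold aJ
  refine tsum_congr fun x => ?_
  have hg := gord_conv m m' hR hR' ha hb x
  have h1 : Wt m' (fun τ => e (PhiC m m' τ)) t x = Wt m e t x := by
    rcases le_or_gt 0 t with h0 | h0
    · obtain ⟨t', rfl⟩ := Int.eq_ofNat_of_zero_le h0
      have h2 := Wt_nat hR' m' (fun τ => e (PhiC m m' τ)) t' x
      have h3 := Wt_nat hR m e t' x
      rw [h2, h3, phi_empty, phi_filt m m' hR hR' ha hb x, hg]
    · have hneg : ∀ {s : ℕ} (w : Fin s → Fin N → ℕ) (e' : Finset (Fin s) → ℂ),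
          Wt w e' t x = e' ∅ := by
        intro s w e'
        unfold Wt
        rw [if_pos fun j => by
          have : (0 : ℤ) ≤ ((∑ i, x i * w j i : ℕ) : ℤ) := by positivity
          omega]
        congr 1
        rw [Finset.filter_eq_empty_iff]
        intro j _ hj
        have : (0 : ℤ) ≤ ((∑ i, x i * w j i : ℕ) : ℤ) := by positivity
        omega
      rw [hneg, hneg, phi_empty]
  rw [h1]

end Pool.Agent.TH216.MF
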