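import Pool.Agent.TH216.MF.MotB
import Pool.Agent.W346.MTCp2

set_option autoImplicit false

/-! Motivic transfer: the polynomials `cp` at `y = 1 / q`. -/

namespace Pool.Agent.TH216.MF

open Filter
open Pool.Agent.W426.SM (gord ford)
open Pool.Agent.W803.SM (filt summable_half)
open Pool.Agent.W428.MOT (amin free Adm cp Phi S_CP2)

variable {r N : ℕ}

/-- `a` if `P`, else `0` -/
noncomputable def iv (P : Prop) (a : ℂ) : ℂ := open Classical in if P then a else 0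

lemma iv_pos {P : Prop} (h : P) (a : ℂ) : iv P a = a := by
  classical
  unfold iv
  exact if_pos h

lemma iv_neg {P : Prop} (h : ¬ P) (a : ℂ) : iv P a = 0 := by
  classical
  unfold iv
  exact if_neg h

lemma iv_congr {P P' : Prop} (h : P ↔ P') (a : ℂ) : iv P a = iv P' a := by
  by_cases hP : P
  · rw [iv_pos hP, iv_pos (h.1 hP)]
  · rw [iv_neg hP, iv_neg fun h' => hP (h.2 h')]

lemma iv_mul {P : Prop} (a b : ℂ) : iv P a * b = iv P (a * b) := by
  by_cases hP : P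
  · rw [iv_pos hP, iv_pos hP]
  · rw [iv_neg hP, iv_neg hP, zero_mul]

lemma norm_iv_le {P : Prop} (a : ℂ) : ‖iv P a‖ ≤ ‖a‖ := by
  by_cases hP : P
  · rw [iv_pos hP]
  · rw [iv_neg hP, norm_zero]
    exact norm_nonneg _

/-- `y = 1 / q` -/
noncomputable def evq (q : ℕ) : Polynomial ℤ →+* ℂ :=
  Polynomial.eval₂RingHom (Int.castRingHom ℂ) ((q : ℂ)⁻¹)

lemma evq_X (q : ℕ) : evq q Polynomial.X = (q : ℂ)⁻¹ := by
  unfold evq
  simp

lemma ps_eval (ρ : ℂ) (f : ℕ) : ∀ (A : PowerSeries ℤ) (P : Polynomial ℤ),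
    (1 - PowerSeries.X) ^ f * A = (P : PowerSeries ℤ) →
    Summable (fun d => ((PowerSeries.coeff d A : ℤ) : ℂ) * ρ ^ d) →
    (1 - ρ) ^ f * ∑' d, ((PowerSeries.coeff d A : ℤ) : ℂ) * ρ ^ d =
      Polynomial.eval₂ (Int.castRingHom ℂ) ρ P := by
  induction f with
  | zero =>
    intro A P h _
    rw [pow_zero, one_mul] at h
    rw [pow_zero, one_mul, h, Polynomial.eval₂_eq_sum_range, tsum_eq_sum]
    · refine Finset.sum_congr rfl fun i _ => ?_
      rw [Polynomial.coeff_coe]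
      rfl
    · intro i hi
      rw [Polynomial.coeff_coe, Polynomial.coeff_eq_zero_of_natDegree_lt]
      · simp
      · rw [Finset.mem_range] at hi
        omega
  | succ f ih =>
    intro A P h hs
    have h0 : ∀ d, PowerSeries.coeff (d + 1) ((1 - PowerSeries.X) * A) =
        PowerSeries.coeff (d + 1) A - PowerSeries.coeff d A := by
      intro d
      rw [sub_mul, one_mul, map_sub, PowerSeries.coeff_succ_X_mul]
    have h00 : PowerSeries.coeff 0 ((1 - PowerSeries.X) * A) = PowerSeries.coeff 0 A := by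
      rw [sub_mul, one_mul, map_sub, PowerSeries.coeff_zero_X_mul, sub_zero]
    have hs' : Summable fun d => ((PowerSeries.coeff (d + 1) A : ℤ) : ℂ) * ρ ^ (d + 1) :=
      (summable_nat_add_iff 1).2 hs
    have h1 : HasSum (fun d => ((PowerSeries.coeff (d + 1) ((1 - PowerSeries.X) * A) : ℤ) : ℂ) *
        ρ ^ (d + 1)) (∑' d, ((PowerSeries.coeff (d + 1) A : ℤ) : ℂ) * ρ ^ (d + 1) -
          ρ * ∑' d, ((PowerSeries.coeff d A : ℤ) : ℂ) * ρ ^ d) := by
      have h2 := hs'.hasSum.sub (hs.hasSum.mul_left ρ)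
      have h3 : (fun d => ((PowerSeries.coeff (d + 1) ((1 - PowerSeries.X) * A) : ℤ) : ℂ) *
        ρ ^ (d + 1)) = fun b => ((PowerSeries.coeff (b + 1) A : ℤ) : ℂ) * ρ ^ (b + 1) -
          ρ * (((PowerSeries.coeff b A : ℤ) : ℂ) * ρ ^ b) := by
        funext d
        rw [h0]
        push_cast
        ring
      rw [h3]
      exact h2
    have h2 := (hasSum_nat_add_iff (f := fun d =>
      ((PowerSeries.coeff d ((1 - PowerSeries.X) * A) : ℤ) : ℂ) * ρ ^ d) 1).1 h1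
    have h3 : ∑' d, ((PowerSeries.coeff d A : ℤ) : ℂ) * ρ ^ d =
        ∑' d, ((PowerSeries.coeff (d + 1) A : ℤ) : ℂ) * ρ ^ (d + 1) +
          ((PowerSeries.coeff 0 A : ℤ) : ℂ) * ρ ^ 0 := by
      rw [hs.tsum_eq_zero_add, add_comm]
    have h4 := ih ((1 - PowerSeries.X) * A) P (by rw [← h]; ring) h2.summable
    rw [h2.tsum_eq] at h4
    rw [← h4, Finset.sum_range_one, h00, pow_succ]
    linear_combination (1 - ρ) ^ f * h3

/-- sums over the points, by degree -/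
lemma sum_deg (Q : (Fin N → ℕ) → Prop) (ρ : ℂ)
    (hs : Summable fun x : Fin N → ℕ => iv (Q x) (ρ ^ (∑ i, x i))) :
    HasSum (fun d : ℕ => ((({u | Q u ∧ ∑ i, u i = d} : Set (Fin N → ℕ)).ncard : ℤ) : ℂ) * ρ ^ d)
      (∑' x : Fin N → ℕ, iv (Q x) (ρ ^ (∑ i, x i))) := by
  classical
  set g : (Fin N → ℕ) → ℂ := fun x => iv (Q x) (ρ ^ (∑ i, x i)) with hg
  have h1 := (Equiv.sigmaFiberEquiv (fun x : Fin N → ℕ => ∑ i, x i)).hasSum_iff.2 hs.hasSum
  refine h1.sigma fun d => ?_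
  have hfin : Set.Finite {x : Fin N → ℕ | ∑ i, x i = d} := by
    refine (Fintype.piFinset fun _ : Fin N => Finset.range (d + 1)).finite_toSet.subset ?_
    intro x hx
    simp only [Fintype.coe_piFinset, Set.mem_pi, Finset.coe_range, Set.mem_Iio, Set.mem_univ,
      true_implies]
    intro i
    have h2 : x i ≤ ∑ i, x i := Finset.single_le_sum (fun _ _ => Nat.zero_le _)
      (Finset.mem_univ i)
    have h3 : ∑ i, x i = d := hx
    omega
  have : Fintype {x : Fin N → ℕ // ∑ i, x i = d} := hfin.fintype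
  have h2 : ((({u | Q u ∧ ∑ i, u i = d} : Set (Fin N → ℕ)).ncard : ℤ) : ℂ) * ρ ^ d =
      ∑ x : {x : Fin N → ℕ // ∑ i, x i = d}, if Q x.1 then ρ ^ d else 0 := by
    rw [← Finset.sum_filter, Finset.sum_const, nsmul_eq_mul]
    congr 1
    have h3 : ({u | Q u ∧ ∑ i, u i = d} : Set (Fin N → ℕ)) =
        ((Finset.univ.filter fun x : {x : Fin N → ℕ // ∑ i, x i = d} => Q x.1).map
          (Function.Embedding.subtype _) : Finset (Fin N → ℕ)) := by
      ext u
      simp only [Set.mem_ofPred_eq, Finset.coe_map, Function.Embedding.subtype_apply,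
        Set.mem_image, Finset.coe_filter, Finset.mem_univ, true_and]
      constructor
      · rintro ⟨h4, h5⟩
        exact ⟨⟨u, h5⟩, h4, rfl⟩
      · rintro ⟨x, h4, rfl⟩
        exact ⟨h4, x.2⟩
    rw [h3, Set.ncard_coe_finset, Finset.card_map]
    push_cast
    rfl
  rw [h2]
  have h3 := hasSum_fintype fun x : {x : Fin N → ℕ // ∑ i, x i = d} =>
    (if Q x.1 then ρ ^ d else 0 : ℂ)
  have h4 : (fun x : {x : Fin N → ℕ // ∑ i, x i = d} =>
      (g ∘ (Equiv.sigmaFiberEquiv (fun x : Fin N → ℕ => ∑ i, x i))) ⟨d, x⟩) =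
      fun x : {x : Fin N → ℕ // ∑ i, x i = d} => (if Q x.1 then ρ ^ d else 0 : ℂ) := by
    funext x
    show g x.1 = _
    rw [hg]
    simp only
    rw [x.2]
    by_cases hQ : Q x.1
    · rw [iv_pos hQ, if_pos hQ]
    · rw [iv_neg hQ, if_neg hQ]
  exact h4 ▸ h3

lemma summable_Q (q : ℕ) (hq : 2 ≤ q) (Q : (Fin N → ℕ) → Prop) (w : (Fin N → ℕ) → ℂ) (K : ℝ)
    (hw : ∀ x, ‖w x‖ ≤ K) :
    Summable fun x : Fin N → ℕ => iv (Q x) ((q : ℂ)⁻¹ ^ (∑ i, x i) * w x) := by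
  refine Summable.of_norm_bounded (g := fun x : Fin N → ℕ => (∏ i, ((1 : ℝ) / 2) ^ x i) * K)
    (summable_half.mul_right _) fun x => ?_
  refine (norm_iv_le _).trans ?_
  rw [norm_mul]
  exact mul_le_mul (norm_pow_inv q hq x) (hw x) (norm_nonneg _) (by positivity)

/-- **`cp` at `y = 1 / q`** -/
lemma cp_eval (hr : 0 < r) (q : ℕ) (hq : 2 ≤ q) (v : Fin r → Fin N → ℕ) (J : Finset (Fin N))
    (τ : Finset (Fin r)) (M : ℕ) :
    evq q (cp 0 v 1 J τ M M) = (1 - (q : ℂ)⁻¹) ^ frc v J τ *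
      ∑' x : Fin N → ℕ, iv (Adm J x ∧ amin v x = τ ∧ gord v x = M)
        ((q : ℂ)⁻¹ ^ (∑ i, x i)) := by
  have hford : ∀ a : Fin N → ℕ, ford 0 v 1 a = gord v a := fun a => by
    unfold ford
    simp
  have h1 := Pool.Agent.W346.MTCp2.main (0 : Fin N → ℕ) v 1 J τ hr one_pos M
  have hs : Summable fun x : Fin N → ℕ =>
      iv (Adm J x ∧ amin v x = τ ∧ gord v x = M) ((q : ℂ)⁻¹ ^ (∑ i, x i)) := by
    have h2 := summable_Q q hq (fun x : Fin N → ℕ => Adm J x ∧ amin v x = τ ∧ gord v x = M)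
      (fun _ => 1) 1 (fun _ => by simp)
    simpa only [mul_one] using h2
  have h2 := sum_deg _ _ hs
  have h3 : ∀ d : ℕ, ((PowerSeries.coeff d (PowerSeries.coeff M
      (Phi (ford (0 : Fin N → ℕ) v 1) {u | Adm J u ∧ amin v u = τ})) : ℤ) : ℂ) *
        (q : ℂ)⁻¹ ^ d =
      ((({u | (Adm J u ∧ amin v u = τ ∧ gord v u = M) ∧ ∑ i, u i = d} :
        Set (Fin N → ℕ)).ncard : ℤ) : ℂ) * (q : ℂ)⁻¹ ^ d := by
    intro d
    unfold Phi
    rw [PowerSeries.coeff_mk, PowerSeries.coeff_mk]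
    congr 3
    congr 1
    ext u
    simp only [Set.mem_ofPred_eq, hford]
    tauto
  have h4 := ps_eval ((q : ℂ)⁻¹) (free 0 v J τ).card _ _ h1 (by
    simp only [h3]
    exact h2.summable)
  simp only [h3] at h4
  rw [h2.tsum_eq] at h4
  exact h4.symm

/-- the coefficients of the universal series -/
lemma sum_cp_eval (hr : 0 < r) (q : ℕ) (hq : 2 ≤ q) (v : Fin r → Fin N → ℕ)
    (J : Finset (Fin N)) (c : Finset (Fin r) → ℂ) (M : ℕ) :
    ∑ τ, c τ * evq q (cp 0 v 1 J τ M M) =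
      ∑' x : Fin N → ℕ, iv (Adm J x ∧ gord v x = M)
        ((q : ℂ)⁻¹ ^ (∑ i, x i) * (c (filt v x) * (1 - (q : ℂ)⁻¹) ^ frc v J (filt v x))) := by
  have h1 : ∀ τ : Finset (Fin r), c τ * evq q (cp 0 v 1 J τ M M) =
      ∑' x : Fin N → ℕ, iv (Adm J x ∧ amin v x = τ ∧ gord v x = M)
          ((q : ℂ)⁻¹ ^ (∑ i, x i) * (c τ * (1 - (q : ℂ)⁻¹) ^ frc v J τ)) := by
    intro τ
    rw [cp_eval hr q hq, ← mul_assoc, ← tsum_mul_left]
    refine tsum_congr fun x => ?_
    rw [mul_comm, iv_mul]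
  rw [Finset.sum_congr rfl fun τ _ => h1 τ, ← Summable.tsum_finsetSum]
  · refine tsum_congr fun x => ?_
    by_cases hx : Adm J x ∧ gord v x = M
    · rw [iv_pos hx, Finset.sum_eq_single (filt v x)]
      · rw [iv_pos ⟨hx.1, rfl, hx.2⟩]
      · intro τ _ hτ
        rw [iv_neg fun h => hτ h.2.1.symm]
      · intro h
        exact absurd (Finset.mem_univ _) h
    · rw [iv_neg hx]
      refine Finset.sum_eq_zero fun τ _ => ?_
      rw [iv_neg fun h => hx ⟨h.1, h.2.2⟩]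
  · intro τ _
    exact summable_Q q hq _ (fun _ => c τ * (1 - (q : ℂ)⁻¹) ^ frc v J τ) _ (fun _ => le_rfl)

end Pool.Agent.TH216.MF
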