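import Pool.Agent.TH216.MF.MotA
import Pool.Agent.W428.MOT.Stm

set_option autoImplicit false

/-! Motivic transfer: the components. -/

namespace Pool.Agent.TH216.MF

open Pool.Agent.W426.SM (gord)
open Pool.Agent.W803.SM (filt)
open Pool.Agent.W428.MOT (amin free Adm)

variable {r N : ℕ}

/-- no apex in a direction in `J` -/
def ApF (v : Fin r → Fin N → ℕ) (J : Finset (Fin N)) (σ : Finset (Fin r)) : Prop :=
  ∀ i ∈ J, ∀ j0 ∈ σ, v j0 i = 1 → ∃ j ∈ σ, j ≠ j0 ∧ v j i ≠ 0

open Classical in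
/-- the largest subset without apex -/
noncomputable def bas (v : Fin r → Fin N → ℕ) (J : Finset (Fin N)) (τ : Finset (Fin r)) :
    Finset (Fin r) :=
  Finset.univ.filter fun j => ∃ σ ⊆ τ, ApF v J σ ∧ j ∈ σ

lemma mem_bas (v : Fin r → Fin N → ℕ) (J : Finset (Fin N)) (τ : Finset (Fin r)) (j : Fin r) :
    j ∈ bas v J τ ↔ ∃ σ ⊆ τ, ApF v J σ ∧ j ∈ σ := by
  unfold bas
  simp

lemma bas_sub (v : Fin r → Fin N → ℕ) (J : Finset (Fin N)) (τ : Finset (Fin r)) :
    bas v J τ ⊆ τ := by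
  intro j hj
  obtain ⟨σ, hσ, -, h⟩ := (mem_bas v J τ j).1 hj
  exact hσ h

lemma bas_apf (v : Fin r → Fin N → ℕ) (J : Finset (Fin N)) (τ : Finset (Fin r))
    (h : ApF v J τ) : bas v J τ = τ := by
  refine Finset.Subset.antisymm (bas_sub v J τ) fun j hj => ?_
  exact (mem_bas v J τ j).2 ⟨τ, Finset.Subset.refl _, h, hj⟩

lemma bas_empty (v : Fin r → Fin N → ℕ) (J : Finset (Fin N)) : bas v J ∅ = ∅ :=
  Finset.subset_empty.1 (bas_sub v J ∅)

lemma bas_step (v : Fin r → Fin N → ℕ) (J : Finset (Fin N)) (i : Fin N) (hi : i ∈ J)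
    (j0 : Fin r) (hj0 : v j0 i = 1) (τ : Finset (Fin r)) (hτ : ∀ j ∈ τ, v j i = 0) :
    bas v J (insert j0 τ) = bas v J τ := by
  ext j
  rw [mem_bas, mem_bas]
  constructor
  · rintro ⟨σ, hσ, ha, hj⟩
    refine ⟨σ, fun j' hj' => ?_, ha, hj⟩
    rcases Finset.mem_insert.1 (hσ hj') with rfl | h
    · exfalso
      obtain ⟨j'', h1, h2, h3⟩ := ha i hi j' hj' hj0
      rcases Finset.mem_insert.1 (hσ h1) with h4 | h4
      · exact h2 h4
      · exact h3 (hτ _ h4)
    · exact h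
  · rintro ⟨σ, hσ, ha, hj⟩
    exact ⟨σ, hσ.trans (Finset.subset_insert _ _), ha, hj⟩

/-- induction along the steps -/
lemma step_ind (v : Fin r → Fin N → ℕ) (J : Finset (Fin N)) (P : Finset (Fin r) → Prop)
    (h0 : ∀ τ, ApF v J τ → P τ)
    (h1 : ∀ i ∈ J, ∀ j0, v j0 i = 1 → ∀ τ, (∀ j ∈ τ, v j i = 0) → P τ → P (insert j0 τ)) :
    ∀ τ, P τ := by
  intro τ
  induction τ using Finset.strongInduction with
  | H τ ih =>
    by_cases h : ApF v J τ
    · exact h0 τ h
    · unfold ApF at h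
      push Not at h
      obtain ⟨i, hi, j0, hj0, hv, hall⟩ := h
      have e : insert j0 (τ.erase j0) = τ := Finset.insert_erase hj0
      rw [← e]
      refine h1 i hi j0 hv _ (fun j hj => ?_) (ih _ (Finset.erase_ssubset hj0))
      exact hall j (Finset.mem_of_mem_erase hj) (Finset.ne_of_mem_erase hj)

/-- the number of the free coordinates -/
noncomputable def frc (v : Fin r → Fin N → ℕ) (J : Finset (Fin N)) (τ : Finset (Fin r)) : ℕ :=
  (free 0 v J τ).card

lemma free_step (v : Fin r → Fin N → ℕ) (J : Finset (Fin N)) (i : Fin N) (hi : i ∈ J)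
    (j0 : Fin r) (hj0 : v j0 i = 1) (τ : Finset (Fin r)) (hτ : ∀ j ∈ τ, v j i = 0) :
    frc v J (insert j0 τ) + 1 ≤ frc v J τ := by
  classical
  unfold frc
  have h1 : free 0 v J (insert j0 τ) ⊆ (free 0 v J τ).erase i := by
    intro i' hi'
    unfold free at hi' ⊢
    rw [Finset.mem_filter] at hi'
    rw [Finset.mem_erase, Finset.mem_filter]
    refine ⟨?_, hi'.1, hi'.2.1, fun j hj => hi'.2.2 j (Finset.mem_insert_of_mem hj)⟩
    rintro rfl
    have := hi'.2.2 j0 (Finset.mem_insert_self _ _)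
    omega
  have h2 : i ∈ free 0 v J τ := by
    unfold free
    rw [Finset.mem_filter]
    exact ⟨hi, rfl, hτ⟩
  have h3 := Finset.card_le_card h1
  rw [Finset.card_erase_of_mem h2] at h3
  have h4 : 0 < (free 0 v J τ).card := Finset.card_pos.2 ⟨i, h2⟩
  omega

lemma notMem_step (v : Fin r → Fin N → ℕ) (i : Fin N) (j0 : Fin r) (hj0 : v j0 i = 1)
    (τ : Finset (Fin r)) (hτ : ∀ j ∈ τ, v j i = 0) : j0 ∉ τ := by
  intro h
  have := hτ j0 h
  omega

/-- `M = fr κ + |κ|` -/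
noncomputable def mx (v : Fin r → Fin N → ℕ) (J : Finset (Fin N)) (κ : Finset (Fin r)) : ℕ :=
  frc v J κ + κ.card

lemma le_mx (v : Fin r → Fin N → ℕ) (J : Finset (Fin N)) :
    ∀ τ, frc v J τ + τ.card ≤ mx v J (bas v J τ) := by
  classical
  refine step_ind v J _ (fun τ h => ?_) fun i hi j0 hj0 τ hτ ih => ?_
  · rw [bas_apf v J τ h]
    exact le_rfl
  · rw [bas_step v J i hi j0 hj0 τ hτ, Finset.card_insert_of_notMem (notMem_step v i j0 hj0 τ hτ)]
    have := free_step v J i hi j0 hj0 τ hτ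
    omega

lemma frc_le (v : Fin r → Fin N → ℕ) (J : Finset (Fin N)) (τ : Finset (Fin r)) :
    frc v J τ ≤ J.card := by
  unfold frc free
  exact Finset.card_filter_le _ _

lemma frc_empty (v : Fin r → Fin N → ℕ) (J : Finset (Fin N)) : frc v J ∅ = J.card := by
  unfold frc free
  simp

/-- the solution of the relations which belongs to `κ` -/
noncomputable def eK (q : ℕ) (v : Fin r → Fin N → ℕ) (J : Finset (Fin N)) (κ : Finset (Fin r))
    (τ : Finset (Fin r)) : ℂ := open Classical in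
  if bas v J τ = κ then (-1) ^ (τ.card + κ.card) * ((q : ℂ) - 1) ^ (mx v J κ - τ.card) else 0

lemma krelJ_eK (q : ℕ) (v : Fin r → Fin N → ℕ) (J : Finset (Fin N)) (κ : Finset (Fin r)) :
    KRelJ q v J (eK q v J κ) := by
  classical
  intro i hi j0 τ hj0 hτ
  unfold eK
  rw [bas_step v J i hi j0 hj0 τ hτ]
  split_ifs with h
  · rw [Finset.card_insert_of_notMem (notMem_step v i j0 hj0 τ hτ)]
    have h1 := le_mx v J (insert j0 τ)
    rw [bas_step v J i hi j0 hj0 τ hτ, h,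
      Finset.card_insert_of_notMem (notMem_step v i j0 hj0 τ hτ)] at h1
    obtain ⟨d, hd⟩ : ∃ d, mx v J κ = τ.card + 1 + d := ⟨mx v J κ - (τ.card + 1), by omega⟩
    rw [hd, show τ.card + 1 + d - (τ.card + 1) = d by omega,
      show τ.card + 1 + d - τ.card = d + 1 by omega]
    ring
  · ring

lemma eK_empty (q : ℕ) (v : Fin r → Fin N → ℕ) (J : Finset (Fin N)) (κ : Finset (Fin r)) :
    eK q v J κ ∅ = open Classical in if κ = ∅ then ((q : ℂ) - 1) ^ J.card else 0 := by
  classical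
  unfold eK
  rw [bas_empty]
  by_cases h : κ = ∅
  · rw [if_pos h.symm, if_pos h, h]
    unfold mx
    rw [frc_empty]
    simp
  · rw [if_neg fun h' => h h'.symm, if_neg h]

/-- decomposition of the solutions of the relations -/
lemma decomp {R : Type} [CommRing R] (L : R) (v : Fin r → Fin N → ℕ) (J : Finset (Fin N))
    (Ad : Finset (Fin r) → Prop) (hAd : ∀ τ τ', τ ⊆ τ' → Ad τ' → Ad τ)
    (b : Finset (Fin r) → R)
    (hb : ∀ i ∈ J, ∀ j0, v j0 i = 1 → ∀ τ, (∀ j ∈ τ, v j i = 0) → Ad (insert j0 τ) →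
      b (insert j0 τ) = -((L - 1) ^ (frc v J τ - frc v J (insert j0 τ) - 1) * b τ)) :
    ∀ τ, Ad τ → b τ = (-1) ^ (τ.card + (bas v J τ).card) *
      (L - 1) ^ (mx v J (bas v J τ) - (frc v J τ + τ.card)) * b (bas v J τ) := by
  classical
  refine step_ind v J _ (fun τ h _ => ?_) fun i hi j0 hj0 τ hτ ih hA => ?_
  · rw [bas_apf v J τ h]
    unfold mx
    rw [Nat.sub_self, pow_zero, mul_one, ← two_mul, pow_mul]
    simp
  · have ih' := ih (hAd _ _ (Finset.subset_insert _ _) hA)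
    rw [hb i hi j0 hj0 τ hτ hA, ih', bas_step v J i hi j0 hj0 τ hτ,
      Finset.card_insert_of_notMem (notMem_step v i j0 hj0 τ hτ)]
    have h1 := free_step v J i hi j0 hj0 τ hτ
    have h2 := le_mx v J τ
    have e1 : mx v J (bas v J τ) - (frc v J (insert j0 τ) + (τ.card + 1)) =
        (frc v J τ - frc v J (insert j0 τ) - 1) +
          (mx v J (bas v J τ) - (frc v J τ + τ.card)) := by omega
    rw [e1, pow_add]
    ring

lemma amin_eq_filt (v : Fin r → Fin N → ℕ) (x : Fin N → ℕ) : amin v x = filt v x := rfl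

/-- the coefficients for natural `t` -/
lemma aJ_nat (hr : 0 < r) (q : ℕ) (v : Fin r → Fin N → ℕ) (e : Finset (Fin r) → ℂ)
    (J : Finset (Fin N)) (t : ℕ) : aJ q v e J t =
      ∑' x : Fin N → ℕ, open Classical in if (∀ i, x i ≠ 0 ↔ i ∈ J) then
        (q : ℂ)⁻¹ ^ (∑ i, x i) * (if t < gord v x then e ∅ else
          if t = gord v x then e (filt v x) else 0) else 0 := by
  classical
  unfold aJ
  refine tsum_congr fun x => ?_
  rw [Wt_nat hr]

end Pool.Agent.TH216.MF
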