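import Pool.Agent.TH216.MF.CrMu

set_option autoImplicit false

/-! The main theorem with weights: the terms which are killed far away in a direction. -/

namespace Pool.Agent.TH216.MF

open MvPolynomial Filter Pool.Agent.W425.SV

variable {r N : ℕ}

/-- terms which are killed far away in the direction `-θ` -/
def KilU (v : Fin r → Fin N → ℕ) (θ : Fin r → ℤ) (c : Fin r → ℤ) : Prop :=
  ∃ l : Fin r → ℝ, (∀ j, 0 ≤ l j) ∧ ∑ j, ((c j : ℝ) + l j) = 0 ∧
    (∀ i, ∑ j, ((c j : ℝ) + l j) * (v j i : ℝ) ≤ 0) ∧ 0 < ∑ j, ((c j : ℝ) + l j) * (θ j : ℝ)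

/-- a monomial -/
noncomputable def um (w : Fin r → ℕ) : MvPolynomial (Fin r) ℂ := ∏ j, X j ^ w j

lemma act_um (w : Fin r → ℕ) (m : ℕ) (F : Fn r) (y : Fin r → ℤ) :
    act r (um w ^ m) F y = F (fun j => y j + (m : ℤ) * (w j : ℤ)) := by
  have h : (um w : MvPolynomial (Fin r) ℂ) ^ m =
      monomial (Finsupp.equivFunOnFinite.symm fun j => m * w j) 1 := by
    unfold um
    rw [← Finset.prod_pow, monomial_eq, Finsupp.prod_fintype]
    · rw [C_1, one_mul]
      refine Finset.prod_congr rfl fun j _ => ?_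
      rw [← pow_mul, mul_comm]
      rfl
    · simp
  rw [h, act_monomial, one_mul]
  congr 1
lemma killU (q : ℕ) (v : Fin r → Fin N → ℕ) (θ : Fin r → ℤ) (D : ℤ) (w : Fin r → ℕ)
    (hw : ∀ j, (w j : ℤ) = D - θ j) (c : Fin r → ℤ) (h : KilU v θ c) (K : ℕ) (F : Fn r)
    (hF : Supp K c F) :
    ∃ m0 : ℕ, ∀ m, m0 ≤ m → ∀ t : ℤ, gen q v (act r (um w ^ m) F) ∅ t = 0 := by
  classical
  obtain ⟨l, hl, hl0, hlv, hlθ⟩ := h
  set δ : ℝ := ∑ j, ((c j : ℝ) + l j) * (θ j : ℝ) with hδ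
  obtain ⟨m0, hm0⟩ := exists_nat_gt (((K : ℝ) * ∑ j, (|(c j : ℝ)| + l j)) / δ)
  refine ⟨m0, fun m hm t => ?_⟩
  ext x
  rw [coeff_gen, map_zero]
  split_ifs with hx
  swap
  · rfl
  rw [mul_eq_zero]
  right
  by_contra hne
  rw [act_um] at hne
  obtain ⟨h1, h2⟩ := hF _ hne
  set y : Fin r → ℤ := fun j => ∑ i, (x i : ℤ) * (v j i : ℤ) - t + (m : ℤ) * (w j : ℤ) with hy
  have h1' : ∀ j, -(K : ℤ) ≤ y j := h1
  have h2' : ∀ j, c j < 0 → y j < 0 := h2
  have hw' : ∀ j, (w j : ℝ) = (D : ℝ) - (θ j : ℝ) := fun j => by exact_mod_cast hw j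
  -- upper bound
  have h3 : ∑ j, ((c j : ℝ) + l j) * (y j : ℝ) ≤ -((m : ℝ) * δ) := by
    have h4 : ∀ j, (y j : ℝ) = ∑ i, (x i : ℝ) * (v j i : ℝ) - t + m * (D - θ j) := by
      intro j
      rw [← hw' j, hy]
      push_cast
      rfl
    have h5 : ∑ j, ((c j : ℝ) + l j) * (y j : ℝ) =
        ∑ i, (x i : ℝ) * (∑ j, ((c j : ℝ) + l j) * (v j i : ℝ)) +
          (m * D - t) * ∑ j, ((c j : ℝ) + l j) - m * δ := by
      rw [hδ]
      have e1 : ∀ j, ((c j : ℝ) + l j) * (y j : ℝ) =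
          ((c j : ℝ) + l j) * (∑ i, (x i : ℝ) * (v j i : ℝ)) +
            (m * D - t) * ((c j : ℝ) + l j) - m * (((c j : ℝ) + l j) * θ j) := by
        intro j
        rw [h4 j]
        ring
      simp only [e1]
      rw [Finset.sum_sub_distrib, Finset.sum_add_distrib, ← Finset.mul_sum, ← Finset.mul_sum]
      congr 2
      simp only [Finset.mul_sum]
      rw [Finset.sum_comm]
      refine Finset.sum_congr rfl fun i _ => Finset.sum_congr rfl fun j _ => ?_
      ring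
    rw [h5, hl0, mul_zero, add_zero]
    have h6 : ∑ i, (x i : ℝ) * (∑ j, ((c j : ℝ) + l j) * (v j i : ℝ)) ≤ 0 :=
      Finset.sum_nonpos fun i _ => mul_nonpos_of_nonneg_of_nonpos (by positivity) (hlv i)
    linarith
  -- lower bound
  have h4 : -((K : ℝ) * ∑ j, (|(c j : ℝ)| + l j)) ≤ ∑ j, ((c j : ℝ) + l j) * (y j : ℝ) := by
    rw [Finset.mul_sum, ← Finset.sum_neg_distrib]
    refine Finset.sum_le_sum fun j _ => ?_
    have h5 : -(K : ℝ) ≤ (y j : ℝ) := by exact_mod_cast h1' j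
    have h6 : -(K : ℝ) * l j ≤ l j * (y j : ℝ) := by
      nlinarith [hl j]
    have h7 : -(K : ℝ) * |(c j : ℝ)| ≤ (c j : ℝ) * (y j : ℝ) := by
      by_cases hj : c j < 0
      · have h8 : (y j : ℝ) < 0 := by exact_mod_cast h2' j hj
        have h9 : (c j : ℝ) < 0 := by exact_mod_cast hj
        have h10 : 0 < (c j : ℝ) * (y j : ℝ) := mul_pos_of_neg_of_neg h9 h8
        have h11 : 0 ≤ |(c j : ℝ)| := abs_nonneg _
        have h12 : (0 : ℝ) ≤ K := by positivity
        nlinarith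
      · push Not at hj
        have h9 : 0 ≤ (c j : ℝ) := by exact_mod_cast hj
        rw [abs_of_nonneg h9]
        nlinarith
    linarith
  have h5 : ((K : ℝ) * ∑ j, (|(c j : ℝ)| + l j)) < m * δ := by
    rw [div_lt_iff₀ hlθ] at hm0
    have h6 : (m0 : ℝ) ≤ m := by exact_mod_cast hm
    nlinarith
  linarith

/-- elements of the ideal with denominators are killed far away -/
lemma kill_IdU {q : ℕ} (hq : 2 ≤ q) {v : Fin r → Fin N → ℕ} {G M : ℕ} (hG : 0 < G)
    (θ : Fin r → ℤ) (D : ℤ) (w0 : Fin r → ℕ) (hw0 : ∀ j, (w0 j : ℤ) = D - θ j)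
    {k : MvPolynomial (Fin r) ℂ} (hk : Kern q v k) {g : MvPolynomial (Fin r) ℂ}
    (hg : g ∈ Id q v G M (Kil1 v) (KilU v θ)) (ρ : Fin r → ℂ)
    (hρ : ∀ j, ((Polynomial.X - Polynomial.C 1) * d1 q G M).eval (ρ j) = 0) :
    ∀ w, ∃ m0 : ℕ, ∀ m, m0 ≤ m → ∀ᶠ t : ℤ in atTop,
      HasReg (gen q v (act r (k * (um w0 ^ m * w) * g) (FG ρ)) ∅ t) 0 := by
  have hρ' : ∀ j, RtOK q (ρ j) := fun j => rtOK q G M hq hG _ (hρ j)
  induction hg using Submodule.span_induction with
  | mem x hx =>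
    intro w
    rcases hx with ⟨c, B, hcB, rfl⟩ | ⟨c, hc, rfl⟩
    · refine ⟨0, fun m _ => ?_⟩
      obtain ⟨K, hK⟩ := supp_gen q G M ρ hρ c
      obtain ⟨K', hK'⟩ := hK.act' (k * (um w0 ^ m * w))
      obtain ⟨t0, ht0⟩ := kill1 q v c B hcB K' _ hK'
      filter_upwards [eventually_ge_atTop t0] with t ht
      have e : k * (um w0 ^ m * w) * gen1 q v G M c B = (∏ i ∈ B, elm q v i) *
          (k * (um w0 ^ m * w) * ∏ j, if c j < 0 then (1 - X j) * dj q G M j else 1) := by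
        unfold gen1
        ring
      rw [e, act_mul]
      refine stokes_all q v B _ ∅ t 0 (fun g => ?_) (Finset.disjoint_empty_right _) ?_
      · rw [← act_mul]
        have e2 : g * (k * (um w0 ^ m * w) *
            ∏ j, if c j < 0 then (1 - X j) * dj q G M j else 1) =
            k * ((um w0 ^ m * w) *
              (∏ j, if c j < 0 then (1 - X j) * dj q G M j else 1) * g) := by ring
        rw [e2]
        exact tame_growth q hq v ρ hρ' k hk _
      · rw [Finset.union_empty, act_mul, ht0 t ht]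
        exact HasReg.zero
    · obtain ⟨K, hK⟩ := supp_gen q G M ρ hρ c
      obtain ⟨K', hK'⟩ := hK.act' (k * w)
      obtain ⟨m0, hm0⟩ := killU q v θ D w0 hw0 c hc K' _ hK'
      refine ⟨m0, fun m hm => Eventually.of_forall fun t => ?_⟩
      have e : k * (um w0 ^ m * w) * gen1 q v G M c ∅ = um w0 ^ m * ((k * w) *
          ∏ j, if c j < 0 then (1 - X j) * dj q G M j else 1) := by
        unfold gen1
        rw [Finset.prod_empty]
        ring
      rw [e, act_mul, act_mul (k * w), hm0 m hm t]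
      exact HasReg.zero
  | zero =>
    intro w
    refine ⟨0, fun m _ => Eventually.of_forall fun t => ?_⟩
    rw [mul_zero, map_zero]
    show HasReg (gen q v (0 : Fn r) ∅ t) 0
    rw [gen_zero]
    exact HasReg.zero
  | add x y _ _ hx hy =>
    intro w
    obtain ⟨m1, h1⟩ := hx w
    obtain ⟨m2, h2⟩ := hy w
    refine ⟨max m1 m2, fun m hm => ?_⟩
    filter_upwards [h1 m ((le_max_left _ _).trans hm), h2 m ((le_max_right _ _).trans hm)]
      with t h1 h2
    rw [mul_add, act_add, gen_add]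
    simpa using h1.add h2
  | smul a x _ hx =>
    intro w
    obtain ⟨m1, h1⟩ := hx (w * a)
    refine ⟨m1, fun m hm => ?_⟩
    have e : k * (um w0 ^ m * w) * a • x = k * (um w0 ^ m * (w * a)) * x := by
      rw [smul_eq_mul]
      ring
    rw [e]
    exact h1 m hm

/-- the criterion -/
def Crit (q : ℕ) (v : Fin r → Fin N → ℕ) (k : MvPolynomial (Fin r) ℂ) (T0 : ℂ)
    (w0 : Fin r → ℕ) : Prop :=
  ∃ Cp Q : Polynomial ℂ, Cp.eval 0 ≠ 0 ∧ Q.eval T0 ≠ 0 ∧
    k * (Polynomial.aeval (tau r) Q * Polynomial.aeval (um w0) Cp) ∈ I1 q v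

/-- going down -/
lemma descent {q : ℕ} (hq : 2 ≤ q) {v : Fin r → Fin N → ℕ} {k : MvPolynomial (Fin r) ℂ} {T0 : ℂ}
    {w0 : Fin r → ℕ} (hC : Crit q v k T0 w0) (e : MvPolynomial (Fin r) ℂ)
    (h : ∀ w, ∃ m0 : ℕ, ∀ m, m0 ≤ m → Z q v (k * (um w0 ^ m * w) * e)) :
    ∃ Q : Polynomial ℂ, Q.eval T0 ≠ 0 ∧ ∀ w, Z q v (Polynomial.aeval (tau r) Q * (k * w * e)) := by
  obtain ⟨Cp, Q, hC0, hQ, hmem⟩ := hC
  refine ⟨Q, hQ, fun w => ?_⟩
  obtain ⟨m0, hm0⟩ := h w
  -- downward induction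
  have key : ∀ n : ℕ, n ≤ m0 → ∀ m, m0 - n ≤ m →
      Z q v (Polynomial.aeval (tau r) Q * (k * (um w0 ^ m * w) * e)) := by
    intro n
    induction n with
    | zero =>
      intro _ m hm
      exact (hm0 m (by simpa using hm)).poly Q
    | succ n ih =>
      intro hn m hm
      by_cases hm' : m0 - n ≤ m
      · exact ih (by omega) m hm'
      · have hall := ih (by omega)
        have hge : ∀ i, 1 ≤ i → m0 - n ≤ m + i := fun i hi => by omega
        -- `Cp.coeff 0 • ... = (element of I1) - ∑`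
        have h1 := Z.of_I1 hq hmem (um w0 ^ m * w * e)
        have e1 : um w0 ^ m * w * e *
            (k * (Polynomial.aeval (tau r) Q * Polynomial.aeval (um w0) Cp)) =
            ∑ i ∈ Finset.range (Cp.natDegree + 1), Cp.coeff i •
              (Polynomial.aeval (tau r) Q * (k * (um w0 ^ (m + i) * w) * e)) := by
          rw [Polynomial.aeval_eq_sum_range (p := Cp), Finset.mul_sum, Finset.mul_sum,
            Finset.mul_sum]
          refine Finset.sum_congr rfl fun i _ => ?_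
          rw [pow_add]
          simp only [Algebra.smul_def]
          ring
        rw [e1, Finset.sum_range_succ'] at h1
        have h2 : ∀ s : Finset ℕ, Z q v (∑ i ∈ s, Cp.coeff (i + 1) •
            (Polynomial.aeval (tau r) Q * (k * (um w0 ^ (m + (i + 1)) * w) * e))) := by
          intro s
          induction s using Finset.induction_on with
          | empty =>
            rw [Finset.sum_empty]
            exact Z.zero q v
          | insert a s ha ih2 =>
            rw [Finset.sum_insert ha]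
            exact ((hall _ (hge _ (by omega))).smul _).add ih2
        have h3 := h1.add ((h2 (Finset.range Cp.natDegree)).smul (-1))
        rw [Polynomial.coeff_zero_eq_eval_zero, add_zero] at h3
        have h4 := h3.smul (Cp.eval 0)⁻¹
        have e2 : ∀ A B : MvPolynomial (Fin r) ℂ, (Cp.eval 0)⁻¹ • (A + Cp.eval 0 • B +
            (-1 : ℂ) • A) = B := by
          intro A B
          rw [neg_one_smul, add_comm A, add_neg_cancel_right, smul_smul, inv_mul_cancel₀ hC0,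
            one_smul]
        rwa [e2] at h4
  have h5 := key m0 le_rfl 0 (by omega)
  rwa [pow_zero, one_mul] at h5

/-- **Main theorem with weights.** -/
theorem coreU (q : ℕ) (hq : 2 ≤ q) (v : Fin r → Fin N → ℕ) (p : Polynomial ℂ) (θ : Fin r → ℤ)
    (D : ℤ) (w0 : Fin r → ℕ) (hw0 : ∀ j, (w0 j : ℤ) = D - θ j)
    (hrel : RelG v (Kil1 v) (KilU v θ) p) (k : MvPolynomial (Fin r) ℂ) (hk : Kern q v k)
    (T0 : ℂ) (hT0 : T0 ≠ 0) (hp0 : p ≠ 0) (hC : Crit q v k T0 w0) :
    ∃ Q : Polynomial ℂ, Q.eval T0 ≠ 0 ∧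
      ∀ w, Z q v (Polynomial.aeval (tau r) (Q * (Polynomial.X - Polynomial.C T0) ^
        p.rootMultiplicity ((-Real.log ‖T0‖ / Real.log q : ℝ) : ℂ)) * (k * w)) := by
  classical
  obtain ⟨G, hG, hGG⟩ := exG v
  set s0 : ℂ := ((-Real.log ‖T0‖ / Real.log q : ℝ) : ℂ) with hs0
  set μ : ℕ := p.rootMultiplicity s0 with hμ
  obtain ⟨p1, hpp, hnd⟩ := Polynomial.exists_eq_pow_rootMultiplicity_mul_and_not_dvd p hp0 s0
  have hp1 : p1.eval s0 ≠ 0 := fun h => hnd (Polynomial.dvd_iff_isRoot.2 h)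
  obtain ⟨M, h, hh⟩ := stepBM q hq v G hGG (Kil1 v) (KilU v θ) p hrel T0 hT0 μ p1 hpp hp1
  obtain ⟨E, Q, hQ, hQI⟩ := stepC q hq v T0
  obtain ⟨Rt, c, hRt, hF⟩ := FG_one (r := r) q G M hq hG
  set u : MvPolynomial (Fin r) ℂ := (tau r - C T0) * h with hu
  set e0 : MvPolynomial (Fin r) ℂ := (tau r - C T0) ^ μ with he0
  -- one step
  have h1 : ∀ w, ∃ m0 : ℕ, ∀ m, m0 ≤ m → Z q v (k * (um w0 ^ m * w) * (e0 * (1 - u))) := by
    intro w
    have h2 : ∀ ρ : Fin r → ℂ, ρ ∈ (Fintype.piFinset fun _ : Fin r => Rt) → ∃ m0 : ℕ,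
        ∀ m, m0 ≤ m → ∀ᶠ t : ℤ in atTop,
        HasReg (gen q v (act r (k * (um w0 ^ m * w) *
          ((1 - u) * (e0 * ∏ j, dj q G M j))) (FG ρ)) ∅ t) 0 := by
      intro ρ hρ
      exact kill_IdU hq hG θ D w0 hw0 hk hh ρ (fun j => hRt _ (Fintype.mem_piFinset.1 hρ j)) w
    choose! m1 hm1 using h2
    refine ⟨∑ ρ ∈ (Fintype.piFinset fun _ : Fin r => Rt), m1 ρ, fun m hm => ?_⟩
    have h3 := (eventually_all_finset (Fintype.piFinset fun _ : Fin r => Rt)).2
      fun ρ hρ => hm1 ρ hρ m ((Finset.single_le_sum (f := m1) (fun _ _ => Nat.zero_le _) hρ).trans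
        hm)
    have e3 : ∀ P : MvPolynomial (Fin r) ℂ, k * (um w0 ^ m * w) * (e0 * (1 - u)) * P =
        k * (um w0 ^ m * w) * ((1 - u) * (e0 * P)) := fun P => by ring
    unfold Z
    filter_upwards [h3] with t ht
    have e : act r (k * (um w0 ^ m * w) * (e0 * (1 - u))) (FG fun _ => 1) =
        ∑ ρ ∈ Fintype.piFinset fun _ : Fin r => Rt, (∏ j, c (ρ j)) •
          act r (k * (um w0 ^ m * w) * ((1 - u) * (e0 * ∏ j, dj q G M j))) (FG ρ) := by
      rw [hF, map_sum]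
      refine Finset.sum_congr rfl fun ρ _ => ?_
      rw [map_smul, ← act_mul, e3]
    rw [e, gen_sum]
    have h4 := HasReg.sum (Fintype.piFinset fun _ : Fin r => Rt)
      (fun ρ => gen q v ((∏ j, c (ρ j)) • act r (k * (um w0 ^ m * w) *
        ((1 - u) * (e0 * ∏ j, dj q G M j))) (FG ρ)) ∅ t)
      (fun _ => 0) (fun ρ hρ => by
        rw [gen_smul]
        simpa using (ht ρ hρ).smul (∏ j, c (ρ j)))
    simpa using h4
  -- iteration
  have h2 : ∀ n : ℕ, ∀ w, ∃ m0 : ℕ, ∀ m, m0 ≤ m →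
      Z q v (k * (um w0 ^ m * w) * (e0 * (1 - u ^ n))) := by
    intro n
    induction n with
    | zero =>
      intro w
      refine ⟨0, fun m _ => ?_⟩
      simpa using Z.zero q v
    | succ n ih =>
      intro w
      obtain ⟨m1, hm1⟩ := ih w
      obtain ⟨m2, hm2⟩ := h1 (w * u ^ n)
      refine ⟨max m1 m2, fun m hm => ?_⟩
      have e : k * (um w0 ^ m * w) * (e0 * (1 - u ^ (n + 1))) =
          k * (um w0 ^ m * w) * (e0 * (1 - u ^ n)) +
          k * (um w0 ^ m * (w * u ^ n)) * (e0 * (1 - u)) := by ring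
      rw [e]
      exact (hm1 m ((le_max_left _ _).trans hm)).add (hm2 m ((le_max_right _ _).trans hm))
  have h3 : ∀ w, ∃ m0 : ℕ, ∀ m, m0 ≤ m →
      Z q v (k * (um w0 ^ m * w) * (Polynomial.aeval (tau r) Q * e0)) := by
    intro w
    obtain ⟨m0, hm0⟩ := h2 E w
    refine ⟨m0, fun m hm => ?_⟩
    have e2 : ∀ n, Polynomial.aeval (tau r) ((Polynomial.X - Polynomial.C T0) ^ n) =
        (tau r - C T0) ^ n := by
      intro n
      rw [map_pow, map_sub, Polynomial.aeval_X, Polynomial.aeval_C]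
      rfl
    have e : k * (um w0 ^ m * w) * (Polynomial.aeval (tau r) Q * e0) =
        Polynomial.aeval (tau r) Q * (k * (um w0 ^ m * w) * (e0 * (1 - u ^ E))) +
        (k * (um w0 ^ m * w) * e0 * h ^ E) *
          Polynomial.aeval (tau r) ((Polynomial.X - Polynomial.C T0) ^ E * Q) := by
      rw [map_mul, e2, hu, mul_pow]
      ring
    rw [e]
    exact ((hm0 m hm).poly Q).add (Z.of_I1 hq hQI _)
  obtain ⟨Q', hQ', hZ⟩ := descent hq hC _ h3
  refine ⟨Q' * Q, by rw [Polynomial.eval_mul]; exact mul_ne_zero hQ' hQ, fun w => ?_⟩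
  have e2 : Polynomial.aeval (tau r) ((Polynomial.X - Polynomial.C T0) ^ μ) = e0 := by
    rw [map_pow, map_sub, Polynomial.aeval_X, Polynomial.aeval_C]
    rfl
  have e : Polynomial.aeval (tau r) (Q' * Q * (Polynomial.X - Polynomial.C T0) ^ μ) * (k * w) =
      Polynomial.aeval (tau r) Q' * (k * w * (Polynomial.aeval (tau r) Q * e0)) := by
    rw [map_mul, map_mul, e2]
    ring
  rw [e]
  exact hZ w

end Pool.Agent.TH216.MF
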