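import Pool.Agent.TH216.MF.Gen

set_option autoImplicit false

/-! One-variable functions, partial fractions. -/

namespace Pool.Agent.TH216.MF

open MvPolynomial

variable {r N : ℕ}

/-- the shift of functions on `ℤ` -/
def S1 : Module.End ℂ (ℤ → ℂ) where
  toFun φ := fun n => φ (n + 1)
  map_add' := fun _ _ => rfl
  map_smul' := fun _ _ => rfl

lemma S1_pow (k : ℕ) (φ : ℤ → ℂ) (n : ℤ) : (S1 ^ k) φ n = φ (n + k) := by
  induction k generalizing n with
  | zero => simp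
  | succ k ih =>
    rw [pow_succ']
    show (S1 ^ k) φ (n + 1) = _
    rw [ih]
    congr 1
    push_cast
    ring

/-- the action of polynomials in one variable -/
noncomputable def act1 : Polynomial ℂ →ₐ[ℂ] Module.End ℂ (ℤ → ℂ) := Polynomial.aeval S1

lemma act1_apply (p : Polynomial ℂ) (D : ℕ) (hD : p.natDegree < D) (φ : ℤ → ℂ) (n : ℤ) :
    act1 p φ n = ∑ k ∈ Finset.range D, p.coeff k * φ (n + k) := by
  unfold act1
  rw [Polynomial.aeval_eq_sum_range' hD, LinearMap.sum_apply, Finset.sum_apply]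
  refine Finset.sum_congr rfl fun k _ => ?_
  rw [LinearMap.smul_apply, Pi.smul_apply, S1_pow, smul_eq_mul]

lemma act1_mul (p p' : Polynomial ℂ) (φ : ℤ → ℂ) : act1 (p * p') φ = act1 p (act1 p' φ) := by
  rw [map_mul]
  rfl

/-- `ρ ^ n` for `n ≥ 0` -/
noncomputable def H1 (ρ : ℂ) (n : ℤ) : ℂ := if 0 ≤ n then ρ ^ n.toNat else 0

/-- the delta function at `-1` -/
noncomputable def del (n : ℤ) : ℂ := if n = -1 then 1 else 0

lemma act1_X_sub_apply (ρ : ℂ) (φ : ℤ → ℂ) (n : ℤ) :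
    act1 (Polynomial.X - Polynomial.C ρ) φ n = φ (n + 1) - ρ * φ n := by
  unfold act1
  rw [map_sub, Polynomial.aeval_X, Polynomial.aeval_C, LinearMap.sub_apply]
  rfl

lemma act1_X_sub (ρ : ℂ) : act1 (Polynomial.X - Polynomial.C ρ) (H1 ρ) = del := by
  funext n
  rw [act1_X_sub_apply]
  unfold H1 del
  rcases lt_trichotomy n (-1) with h | h | h
  · rw [if_neg (by omega), if_neg (by omega), if_neg (by omega)]
    ring
  · subst h
    simp
  · rw [if_pos (by omega), if_pos (by omega), if_neg (by omega)]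
    have : (n + 1).toNat = n.toNat + 1 := by omega
    rw [this, pow_succ]
    ring

/-- nonnegative arguments -/
lemma act1_H1 (p : Polynomial ℂ) (ρ : ℂ) (n : ℤ) (hn : 0 ≤ n) :
    act1 p (H1 ρ) n = p.eval ρ * ρ ^ n.toNat := by
  rw [act1_apply p (p.natDegree + 1) (Nat.lt_succ_self _), Polynomial.eval_eq_sum_range,
    Finset.sum_mul]
  refine Finset.sum_congr rfl fun k _ => ?_
  unfold H1
  rw [if_pos (by omega)]
  have : (n + k).toNat = n.toNat + k := by omega
  rw [this, pow_add]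
  ring

/-- very negative arguments -/
lemma act1_neg (p : Polynomial ℂ) (φ : ℤ → ℂ) (hφ : ∀ n, n < 0 → φ n = 0) (n : ℤ)
    (hn : n + p.natDegree < 0) : act1 p φ n = 0 := by
  rw [act1_apply p (p.natDegree + 1) (Nat.lt_succ_self _)]
  refine Finset.sum_eq_zero fun k hk => ?_
  rw [Finset.mem_range] at hk
  rw [hφ, mul_zero]
  omega

lemma H1_neg (ρ : ℂ) (n : ℤ) (hn : n < 0) : H1 ρ n = 0 := by
  unfold H1
  rw [if_neg (by omega)]

/-- Lagrange interpolation of the delta function -/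
lemma lagr (s : Finset ℂ) (hs : s.Nonempty) :
    ∃ c : ℂ → ℂ, act1 (∏ ρ ∈ s, (Polynomial.X - Polynomial.C ρ)) (∑ ρ ∈ s, c ρ • H1 ρ) = del := by
  classical
  refine ⟨fun ρ => ∏ ρ' ∈ s.erase ρ, (ρ - ρ')⁻¹, ?_⟩
  rw [map_sum]
  have h1 : ∀ ρ ∈ s, act1 (∏ ρ ∈ s, (Polynomial.X - Polynomial.C ρ))
      ((∏ ρ' ∈ s.erase ρ, (ρ - ρ')⁻¹) • H1 ρ) = act1 (Lagrange.basis s id ρ) del := by
    intro ρ hρ
    rw [← act1_X_sub ρ, ← act1_mul, map_smul, ← Finset.prod_erase_mul _ _ hρ]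
    have h2 : Lagrange.basis s id ρ = Polynomial.C (∏ ρ' ∈ s.erase ρ, (ρ - ρ')⁻¹) *
        ∏ ρ' ∈ s.erase ρ, (Polynomial.X - Polynomial.C ρ') := by
      unfold Lagrange.basis Lagrange.basisDivisor
      rw [Finset.prod_mul_distrib, map_prod]
      rfl
    rw [h2, mul_assoc, act1_mul (Polynomial.C _)]
    unfold act1
    rw [Polynomial.aeval_C]
    rfl
  rw [Finset.sum_congr rfl h1]
  have h3 : ∑ ρ ∈ s, act1 (Lagrange.basis s id ρ) del =
      act1 (∑ ρ ∈ s, Lagrange.basis s id ρ) del := by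
    rw [map_sum, LinearMap.sum_apply]
  rw [h3, Lagrange.sum_basis (Function.injective_id.injOn) hs, map_one]
  rfl

end Pool.Agent.TH216.MF
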