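import Pool.Agent.TH216.MF.StepA

set_option autoImplicit false

/-! Krull's intersection theorem and the Nullstellensatz. -/

namespace Pool.Agent.TH216.MF

open MvPolynomial Pool.Agent.H628R4.TZ Pool.Agent.W425.SM

variable {r N : ℕ}

lemma krull {R : Type*} [CommRing R] [IsNoetherianRing R] (I m : Ideal R) (D : R)
    (h : ∀ k : ℕ, D ∈ I ⊔ m ^ k) : ∃ a ∈ m, (1 - a) * D ∈ I := by
  have h1 : (Submodule.mkQ I D : R ⧸ I) ∈ (⨅ i : ℕ, m ^ i • ⊤ : Submodule R (R ⧸ I)) := by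
    rw [Submodule.mem_iInf]
    intro k
    obtain ⟨a, ha, b, hb, hab⟩ := Submodule.mem_sup.1 (h k)
    have h2 : (Submodule.mkQ I D : R ⧸ I) = b • Submodule.mkQ I 1 := by
      rw [← hab, map_add, ← map_smul, smul_eq_mul, mul_one]
      have h3 : (Submodule.mkQ I a : R ⧸ I) = 0 := by
        rw [Submodule.mkQ_apply, Submodule.Quotient.mk_eq_zero]
        exact ha
      rw [h3, zero_add]
    rw [h2]
    exact Submodule.smul_mem_smul hb trivial
  obtain ⟨a, ha⟩ := (Ideal.mem_iInf_smul_pow_eq_bot_iff m _).1 h1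
  refine ⟨a.1, a.2, ?_⟩
  rw [← map_smul, ← sub_eq_zero, ← map_sub, Submodule.mkQ_apply,
    Submodule.Quotient.mk_eq_zero] at ha
  have e : (1 - (a : R)) * D = -((a : R) • D - D) := by
    rw [smul_eq_mul]
    ring
  rw [e]
  exact Submodule.neg_mem _ ha

lemma null (I : Ideal (MvPolynomial (Fin r) ℂ)) (D : MvPolynomial (Fin r) ℂ) (T0 : ℂ)
    (H : ∀ ts : Fin r → ℂ, ∏ j, ts j = T0 → ∀ k : ℕ,
      D ∈ I ⊔ (RingHom.ker (aeval ts : MvPolynomial (Fin r) ℂ →ₐ[ℂ] ℂ)) ^ k) :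
    ∃ h : MvPolynomial (Fin r) ℂ, (1 - (tau r - C T0) * h) * D ∈ I := by
  classical
  let J : Ideal (MvPolynomial (Fin r) ℂ) :=
    { carrier := {g | g * D ∈ I}
      add_mem' := by
        intro a b ha hb
        simp only [Set.mem_setOf_eq, add_mul] at *
        exact I.add_mem ha hb
      zero_mem' := by simp
      smul_mem' := by
        intro c a ha
        simp only [Set.mem_setOf_eq, smul_eq_mul, mul_assoc] at *
        exact I.mul_mem_left _ ha }
  set K : Ideal (MvPolynomial (Fin r) ℂ) := J ⊔ Ideal.span {tau r - C T0} with hK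
  have hK1 : K = ⊤ := by
    by_contra hne
    have h1 : zeroLocus ℂ K ≠ ∅ := by
      intro h2
      have h3 := vanishingIdeal_zeroLocus_eq_radical (K := ℂ) K
      rw [h2] at h3
      have h4 : vanishingIdeal ℂ (∅ : Set (Fin r → ℂ)) = ⊤ := by
        rw [Ideal.eq_top_iff_one, mem_vanishingIdeal_iff]
        intro x hx
        exact absurd hx (Set.notMem_empty _)
      rw [h4] at h3
      exact hne (Ideal.radical_eq_top.1 h3.symm)
    obtain ⟨ts, hts⟩ := Set.nonempty_iff_ne_empty.2 h1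
    have h2 : ∏ j, ts j = T0 := by
      have h3 := (mem_zeroLocus_iff.1 hts) (tau r - C T0)
        (Ideal.mem_sup_right (Ideal.subset_span rfl))
      unfold tau at h3
      rw [map_sub, map_prod, sub_eq_zero] at h3
      simpa [algHom_C] using h3
    obtain ⟨a, ha, haD⟩ := krull I _ D (H ts h2)
    have h3 := (mem_zeroLocus_iff.1 hts) (1 - a) (Ideal.mem_sup_left haD)
    rw [map_sub, map_one, (RingHom.mem_ker).1 ha, sub_zero] at h3
    exact one_ne_zero h3
  have h1 : (1 : MvPolynomial (Fin r) ℂ) ∈ K := by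
    rw [hK1]
    trivial
  obtain ⟨g, hg, b, hb, hgb⟩ := Submodule.mem_sup.1 h1
  obtain ⟨h, hh⟩ := Ideal.mem_span_singleton'.1 hb
  refine ⟨h, ?_⟩
  have e : 1 - (tau r - C T0) * h = g := by
    rw [← hgb, ← hh]
    ring
  rw [e]
  exact hg

/-- The global consequence. -/
theorem stepB (q : ℕ) (hq : 2 ≤ q) (v : Fin r → Fin N → ℕ) (G : ℕ) (hG : Good v G)
    (T1 : (Fin r → ℤ) → Finset (Fin N) → Prop) (T0' : (Fin r → ℤ) → Prop) (p : Polynomial ℂ)
    (hrel : RelG v T1 T0' p) (T0 : ℂ) (hT0 : T0 ≠ 0)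
    (hp : p.eval ((-Real.log ‖T0‖ / Real.log q : ℝ) : ℂ) ≠ 0) :
    ∃ (M : ℕ) (h : MvPolynomial (Fin r) ℂ),
      (1 - (tau r - C T0) * h) * ∏ j, dj q G M j ∈ Id q v G M T1 T0' := by
  obtain ⟨M, n, n0, c, B, Q, c0, Q0, hc, hc0, hrel⟩ := hrel
  refine ⟨M, ?_⟩
  apply null
  intro ts hts k
  have hts0 : ∀ j, ts j ≠ 0 := by
    intro j hj
    apply hT0
    rw [← hts]
    exact Finset.prod_eq_zero (Finset.mem_univ j) hj
  set m : Ideal (MvPolynomial (Fin r) ℂ) :=
    RingHom.ker (aeval ts : MvPolynomial (Fin r) ℂ →ₐ[ℂ] ℂ) with hm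
  have h1 := stepA (A := MvPolynomial (Fin r) ℂ ⧸ m ^ k) q hq v G hG M n n0 c B Q c0 Q0 p hrel
    (Id q v G M T1 T0')
    (fun k => Ideal.subset_span (Or.inl ⟨_, _, hc k, rfl⟩))
    (fun k => Ideal.subset_span (Or.inr ⟨_, hc0 k, rfl⟩)) ts hts0 (by rw [hts]; exact hp)
    (fun j => Ideal.Quotient.mk (m ^ k) (X j)) (by
      intro j
      refine ⟨k, ?_⟩
      have h2 : Ideal.Quotient.mk (m ^ k) (X j) - algebraMap ℂ _ (ts j) =
          Ideal.Quotient.mk (m ^ k) (X j - C (ts j)) := by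
        rw [map_sub]
        rfl
      rw [h2, ← map_pow, Ideal.Quotient.eq_zero_iff_mem]
      refine Ideal.pow_mem_pow ?_ k
      rw [hm, RingHom.mem_ker, map_sub, aeval_X]
      simp [algHom_C])
  have h3 : (aeval (fun j => Ideal.Quotient.mk (m ^ k) (X j)) :
      MvPolynomial (Fin r) ℂ →ₐ[ℂ] MvPolynomial (Fin r) ℂ ⧸ m ^ k) =
      Ideal.Quotient.mkₐ ℂ (m ^ k) := by
    apply MvPolynomial.algHom_ext
    intro j
    rw [aeval_X]
    rfl
  rw [h3] at h1
  exact (Ideal.mem_quotient_iff_mem_sup).1 h1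

end Pool.Agent.TH216.MF
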