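import Pool.Agent.TH216.MF.Kill
import Pool.Agent.TH216.MF.Null

set_option autoImplicit false

/-! The main theorem of the multiplicative functional argument. -/

namespace Pool.Agent.TH216.MF

open MvPolynomial Filter Pool.Agent.W425.SV

variable {r N : ℕ}

/-- the eventually killed elements -/
def Z (q : ℕ) (v : Fin r → Fin N → ℕ) (g : MvPolynomial (Fin r) ℂ) : Prop :=
  ∀ᶠ t : ℤ in atTop, HasReg (gen q v (act r g (FG fun _ => 1)) ∅ t) 0

lemma Z.add {q : ℕ} {v : Fin r → Fin N → ℕ} {g h : MvPolynomial (Fin r) ℂ} (hg : Z q v g)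
    (hh : Z q v h) : Z q v (g + h) := by
  filter_upwards [hg, hh] with t h1 h2
  rw [act_add, gen_add]
  simpa using h1.add h2

lemma Z.zero (q : ℕ) (v : Fin r → Fin N → ℕ) : Z q v 0 := by
  refine Eventually.of_forall fun t => ?_
  rw [map_zero]
  show HasReg (gen q v (0 : Fn r) ∅ t) 0
  rw [gen_zero]
  exact HasReg.zero

lemma Z.smul {q : ℕ} {v : Fin r → Fin N → ℕ} {g : MvPolynomial (Fin r) ℂ} (a : ℂ)
    (hg : Z q v g) : Z q v (a • g) := by
  filter_upwards [hg] with t h1
  rw [map_smul, LinearMap.smul_apply, gen_smul]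
  simpa using h1.smul a

lemma Z.tau' {q : ℕ} {v : Fin r → Fin N → ℕ} {g : MvPolynomial (Fin r) ℂ} (hg : Z q v g) :
    Z q v (tau r * g) := by
  have h1 : Tendsto (fun t : ℤ => t - 1) atTop atTop :=
    tendsto_atTop_add_const_right _ _ tendsto_id
  filter_upwards [h1.eventually hg] with t h2
  rw [act_mul, gen_tau]
  exact h2

lemma Z.poly {q : ℕ} {v : Fin r → Fin N → ℕ} {g : MvPolynomial (Fin r) ℂ} (hg : Z q v g)
    (Q : Polynomial ℂ) : Z q v (Polynomial.aeval (tau r) Q * g) := by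
  induction Q using Polynomial.induction_on' with
  | add p p' hp hp' =>
    rw [map_add, add_mul]
    exact hp.add hp'
  | monomial n a =>
    rw [Polynomial.aeval_monomial, mul_assoc, ← Algebra.smul_def]
    apply Z.smul
    induction n with
    | zero => simpa using hg
    | succ n ih =>
      rw [pow_succ', mul_assoc]
      exact ih.tau'

/-- the ideal `I1` is killed -/
lemma Z.of_I1 {q : ℕ} (hq : 2 ≤ q) {v : Fin r → Fin N → ℕ} {g : MvPolynomial (Fin r) ℂ}
    (hg : g ∈ I1 q v) : ∀ w, Z q v (w * g) := by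
  induction hg using Submodule.span_induction with
  | mem x hx =>
    obtain ⟨c, B, hcB, rfl⟩ := hx
    intro w
    obtain ⟨K, hK⟩ := supp_one c
    obtain ⟨K', hK'⟩ := hK.act' w
    obtain ⟨t0, ht0⟩ := kill1 q v c B hcB K' _ hK'
    filter_upwards [eventually_ge_atTop t0] with t ht
    have e : w * ((∏ i ∈ B, elm q v i) * ∏ j, if c j < 0 then (1 - X j) else 1) =
        (∏ i ∈ B, elm q v i) * (w * ∏ j, if c j < 0 then (1 - X j) else 1) := by ring
    rw [e, act_mul]
    refine stokes_all q v B _ ∅ t 0 (fun g => ?_) (Finset.disjoint_empty_right _) ?_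
    · rw [← act_mul]
      exact tame_one q hq v _
    · rw [Finset.union_empty, act_mul, ht0 t ht]
      exact HasReg.zero
  | zero =>
    intro w
    rw [mul_zero]
    exact Z.zero q v
  | add x y _ _ hx hy =>
    intro w
    rw [mul_add]
    exact (hx w).add (hy w)
  | smul a x _ hx =>
    intro w
    rw [smul_eq_mul, ← mul_assoc]
    exact hx (w * a)

/-- decomposition of the functional without growth -/
lemma FG_one (q G M : ℕ) (hq : 2 ≤ q) (hG : 0 < G) : ∃ (Rt : Finset ℂ) (c : ℂ → ℂ),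
    (∀ ρ ∈ Rt, ((Polynomial.X - Polynomial.C 1) * d1 q G M).eval ρ = 0) ∧
    (FG fun _ => 1 : Fn r) = ∑ ρ ∈ Fintype.piFinset fun _ : Fin r => Rt,
      (∏ j, c (ρ j)) • act r (∏ j, dj q G M j) (FG ρ) := by
  obtain ⟨Rt, c, h1, h2⟩ := pf q G M hq hG
  refine ⟨Rt, c, h1, ?_⟩
  funext y
  rw [Finset.sum_apply]
  have h3 : ∀ ρ : Fin r → ℂ, act r (∏ j, dj q G M j) (FG ρ) =
      Fp (fun j => act1 (d1 q G M) (H1 (ρ j))) := by
    intro ρ
    unfold dj FG
    exact act_prod (fun _ => d1 q G M) _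
  have h0 : (FG fun _ => 1 : Fn r) y = ∏ j, H1 1 (y j) := rfl
  rw [h0, ← h2]
  have h4 : ∀ j, act1 (d1 q G M) (∑ ρ ∈ Rt, c ρ • H1 ρ) (y j) =
      ∑ ρ ∈ Rt, c ρ * act1 (d1 q G M) (H1 ρ) (y j) := by
    intro j
    rw [map_sum, Finset.sum_apply]
    refine Finset.sum_congr rfl fun ρ _ => ?_
    rw [map_smul, Pi.smul_apply, smul_eq_mul]
  simp only [h4]
  rw [Finset.prod_univ_sum]
  refine Finset.sum_congr rfl fun ρ _ => ?_
  rw [Pi.smul_apply, h3 ρ, Finset.prod_mul_distrib, smul_eq_mul]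
  rfl

/-- elements of the ideal with denominators are killed after multiplication with the kernel -/
lemma kill_Id {q : ℕ} (hq : 2 ≤ q) {v : Fin r → Fin N → ℕ} {G M : ℕ} (hG : 0 < G)
    {k : MvPolynomial (Fin r) ℂ} (hk : Kern q v k) {g : MvPolynomial (Fin r) ℂ}
    (hg : g ∈ Id q v G M (Kil1 v) (Spread v)) (ρ : Fin r → ℂ)
    (hρ : ∀ j, ((Polynomial.X - Polynomial.C 1) * d1 q G M).eval (ρ j) = 0) :
    ∀ w, ∀ᶠ t : ℤ in atTop, HasReg (gen q v (act r (k * w * g) (FG ρ)) ∅ t) 0 := by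
  have hρ' : ∀ j, RtOK q (ρ j) := fun j => rtOK q G M hq hG _ (hρ j)
  have main : ∀ (c : Fin r → ℤ) (B : Finset (Fin N)) (w : MvPolynomial (Fin r) ℂ),
      (∀ K F, Supp K c F → ∃ t0 : ℤ, ∀ t, t0 ≤ t → gen q v F B t = 0) →
      ∀ᶠ t : ℤ in atTop, HasReg (gen q v (act r (k * w * gen1 q v G M c B) (FG ρ)) ∅ t) 0 := by
    intro c B w hkill
    obtain ⟨K, hK⟩ := supp_gen q G M ρ hρ c
    obtain ⟨K', hK'⟩ := hK.act' (k * w)
    obtain ⟨t0, ht0⟩ := hkill K' _ hK'
    filter_upwards [eventually_ge_atTop t0] with t ht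
    have e : k * w * gen1 q v G M c B = (∏ i ∈ B, elm q v i) *
        (k * w * ∏ j, if c j < 0 then (1 - X j) * dj q G M j else 1) := by
      unfold gen1
      ring
    rw [e, act_mul]
    refine stokes_all q v B _ ∅ t 0 (fun g => ?_) (Finset.disjoint_empty_right _) ?_
    · rw [← act_mul]
      have e2 : g * (k * w * ∏ j, if c j < 0 then (1 - X j) * dj q G M j else 1) =
          k * (w * (∏ j, if c j < 0 then (1 - X j) * dj q G M j else 1) * g) := by ring
      rw [e2]
      exact tame_growth q hq v ρ hρ' k hk _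
    · rw [Finset.union_empty, act_mul, ht0 t ht]
      exact HasReg.zero
  induction hg using Submodule.span_induction with
  | mem x hx =>
    intro w
    rcases hx with ⟨c, B, hcB, rfl⟩ | ⟨c, hc, rfl⟩
    · exact main c B w fun K F hF => kill1 q v c B hcB K F hF
    · exact main c ∅ w fun K F hF => kill0 q v c hc K F hF
  | zero =>
    intro w
    refine Eventually.of_forall fun t => ?_
    rw [mul_zero, map_zero]
    show HasReg (gen q v (0 : Fn r) ∅ t) 0
    rw [gen_zero]
    exact HasReg.zero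
  | add x y _ _ hx hy =>
    intro w
    filter_upwards [hx w, hy w] with t h1 h2
    rw [mul_add, act_add, gen_add]
    simpa using h1.add h2
  | smul a x _ hx =>
    intro w
    have e : k * w * a • x = k * (w * a) * x := by
      rw [smul_eq_mul]
      ring
    rw [e]
    exact hx (w * a)

/-- **Main theorem.** -/
theorem core (q : ℕ) (hq : 2 ≤ q) (v : Fin r → Fin N → ℕ) (p : Polynomial ℂ)
    (hrel : RelG v (Kil1 v) (Spread v) p) (k : MvPolynomial (Fin r) ℂ) (hk : Kern q v k)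
    (T0 : ℂ) (hT0 : T0 ≠ 0) (hp : p.eval ((-Real.log ‖T0‖ / Real.log q : ℝ) : ℂ) ≠ 0) :
    ∃ Q : Polynomial ℂ, Q.eval T0 ≠ 0 ∧ Z q v (Polynomial.aeval (tau r) Q * k) := by
  classical
  obtain ⟨G, hG, hGG⟩ := exG v
  obtain ⟨M, h, hh⟩ := stepB q hq v G hGG (Kil1 v) (Spread v) p hrel T0 hT0 hp
  obtain ⟨E, Q, hQ, hQI⟩ := stepC q hq v T0
  obtain ⟨Rt, c, hRt, hF⟩ := FG_one (r := r) q G M hq hG
  refine ⟨Q, hQ, ?_⟩
  set u : MvPolynomial (Fin r) ℂ := (tau r - C T0) * h with hu
  -- one step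
  have h1 : ∀ w, Z q v (k * w * (1 - u)) := by
    intro w
    have h2 : ∀ ρ ∈ Fintype.piFinset fun _ : Fin r => Rt, ∀ᶠ t : ℤ in atTop,
        HasReg (gen q v (act r (k * w * ((1 - u) * ∏ j, dj q G M j)) (FG ρ)) ∅ t) 0 := by
      intro ρ hρ
      exact kill_Id hq hG hk hh ρ (fun j => hRt _ (Fintype.mem_piFinset.1 hρ j)) w
    have h3 := (eventually_all_finset _).2 h2
    unfold Z
    filter_upwards [h3] with t ht
    have e : act r (k * w * (1 - u)) (FG fun _ => 1) =
        ∑ ρ ∈ Fintype.piFinset fun _ : Fin r => Rt, (∏ j, c (ρ j)) •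
          act r (k * w * ((1 - u) * ∏ j, dj q G M j)) (FG ρ) := by
      rw [hF, map_sum]
      refine Finset.sum_congr rfl fun ρ _ => ?_
      rw [map_smul, ← act_mul, mul_assoc (k * w)]
    rw [e, gen_sum]
    have h4 := HasReg.sum (Fintype.piFinset fun _ : Fin r => Rt)
      (fun ρ => gen q v ((∏ j, c (ρ j)) • act r (k * w * ((1 - u) * ∏ j, dj q G M j)) (FG ρ)) ∅ t)
      (fun _ => 0) (fun ρ hρ => by
        rw [gen_smul]
        simpa using (ht ρ hρ).smul (∏ j, c (ρ j)))
    simpa using h4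
  -- iteration
  have h2 : ∀ n : ℕ, Z q v (k * (1 - u ^ n)) := by
    intro n
    induction n with
    | zero =>
      simpa using Z.zero q v
    | succ n ih =>
      have e : k * (1 - u ^ (n + 1)) = k * (1 - u ^ n) + k * u ^ n * (1 - u) := by ring
      rw [e]
      exact ih.add (h1 _)
  have e : Polynomial.aeval (tau r) Q * k = Polynomial.aeval (tau r) Q * (k * (1 - u ^ E)) +
      (k * h ^ E) * Polynomial.aeval (tau r) ((Polynomial.X - Polynomial.C T0) ^ E * Q) := by
    have e2 : Polynomial.aeval (tau r) ((Polynomial.X - Polynomial.C T0) ^ E * Q) =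
        (tau r - C T0) ^ E * Polynomial.aeval (tau r) Q := by
      rw [map_mul, map_pow, map_sub, Polynomial.aeval_X, Polynomial.aeval_C]
      rfl
    rw [e2, hu, mul_pow]
    ring
  rw [e]
  exact ((h2 E).poly Q).add (Z.of_I1 hq hQI _)

end Pool.Agent.TH216.MF
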