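import Mathlib

set_option autoImplicit false

namespace Pool.Agent.TH216.MF

/-- Algebraic Farkas lemma (Bartl's induction). -/
theorem farkas_lin {U : Type*} [AddCommGroup U] [Module ℚ U] :
    ∀ (m : ℕ) (ℓ : Fin m → (U →ₗ[ℚ] ℚ)) (f : U →ₗ[ℚ] ℚ),
      (∀ x, (∀ i, ℓ i x ≤ 0) → f x ≤ 0) →
      ∃ w : Fin m → ℚ, (∀ i, 0 ≤ w i) ∧ ∀ x, f x = ∑ i, w i * ℓ i x := by
  intro m
  induction m with
  | zero =>
    intro ℓ f h
    refine ⟨fun i => 0, fun i => le_refl _, fun x => ?_⟩
    have h1 := h x (fun i => i.elim0)
    have h2 := h (-x) (fun i => i.elim0)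
    rw [map_neg] at h2
    simp
    linarith
  | succ m ih =>
    intro ℓ f h
    by_cases hA : ∀ x, (∀ i : Fin m, ℓ i.castSucc x ≤ 0) → f x ≤ 0
    · obtain ⟨w, hw, hf⟩ := ih (fun i => ℓ i.castSucc) f hA
      refine ⟨Fin.snoc w 0, ?_, ?_⟩
      · intro i
        refine Fin.lastCases ?_ (fun j => ?_) i
        · simp
        · simpa using hw j
      · intro x
        rw [Fin.sum_univ_castSucc]
        simp [hf x]
    · push Not at hA
      obtain ⟨x0, hx0, hfx0⟩ := hA
      have hlast : 0 < ℓ (Fin.last m) x0 := by
        by_contra hneg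
        push Not at hneg
        have : f x0 ≤ 0 := h x0 (fun i => by
          refine Fin.lastCases ?_ (fun j => ?_) i
          · exact hneg
          · exact hx0 j)
        linarith
      set t : ℚ := ℓ (Fin.last m) x0 with ht
      -- y = x - (ℓ_last x / t) x0
      obtain ⟨w, hw, hf⟩ := ih
        (fun i => ℓ i.castSucc - (ℓ i.castSucc x0 / t) • ℓ (Fin.last m))
        (f - (f x0 / t) • ℓ (Fin.last m)) (by
          intro x hx
          have key : f (x - (ℓ (Fin.last m) x / t) • x0) ≤ 0 := by
            apply h
            intro i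
            refine Fin.lastCases ?_ (fun j => ?_) i
            · rw [map_sub, map_smul, smul_eq_mul, ← ht, div_mul_cancel₀ _ hlast.ne', sub_self]
            · have := hx j
              simp only [LinearMap.sub_apply, LinearMap.smul_apply, smul_eq_mul] at this
              rw [map_sub, map_smul, smul_eq_mul]
              have e : ℓ (Fin.last m) x / t * ℓ j.castSucc x0 =
                ℓ j.castSucc x0 / t * ℓ (Fin.last m) x := by ring
              rw [e]
              exact this
          rw [map_sub, map_smul, smul_eq_mul] at key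
          simp only [LinearMap.sub_apply, LinearMap.smul_apply, smul_eq_mul]
          have e : ℓ (Fin.last m) x / t * f x0 = f x0 / t * ℓ (Fin.last m) x := by ring
          rw [e] at key
          exact key)
      refine ⟨Fin.snoc w (f x0 / t - ∑ i, w i * (ℓ i.castSucc x0 / t)), ?_, ?_⟩
      · intro i
        refine Fin.lastCases ?_ (fun j => ?_) i
        · simp only [Fin.snoc_last]
          have h1 : 0 < f x0 / t := div_pos hfx0 hlast
          have h2 : ∑ i, w i * (ℓ i.castSucc x0 / t) ≤ 0 := by
            apply Finset.sum_nonpos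
            intro i _
            apply mul_nonpos_of_nonneg_of_nonpos (hw i)
            exact div_nonpos_of_nonpos_of_nonneg (hx0 i) hlast.le
          linarith
        · simpa using hw j
      · intro x
        have hx := hf x
        simp only [LinearMap.sub_apply, LinearMap.smul_apply, smul_eq_mul] at hx
        rw [Fin.sum_univ_castSucc]
        simp only [Fin.snoc_castSucc, Fin.snoc_last]
        have e : ∑ i, w i * (ℓ i.castSucc x - ℓ i.castSucc x0 / t * ℓ (Fin.last m) x)
            = ∑ i, w i * ℓ i.castSucc x - (∑ i, w i * (ℓ i.castSucc x0 / t)) * ℓ (Fin.last m) x := by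
          rw [Finset.sum_mul, ← Finset.sum_sub_distrib]
          refine Finset.sum_congr rfl fun i _ => ?_
          ring
        rw [e] at hx
        linarith


end Pool.Agent.TH216.MF
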