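import Pool.Agent.W425.MM.Defs
import Pool.Agent.TH216.MF.FarkasQ

set_option autoImplicit false

/-! The multiplicative version of the functional argument: definitions. -/

namespace Pool.Agent.TH216.MF

open MvPolynomial Pool.Agent.H628R4.TZ Pool.Agent.W425.SM Pool.Agent.W425.SV

variable {r N : ℕ}

/-- `1 - q⁻¹ ∏_j t_j ^ (v j i)` -/
noncomputable def elm (q : ℕ) (v : Fin r → Fin N → ℕ) (i : Fin N) : MvPolynomial (Fin r) ℂ :=
  1 - C ((q : ℂ)⁻¹) * ∏ j, X j ^ v j i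

/-- `∏_{m=1}^M (1 - q^{-mG} t^G)` -/
noncomputable def d1 (q G M : ℕ) : Polynomial ℂ :=
  ∏ m ∈ Finset.range M, (1 - Polynomial.C ((q : ℂ)⁻¹ ^ ((m + 1) * G)) * Polynomial.X ^ G)

/-- `d1` in the variable `t_j` -/
noncomputable def dj (q G M : ℕ) (j : Fin r) : MvPolynomial (Fin r) ℂ :=
  Polynomial.aeval (X j) (d1 q G M)

/-- The generators. -/
noncomputable def gen1 (q : ℕ) (v : Fin r → Fin N → ℕ) (G M : ℕ) (c : Fin r → ℤ)
    (B : Finset (Fin N)) : MvPolynomial (Fin r) ℂ :=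
  (∏ i ∈ B, elm q v i) * ∏ j, if c j < 0 then (1 - X j) * dj q G M j else 1

/-- The algebraic relation, with general conditions. -/
def RelG (v : Fin r → Fin N → ℕ) (T1 : (Fin r → ℤ) → Finset (Fin N) → Prop)
    (T0 : (Fin r → ℤ) → Prop) (p : Polynomial ℂ) : Prop :=
  ∃ (M n n0 : ℕ) (c : Fin n → Fin r → ℤ) (B : Fin n → Finset (Fin N))
    (q : Fin n → MvPolynomial (Fin r) ℂ) (c0 : Fin n0 → Fin r → ℤ)
    (q0 : Fin n0 → MvPolynomial (Fin r) ℂ),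
    (∀ k, T1 (c k) (B k)) ∧ (∀ k, T0 (c0 k)) ∧
    Polynomial.aeval (∑ j, X j : MvPolynomial (Fin r) ℂ) p * ∏ j, dm M j =
      ∑ k, (∏ i ∈ B k, el v i) * ((∏ j, if c k j < 0 then X j * dm M j else 1) * q k) +
      ∑ k, (∏ j, if c0 k j < 0 then X j * dm M j else 1) * q0 k

/-- the ideal with denominators -/
noncomputable def Id (q : ℕ) (v : Fin r → Fin N → ℕ) (G M : ℕ)
    (T1 : (Fin r → ℤ) → Finset (Fin N) → Prop) (T0 : (Fin r → ℤ) → Prop) :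
    Ideal (MvPolynomial (Fin r) ℂ) :=
  Ideal.span {g | (∃ c B, T1 c B ∧ g = gen1 q v G M c B) ∨ ∃ c, T0 c ∧ g = gen1 q v G M c ∅}

/-- the ideal of the killed elements -/
noncomputable def I1 (q : ℕ) (v : Fin r → Fin N → ℕ) : Ideal (MvPolynomial (Fin r) ℂ) :=
  Ideal.span {g | ∃ c B, Kil1 v c B ∧
    g = (∏ i ∈ B, elm q v i) * ∏ j, if c j < 0 then (1 - X j) else 1}

/-- the product of the variables -/
noncomputable def tau (r : ℕ) : MvPolynomial (Fin r) ℂ := ∏ j, X j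

/-- `G` clears the denominators of all linear relations -/
def Good (v : Fin r → Fin N → ℕ) (G : ℕ) : Prop :=
  ∀ (A : Finset (Fin N)) (Z : Finset (Fin r)) (j : Fin r),
    (∀ w : Fin r → ℚ, (∀ i ∈ A, ∑ j', w j' * (v j' i : ℚ) = 0) → (∀ j' ∈ Z, w j' = 0) → w j = 0) →
    ∃ (k : Fin N → ℤ) (k' : Fin r → ℤ), (∀ i, i ∉ A → k i = 0) ∧ (∀ j', j' ∉ Z → k' j' = 0) ∧
      ∀ j', (if j' = j then (G : ℤ) else 0) = ∑ i, k i * (v j' i : ℤ) + k' j'

end Pool.Agent.TH216.MF
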