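import Pool.Agent.TH216.MF.Defs

set_option autoImplicit false

/-! Step C: a power of `τ Θ(τ)` belongs to the ideal `I1`. -/

namespace Pool.Agent.TH216.MF

open MvPolynomial Pool.Agent.W425.SV

variable {r N : ℕ}

/-- Farkas' lemma in the form needed here. -/
lemma farkas_pair (v : Fin r → Fin N → ℕ) (A : Finset (Fin N)) (Z : Finset (Fin r))
    (h : ∀ γ : Fin r → ℚ, (∀ i ∈ A, ∑ j, γ j * (v j i : ℚ) ≤ 0) → (∀ j ∈ Z, 0 ≤ γ j) →
      ∑ j, γ j ≤ 0) :
    ∃ a : Fin N → ℚ, (∀ i, 0 ≤ a i) ∧ (∀ i, i ∉ A → a i = 0) ∧ (∀ j, 1 ≤ ∑ i, a i * (v j i : ℚ)) ∧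
      ∀ j, j ∉ Z → ∑ i, a i * (v j i : ℚ) = 1 := by
  classical
  let l1 : Fin N → ((Fin r → ℚ) →ₗ[ℚ] ℚ) := fun i =>
    if i ∈ A then ∑ j, (v j i : ℚ) • LinearMap.proj j else 0
  let l2 : Fin r → ((Fin r → ℚ) →ₗ[ℚ] ℚ) := fun j =>
    if j ∈ Z then - LinearMap.proj j else 0
  have hl1 : ∀ i γ, l1 i γ = if i ∈ A then ∑ j, γ j * (v j i : ℚ) else 0 := by
    intro i γ
    simp only [l1]
    split_ifs
    · simp [LinearMap.sum_apply, mul_comm]
    · simp
  have hl2 : ∀ j γ, l2 j γ = if j ∈ Z then - γ j else 0 := by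
    intro j γ
    simp only [l2]
    split_ifs <;> simp
  let f : (Fin r → ℚ) →ₗ[ℚ] ℚ := ∑ j, LinearMap.proj j
  have hf : ∀ γ, f γ = ∑ j, γ j := by
    intro γ
    simp [f, LinearMap.sum_apply]
  obtain ⟨w, hw, hfw⟩ := farkas_lin (N + r) (Fin.append l1 l2) f (by
    intro γ hγ
    rw [hf]
    apply h
    · intro i hi
      have := hγ (Fin.castAdd r i)
      rw [Fin.append_left, hl1, if_pos hi] at this
      exact this
    · intro j hj
      have := hγ (Fin.natAdd N j)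
      rw [Fin.append_right, hl2, if_pos hj] at this
      linarith)
  have key : ∀ j, (1 : ℚ) = ∑ i, (if i ∈ A then w (Fin.castAdd r i) else 0) * (v j i : ℚ) -
      (if j ∈ Z then w (Fin.natAdd N j) else 0) := by
    intro j
    have h1 := hfw (Pi.single j 1)
    rw [hf, Fin.sum_univ_add] at h1
    simp only [Fin.append_left, Fin.append_right, hl1, hl2] at h1
    have e1 : ∑ j', (Pi.single j 1 : Fin r → ℚ) j' = 1 := by simp
    have e2 : ∀ i, ∑ j', (Pi.single j 1 : Fin r → ℚ) j' * (v j' i : ℚ) = v j i := by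
      intro i
      rw [Finset.sum_eq_single j] <;> simp +contextual
    have e3 : ∑ j', w (Fin.natAdd N j') * (if j' ∈ Z then -(Pi.single j 1 : Fin r → ℚ) j' else 0) =
        - (if j ∈ Z then w (Fin.natAdd N j) else 0) := by
      rw [Finset.sum_eq_single j]
      · split_ifs <;> simp
      · intro j' _ hj'
        rw [Pi.single_eq_of_ne hj']
        simp
      · simp
    rw [e1, e3] at h1
    rw [h1, sub_eq_add_neg]
    congr 1
    refine Finset.sum_congr rfl fun i _ => ?_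
    rw [e2]
    split_ifs <;> simp
  refine ⟨fun i => if i ∈ A then w (Fin.castAdd r i) else 0, ?_, ?_, ?_, ?_⟩
  · intro i
    dsimp only
    split_ifs
    · exact hw _
    · exact le_refl _
  · intro i hi
    dsimp only
    rw [if_neg hi]
  · intro j
    have h1 := key j
    have h2 : (0 : ℚ) ≤ if j ∈ Z then w (Fin.natAdd N j) else 0 := by
      split_ifs
      · exact hw _
      · exact le_refl _
    dsimp only
    linarith
  · intro j hj
    have h1 := key j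
    rw [if_neg hj] at h1
    dsimp only
    linarith

/-- integral form -/
lemma pair_int (v : Fin r → Fin N → ℕ) (A : Finset (Fin N)) (Z : Finset (Fin r))
    (a : Fin N → ℚ) (ha : ∀ i, 0 ≤ a i) (hA : ∀ i, i ∉ A → a i = 0)
    (hZ : ∀ j, j ∉ Z → ∑ i, a i * (v j i : ℚ) = 1) :
    ∃ (s : ℕ) (b : Fin N → ℕ), 0 < s ∧ (∀ i, i ∉ A → b i = 0) ∧
      ∀ j, j ∉ Z → ∑ i, b i * v j i = s := by
  classical
  set s : ℕ := ∏ i, (a i).den with hs
  have hs0 : 0 < s := Finset.prod_pos fun i _ => (a i).den_pos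
  have h1 : ∀ i, ∃ b : ℕ, (b : ℚ) = a i * s := by
    intro i
    have h2 : (a i).den ∣ s := Finset.dvd_prod_of_mem _ (Finset.mem_univ i)
    obtain ⟨k, hk⟩ := h2
    refine ⟨(a i).num.toNat * k, ?_⟩
    have h3 : 0 ≤ (a i).num := Rat.num_nonneg.2 (ha i)
    have h4 : (((a i).num.toNat : ℕ) : ℚ) = (a i).num := by
      have := Int.toNat_of_nonneg h3
      exact_mod_cast congrArg (fun z : ℤ => (z : ℚ)) this
    rw [hk]
    push_cast
    rw [h4]
    conv_rhs => rw [← Rat.num_div_den (a i)]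
    have h5 : ((a i).den : ℚ) ≠ 0 := by exact_mod_cast (a i).den_ne_zero
    simp only [Rat.num_div_den]
    have h6 : (a i) * (a i).den = (a i).num := Rat.mul_den_eq_num _
    rw [← mul_assoc, h6]
  choose b hb using h1
  refine ⟨s, b, hs0, fun i hi => ?_, fun j hj => ?_⟩
  · have := hb i
    rw [hA i hi, zero_mul] at this
    exact_mod_cast this
  · have h2 : ((∑ i, b i * v j i : ℕ) : ℚ) = s := by
      push_cast
      simp only [hb]
      have h3 := hZ j hj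
      calc ∑ i, a i * (s : ℚ) * (v j i : ℚ) = (s : ℚ) * ∑ i, a i * (v j i : ℚ) := by
            rw [Finset.mul_sum]
            exact Finset.sum_congr rfl fun i _ => by ring
        _ = s := by rw [h3, mul_one]
    exact_mod_cast h2

/-- a generator which does not vanish -/
lemma kil1_of (v : Fin r → Fin N → ℕ) (A : Finset (Fin N)) (Z : Finset (Fin r))
    (γ : Fin r → ℚ) (h1 : ∀ i ∈ A, ∑ j, γ j * (v j i : ℚ) ≤ 0) (h2 : ∀ j ∈ Z, 0 ≤ γ j)
    (h3 : 0 < ∑ j, γ j) :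
    ∃ c : Fin r → ℤ, Kil1 v c (Finset.univ \ A) ∧ ∀ j, c j < 0 → j ∉ Z := by
  set s : ℚ := ∑ j, γ j with hs
  refine ⟨fun j => ⌊γ j / s⌋, ⟨fun j => ((γ j / s - ⌊γ j / s⌋ : ℚ) : ℝ), ?_, ?_, ?_⟩, ?_⟩
  · intro j
    have : (0 : ℚ) ≤ γ j / s - ⌊γ j / s⌋ := by
      have := Int.floor_le (γ j / s)
      linarith
    exact Rat.cast_nonneg.2 this
  · have h4 : ∀ j, (((⌊γ j / s⌋ : ℤ) : ℝ) + ((γ j / s - ⌊γ j / s⌋ : ℚ) : ℝ)) =
        ((γ j / s : ℚ) : ℝ) := by
      intro j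
      push_cast
      ring
    simp only [h4]
    have h5 : ∑ j, γ j / s = 1 := by
      rw [← Finset.sum_div, ← hs, div_self h3.ne']
    exact_mod_cast congrArg (fun z : ℚ => (z : ℝ)) h5
  · intro i hi
    have hi' : i ∈ A := by
      by_contra hc
      exact hi (Finset.mem_sdiff.2 ⟨Finset.mem_univ _, hc⟩)
    have h4 : ∀ j, (((⌊γ j / s⌋ : ℤ) : ℝ) + ((γ j / s - ⌊γ j / s⌋ : ℚ) : ℝ)) =
        ((γ j / s : ℚ) : ℝ) := by
      intro j
      push_cast
      ring
    simp only [h4]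
    have h5 : ∑ j, γ j / s * (v j i : ℚ) ≤ 0 := by
      have h6 : ∑ j, γ j / s * (v j i : ℚ) = (∑ j, γ j * (v j i : ℚ)) / s := by
        rw [Finset.sum_div]
        exact Finset.sum_congr rfl fun j _ => by ring
      rw [h6]
      exact div_nonpos_of_nonpos_of_nonneg (h1 i hi') h3.le
    exact_mod_cast h5
  · intro j hj hjZ
    have h4 : 0 ≤ γ j / s := div_nonneg (h2 j hjZ) h3.le
    have h5 : 0 ≤ ⌊γ j / s⌋ := Int.floor_nonneg.2 h4
    exact absurd hj (not_lt.2 h5)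

/-- The order condition at the points of the zero locus. -/
lemma zero_pair (q : ℕ) (v : Fin r → Fin N → ℕ) (t : Fin r → ℂ)
    (ht : t ∈ zeroLocus ℂ (I1 q v)) :
    ∃ a : Fin N → ℚ, (∀ i, 0 ≤ a i) ∧ (∀ i, aeval t (elm q v i) ≠ 0 → a i = 0) ∧
      (∀ j, 1 ≤ ∑ i, a i * (v j i : ℚ)) ∧ ∀ j, t j ≠ 1 → ∑ i, a i * (v j i : ℚ) = 1 := by
  classical
  set A : Finset (Fin N) := Finset.univ.filter fun i => aeval t (elm q v i) = 0 with hA
  set Z : Finset (Fin r) := Finset.univ.filter fun j => t j = 1 with hZ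
  obtain ⟨a, ha, haA, haj, haZ⟩ := farkas_pair v A Z (by
    intro γ h1 h2
    by_contra h3
    push Not at h3
    obtain ⟨c, hc1, hc2⟩ := kil1_of v A Z γ h1 h2 h3
    have h4 := (mem_zeroLocus_iff.1 ht) _ (Ideal.subset_span ⟨c, Finset.univ \ A, hc1, rfl⟩)
    rw [map_mul, map_prod, map_prod, mul_eq_zero] at h4
    rcases h4 with h4 | h4
    · obtain ⟨i, hi, hi0⟩ := Finset.prod_eq_zero_iff.1 h4
      rw [Finset.mem_sdiff] at hi
      exact hi.2 (Finset.mem_filter.2 ⟨Finset.mem_univ _, hi0⟩)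
    · obtain ⟨j, _, hj0⟩ := Finset.prod_eq_zero_iff.1 h4
      by_cases hcj : c j < 0
      · rw [if_pos hcj, map_sub, map_one, aeval_X, sub_eq_zero] at hj0
        exact hc2 j hcj (Finset.mem_filter.2 ⟨Finset.mem_univ _, hj0.symm⟩)
      · rw [if_neg hcj, map_one] at hj0
        exact one_ne_zero hj0)
  refine ⟨a, ha, fun i hi => haA i fun h => hi (Finset.mem_filter.1 h).2, haj, fun j hj => ?_⟩
  exact haZ j fun h => hj (Finset.mem_filter.1 h).2

lemma aeval_elm (q : ℕ) (v : Fin r → Fin N → ℕ) (t : Fin r → ℂ) (i : Fin N) :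
    aeval t (elm q v i) = 1 - (q : ℂ)⁻¹ * ∏ j, t j ^ v j i := by
  unfold elm
  rw [map_sub, map_one, map_mul, map_prod]
  simp [algHom_C]

lemma tau_pow (q : ℕ) (hq : 2 ≤ q) (v : Fin r → Fin N → ℕ) (t : Fin r → ℂ) (s : ℕ)
    (b : Fin N → ℕ) (hb : ∀ i, aeval t (elm q v i) ≠ 0 → b i = 0)
    (hs : ∀ j, t j ≠ 1 → ∑ i, b i * v j i = s) :
    (∏ j, t j) ^ s = (q : ℂ) ^ (∑ i, b i) := by
  have h1 : (∏ j, t j) ^ s = ∏ j, ∏ i, (t j ^ v j i) ^ b i := by
    rw [← Finset.prod_pow]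
    refine Finset.prod_congr rfl fun j _ => ?_
    by_cases hj : t j = 1
    · simp [hj]
    · rw [← hs j hj, ← Finset.prod_pow_eq_pow_sum]
      refine Finset.prod_congr rfl fun i _ => ?_
      rw [← pow_mul, mul_comm]
  rw [h1, Finset.prod_comm, ← Finset.prod_pow_eq_pow_sum]
  refine Finset.prod_congr rfl fun i _ => ?_
  rw [Finset.prod_pow]
  by_cases hi : aeval t (elm q v i) = 0
  · rw [aeval_elm, sub_eq_zero] at hi
    have hq0 : (q : ℂ) ≠ 0 := by
      have : q ≠ 0 := by omega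
      exact_mod_cast this
    have h2 : ∏ j, t j ^ v j i = (q : ℂ) := by
      field_simp at hi
      exact hi.symm
    rw [h2]
  · rw [hb i hi, pow_zero, pow_zero]

theorem stepC (q : ℕ) (hq : 2 ≤ q) (v : Fin r → Fin N → ℕ) (T0 : ℂ) :
    ∃ (E : ℕ) (Q : Polynomial ℂ), Q.eval T0 ≠ 0 ∧
      Polynomial.aeval (tau r) ((Polynomial.X - Polynomial.C T0) ^ E * Q) ∈ I1 q v := by
  classical
  let P : Finset (Fin N) × Finset (Fin r) → Prop := fun p =>
    ∃ (s : ℕ) (b : Fin N → ℕ), 0 < s ∧ (∀ i, i ∉ p.1 → b i = 0) ∧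
      ∀ j, j ∉ p.2 → ∑ i, b i * v j i = s
  have hP : ∀ p, ∃ (s : ℕ) (b : Fin N → ℕ), 0 < s ∧ (P p → (∀ i, i ∉ p.1 → b i = 0) ∧
      ∀ j, j ∉ p.2 → ∑ i, b i * v j i = s) := by
    intro p
    by_cases h : P p
    · obtain ⟨s, b, hs, h1, h2⟩ := h
      exact ⟨s, b, hs, fun _ => ⟨h1, h2⟩⟩
    · exact ⟨1, 0, one_pos, fun h' => absurd h' h⟩
  choose s b hs hsb using hP
  set Θ : Polynomial ℂ := Polynomial.X *
    ∏ p : Finset (Fin N) × Finset (Fin r), (Polynomial.X ^ s p -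
      Polynomial.C ((q : ℂ) ^ (∑ i, b p i))) with hΘ
  have hΘ0 : Θ ≠ 0 := by
    rw [hΘ]
    refine mul_ne_zero Polynomial.X_ne_zero (Finset.prod_ne_zero_iff.2 fun p _ => ?_)
    exact (Polynomial.monic_X_pow_sub_C _ (hs p).ne').ne_zero
  have hmem : Polynomial.aeval (tau r) Θ ∈ (I1 q v).radical := by
    rw [← vanishingIdeal_zeroLocus_eq_radical (K := ℂ), mem_vanishingIdeal_iff]
    intro t ht
    rw [← Polynomial.aeval_algHom_apply]
    have htau : aeval t (tau r) = ∏ j, t j := by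
      unfold tau
      rw [map_prod]
      simp
    rw [htau, hΘ, map_mul, Polynomial.aeval_X]
    obtain ⟨a, ha, haA, haj, haZ⟩ := zero_pair q v t ht
    set A : Finset (Fin N) := Finset.univ.filter fun i => aeval t (elm q v i) = 0 with hA
    set Z : Finset (Fin r) := Finset.univ.filter fun j => t j = 1 with hZ
    have hPAZ : P (A, Z) := by
      obtain ⟨s', b', h1, h2, h3⟩ := pair_int v A Z a ha
        (fun i hi => haA i fun h => hi (Finset.mem_filter.2 ⟨Finset.mem_univ _, h⟩))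
        (fun j hj => haZ j fun h => hj (Finset.mem_filter.2 ⟨Finset.mem_univ _, h⟩))
      exact ⟨s', b', h1, h2, h3⟩
    obtain ⟨h1, h2⟩ := hsb (A, Z) hPAZ
    have h3 := tau_pow q hq v t (s (A, Z)) (b (A, Z))
      (fun i hi => h1 i fun h => hi (Finset.mem_filter.1 h).2)
      (fun j hj => h2 j fun h => hj (Finset.mem_filter.1 h).2)
    rw [map_prod, Finset.prod_eq_zero (Finset.mem_univ (A, Z)), mul_zero]
    simp only [map_sub, map_pow, Polynomial.aeval_X, Polynomial.aeval_C]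
    rw [h3]
    simp
  obtain ⟨n, hn⟩ := Ideal.mem_radical_iff.1 hmem
  rw [← map_pow] at hn
  have hn0 : Θ ^ n ≠ 0 := pow_ne_zero _ hΘ0
  obtain ⟨Q, hQ, hQ'⟩ := Polynomial.exists_eq_pow_rootMultiplicity_mul_and_not_dvd (Θ ^ n) hn0 T0
  refine ⟨(Θ ^ n).rootMultiplicity T0, Q, ?_, ?_⟩
  · intro h
    exact hQ' (Polynomial.dvd_iff_isRoot.2 h)
  · rw [← hQ]
    exact hn

end Pool.Agent.TH216.MF
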