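import Pool.Agent.TH216.MF.Lat
import Pool.Agent.TH216.MF.StepC

set_option autoImplicit false

/-! Choice of the additive point attached to a multiplicative point. -/

namespace Pool.Agent.TH216.MF

open MvPolynomial

variable {r N : ℕ}

/-- a rational vector in a subspace whose unforced coordinates are nonzero -/
lemma exW (v : Fin r → Fin N → ℕ) (A : Finset (Fin N)) (Z : Finset (Fin r)) :
    ∃ w : Fin r → ℚ, (∀ i ∈ A, ∑ j, w j * (v j i : ℚ) = 0) ∧ (∀ j ∈ Z, w j = 0) ∧
      ∀ j, w j = 0 → ∀ w' : Fin r → ℚ, (∀ i ∈ A, ∑ j, w' j * (v j i : ℚ) = 0) →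
        (∀ j ∈ Z, w' j = 0) → w' j = 0 := by
  classical
  let W : Submodule ℚ (Fin r → ℚ) :=
    { carrier := {w | (∀ i ∈ A, ∑ j, w j * (v j i : ℚ) = 0) ∧ ∀ j ∈ Z, w j = 0}
      add_mem' := by
        rintro a b ⟨ha1, ha2⟩ ⟨hb1, hb2⟩
        refine ⟨fun i hi => ?_, fun j hj => ?_⟩
        · simp only [Pi.add_apply, add_mul, Finset.sum_add_distrib]
          rw [ha1 i hi, hb1 i hi, add_zero]
        · simp only [Pi.add_apply]
          rw [ha2 j hj, hb2 j hj, add_zero]
      zero_mem' := by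
        refine ⟨fun i hi => ?_, fun j hj => ?_⟩ <;> simp
      smul_mem' := by
        rintro c a ⟨ha1, ha2⟩
        refine ⟨fun i hi => ?_, fun j hj => ?_⟩
        · simp only [Pi.smul_apply, smul_eq_mul, mul_assoc]
          rw [← Finset.mul_sum, ha1 i hi, mul_zero]
        · simp only [Pi.smul_apply, smul_eq_mul]
          rw [ha2 j hj, mul_zero] }
  let K : Fin r → Submodule ℚ W := fun j =>
    LinearMap.ker ((LinearMap.proj j : (Fin r → ℚ) →ₗ[ℚ] ℚ).comp W.subtype)
  let s : Finset (Submodule ℚ W) := (Finset.univ.image K).erase ⊤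
  have hs : (⊤ : Submodule ℚ W) ∉ s := Finset.notMem_erase _ _
  have h1 := Subspace.biUnion_ne_univ_of_top_notMem hs
  obtain ⟨w, hw⟩ := (Set.ne_univ_iff_exists_notMem _).1 h1
  refine ⟨w.1, w.2.1, w.2.2, fun j hj w' h2 h3 => ?_⟩
  by_contra h4
  apply hw
  refine Set.mem_biUnion (x := K j) ?_ ?_
  · refine Finset.mem_coe.2 (Finset.mem_erase.2 ⟨?_, Finset.mem_image_of_mem _ (Finset.mem_univ j)⟩)
    intro h5
    have h6 : (⟨w', h2, h3⟩ : W) ∈ K j := by
      rw [h5]
      trivial
    exact h4 h6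
  · exact hj

lemma norm_rel (q : ℕ) (hq : 2 ≤ q) (v : Fin r → Fin N → ℕ) (t : Fin r → ℂ) (i : Fin N)
    (ht : ∀ j, t j ≠ 0) (hi : aeval t (elm q v i) = 0) :
    ∏ j, t j ^ v j i = (q : ℂ) ∧ ∑ j, (-Real.log ‖t j‖ / Real.log q) * (v j i : ℝ) = -1 := by
  have hq0 : (q : ℂ) ≠ 0 := by
    have : q ≠ 0 := by omega
    exact_mod_cast this
  rw [aeval_elm, sub_eq_zero] at hi
  have h2 : ∏ j, t j ^ v j i = (q : ℂ) := by
    field_simp at hi
    exact hi.symm
  refine ⟨h2, ?_⟩
  have h3 := congrArg (fun z : ℂ => Real.log ‖z‖) h2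
  simp only [norm_prod, norm_pow, Complex.norm_natCast] at h3
  rw [Real.log_prod fun j _ => pow_ne_zero _ (norm_ne_zero_iff.2 (ht j))] at h3
  simp only [Real.log_pow] at h3
  have hlog : Real.log q ≠ 0 := by
    have : (1 : ℝ) < q := by exact_mod_cast (by omega : 1 < q)
    exact (Real.log_pos this).ne'
  have h4 : ∑ j, (-Real.log ‖t j‖ / Real.log q) * (v j i : ℝ) =
      -(∑ j, (v j i : ℝ) * Real.log ‖t j‖) / Real.log q := by
    rw [← Finset.sum_neg_distrib, Finset.sum_div]
    exact Finset.sum_congr rfl fun j _ => by ring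
  rw [h4, h3, neg_div, div_self hlog]

/-- Existence of the additive point. -/
lemma exX (q : ℕ) (hq : 2 ≤ q) (v : Fin r → Fin N → ℕ) (G : ℕ) (hG : Good v G) (M : ℕ)
    (t : Fin r → ℂ) (ht : ∀ j, t j ≠ 0) (p : Polynomial ℂ)
    (hp : p.eval ((-Real.log ‖∏ j, t j‖ / Real.log q : ℝ) : ℂ) ≠ 0) :
    ∃ X : Fin r → ℂ, (∀ i, aeval t (elm q v i) = 0 → 1 + ∑ j, (v j i : ℂ) * X j = 0) ∧
      (∀ j, t j = 1 → X j = 0) ∧ p.eval (∑ j, X j) ≠ 0 ∧
      ∀ j, ∀ m ∈ Finset.range M, X j + ((m + 1 : ℕ) : ℂ) = 0 →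
        (q : ℂ)⁻¹ ^ ((m + 1) * G) * t j ^ G = 1 := by
  classical
  set A : Finset (Fin N) := Finset.univ.filter fun i => aeval t (elm q v i) = 0 with hA
  set Z : Finset (Fin r) := Finset.univ.filter fun j => t j = 1 with hZ
  obtain ⟨w, hw1, hw2, hw3⟩ := exW v A Z
  have hq1 : (1 : ℝ) < q := by exact_mod_cast (by omega : 1 < q)
  have hlog : Real.log q ≠ 0 := (Real.log_pos hq1).ne'
  have hq0 : (q : ℂ) ≠ 0 := by
    have : q ≠ 0 := by omega
    exact_mod_cast this
  set x : Fin r → ℝ := fun j => -Real.log ‖t j‖ / Real.log q with hx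
  have hsum : ∑ j, x j = -Real.log ‖∏ j, t j‖ / Real.log q := by
    rw [norm_prod, Real.log_prod fun j _ => norm_ne_zero_iff.2 (ht j), ← Finset.sum_neg_distrib,
      Finset.sum_div]
  -- the polynomial in `z`
  set R : Polynomial ℂ := (p.comp (Polynomial.C ((∑ j, x j : ℝ) : ℂ) +
      Polynomial.C (∑ j, (w j : ℂ)) * Polynomial.X)) *
    ∏ j, if w j = 0 then 1 else ∏ m ∈ Finset.range M,
      (Polynomial.C ((x j : ℂ) + ((m + 1 : ℕ) : ℂ)) + Polynomial.C (w j : ℂ) * Polynomial.X)
    with hR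
  have hR0 : R ≠ 0 := by
    rw [hR]
    refine mul_ne_zero ?_ (Finset.prod_ne_zero_iff.2 fun j _ => ?_)
    · intro h
      have h2 := congrArg (Polynomial.eval 0) h
      rw [Polynomial.eval_comp] at h2
      simp only [Polynomial.eval_add, Polynomial.eval_C, Polynomial.eval_mul, Polynomial.eval_X,
        mul_zero, add_zero, Polynomial.eval_zero] at h2
      apply hp
      rw [← hsum]
      exact h2
    · split_ifs with hj
      · exact one_ne_zero
      · refine Finset.prod_ne_zero_iff.2 fun m _ => ?_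
        intro h
        have h2 := congrArg (fun P => Polynomial.coeff P 1) h
        simp only [Polynomial.coeff_add, Polynomial.coeff_C_mul, Polynomial.coeff_X_one,
          Polynomial.coeff_zero, mul_one] at h2
        rw [Polynomial.coeff_C, if_neg one_ne_zero, zero_add] at h2
        exact hj (by exact_mod_cast h2)
  obtain ⟨z, hz⟩ : ∃ z, R.eval z ≠ 0 := by
    by_contra h
    push Not at h
    exact hR0 (Polynomial.funext (fun z => by rw [h z, Polynomial.eval_zero]))
  rw [hR, Polynomial.eval_mul, Polynomial.eval_comp, Polynomial.eval_prod] at hz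
  have hz1 := left_ne_zero_of_mul hz
  have hz2 := right_ne_zero_of_mul hz
  simp only [Polynomial.eval_add, Polynomial.eval_C, Polynomial.eval_mul, Polynomial.eval_X] at hz1
  have hcastw : ∀ i ∈ A, ∑ j, (v j i : ℂ) * (w j : ℂ) = 0 := by
    intro i hi
    have h1 := congrArg (fun z : ℚ => (z : ℂ)) (hw1 i hi)
    push_cast at h1
    rw [← h1]
    exact Finset.sum_congr rfl fun j _ => mul_comm _ _
  refine ⟨fun j => (x j : ℂ) + z * (w j : ℂ), ?_, ?_, ?_, ?_⟩
  · intro i hi
    have h1 := (norm_rel q hq v t i ht hi).2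
    have h2 : ∑ j, (v j i : ℂ) * (x j : ℂ) = -1 := by
      have h3 := congrArg (fun z : ℝ => (z : ℂ)) h1
      rw [Complex.ofReal_sum] at h3
      push_cast at h3
      rw [← h3]
      refine Finset.sum_congr rfl fun j _ => ?_
      rw [hx]
      push_cast
      ring
    have h3 := hcastw i (Finset.mem_filter.2 ⟨Finset.mem_univ _, hi⟩)
    have h4 : ∑ j, (v j i : ℂ) * ((x j : ℂ) + z * (w j : ℂ)) =
        ∑ j, (v j i : ℂ) * (x j : ℂ) + z * ∑ j, (v j i : ℂ) * (w j : ℂ) := by
      rw [Finset.mul_sum, ← Finset.sum_add_distrib]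
      exact Finset.sum_congr rfl fun j _ => by ring
    rw [h4, h2, h3]
    ring
  · intro j hj
    have h1 : x j = 0 := by
      rw [hx]
      simp [hj]
    have h2 := hw2 j (Finset.mem_filter.2 ⟨Finset.mem_univ _, hj⟩)
    simp [h1, h2]
  · have h1 : ∑ j, ((x j : ℂ) + z * (w j : ℂ)) = ((∑ j, x j : ℝ) : ℂ) + (∑ j, (w j : ℂ)) * z := by
      rw [Finset.sum_add_distrib, ← Finset.mul_sum, mul_comm]
      push_cast
      rfl
    rw [h1]
    exact hz1
  · intro j m hm hXj
    have hwj : w j = 0 := by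
      by_contra hwj
      have h1 := (Finset.prod_ne_zero_iff.1 hz2) j (Finset.mem_univ _)
      rw [if_neg hwj, Polynomial.eval_prod] at h1
      have h2 := (Finset.prod_ne_zero_iff.1 h1) m hm
      apply h2
      simp only [Polynomial.eval_add, Polynomial.eval_C, Polynomial.eval_mul, Polynomial.eval_X]
      rw [← hXj]
      push_cast
      ring
    obtain ⟨k, k', hk, hk', hkk⟩ := hG A Z j (hw3 j hwj)
    have h1 : t j ^ G = (q : ℂ) ^ (∑ i, k i) := by
      have h2 : ∏ j', t j' ^ (if j' = j then (G : ℤ) else 0) = t j ^ (G : ℤ) := by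
        rw [Finset.prod_eq_single j]
        · rw [if_pos rfl]
        · intro j' _ hj'
          rw [if_neg hj', zpow_zero]
        · simp
      have h3 : ∏ j', t j' ^ (∑ i, k i * (v j' i : ℤ) + k' j') = (q : ℂ) ^ (∑ i, k i) := by
        have h4 : ∀ j', t j' ^ (∑ i, k i * (v j' i : ℤ) + k' j') =
            ∏ i, (t j' ^ v j' i) ^ k i := by
          intro j'
          have h5 : t j' ^ k' j' = 1 := by
            by_cases hj' : t j' = 1
            · rw [hj', one_zpow]
            · rw [hk' j' fun h => hj' (Finset.mem_filter.1 h).2, zpow_zero]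
          have h6 : ∀ s : Finset (Fin N), t j' ^ (∑ i ∈ s, k i * (v j' i : ℤ)) =
              ∏ i ∈ s, (t j' ^ v j' i) ^ k i := by
            intro s
            induction s using Finset.induction_on with
            | empty => simp
            | insert a s ha ih =>
              rw [Finset.sum_insert ha, Finset.prod_insert ha, zpow_add₀ (ht j'), ih]
              congr 1
              rw [mul_comm, zpow_mul, zpow_natCast]
          rw [zpow_add₀ (ht j'), h5, mul_one, h6]
        simp only [h4]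
        rw [Finset.prod_comm]
        have h7 : ∀ s : Finset (Fin N), (q : ℂ) ^ (∑ i ∈ s, k i) = ∏ i ∈ s, (q : ℂ) ^ k i := by
          intro s
          induction s using Finset.induction_on with
          | empty => simp
          | insert a s ha ih =>
            rw [Finset.sum_insert ha, Finset.prod_insert ha, zpow_add₀ hq0, ih]
        rw [h7]
        refine Finset.prod_congr rfl fun i _ => ?_
        rw [Finset.prod_zpow]
        by_cases hi : aeval t (elm q v i) = 0
        · rw [(norm_rel q hq v t i ht hi).1]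
        · rw [hk i fun h => hi (Finset.mem_filter.1 h).2, zpow_zero, zpow_zero]
      rw [← zpow_natCast, ← h2, ← h3]
      exact Finset.prod_congr rfl fun j' _ => by rw [hkk j']
    -- compare the norms
    have h2 : x j = -((m + 1 : ℕ) : ℝ) := by
      have h3 : (x j : ℂ) + ((m + 1 : ℕ) : ℂ) = 0 := by
        have h30 : (x j : ℂ) + z * (w j : ℂ) + ((m + 1 : ℕ) : ℂ) = 0 := hXj
        rw [hwj, Rat.cast_zero, mul_zero, add_zero] at h30
        exact h30
      have h4 : ((x j + ((m + 1 : ℕ) : ℝ) : ℝ) : ℂ) = 0 := by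
        rw [← h3]
        push_cast
        ring
      have h5 : x j + ((m + 1 : ℕ) : ℝ) = 0 := by exact_mod_cast h4
      linarith
    have h3 : Real.log ‖t j‖ = ((m + 1 : ℕ) : ℝ) * Real.log q := by
      have h4 : -Real.log ‖t j‖ / Real.log q = -((m + 1 : ℕ) : ℝ) := h2
      rw [div_eq_iff hlog] at h4
      linarith
    have h4 := congrArg (fun z : ℂ => Real.log ‖z‖) h1
    simp only [norm_pow, norm_zpow, Complex.norm_natCast, Real.log_pow, Real.log_zpow] at h4
    rw [h3, ← mul_assoc] at h4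
    have h5 := mul_right_cancel₀ hlog h4
    have h6 : (∑ i, k i) = (((m + 1) * G : ℕ) : ℤ) := by
      have h7 : ((∑ i, k i : ℤ) : ℝ) = (((m + 1) * G : ℕ) : ℤ) := by
        rw [← h5]
        push_cast
        ring
      exact_mod_cast h7
    rw [h1, h6, zpow_natCast, inv_pow]
    exact inv_mul_cancel₀ (pow_ne_zero _ hq0)

end Pool.Agent.TH216.MF
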