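import Pool.Agent.TH216.MF.Reg
import Pool.Agent.TH216.MF.Defs

set_option autoImplicit false

/-! The action of polynomials on functions and the generating series. -/

namespace Pool.Agent.TH216.MF

open MvPolynomial

variable {r N : ℕ}

/-- functions on the lattice -/
abbrev Fn (r : ℕ) : Type := (Fin r → ℤ) → ℂ

/-- the shift by a monomial -/
def shiftHom (r : ℕ) : Multiplicative (Fin r →₀ ℕ) →* Module.End ℂ (Fn r) where
  toFun m :=
    { toFun := fun F y => F (fun j => y j + ((m.toAdd j : ℕ) : ℤ))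
      map_add' := fun F G => rfl
      map_smul' := fun a F => rfl }
  map_one' := by
    ext F y
    simp
  map_mul' m n := by
    ext F y
    simp [add_assoc]

/-- the action -/
noncomputable def act (r : ℕ) : MvPolynomial (Fin r) ℂ →ₐ[ℂ] Module.End ℂ (Fn r) :=
  AddMonoidAlgebra.lift ℂ (Module.End ℂ (Fn r)) (Fin r →₀ ℕ) (shiftHom r)

lemma act_monomial (m : Fin r →₀ ℕ) (a : ℂ) (F : Fn r) (y : Fin r → ℤ) :
    act r (monomial m a) F y = a * F (fun j => y j + (m j : ℤ)) := by
  have h : act r (monomial m a) = a • shiftHom r (Multiplicative.ofAdd m) := by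
    unfold act
    exact AddMonoidAlgebra.lift_single _ _ _
  rw [h]
  rfl

lemma act_mul (g h : MvPolynomial (Fin r) ℂ) (F : Fn r) : act r (g * h) F = act r g (act r h F) := by
  rw [map_mul]
  rfl

lemma act_X (j : Fin r) (F : Fn r) (y : Fin r → ℤ) :
    act r (X j) F y = F (fun j' => y j' + if j' = j then 1 else 0) := by
  rw [X, act_monomial, one_mul]
  congr 1
  funext j'
  rw [Finsupp.single_apply]
  congr 1
  by_cases h : j' = j
  · rw [if_pos h, if_pos h.symm]; rfl
  · rw [if_neg h, if_neg fun h' => h h'.symm]; rfl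

lemma act_C (a : ℂ) (F : Fn r) : act r (C a) F = a • F := by
  funext y
  rw [← monomial_zero', act_monomial]
  simp

lemma act_one (F : Fn r) : act r 1 F = F := by
  rw [map_one]
  rfl

lemma act_add (g h : MvPolynomial (Fin r) ℂ) (F : Fn r) :
    act r (g + h) F = act r g F + act r h F := by
  rw [map_add]
  rfl

lemma act_sub (g h : MvPolynomial (Fin r) ℂ) (F : Fn r) :
    act r (g - h) F = act r g F - act r h F := by
  rw [map_sub]
  rfl

lemma act_elm (q : ℕ) (v : Fin r → Fin N → ℕ) (i : Fin N) (F : Fn r) (y : Fin r → ℤ) :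
    act r (elm q v i) F y = F y - (q : ℂ)⁻¹ * F (fun j => y j + (v j i : ℤ)) := by
  unfold elm
  have h : C ((q : ℂ)⁻¹) * ∏ j, (X j : MvPolynomial (Fin r) ℂ) ^ v j i =
      monomial (Finsupp.equivFunOnFinite.symm fun j => v j i) ((q : ℂ)⁻¹) := by
    rw [monomial_eq]
    congr 1
    rw [Finsupp.prod_fintype]
    · simp
    · simp
  rw [h, act_sub, act_one]
  show F y - act r _ F y = _
  rw [act_monomial]
  simp

lemma act_tau (F : Fn r) (y : Fin r → ℤ) : act r (tau r) F y = F (fun j => y j + 1) := by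
  unfold tau
  have h : ∏ j, (X j : MvPolynomial (Fin r) ℂ) =
      monomial (Finsupp.equivFunOnFinite.symm fun _ => 1) 1 := by
    rw [monomial_eq, Finsupp.prod_fintype]
    · simp
    · simp
  rw [h, act_monomial, one_mul]
  simp

/-- the generating series -/
noncomputable def gen (q : ℕ) (v : Fin r → Fin N → ℕ) (F : Fn r) (S : Finset (Fin N)) (t : ℤ) :
    MvPowerSeries (Fin N) ℂ := fun x =>
  open Classical in
  if ∀ i ∈ S, x i = 0 then
    (q : ℂ)⁻¹ ^ (∑ i, x i) * F (fun j => ∑ i, (x i : ℤ) * (v j i : ℤ) - t) else 0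

lemma coeff_gen (q : ℕ) (v : Fin r → Fin N → ℕ) (F : Fn r) (S : Finset (Fin N)) (t : ℤ)
    (x : Fin N →₀ ℕ) : MvPowerSeries.coeff x (gen q v F S t) =
  open Classical in
  if ∀ i ∈ S, x i = 0 then
    (q : ℂ)⁻¹ ^ (∑ i, x i) * F (fun j => ∑ i, (x i : ℤ) * (v j i : ℤ) - t) else 0 := rfl

lemma gen_add (q : ℕ) (v : Fin r → Fin N → ℕ) (F G : Fn r) (S : Finset (Fin N)) (t : ℤ) :
    gen q v (F + G) S t = gen q v F S t + gen q v G S t := by
  ext x
  rw [map_add, coeff_gen, coeff_gen, coeff_gen]
  split_ifs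
  · simp only [Pi.add_apply]
    ring
  · simp

lemma gen_smul (q : ℕ) (v : Fin r → Fin N → ℕ) (a : ℂ) (F : Fn r) (S : Finset (Fin N)) (t : ℤ) :
    gen q v (a • F) S t = a • gen q v F S t := by
  ext x
  rw [MvPowerSeries.coeff_smul, coeff_gen, coeff_gen]
  split_ifs
  · simp only [Pi.smul_apply, smul_eq_mul]
    ring
  · simp

lemma gen_zero (q : ℕ) (v : Fin r → Fin N → ℕ) (S : Finset (Fin N)) (t : ℤ) :
    gen q v (0 : Fn r) S t = 0 := by
  ext x
  rw [coeff_gen]
  simp

lemma gen_sum {ι : Type*} (s : Finset ι) (q : ℕ) (v : Fin r → Fin N → ℕ) (F : ι → Fn r)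
    (S : Finset (Fin N)) (t : ℤ) :
    gen q v (∑ i ∈ s, F i) S t = ∑ i ∈ s, gen q v (F i) S t := by
  classical
  induction s using Finset.induction_on with
  | empty => simp [gen_zero]
  | insert a s ha ih => rw [Finset.sum_insert ha, Finset.sum_insert ha, gen_add, ih]

lemma gen_tau (q : ℕ) (v : Fin r → Fin N → ℕ) (F : Fn r) (S : Finset (Fin N)) (t : ℤ) :
    gen q v (act r (tau r) F) S t = gen q v F S (t - 1) := by
  ext x
  rw [coeff_gen, coeff_gen]
  split_ifs
  · rw [act_tau]
    congr 2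
    funext j
    ring
  · rfl

/-- Stokes -/
lemma gen_stokes (q : ℕ) (v : Fin r → Fin N → ℕ) (F : Fn r) (S : Finset (Fin N)) (t : ℤ)
    (i : Fin N) (hi : i ∉ S) :
    (MvPowerSeries.X i) * gen q v (act r (elm q v i) F) S t =
      (MvPowerSeries.X i - 1) * gen q v F S t + gen q v F (insert i S) t := by
  classical
  ext x
  rw [sub_mul, one_mul, map_add, map_sub, MvPowerSeries.X, MvPowerSeries.coeff_monomial_mul,
    MvPowerSeries.coeff_monomial_mul, one_mul, one_mul]
  by_cases hx : Finsupp.single i 1 ≤ x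
  · rw [if_pos hx, if_pos hx]
    have hx1 : 1 ≤ x i := Finsupp.single_le_iff.1 hx
    obtain ⟨x', rfl⟩ : ∃ x', x = x' + Finsupp.single i 1 :=
      ⟨x - Finsupp.single i 1, (tsub_add_cancel_of_le hx).symm⟩
    rw [add_tsub_cancel_right]
    have h1 : MvPowerSeries.coeff (x' + Finsupp.single i 1) (gen q v F (insert i S) t) = 0 := by
      rw [coeff_gen, if_neg]
      intro h
      have h2 := h i (Finset.mem_insert_self _ _)
      simp at h2
    rw [h1, add_zero, coeff_gen, coeff_gen, coeff_gen]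
    have h3 : (∀ i' ∈ S, (x' + Finsupp.single i 1 : Fin N →₀ ℕ) i' = 0) ↔ ∀ i' ∈ S, x' i' = 0 := by
      refine forall₂_congr fun i' hi' => ?_
      have h4 : i' ≠ i := fun h => hi (h ▸ hi')
      rw [Finsupp.add_apply, Finsupp.single_eq_of_ne h4, add_zero]
    by_cases h4 : ∀ i' ∈ S, x' i' = 0
    · rw [if_pos h4, if_pos h4, if_pos (h3.2 h4), act_elm]
      have h5 : ∑ i', (x' + Finsupp.single i 1 : Fin N →₀ ℕ) i' = ∑ i', x' i' + 1 := by
        simp [Finset.sum_add_distrib]
      have h6 : (fun j => ∑ i', (((x' + Finsupp.single i 1 : Fin N →₀ ℕ) i' : ℕ) : ℤ) * (v j i' : ℤ) - t) =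
          fun j => ∑ i', (x' i' : ℤ) * (v j i' : ℤ) - t + (v j i : ℤ) := by
        funext j
        have h7 : ∑ i', (((x' + Finsupp.single i 1 : Fin N →₀ ℕ) i' : ℕ) : ℤ) * (v j i' : ℤ) =
            ∑ i', (x' i' : ℤ) * (v j i' : ℤ) + (v j i : ℤ) := by
          simp only [Finsupp.add_apply]
          push_cast
          simp only [add_mul, Finset.sum_add_distrib]
          congr 1
          rw [Finset.sum_eq_single i]
          · simp
          · intro i' _ hi'
            rw [Finsupp.single_eq_of_ne hi']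
            simp
          · simp
        rw [h7]
        ring
      rw [h5, h6, pow_succ]
      ring
    · rw [if_neg h4, if_neg h4, if_neg fun h => h4 (h3.1 h)]
      ring
  · rw [if_neg hx, if_neg hx]
    have hx0 : x i = 0 := by
      by_contra h
      apply hx
      rw [Finsupp.single_le_iff]
      omega
    rw [coeff_gen, coeff_gen]
    have h3 : (∀ i' ∈ insert i S, x i' = 0) ↔ ∀ i' ∈ S, x i' = 0 := by
      constructor
      · intro h i' hi'
        exact h i' (Finset.mem_insert_of_mem hi')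
      · intro h i' hi'
        rcases Finset.mem_insert.1 hi' with rfl | hi'
        · exact hx0
        · exact h i' hi'
    by_cases h4 : ∀ i' ∈ S, x i' = 0
    · rw [if_pos h4, if_pos (h3.2 h4)]
      ring
    · rw [if_neg h4, if_neg fun h => h4 (h3.1 h)]
      ring

/-- tame functions -/
def Tame (q : ℕ) (v : Fin r → Fin N → ℕ) (F : Fn r) : Prop :=
  ∀ i : Fin N, ∃ θ : ℂ, (q : ℂ)⁻¹ * θ ≠ 1 ∧ ∃ K : ℤ, ∀ y : Fin r → ℤ,
    (∀ j, 0 < v j i → K ≤ y j) → F (fun j => y j + (v j i : ℤ)) = θ * F y

lemma Tame.reg {q : ℕ} {v : Fin r → Fin N → ℕ} {F : Fn r} (h : Tame q v F)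
    (S : Finset (Fin N)) (t : ℤ) : Reg (gen q v F S t) := by
  classical
  choose θ hθ K hK using h
  refine reg_of_rec _ (fun i => if i ∈ S then 0 else (q : ℂ)⁻¹ * θ i)
    (fun i => (K i + t).toNat + 1) ?_ ?_
  · intro i
    split_ifs
    · exact zero_ne_one
    · exact hθ i
  · intro i x hx
    rw [coeff_gen, coeff_gen]
    by_cases hi : i ∈ S
    · rw [if_pos hi, if_neg, zero_mul]
      intro h
      have h2 := h i hi
      simp at h2
    · rw [if_neg hi]
      have h3 : (∀ i' ∈ S, (x + Finsupp.single i 1 : Fin N →₀ ℕ) i' = 0) ↔ ∀ i' ∈ S, x i' = 0 := by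
        refine forall₂_congr fun i' hi' => ?_
        have h4 : i' ≠ i := fun h => hi (h ▸ hi')
        rw [Finsupp.add_apply, Finsupp.single_eq_of_ne h4, add_zero]
      by_cases h4 : ∀ i' ∈ S, x i' = 0
      · rw [if_pos h4, if_pos (h3.2 h4)]
        have h5 : ∑ i', (x + Finsupp.single i 1 : Fin N →₀ ℕ) i' = ∑ i', x i' + 1 := by
          simp [Finset.sum_add_distrib]
        have h6 : (fun j => ∑ i', (((x + Finsupp.single i 1 : Fin N →₀ ℕ) i' : ℕ) : ℤ) * (v j i' : ℤ) - t) =
            fun j => (∑ i', (x i' : ℤ) * (v j i' : ℤ) - t) + (v j i : ℤ) := by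
          funext j
          have h7 : ∑ i', (((x + Finsupp.single i 1 : Fin N →₀ ℕ) i' : ℕ) : ℤ) * (v j i' : ℤ) =
              ∑ i', (x i' : ℤ) * (v j i' : ℤ) + (v j i : ℤ) := by
            simp only [Finsupp.add_apply]
            push_cast
            simp only [add_mul, Finset.sum_add_distrib]
            congr 1
            rw [Finset.sum_eq_single i]
            · simp
            · intro i' _ hi'
              rw [Finsupp.single_eq_of_ne hi']
              simp
            · simp
          rw [h7]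
          ring
        rw [h5, h6, pow_succ, hK i]
        · ring
        · intro j hj
          have h8 : (x i : ℤ) * 1 ≤ (x i : ℤ) * (v j i : ℤ) := by
            apply mul_le_mul_of_nonneg_left _ (by positivity)
            exact_mod_cast hj
          have h9 : (x i : ℤ) * (v j i : ℤ) ≤ ∑ i', (x i' : ℤ) * (v j i' : ℤ) :=
            Finset.single_le_sum (f := fun i' => (x i' : ℤ) * (v j i' : ℤ))
              (fun i' _ => by positivity) (Finset.mem_univ i)
          have h10 : K i + t ≤ ((K i + t).toNat : ℤ) := Int.self_le_toNat _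
          have h11 : (((K i + t).toNat + 1 : ℕ) : ℤ) ≤ x i := by exact_mod_cast hx
          push_cast at h11
          linarith
      · rw [if_neg h4, if_neg fun h => h4 (h3.1 h)]
        ring

end Pool.Agent.TH216.MF
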