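import Pool.Agent.TH216.MF.PF

set_option autoImplicit false

/-! Growth functions. -/

namespace Pool.Agent.TH216.MF

open MvPolynomial

variable {r N : ℕ}

/-- product functions -/
noncomputable def Fp (φ : Fin r → ℤ → ℂ) : Fn r := fun y => ∏ j, φ j (y j)

lemma act_aeval (a : Fin r) (p : Polynomial ℂ) (φ : Fin r → ℤ → ℂ) :
    act r (Polynomial.aeval (X a) p) (Fp φ) =
      Fp (fun j => if j = a then act1 p (φ j) else φ j) := by
  classical
  funext y
  have hD : p.natDegree < p.natDegree + 1 := Nat.lt_succ_self _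
  rw [Polynomial.aeval_eq_sum_range' hD, map_sum, LinearMap.sum_apply, Finset.sum_apply]
  unfold Fp
  have h1 : ∏ j, (if j = a then act1 p (φ j) else φ j) (y j) =
      act1 p (φ a) (y a) * ∏ j ∈ Finset.univ.erase a, φ j (y j) := by
    rw [← Finset.mul_prod_erase Finset.univ _ (Finset.mem_univ a), if_pos rfl]
    congr 1
    refine Finset.prod_congr rfl fun j hj => ?_
    rw [if_neg (Finset.ne_of_mem_erase hj)]
  rw [h1, act1_apply p _ hD, Finset.sum_mul]
  refine Finset.sum_congr rfl fun k _ => ?_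
  rw [map_smul, LinearMap.smul_apply, Pi.smul_apply, X_pow_eq_monomial, act_monomial, one_mul,
    smul_eq_mul, ← Finset.mul_prod_erase Finset.univ _ (Finset.mem_univ a), mul_assoc]
  congr 2
  · congr 1
    show y a + (((Finsupp.single a k : Fin r →₀ ℕ) a : ℕ) : ℤ) = _
    rw [Finsupp.single_eq_same]
  · refine Finset.prod_congr rfl fun j hj => ?_
    show φ j (y j + (((Finsupp.single a k : Fin r →₀ ℕ) j : ℕ) : ℤ)) = _
    rw [Finsupp.single_eq_of_ne (Finset.ne_of_mem_erase hj)]
    simp

lemma act_prod (p : Fin r → Polynomial ℂ) (φ : Fin r → ℤ → ℂ) :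
    act r (∏ j, Polynomial.aeval (X j : MvPolynomial (Fin r) ℂ) (p j)) (Fp φ) =
      Fp (fun j => act1 (p j) (φ j)) := by
  classical
  have key : ∀ s : Finset (Fin r),
      act r (∏ j ∈ s, Polynomial.aeval (X j : MvPolynomial (Fin r) ℂ) (p j)) (Fp φ) =
        Fp (fun j => if j ∈ s then act1 (p j) (φ j) else φ j) := by
    intro s
    induction s using Finset.induction_on with
    | empty => simp
    | insert a s ha ih =>
      rw [Finset.prod_insert ha, act_mul, ih, act_aeval]
      congr 1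
      funext j
      by_cases hj : j = a
      · subst hj
        rw [if_pos rfl, if_neg ha, if_pos (Finset.mem_insert_self _ _)]
      · rw [if_neg hj]
        by_cases hjs : j ∈ s
        · rw [if_pos hjs, if_pos (Finset.mem_insert_of_mem hjs)]
        · rw [if_neg hjs, if_neg]
          intro h
          rcases Finset.mem_insert.1 h with h | h
          · exact hj h
          · exact hjs h
  rw [key Finset.univ]
  congr 1
  funext j
  rw [if_pos (Finset.mem_univ j)]

/-- growth functions -/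
noncomputable def FG (ρ : Fin r → ℂ) : Fn r := Fp fun j => H1 (ρ j)

/-- quasi-periodicity in the direction `i` -/
def QP (v : Fin r → Fin N → ℕ) (i : Fin N) (θ : ℂ) (F : Fn r) : Prop :=
  ∀ y : Fin r → ℤ, (∀ j, 0 < v j i → 0 ≤ y j) → F (fun j => y j + (v j i : ℤ)) = θ * F y

lemma QP.act' {v : Fin r → Fin N → ℕ} {i : Fin N} {θ : ℂ} {F : Fn r} (h : QP v i θ F)
    (g : MvPolynomial (Fin r) ℂ) : QP v i θ (act r g F) := by
  induction g using MvPolynomial.induction_on' with
  | monomial m a =>
    intro y hy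
    rw [act_monomial, act_monomial]
    have h1 := h (fun j => y j + (m j : ℤ)) fun j hj => by
      have := hy j hj
      positivity
    have h2 : (fun j => y j + (v j i : ℤ) + (m j : ℤ)) = fun j => y j + (m j : ℤ) + (v j i : ℤ) := by
      funext j
      ring
    rw [h2, h1]
    ring
  | add p q hp hq =>
    intro y hy
    rw [act_add, Pi.add_apply, Pi.add_apply, hp y hy, hq y hy]
    ring

/-- vanishing in the direction `i` -/
def VZ (v : Fin r → Fin N → ℕ) (i : Fin N) (F : Fn r) : Prop :=
  ∀ y : Fin r → ℤ, (∀ j, 0 < v j i → 0 ≤ y j) → F y = 0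

lemma VZ.act' {v : Fin r → Fin N → ℕ} {i : Fin N} {F : Fn r} (h : VZ v i F)
    (g : MvPolynomial (Fin r) ℂ) : VZ v i (act r g F) := by
  induction g using MvPolynomial.induction_on' with
  | monomial m a =>
    intro y hy
    rw [act_monomial, h _ fun j hj => by
      have := hy j hj
      positivity]
    ring
  | add p q hp hq =>
    intro y hy
    rw [act_add, Pi.add_apply, hp y hy, hq y hy, add_zero]

lemma FG_QP (v : Fin r → Fin N → ℕ) (i : Fin N) (ρ : Fin r → ℂ) :
    QP v i (∏ j, ρ j ^ v j i) (FG ρ) := by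
  intro y hy
  unfold FG Fp
  rw [← Finset.prod_mul_distrib]
  refine Finset.prod_congr rfl fun j _ => ?_
  show H1 (ρ j) (y j + (v j i : ℤ)) = ρ j ^ v j i * H1 (ρ j) (y j)
  rcases Nat.eq_zero_or_pos (v j i) with h | h
  · rw [h]
    simp
  · have h1 := hy j h
    unfold H1
    rw [if_pos h1, if_pos (by positivity)]
    have h2 : (y j + (v j i : ℤ)).toNat = v j i + (y j).toNat := by omega
    rw [h2, pow_add]

lemma FG_VZ (v : Fin r → Fin N → ℕ) (i : Fin N) (ρ : Fin r → ℂ) (g : MvPolynomial (Fin r) ℂ)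
    (hg : g ∈ Ideal.span {g : MvPolynomial (Fin r) ℂ | ∃ j, 0 < v j i ∧ g = X j - C (ρ j)}) :
    VZ v i (act r g (FG ρ)) := by
  induction hg using Submodule.span_induction with
  | mem x hx =>
    obtain ⟨j, hj, rfl⟩ := hx
    have h1 : (X j - C (ρ j) : MvPolynomial (Fin r) ℂ) =
        Polynomial.aeval (X j) (Polynomial.X - Polynomial.C (ρ j)) := by
      rw [map_sub, Polynomial.aeval_X, Polynomial.aeval_C]
      rfl
    rw [h1, FG, act_aeval]
    intro y hy
    unfold Fp
    apply Finset.prod_eq_zero (Finset.mem_univ j)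
    show (if j = j then act1 (Polynomial.X - Polynomial.C (ρ j)) (H1 (ρ j)) else H1 (ρ j)) (y j)
      = (0 : ℂ)
    rw [if_pos rfl, act1_X_sub]
    unfold del
    have := hy j hj
    rw [if_neg (by omega)]
  | zero =>
    intro y _
    rw [map_zero]
    rfl
  | add x y _ _ hx hy =>
    intro z hz
    rw [act_add, Pi.add_apply, hx z hz, hy z hz, add_zero]
  | smul a x _ hx =>
    rw [smul_eq_mul, act_mul]
    exact hx.act' a

/-- the growth rates which occur -/
def RtOK (q : ℕ) (ρ : ℂ) : Prop := ∃ m : ℕ, ‖ρ‖ = (q : ℝ) ^ m ∧ (m = 0 → ρ = 1)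

lemma rtOK (q G M : ℕ) (hq : 2 ≤ q) (hG : 0 < G) (ρ : ℂ)
    (h : ((Polynomial.X - Polynomial.C 1) * d1 q G M).eval ρ = 0) : RtOK q ρ := by
  rw [Polynomial.eval_mul, mul_eq_zero] at h
  rcases h with h | h
  · simp only [Polynomial.eval_sub, Polynomial.eval_X, Polynomial.eval_C] at h
    have h1 : ρ = 1 := sub_eq_zero.1 h
    exact ⟨0, by rw [h1]; simp, fun _ => h1⟩
  · unfold d1 at h
    rw [Polynomial.eval_prod, Finset.prod_eq_zero_iff] at h
    obtain ⟨m, _, hm⟩ := h
    simp only [Polynomial.eval_sub, Polynomial.eval_one, Polynomial.eval_mul, Polynomial.eval_C,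
      Polynomial.eval_pow, Polynomial.eval_X] at hm
    have hq0 : (q : ℂ) ≠ 0 := by
      have : q ≠ 0 := by omega
      exact_mod_cast this
    have h1 : ρ ^ G = ((q : ℂ) ^ (m + 1)) ^ G := by
      have h2 := sub_eq_zero.1 hm
      rw [← pow_mul]
      rw [inv_pow] at h2
      have h3 : (q : ℂ) ^ ((m + 1) * G) ≠ 0 := pow_ne_zero _ hq0
      field_simp at h2
      exact h2.symm
    refine ⟨m + 1, ?_, fun h => absurd h (Nat.succ_ne_zero m)⟩
    have h2 := congrArg (fun z : ℂ => ‖z‖) h1
    simp only [norm_pow, Complex.norm_natCast] at h2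
    exact (pow_left_inj₀ (norm_nonneg _) (by positivity) hG.ne').1 h2

/-- the kernel property -/
def Kern (q : ℕ) (v : Fin r → Fin N → ℕ) (k : MvPolynomial (Fin r) ℂ) : Prop :=
  ∀ (i : Fin N) (j0 : Fin r), v j0 i = 1 →
    k ∈ Ideal.span {g : MvPolynomial (Fin r) ℂ | ∃ j, 0 < v j i ∧
      g = X j - C (if j = j0 then (q : ℂ) else 1)}

theorem tame_growth (q : ℕ) (hq : 2 ≤ q) (v : Fin r → Fin N → ℕ) (ρ : Fin r → ℂ)
    (hρ : ∀ j, RtOK q (ρ j)) (k : MvPolynomial (Fin r) ℂ) (hk : Kern q v k)
    (w : MvPolynomial (Fin r) ℂ) : Tame q v (act r (k * w) (FG ρ)) := by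
  classical
  have hq0 : (q : ℂ) ≠ 0 := by
    have : q ≠ 0 := by omega
    exact_mod_cast this
  intro i
  by_cases h1 : (q : ℂ)⁻¹ * ∏ j, ρ j ^ v j i = 1
  · refine ⟨0, by simp, 0, ?_⟩
    choose m hm hm0 using hρ
    have h2 : ∏ j, ρ j ^ v j i = q := by
      field_simp at h1
      exact h1
    have h3 := congrArg (fun z : ℂ => ‖z‖) h2
    simp only [norm_prod, norm_pow, Complex.norm_natCast, hm] at h3
    have h4 : ∏ j, ((q : ℝ) ^ m j) ^ v j i = (q : ℝ) ^ (∑ j, m j * v j i) := by
      rw [← Finset.prod_pow_eq_pow_sum]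
      exact Finset.prod_congr rfl fun j _ => by rw [pow_mul]
    rw [h4] at h3
    have h5 : ∑ j, m j * v j i = 1 := by
      have h6 : q ^ (∑ j, m j * v j i) = q ^ 1 := by
        rw [pow_one]
        exact_mod_cast h3
      exact Nat.pow_right_injective hq h6
    obtain ⟨j0, _, hj0⟩ : ∃ j ∈ Finset.univ, m j * v j i ≠ 0 := by
      by_contra hc
      push Not at hc
      rw [Finset.sum_eq_zero hc] at h5
      exact absurd h5 (by omega)
    have h6 : m j0 * v j0 i + ∑ j ∈ Finset.univ.erase j0, m j * v j i = 1 := by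
      rw [Finset.add_sum_erase Finset.univ (fun j => m j * v j i) (Finset.mem_univ j0)]
      exact h5
    have h7 : m j0 * v j0 i = 1 := by omega
    have h8 : ∑ j ∈ Finset.univ.erase j0, m j * v j i = 0 := by omega
    have h9 : ∀ j, j ≠ j0 → 0 < v j i → ρ j = 1 := by
      intro j hj hv
      have h10 := (Finset.sum_eq_zero_iff.1 h8) j (Finset.mem_erase.2 ⟨hj, Finset.mem_univ _⟩)
      apply hm0
      rcases Nat.mul_eq_zero.1 h10 with h | h
      · exact h
      · omega
    have hv0 : v j0 i = 1 := Nat.eq_one_of_mul_eq_one_left h7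
    have h10 : ρ j0 = q := by
      rw [← h2, Finset.prod_eq_single j0]
      · rw [hv0, pow_one]
      · intro j _ hj
        rcases Nat.eq_zero_or_pos (v j i) with h | h
        · rw [h, pow_zero]
        · rw [h9 j hj h, one_pow]
      · simp
    have h11 : VZ v i (act r (k * w) (FG ρ)) := by
      apply FG_VZ
      apply Ideal.mul_mem_right
      have h12 := hk i j0 hv0
      refine Ideal.span_mono ?_ h12
      rintro g ⟨j, hj, rfl⟩
      refine ⟨j, hj, ?_⟩
      by_cases hjj : j = j0
      · rw [if_pos hjj, hjj, h10]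
      · rw [if_neg hjj, h9 j hjj hj]
    intro y hy
    rw [zero_mul]
    apply h11
    intro j hj
    have := hy j hj
    positivity
  · refine ⟨_, h1, 0, ?_⟩
    exact (FG_QP v i ρ).act' _

/-- without kernel property, if all rates are one -/
theorem tame_one (q : ℕ) (hq : 2 ≤ q) (v : Fin r → Fin N → ℕ) (w : MvPolynomial (Fin r) ℂ) :
    Tame q v (act r w (FG fun _ => 1)) := by
  intro i
  refine ⟨_, ?_, 0, (FG_QP v i fun _ => 1).act' _⟩
  simp only [one_pow, Finset.prod_const_one, mul_one]
  intro h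
  rw [inv_eq_one] at h
  have : q = 1 := by exact_mod_cast h
  omega

end Pool.Agent.TH216.MF
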