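import Pool.Agent.TH216.MF.PFinU
import Pool.Agent.TH216.MF.Ext
import Pool.Agent.W425.BF.Fin2
import Pool.Agent.W425.GN.Gen
import Pool.Agent.W425.GN.GenF
import Pool.Agent.W386.BF.CNT
import Pool.Agent.W318.BF.FCT

set_option autoImplicit false

/-! The p-adic strong monodromy conjecture for generic coefficients: simplices and B1-facets. -/

namespace Pool.Agent.TH216.MF

open MvPolynomial MeasureTheory Pool.Agent.H628R4.TP Pool.Agent.W425.MM Pool.Agent.W425.GN
open Pool.Agent.W425.ND (spa)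
open Pool.Agent.W426.SM (gord IsRay face)
open Pool.Agent.W803.SM (gord_le exists_gord)
open Pool.Agent.W425.BF (B1 BD zm zma shf shf_eval shf_ne hz hz_support hz_eq cof gen_rootsJ)
open Pool.Agent.W425.SV (NP RelV Kil1)
open Pool.Agent.W425.PN (qpoly idn_of)

variable {r N : ℕ}

open Classical in
/-- the exponents of `h` outside the convex hull of the `v j` -/
noncomputable def kept {R : Type} [CommRing R] (v : Fin r → Fin N → ℕ) (h : MvPolynomial (Fin N) R) :
    Finset (Fin N →₀ ℕ) := h.support.filter fun w => ¬ InC v Finset.univ (fun i => w i)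

/-- the exponents of `h` outside the convex hull of the `v j` -/
noncomputable def ke {R : Type} [CommRing R] (v : Fin r → Fin N → ℕ) (h : MvPolynomial (Fin N) R)
    (l : Fin (kept v h).card) : Fin N → ℕ := fun i => ((kept v h).equivFin.symm l).1 i

/-- the facet of `a` is a simplex: the vectors `(v j i)_{a i ≠ 0}`, for the `j` in the face of `a`,
are linearly independent, and the exponents of `h` in the face are convex combinations of the
`v j` -/
def SimH {R : Type} [CommRing R] (v : Fin r → Fin N → ℕ) (h : MvPolynomial (Fin N) R)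
    (a : Fin N → ℕ) : Prop :=
  SimR v a ∧ ∀ w ∈ h.support, ∑ x, a x * w x = gord v a → InC v Finset.univ (fun i => w i)

/-- At every `v j1` the facets at the level `σ` which contain `v j1` are simplices or B1-facets in
a common direction. -/
def LocS {R : Type} [CommRing R] (v : Fin r → Fin N → ℕ) (h : MvPolynomial (Fin N) R)
    (σ : ℚ) : Prop :=
  ∀ j1 : Fin r, ∃ i, ∀ a : Fin N → ℕ, IsRay v a → 0 < gord v a → face v a j1 →
    ((∑ x, a x : ℕ) : ℚ) / gord v a = σ → SimH v h a ∨ BD v h i a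

lemma mem_kept {R : Type} [CommRing R] (v : Fin r → Fin N → ℕ) (h : MvPolynomial (Fin N) R)
    (w : Fin N →₀ ℕ) : w ∈ kept v h ↔ w ∈ h.support ∧ ¬ InC v Finset.univ (fun i => w i) := by
  classical
  unfold kept
  exact Finset.mem_filter

lemma ke_mem {R : Type} [CommRing R] (v : Fin r → Fin N → ℕ) (h : MvPolynomial (Fin N) R)
    (l : Fin (kept v h).card) : ∃ w ∈ h.support, (∀ i, ke v h l i = w i) ∧
      ¬ InC v Finset.univ (ke v h l) := by
  have h1 := (mem_kept v h _).1 ((kept v h).equivFin.symm l).2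
  exact ⟨_, h1.1, fun i => rfl, h1.2⟩

lemma inC_append {l : ℕ} (v : Fin r → Fin N → ℕ) (w : Fin l → Fin N → ℕ) (x : Fin N → ℕ)
    (h : InC v Finset.univ x) : InC (Fin.append v w) Finset.univ x := by
  obtain ⟨lm, h1, h2, h3, h4⟩ := h
  refine ⟨Fin.append lm fun _ => 0, fun j => ?_, fun j hj => absurd (Finset.mem_univ j) hj, ?_,
    fun i => ?_⟩
  · refine Fin.addCases (fun j => ?_) (fun x => ?_) j
    · rw [Fin.append_left]; exact h1 j
    · rw [Fin.append_right]
  · rw [Fin.sum_univ_add]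
    simp only [Fin.append_left, Fin.append_right]
    simpa using h3
  · rw [Fin.sum_univ_add]
    simp only [Fin.append_left, Fin.append_right]
    simpa using h4 i

/-- from the condition on the facets to the criterion -/
theorem hypS_of_locS {R : Type} [CommRing R] (hr : 0 < r) (v : Fin r → Fin N → ℕ)
    (h : MvPolynomial (Fin N) R) (hh : ∀ w ∈ h.support, NP v w)
    (σ : ℚ) (hL : LocS v h σ) :
    HypS (Fin.append v (ke v h)) (σ : ℝ) := by
  classical
  have hknp : ∀ l, NP v (Finsupp.equivFunOnFinite.symm (ke v h l)) := by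
    intro l
    obtain ⟨w, hw, hwe, -⟩ := ke_mem v h l
    have : Finsupp.equivFunOnFinite.symm (ke v h l) = w := by
      ext i
      exact hwe i
    rw [this]
    exact hh w hw
  have hray := pRAY v (ke v h) hr hknp
  refine hypS_of (by omega) _ _ ?_
  -- the main case
  have main : ∀ j1 : Fin r, ∃ i, ∀ a : Fin N → ℕ, IsRay (Fin.append v (ke v h)) a →
      0 < gord (Fin.append v (ke v h)) a → face v a j1 →
      ((∑ i, a i : ℕ) : ℝ) / gord (Fin.append v (ke v h)) a = (σ : ℝ) →
      SimR (Fin.append v (ke v h)) a ∨ B1 (Fin.append v (ke v h)) i a := by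
    intro j1
    obtain ⟨i, hi⟩ := hL j1
    refine ⟨i, fun a ha hg hf hs => ?_⟩
    obtain ⟨hga, hra⟩ := hray a
    rw [hga] at hg hs
    have hs' : ((∑ x, a x : ℕ) : ℚ) / gord v a = σ := by
      apply Rat.cast_injective (α := ℝ)
      push_cast
      push_cast at hs
      exact hs
    have hface : ∀ j, face (Fin.append v (ke v h)) a (Fin.castAdd _ j) ↔ face v a j := by
      intro j
      unfold face
      rw [hga]
      simp only [Fin.append_left]
    rcases hi a (hra ha) hg hf hs' with ⟨h1, h2⟩ | h1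
    · left
      have hk : ∀ l, ¬ face (Fin.append v (ke v h)) a (Fin.natAdd r l) := by
        intro l hl
        obtain ⟨w, hw, hwe, hwn⟩ := ke_mem v h l
        apply hwn
        have h3 : ke v h l = fun i => w i := funext hwe
        rw [h3]
        apply h2 w hw
        unfold face at hl
        rw [hga] at hl
        simp only [Fin.append_right] at hl
        rw [← hl]
        exact Finset.sum_congr rfl fun x _ => by rw [hwe]
      intro w hw1 hw2
      have h4 := h1 (fun j => w (Fin.castAdd _ j)) (fun j hj => hw1 _ fun h5 => hj ((hface j).1 h5))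
        (fun i hi => by
          have h5 := hw2 i hi
          rw [Fin.sum_univ_add] at h5
          simp only [Fin.append_left, Fin.append_right] at h5
          rw [Finset.sum_eq_zero (s := Finset.univ) (f := fun x => w (Fin.natAdd r x) *
            (ke v h x i : ℚ)) (fun x _ => by rw [hw1 _ (hk x), zero_mul]), add_zero] at h5
          exact h5)
      intro j
      refine Fin.addCases (fun j => h4 j) (fun l => hw1 _ (hk l)) j
    · right
      obtain ⟨hai, j0, hf0, hv1, hu, hw⟩ := h1
      refine ⟨hai, Fin.castAdd _ j0, (hface j0).2 hf0, by rw [Fin.append_left]; exact hv1,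
        fun j => ?_⟩
      refine Fin.addCases (fun j => ?_) (fun l => ?_) j
      · intro h7 h8
        rw [Fin.append_left]
        exact hu j ((hface j).1 h7) fun h9 => h8 (by rw [h9])
      · intro h7 _
        rw [Fin.append_right]
        obtain ⟨w, hws, hwe, hwn⟩ := ke_mem v h l
        unfold face at h7
        rw [hga] at h7
        simp only [Fin.append_right] at h7
        rcases hw w hws (by
          rw [← h7]
          exact Finset.sum_congr rfl fun x _ => by rw [hwe]) with h9 | h9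
        · rw [hwe]; exact h9
        · exfalso
          apply hwn
          have h10 : ke v h l = v j0 := funext fun i => by rw [hwe, h9]
          rw [h10]
          exact inC_self v _ j0 (Finset.mem_univ _)
  intro j1'
  refine Fin.addCases (fun j1 => ?_) (fun l => ?_) j1'
  · obtain ⟨i, hi⟩ := main j1
    refine ⟨i, fun a ha hg hf hs => hi a ha hg ?_ hs⟩
    unfold face at hf ⊢
    rw [(hray a).1] at hf
    simpa only [Fin.append_left] using hf
  · obtain ⟨lm, hl, hl1, hlw⟩ := hknp l
    obtain ⟨j1, hj1⟩ : ∃ j, 0 < lm j := by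
      by_contra hcon
      push Not at hcon
      have : ∑ j, lm j = 0 := Finset.sum_eq_zero fun j _ => le_antisymm (hcon j) (hl j)
      rw [this] at hl1
      exact zero_ne_one hl1
    obtain ⟨i, hi⟩ := main j1
    refine ⟨i, fun a ha hg hf hs => hi a ha hg ?_ hs⟩
    unfold face at hf ⊢
    rw [(hray a).1] at hf
    simp only [Fin.append_right] at hf
    by_contra hne
    have h1 : (gord v a : ℝ) < ∑ j, lm j * ((∑ i, a i * v j i : ℕ) : ℝ) := by
      calc (gord v a : ℝ) = ∑ j, lm j * (gord v a : ℝ) := by rw [← Finset.sum_mul, hl1, one_mul]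
        _ < _ := by
          refine Finset.sum_lt_sum (fun j _ =>
            mul_le_mul_of_nonneg_left (by exact_mod_cast gord_le v a j) (hl j))
            ⟨j1, Finset.mem_univ j1, ?_⟩
          refine mul_lt_mul_of_pos_left ?_ hj1
          exact_mod_cast lt_of_le_of_ne (gord_le v a j1) (Ne.symm hne)
    have h2 : ∑ j, lm j * ((∑ i, a i * v j i : ℕ) : ℝ) ≤ ((∑ i, a i * ke v h l i : ℕ) : ℝ) := by
      push_cast
      simp only [Finset.mul_sum]
      rw [Finset.sum_comm]
      refine Finset.sum_le_sum fun i _ => ?_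
      have h3 : ∑ j, lm j * ((a i : ℝ) * (v j i : ℝ)) = (a i : ℝ) * ∑ j, lm j * (v j i : ℝ) := by
        rw [Finset.mul_sum]
        exact Finset.sum_congr rfl fun j _ => by ring
      rw [h3]
      exact mul_le_mul_of_nonneg_left (hlw i) (by positivity)
    rw [hf] at h2
    linarith

/-- the relation, if `(s - α) ^ (n + 1)` does not divide all `b`-functions -/
theorem rel_of_not_HP [NeZero r] {F : Type} [Field F] (v : Fin r → Fin N → ℕ)
    (hv : Function.Injective v) (hv0 : ∀ j, v j ≠ 0) (h : MvPolynomial (Fin N) F)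
    (hh : ∀ w ∈ h.support, NP v w) (α : ℚ) (n : ℕ) (hn : ¬ HP v h α n) :
    ∃ (θ : Fin (r + (kept v h).card) → ℤ) (p : Polynomial ℂ), p ≠ 0 ∧
      RelG (Fin.append v (ke v h)) (Kil1 (Fin.append v (ke v h)))
        (KilU (Fin.append v (ke v h)) θ) p ∧
      ((Polynomial.X + 1) * p).rootMultiplicity (α : ℂ) ≤ n := by
  unfold HP at hn
  push Not at hn
  obtain ⟨F', _, _, a, h', ha, hs, b', hb', hnd⟩ := hn
  have hb0 : b' ≠ 0 := fun h => hnd (h ▸ dvd_zero _)
  have hJ := (Pool.Agent.W591.GC.J_bot _ b').2 ((bfun_iff _ _).2 hb')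
  have hbot : ∀ g ∈ (⊥ : Submonoid (MvPolynomial (Fin N) ℂ)),
      MvPolynomial.constantCoeff g = 1 ∧ (¬ False → g = 1) := fun g hg => by
    rw [Submonoid.mem_bot] at hg
    exact ⟨by rw [hg, map_one], fun _ => hg⟩
  obtain ⟨θ, hθ⟩ := Pool.Agent.W422.GC.exists_heights r
  obtain ⟨p, q, hbp, hp⟩ := Pool.Agent.W422.GC.rel_of_unit False ⊥ hbot v a hv hv0 ha h'
    (fun w hw => hh w (hs w hw)) θ hθ b' hb0 hJ
  have hp0 : p ≠ 0 := by
    rintro rfl
    apply hb0
    rw [hbp]
    simp
  obtain ⟨θ', hθ'⟩ := relU v (ke v h) (fun l => by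
    obtain ⟨w, hw, hwe, -⟩ := ke_mem v h l
    have : Finsupp.equivFunOnFinite.symm (ke v h l) = w := by
      ext i
      exact hwe i
    rw [this]
    exact hh w hw) θ p hp
  refine ⟨θ', p, hp0, hθ', ?_⟩
  have h1 : (Polynomial.X + 1) * p ∣ b' := ⟨q, hbp⟩
  have h2 := Polynomial.rootMultiplicity_le_rootMultiplicity_of_dvd hb0 h1 (α : ℂ)
  refine h2.trans ?_
  by_contra hcon
  push Not at hcon
  exact hnd ((Polynomial.le_rootMultiplicity_iff hb0).1 hcon)

/-- the conclusion with orders, for the coefficient vector `c` -/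
def ConclM (v : Fin r → Fin N → ℕ) (h : MvPolynomial (Fin N) ℚ) (c : Fin r → ℚ) : Prop :=
      ∃ S : Finset ℕ, ∀ (p : ℕ) [Fact p.Prime], p ∉ S →
      ∀ [MeasurableSpace (Fin N → PadicInt p)] [BorelSpace (Fin N → PadicInt p)],
      ∀ F : ℂ → ℂ, MeromorphicOn F Set.univ →
        (∀ s : ℂ, 0 < s.re →
          F s = ∫ x, ((‖MvPolynomial.eval₂ (algebraMap ℚ (Padic p))
                    (fun i => ((x i : PadicInt p) : Padic p)) (spa v c + h)‖ : ℝ) : ℂ) ^ s
                  ∂(MeasureTheory.Measure.addHaar : MeasureTheory.Measure (Fin N → PadicInt p))) →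
        ∀ s₀ : ℂ, meromorphicOrderAt F s₀ < 0 → ∀ b : Polynomial ℂ, b ≠ 0 →
          IsBFunction (MvPolynomial.map (algebraMap ℚ ℂ) (spa v c + h)) b →
          b.eval (-1) = 0 ∧
          (∀ a : Fin N → ℕ, 0 < gord v a → NonB v False a →
            b.eval (-(((∑ i, a i : ℕ) : ℂ) / gord v a)) = 0) ∧
          ∃ α : ℚ, s₀.re = (α : ℝ) ∧ (α = -1 ∨ ∃ a : Fin N → ℕ, IsRay v a ∧ 0 < gord v a ∧
              α = -(((∑ i, a i : ℕ) : ℚ) / gord v a)) ∧
            (LocS v h (-α) → ((-(b.rootMultiplicity ((s₀.re : ℝ) : ℂ) : ℤ) : ℤ) : WithTop ℤ) ≤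
              meromorphicOrderAt F s₀)

/-- if the monomials `x ^ v_j` do not occur in `h` -/
theorem gen_ord0 (hr : 0 < r)
    (v : Fin r → Fin N → ℕ) (hv : Function.Injective v) (hv0 : ∀ j, v j ≠ 0)
    (h : MvPolynomial (Fin N) ℚ) (hh : ∀ w ∈ h.support, NP v w)
    (hvh : ∀ w ∈ h.support, ∀ j, ¬ ∀ x, w x = v j x) :
    ∃ g : MvPolynomial (Fin r) ℚ, g ≠ 0 ∧ ∀ c : Fin r → ℚ, eval c g ≠ 0 → ConclM v h c := by
  classical
  have hne : NeZero r := ⟨by omega⟩
  obtain ⟨g0, hg0, hgb⟩ := univ pF4 pR1 hr v hv h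
  obtain ⟨g1, hg1, h1⟩ := gen_rootsJ hr v hv hv0 h hh
  obtain ⟨g2, hg2, h2⟩ := gen_nonDF pF4 hr v (we h) (we_np v h hh) (wc h)
  have hg3 : (∏ j : Fin r, (X j : MvPolynomial (Fin r) ℚ)) ≠ 0 :=
    Finset.prod_ne_zero_iff.2 fun j _ => X_ne_zero j
  refine ⟨g0 * g1 * g2 * ∏ j : Fin r, (X j : MvPolynomial (Fin r) ℚ),
    mul_ne_zero (mul_ne_zero (mul_ne_zero hg0 hg1) hg2) hg3, fun c hc'' => ?_⟩
  rw [map_mul] at hc''
  have hc' := left_ne_zero_of_mul hc''
  have hcne : ∀ j, c j ≠ 0 := by
    have h5 := right_ne_zero_of_mul hc''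
    rw [map_prod] at h5
    intro j
    have h6 := Finset.prod_ne_zero_iff.1 h5 j (Finset.mem_univ j)
    rwa [eval_X] at h6
  have hc : aeval (fun j => ((c j : ℚ) : ℂ)) (g0 * g1 * g2) ≠ 0 := by
    have h0 : aeval (fun j => ((c j : ℚ) : ℂ)) (g0 * g1 * g2) =
        ((eval c (g0 * g1 * g2) : ℚ) : ℂ) := by
      have h5 := aeval_algebraMap_apply ℂ c (g0 * g1 * g2)
      exact h5
    rw [h0]
    exact_mod_cast hc'
  rw [map_mul, map_mul] at hc
  have hb0 := hgb _ (left_ne_zero_of_mul (left_ne_zero_of_mul hc))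
  have hb := h1 _ (right_ne_zero_of_mul (left_ne_zero_of_mul hc))
  have hnd := h2 _ (right_ne_zero_of_mul hc)
  have hray := pRAY v (we h) hr (we_np v h hh)
  have hq : qpoly (Fin.append v (we h)) (Fin.append c (wc h)) = spa v c + h := by
    unfold qpoly
    rw [Fin.sum_univ_add]
    simp only [Fin.append_left, Fin.append_right]
    congr 1
    have h3 := h_eq (RingHom.id ℚ) h
    rw [MvPolynomial.map_id] at h3
    exact h3.symm
  have hnq : NonD (Fin.append v (we h)) (fun j => ((Fin.append c (wc h) j : ℚ) : ℂ)) := by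
    have h3 := append_map (fun q : ℚ => (q : ℂ)) c (wc h)
    rw [h3]
    exact hnd
  have hcall : ∀ j, Fin.append c (wc h) j ≠ 0 := by
    intro j
    refine Fin.addCases (fun j => ?_) (fun l => ?_) j
    · rw [Fin.append_left]; exact hcne j
    · rw [Fin.append_right]
      exact mem_support_iff.1 (h.support.equivFin.symm l).2
  have hminj : Function.Injective (Fin.append v (we h)) := by
    intro j j'
    refine Fin.addCases (fun j => ?_) (fun l => ?_) j <;>
      refine Fin.addCases (fun j' => ?_) (fun l' => ?_) j'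
    · rw [Fin.append_left, Fin.append_left]
      intro h3
      rw [hv h3]
    · rw [Fin.append_left, Fin.append_right]
      intro h3
      exact absurd (fun x => (congrFun h3 x).symm)
        (hvh _ (h.support.equivFin.symm l').2 j)
    · rw [Fin.append_left, Fin.append_right]
      intro h3
      exact absurd (fun x => congrFun h3 x) (hvh _ (h.support.equivFin.symm l).2 j')
    · rw [Fin.append_right, Fin.append_right]
      intro h3
      have h4 : (h.support.equivFin.symm l) = (h.support.equivFin.symm l') :=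
        Subtype.ext (Finsupp.ext fun x => congrFun h3 x)
      rw [h.support.equivFin.symm.injective h4]
  have hma : ∀ j', ∃ j, Fin.append v (we h) j = Fin.append v (ke v h) j' := by
    intro j'
    refine Fin.addCases (fun j => ?_) (fun l => ?_) j'
    · exact ⟨Fin.castAdd _ j, by rw [Fin.append_left, Fin.append_left]⟩
    · obtain ⟨w, hw, hwe, -⟩ := ke_mem v h l
      refine ⟨Fin.natAdd r (h.support.equivFin ⟨w, hw⟩), ?_⟩
      rw [Fin.append_right, Fin.append_right]
      funext i
      rw [hwe]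
      unfold we
      rw [Equiv.symm_apply_apply]
  have hmb : ∀ j, InC (Fin.append v (ke v h)) Finset.univ (Fin.append v (we h) j) := by
    intro j
    refine Fin.addCases (fun j => ?_) (fun l => ?_) j
    · rw [Fin.append_left]
      exact inC_append v _ _ (inC_self v _ j (Finset.mem_univ _))
    · rw [Fin.append_right]
      by_cases hC : InC v Finset.univ (we h l)
      · exact inC_append v _ _ hC
      · have hmem : (h.support.equivFin.symm l).1 ∈ kept v h :=
          (mem_kept v h _).2 ⟨(h.support.equivFin.symm l).2, hC⟩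
        have h3 : Fin.append v (ke v h) (Fin.natAdd r ((kept v h).equivFin ⟨_, hmem⟩)) =
            we h l := by
          rw [Fin.append_right]
          funext i
          unfold ke
          rw [Equiv.symm_apply_apply]
          rfl
        rw [← h3]
        exact inC_self _ _ _ (Finset.mem_univ _)
  have hZ := zm 0 _ _ 1 one_pos (zma Pool.Agent.W318.BF.main Pool.Agent.W386.BF.main
    (Fin.append v (we h)) (Fin.append c (wc h)) hcall (by omega) fun u => idn_of _ _ hnq u)
  obtain ⟨S1, hS1⟩ := Pool.Agent.W425.PN.poles (Fin.append v (we h)) (Fin.append c (wc h))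
    (by omega) hnq
  obtain ⟨S2, hS2⟩ := padic_gen (by omega) (by omega) (Fin.append v (we h))
    (Fin.append v (ke v h)) hminj hma hmb (Fin.append c (wc h)) hZ
  rw [hq] at hS1 hS2
  refine ⟨S1 ∪ S2, fun p _ hp _ _ F hF hFI s₀ hs₀ b hb0' hbf => ?_⟩
  rw [Finset.mem_union, not_or] at hp
  rw [map_add, map_spa] at hbf
  obtain ⟨h3, h4⟩ := hb b hbf
  refine ⟨h3, h4, ?_⟩
  obtain ⟨α, hα, hα'⟩ : ∃ α : ℚ, s₀.re = (α : ℝ) ∧ (α = -1 ∨ ∃ a : Fin N → ℕ, IsRay v a ∧
      0 < gord v a ∧ α = -(((∑ i, a i : ℕ) : ℚ) / gord v a)) := by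
    rcases hS1 p hp.1 F hF hFI s₀ hs₀ with h | ⟨a, ha, hg, h⟩
    · exact ⟨-1, by rw [h]; push_cast; rfl, Or.inl rfl⟩
    · obtain ⟨hga, hra⟩ := hray a
      rw [hga] at hg h
      exact ⟨_, by rw [h]; push_cast; rfl, Or.inr ⟨a, hra ha, hg, rfl⟩⟩
  refine ⟨α, hα, hα', fun hL => ?_⟩
  have hcast : ((s₀.re : ℝ) : ℂ) = (α : ℂ) := by
    rw [hα]
    push_cast
    rfl
  have hnHP : ¬ HP v h α (b.rootMultiplicity (α : ℂ)) := by
    intro hHP
    have h5 := hb0 b ((bfun_iff _ _).1 hbf) α _ hHP
    exact Polynomial.pow_rootMultiplicity_not_dvd hb0' (α : ℂ) h5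
  obtain ⟨θ, pol, hpol0, hrel, hmult⟩ := rel_of_not_HP v hv hv0 h hh α _ hnHP
  have h5 := hS2 p hp.2 F hF hFI s₀ pol hpol0 θ hrel (by
    have h6 : -s₀.re = ((-α : ℚ) : ℝ) := by
      rw [hα]
      push_cast
      rfl
    rw [h6]
    exact hypS_of_locS hr v h hh (-α) hL)
  refine le_trans ?_ h5
  rw [hcast]
  have h6 : (-(b.rootMultiplicity (α : ℂ) : ℤ)) ≤
      -(((Polynomial.X + 1) * pol).rootMultiplicity (α : ℂ) : ℤ) := by
    have : ((((Polynomial.X + 1) * pol).rootMultiplicity (α : ℂ) : ℕ) : ℤ) ≤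
      (b.rootMultiplicity (α : ℂ) : ℕ) := by exact_mod_cast hmult
    linarith
  exact_mod_cast h6

lemma locS_hz (v : Fin r → Fin N → ℕ) (hv : Function.Injective v)
    (h : MvPolynomial (Fin N) ℚ) (σ : ℚ) (hB : LocS v h σ) : LocS v (hz v h) σ := by
  intro j1
  obtain ⟨i, hi⟩ := hB j1
  refine ⟨i, fun a ha hg hf hs => ?_⟩
  rcases hi a ha hg hf hs with ⟨h1, h2⟩ | ⟨hai, j0, hf0, hv1, hu, hw⟩
  · exact Or.inl ⟨h1, fun w hw => h2 w ((hz_support v hv h).1 w hw)⟩
  · exact Or.inr ⟨hai, j0, hf0, hv1, hu, fun w hw' => hw w ((hz_support v hv h).1 w hw')⟩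

/-- **Orders of the poles of the p-adic zeta functions, generic coefficients.** -/
theorem gen_ord (hr : 0 < r)
    (v : Fin r → Fin N → ℕ) (hv : Function.Injective v) (hv0 : ∀ j, v j ≠ 0)
    (h : MvPolynomial (Fin N) ℚ) (hh : ∀ w ∈ h.support, NP v w) :
    ∃ g : MvPolynomial (Fin r) ℚ, g ≠ 0 ∧ ∀ c : Fin r → ℚ, eval c g ≠ 0 → ConclM v h c := by
  obtain ⟨g, hg, hgc⟩ := gen_ord0 hr v hv hv0 (hz v h)
    (fun w hw => hh w ((hz_support v hv h).1 w hw)) (hz_support v hv h).2
  refine ⟨shf (cof v h) g, shf_ne _ _ hg, fun c hc => ?_⟩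
  have h1 := hgc (fun j => c j + cof v h j) (by
    intro h2
    apply hc
    have h3 := shf_eval (K := ℚ) (cof v h) g c
    rw [← coe_aeval_eq_eval] at h2 ⊢
    rw [← h2]
    exact h3)
  unfold ConclM at h1 ⊢
  rw [hz_eq v h c]
  obtain ⟨S, hS⟩ := h1
  refine ⟨S, fun p _ hp _ _ F hF hFI s₀ hs₀ b hb0 hb => ?_⟩
  obtain ⟨h3, h4, α, hα, hα', h5⟩ := hS p hp F hF hFI s₀ hs₀ b hb0 hb
  exact ⟨h3, h4, α, hα, hα', fun hL => h5 (locS_hz v hv h _ hL)⟩

end Pool.Agent.TH216.MF
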