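import Pool.Agent.TH216.MF.Grow

set_option autoImplicit false

/-! The functional kills the generators. -/

namespace Pool.Agent.TH216.MF

open MvPolynomial Pool.Agent.W425.SV

variable {r N : ℕ}

/-- support condition -/
def Supp (K : ℕ) (c : Fin r → ℤ) (F : Fn r) : Prop :=
  ∀ y, F y ≠ 0 → (∀ j, -(K : ℤ) ≤ y j) ∧ ∀ j, c j < 0 → y j < 0

lemma Supp.mono {K K' : ℕ} (hK : K ≤ K') {c : Fin r → ℤ} {F : Fn r} (h : Supp K c F) :
    Supp K' c F := by
  intro y hy
  obtain ⟨h1, h2⟩ := h y hy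
  exact ⟨fun j => by have := h1 j; omega, h2⟩

lemma Supp.act' {K : ℕ} {c : Fin r → ℤ} {F : Fn r} (h : Supp K c F)
    (g : MvPolynomial (Fin r) ℂ) : ∃ K', Supp K' c (act r g F) := by
  induction g using MvPolynomial.induction_on' with
  | monomial m a =>
    refine ⟨K + ∑ j, m j, fun y hy => ?_⟩
    rw [act_monomial] at hy
    obtain ⟨h1, h2⟩ := h _ (right_ne_zero_of_mul hy)
    refine ⟨fun j => ?_, fun j hj => ?_⟩
    · have h3 := h1 j
      have h4 : m j ≤ ∑ j, m j := Finset.single_le_sum (fun _ _ => Nat.zero_le _)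
        (Finset.mem_univ j)
      push_cast at h3 ⊢
      have h5 : (m j : ℤ) ≤ ∑ j, (m j : ℤ) := by exact_mod_cast h4
      linarith
    · have h3 := h2 j hj
      have h4 : (0 : ℤ) ≤ m j := by positivity
      linarith
  | add p q hp hq =>
    obtain ⟨K1, h1⟩ := hp
    obtain ⟨K2, h2⟩ := hq
    refine ⟨max K1 K2, fun y hy => ?_⟩
    rw [act_add, Pi.add_apply] at hy
    by_cases h3 : act r p F y = 0
    · rw [h3, zero_add] at hy
      exact (h2.mono (le_max_right _ _)) y hy
    · exact (h1.mono (le_max_left _ _)) y h3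

/-- the support of the generators -/
lemma supp_gen (q G M : ℕ) (ρ : Fin r → ℂ)
    (hρ : ∀ j, ((Polynomial.X - Polynomial.C 1) * d1 q G M).eval (ρ j) = 0) (c : Fin r → ℤ) :
    ∃ K, Supp K c (act r (∏ j, if c j < 0 then (1 - X j) * dj q G M j else 1) (FG ρ)) := by
  classical
  set p : Fin r → Polynomial ℂ := fun j => if c j < 0 then (1 - Polynomial.X) * d1 q G M else 1
    with hp
  have h1 : ∏ j, (if c j < 0 then (1 - X j) * dj q G M j else 1 : MvPolynomial (Fin r) ℂ) =
      ∏ j, Polynomial.aeval (X j : MvPolynomial (Fin r) ℂ) (p j) := by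
    refine Finset.prod_congr rfl fun j _ => ?_
    rw [hp]
    simp only
    split_ifs
    · rw [map_mul, map_sub, map_one, Polynomial.aeval_X]
      rfl
    · rw [map_one]
  rw [h1, FG, act_prod]
  refine ⟨∑ j, (p j).natDegree, fun y hy => ?_⟩
  unfold Fp at hy
  rw [Finset.prod_ne_zero_iff] at hy
  refine ⟨fun j => ?_, fun j hj => ?_⟩
  · have h2 := hy j (Finset.mem_univ j)
    by_contra h3
    push Not at h3
    apply h2
    apply act1_neg _ _ (H1_neg (ρ j))
    have h4 : (p j).natDegree ≤ ∑ j, (p j).natDegree :=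
      Finset.single_le_sum (f := fun j => (p j).natDegree) (fun _ _ => Nat.zero_le _)
        (Finset.mem_univ j)
    have h5 : ((p j).natDegree : ℤ) ≤ ((∑ j, (p j).natDegree : ℕ) : ℤ) := by exact_mod_cast h4
    linarith
  · have h2 := hy j (Finset.mem_univ j)
    by_contra h3
    push Not at h3
    apply h2
    show act1 (p j) (H1 (ρ j)) (y j) = 0
    rw [act1_H1 _ _ _ h3, hp]
    simp only
    rw [if_pos hj]
    have h4 := hρ j
    rw [Polynomial.eval_mul] at h4 ⊢
    have h5 : (1 - Polynomial.X : Polynomial ℂ).eval (ρ j) =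
        - (Polynomial.X - Polynomial.C 1 : Polynomial ℂ).eval (ρ j) := by
      simp
    rw [h5, neg_mul, h4]
    ring

/-- the same for the functional without growth -/
lemma supp_one (c : Fin r → ℤ) :
    ∃ K, Supp K c (act r (∏ j, if c j < 0 then (1 - X j) else 1) (FG fun _ => 1)) := by
  classical
  set p : Fin r → Polynomial ℂ := fun j => if c j < 0 then (1 - Polynomial.X) else 1
    with hp
  have h1 : ∏ j, (if c j < 0 then (1 - X j) else 1 : MvPolynomial (Fin r) ℂ) =
      ∏ j, Polynomial.aeval (X j : MvPolynomial (Fin r) ℂ) (p j) := by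
    refine Finset.prod_congr rfl fun j _ => ?_
    rw [hp]
    simp only
    split_ifs
    · rw [map_sub, map_one, Polynomial.aeval_X]
    · rw [map_one]
  rw [h1, FG, act_prod]
  refine ⟨∑ j, (p j).natDegree, fun y hy => ?_⟩
  unfold Fp at hy
  rw [Finset.prod_ne_zero_iff] at hy
  refine ⟨fun j => ?_, fun j hj => ?_⟩
  · have h2 := hy j (Finset.mem_univ j)
    by_contra h3
    push Not at h3
    apply h2
    apply act1_neg _ _ (H1_neg 1)
    have h4 : (p j).natDegree ≤ ∑ j, (p j).natDegree :=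
      Finset.single_le_sum (f := fun j => (p j).natDegree) (fun _ _ => Nat.zero_le _)
        (Finset.mem_univ j)
    have h5 : ((p j).natDegree : ℤ) ≤ ((∑ j, (p j).natDegree : ℕ) : ℤ) := by exact_mod_cast h4
    linarith
  · have h2 := hy j (Finset.mem_univ j)
    by_contra h3
    push Not at h3
    apply h2
    show act1 (p j) (H1 1) (y j) = 0
    rw [act1_H1 _ _ _ h3, hp]
    simp only
    rw [if_pos hj]
    simp

/-- generators of weight one -/
lemma kill1 (q : ℕ) (v : Fin r → Fin N → ℕ) (c : Fin r → ℤ) (B : Finset (Fin N))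
    (h : Kil1 v c B) (K : ℕ) (F : Fn r) (hF : Supp K c F) :
    ∃ t0 : ℤ, ∀ t, t0 ≤ t → gen q v F B t = 0 := by
  classical
  obtain ⟨l, hl, hl1, hlB⟩ := h
  obtain ⟨t0, ht0⟩ := exists_int_gt ((K : ℝ) * ∑ j, (|(c j : ℝ)| + l j))
  refine ⟨t0, fun t ht => ?_⟩
  ext x
  rw [coeff_gen, map_zero]
  split_ifs with hx
  swap
  · rfl
  rw [mul_eq_zero]
  right
  by_contra hne
  obtain ⟨h1, h2⟩ := hF _ hne
  set y : Fin r → ℤ := fun j => ∑ i, (x i : ℤ) * (v j i : ℤ) - t with hy
  have h1' : ∀ j, -(K : ℤ) ≤ y j := h1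
  have h2' : ∀ j, c j < 0 → y j < 0 := h2
  -- upper bound
  have h3 : ∑ j, ((c j : ℝ) + l j) * (y j : ℝ) ≤ -(t : ℝ) := by
    have h4 : ∀ j, (y j : ℝ) = ∑ i, (x i : ℝ) * (v j i : ℝ) - t := by
      intro j
      rw [hy]
      push_cast
      rfl
    have h5 : ∑ j, ((c j : ℝ) + l j) * (y j : ℝ) =
        ∑ i, (x i : ℝ) * (∑ j, ((c j : ℝ) + l j) * (v j i : ℝ)) - t * ∑ j, ((c j : ℝ) + l j) := by
      simp only [h4, mul_sub, Finset.sum_sub_distrib]
      congr 1
      · simp only [Finset.mul_sum]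
        rw [Finset.sum_comm]
        refine Finset.sum_congr rfl fun i _ => Finset.sum_congr rfl fun j _ => ?_
        ring
      · rw [Finset.mul_sum]
        exact Finset.sum_congr rfl fun j _ => by ring
    rw [h5, hl1, mul_one]
    have h6 : ∑ i, (x i : ℝ) * (∑ j, ((c j : ℝ) + l j) * (v j i : ℝ)) ≤ 0 := by
      refine Finset.sum_nonpos fun i _ => ?_
      by_cases hi : i ∈ B
      · rw [hx i hi]
        simp
      · exact mul_nonpos_of_nonneg_of_nonpos (by positivity) (hlB i hi)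
    linarith
  -- lower bound
  have h4 : -((K : ℝ) * ∑ j, (|(c j : ℝ)| + l j)) ≤ ∑ j, ((c j : ℝ) + l j) * (y j : ℝ) := by
    rw [Finset.mul_sum, ← Finset.sum_neg_distrib]
    refine Finset.sum_le_sum fun j _ => ?_
    have h5 : -(K : ℝ) ≤ (y j : ℝ) := by exact_mod_cast h1' j
    have h6 : -(K : ℝ) * l j ≤ l j * (y j : ℝ) := by
      nlinarith [hl j]
    have h7 : -(K : ℝ) * |(c j : ℝ)| ≤ (c j : ℝ) * (y j : ℝ) := by
      by_cases hj : c j < 0
      · have h8 : (y j : ℝ) < 0 := by exact_mod_cast h2' j hj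
        have h9 : (c j : ℝ) < 0 := by exact_mod_cast hj
        have h10 : 0 < (c j : ℝ) * (y j : ℝ) := mul_pos_of_neg_of_neg h9 h8
        have h11 : 0 ≤ |(c j : ℝ)| := abs_nonneg _
        have h12 : (0 : ℝ) ≤ K := by positivity
        nlinarith
      · push Not at hj
        have h9 : 0 ≤ (c j : ℝ) := by exact_mod_cast hj
        rw [abs_of_nonneg h9]
        nlinarith
    linarith
  have h5 : (t0 : ℝ) ≤ t := by exact_mod_cast ht
  linarith

/-- the support of `c` is not contained in a face -/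
def Spread (v : Fin r → Fin N → ℕ) (c : Fin r → ℤ) : Prop :=
  ∑ j, c j = 0 ∧ (∀ i, ∑ j, c j * (v j i : ℤ) = 0) ∧
    ∀ (a : Fin N → ℕ) (s : ℕ), 0 < s → (∀ j, s ≤ ∑ i, a i * v j i) →
      ∃ j, c j ≠ 0 ∧ ∑ i, a i * v j i ≠ s

lemma kill0 (q : ℕ) (v : Fin r → Fin N → ℕ) (c : Fin r → ℤ) (h : Spread v c) (K : ℕ) (F : Fn r)
    (hF : Supp K c F) : ∃ t0 : ℤ, ∀ t, t0 ≤ t → gen q v F ∅ t = 0 := by
  classical
  obtain ⟨hc0, hcv, hsp⟩ := h
  by_contra hcon
  push Not at hcon
  -- bad `t`
  let P : ℕ → Prop := fun t => ∃ x : Fin N → ℕ,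
    F (fun j => ∑ i, (x i : ℤ) * (v j i : ℤ) - (t : ℤ)) ≠ 0
  have hP : ∀ n : ℕ, ∃ t, n ≤ t ∧ P t := by
    intro n
    obtain ⟨t, ht, hne⟩ := hcon (n : ℤ)
    obtain ⟨t', rfl⟩ : ∃ t' : ℕ, t = t' := ⟨t.toNat, by omega⟩
    refine ⟨t', by exact_mod_cast ht, ?_⟩
    by_contra hc
    apply hne
    ext x
    rw [coeff_gen, map_zero]
    split_ifs
    · rw [mul_eq_zero]
      right
      by_contra hc'
      exact hc ⟨fun i => x i, hc'⟩
    · rfl
  have hfr : ∃ᶠ t in Filter.atTop, P t := by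
    rw [Filter.frequently_atTop]
    intro n
    obtain ⟨t, h1, h2⟩ := hP n
    exact ⟨t, h1, h2⟩
  obtain ⟨φ, hφ, hφP⟩ := Filter.extraction_of_frequently_atTop hfr
  choose x hx using hφP
  set y : ℕ → Fin r → ℤ := fun n j => ∑ i, (x n i : ℤ) * (v j i : ℤ) - (φ n : ℤ) with hy
  have hy0 : ∀ n, ∑ j, c j * y n j = 0 := by
    intro n
    simp only [hy, mul_sub, Finset.sum_sub_distrib]
    rw [← Finset.sum_mul, hc0, zero_mul, sub_zero]
    simp only [Finset.mul_sum]
    rw [Finset.sum_comm]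
    refine Finset.sum_eq_zero fun i _ => ?_
    have h1 : ∑ j, c j * ((x n i : ℤ) * (v j i : ℤ)) = (x n i : ℤ) * ∑ j, c j * (v j i : ℤ) := by
      rw [Finset.mul_sum]
      exact Finset.sum_congr rfl fun j _ => by ring
    rw [h1, hcv i, mul_zero]
  set K2 : ℤ := K * ∑ j, |c j| with hK2
  have hK20 : 0 ≤ K2 := by
    rw [hK2]
    positivity
  have hup : ∀ n j, c j ≠ 0 → y n j ≤ K2 := by
    intro n j hj
    obtain ⟨h1, h2⟩ := hF _ (hx n)
    rcases lt_or_gt_of_ne hj with hj | hj
    · have : y n j < 0 := h2 j hj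
      linarith
    · have h3 := hy0 n
      rw [← Finset.add_sum_erase _ _ (Finset.mem_univ j)] at h3
      have h4 : -(K * ∑ j' ∈ Finset.univ.erase j, |c j'|) ≤
          ∑ j' ∈ Finset.univ.erase j, c j' * y n j' := by
        rw [Finset.mul_sum, ← Finset.sum_neg_distrib]
        refine Finset.sum_le_sum fun j' _ => ?_
        have h5 : -(K : ℤ) ≤ y n j' := h1 j'
        by_cases hj' : c j' < 0
        · have h6 : y n j' < 0 := h2 j' hj'
          have h7 : 0 < c j' * y n j' := mul_pos_of_neg_of_neg hj' h6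
          have h8 : 0 ≤ (K : ℤ) * |c j'| := by positivity
          linarith
        · push Not at hj'
          rw [abs_of_nonneg hj']
          nlinarith
      have h5 : ∑ j' ∈ Finset.univ.erase j, |c j'| ≤ ∑ j', |c j'| :=
        Finset.sum_le_sum_of_subset_of_nonneg (Finset.erase_subset _ _)
          fun _ _ _ => abs_nonneg _
      have h6 : (K : ℤ) * ∑ j' ∈ Finset.univ.erase j, |c j'| ≤ K2 := by
        rw [hK2]
        exact mul_le_mul_of_nonneg_left h5 (by positivity)
      have h7 : c j * y n j ≤ K2 := by linarith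
      by_contra h8
      push Not at h8
      have h9 : 0 < y n j := by linarith
      have h10 : y n j ≤ c j * y n j := by
        have : 1 ≤ c j := hj
        nlinarith
      linarith
  -- Dickson
  let f : ℕ → (Fin N → ℕ) × (Fin r → ℕ) × (Fin r → ℕ) := fun n =>
    (x n, fun j => (y n j + K).toNat, fun j => if c j = 0 then 0 else (K2 - y n j).toNat)
  obtain ⟨m, n, hmn, hle⟩ := (wellQuasiOrdered_le : WellQuasiOrdered
    ((· ≤ ·) : (Fin N → ℕ) × (Fin r → ℕ) × (Fin r → ℕ) → _ → Prop)) f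
  have hle1 : ∀ i, x m i ≤ x n i := fun i => hle.1 i
  have hle2 : ∀ j, (y m j + K).toNat ≤ (y n j + K).toNat := fun j => hle.2.1 j
  have hle3 : ∀ j, (if c j = 0 then 0 else (K2 - y m j).toNat) ≤
      (if c j = 0 then 0 else (K2 - y n j).toNat) := fun j => hle.2.2 j
  have hlow : ∀ n j, 0 ≤ y n j + K := by
    intro n j
    have : -(K : ℤ) ≤ y n j := (hF _ (hx n)).1 j
    linarith
  have h2 : ∀ j, y m j ≤ y n j := by
    intro j
    have h3 := hle2 j
    have h4 := hlow m j
    have h5 := hlow n j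
    omega
  have h3 : ∀ j, c j ≠ 0 → y n j = y m j := by
    intro j hj
    have h4 := hle3 j
    rw [if_neg hj, if_neg hj] at h4
    have h5 := hup m j hj
    have h6 := hup n j hj
    have h7 := h2 j
    omega
  have hφmn : φ m < φ n := hφ hmn
  have hdiff : ∀ j, ((∑ i, (x n i - x m i) * v j i : ℕ) : ℤ) =
      y n j - y m j + ((φ n - φ m : ℕ) : ℤ) := by
    intro j
    rw [hy]
    simp only
    push_cast [Nat.cast_sub hφmn.le]
    have h4 : ∑ i, ((x n i - x m i : ℕ) : ℤ) * (v j i : ℤ) =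
        ∑ i, (x n i : ℤ) * (v j i : ℤ) - ∑ i, (x m i : ℤ) * (v j i : ℤ) := by
      rw [← Finset.sum_sub_distrib]
      refine Finset.sum_congr rfl fun i _ => ?_
      rw [Nat.cast_sub (hle1 i)]
      ring
    rw [h4]
    ring
  obtain ⟨j, hj, hjne⟩ := hsp (fun i => x n i - x m i) (φ n - φ m) (by omega) (by
    intro j
    have h4 := hdiff j
    have h5 := h2 j
    have h6 : ((φ n - φ m : ℕ) : ℤ) ≤ ((∑ i, (x n i - x m i) * v j i : ℕ) : ℤ) := by
      rw [h4]
      linarith
    exact_mod_cast h6)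
  apply hjne
  have h4 := hdiff j
  rw [h3 j hj, sub_self, zero_add] at h4
  exact_mod_cast h4

/-- Stokes for several variables -/
lemma stokes_all (q : ℕ) (v : Fin r → Fin N → ℕ) (B : Finset (Fin N)) :
    ∀ (F : Fn r) (S : Finset (Fin N)) (t : ℤ) (c : ℂ),
      (∀ g, Tame q v (act r g F)) → Disjoint B S → HasReg (gen q v F (B ∪ S) t) c →
      HasReg (gen q v (act r (∏ i ∈ B, elm q v i) F) S t) c := by
  classical
  induction B using Finset.induction_on with
  | empty =>
    intro F S t c _ _ h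
    rw [Finset.prod_empty, act_one]
    rwa [Finset.empty_union] at h
  | insert a B ha ih =>
    intro F S t c hF hd h
    rw [Finset.prod_insert ha, act_mul]
    have haS : a ∉ S := fun h' => (Finset.disjoint_left.1 hd) (Finset.mem_insert_self _ _) h'
    refine HasReg.stokes a ((hF _).reg S t) ?_ (gen_stokes q v _ S t a haS)
    refine ih F (insert a S) t c hF ?_ ?_
    · rw [Finset.disjoint_insert_right]
      exact ⟨ha, Finset.disjoint_of_subset_left (Finset.subset_insert _ _) hd⟩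
    · rwa [Finset.union_insert, ← Finset.insert_union]

end Pool.Agent.TH216.MF
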