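import Pool.Agent.TH216.MF.Defs

set_option autoImplicit false

/-! Clearing the denominators of the linear relations. -/

namespace Pool.Agent.TH216.MF

variable {r N : ℕ}

lemma lat1 (v : Fin r → Fin N → ℕ) (A : Finset (Fin N)) (Z : Finset (Fin r)) (j : Fin r)
    (h : ∀ w : Fin r → ℚ, (∀ i ∈ A, ∑ j', w j' * (v j' i : ℚ) = 0) → (∀ j' ∈ Z, w j' = 0) →
      w j = 0) :
    ∃ G : ℕ, 0 < G ∧ ∃ (k : Fin N → ℤ) (k' : Fin r → ℤ), (∀ i, i ∉ A → k i = 0) ∧
      (∀ j', j' ∉ Z → k' j' = 0) ∧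
      ∀ j', (if j' = j then (G : ℤ) else 0) = ∑ i, k i * (v j' i : ℤ) + k' j' := by
  classical
  let L : Fin N ⊕ Fin r → ((Fin r → ℚ) →ₗ[ℚ] ℚ) := Sum.elim
    (fun i => if i ∈ A then ∑ j, (v j i : ℚ) • LinearMap.proj j else 0)
    (fun j => if j ∈ Z then LinearMap.proj j else 0)
  have hL1 : ∀ i γ, L (Sum.inl i) γ = if i ∈ A then ∑ j, γ j * (v j i : ℚ) else 0 := by
    intro i γ
    simp only [L, Sum.elim_inl]
    split_ifs
    · simp [LinearMap.sum_apply, mul_comm]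
    · simp
  have hL2 : ∀ j γ, L (Sum.inr j) γ = if j ∈ Z then γ j else 0 := by
    intro j γ
    simp only [L, Sum.elim_inr]
    split_ifs <;> simp
  have h1 : (LinearMap.proj j : (Fin r → ℚ) →ₗ[ℚ] ℚ) ∈ Submodule.span ℚ (Set.range L) := by
    apply mem_span_of_iInf_ker_le_ker
    intro w hw
    rw [Submodule.mem_iInf] at hw
    rw [LinearMap.mem_ker]
    apply h
    · intro i hi
      have := hw (Sum.inl i)
      rw [LinearMap.mem_ker, hL1, if_pos hi] at this
      exact this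
    · intro j' hj'
      have := hw (Sum.inr j')
      rw [LinearMap.mem_ker, hL2, if_pos hj'] at this
      exact this
  obtain ⟨c, hc⟩ := (Submodule.mem_span_range_iff_exists_fun ℚ).1 h1
  set s : ℕ := ∏ i, (c i).den with hs
  have hs0 : 0 < s := Finset.prod_pos fun i _ => (c i).den_pos
  have h2 : ∀ i, ∃ b : ℤ, (b : ℚ) = c i * s := by
    intro i
    have h2 : (c i).den ∣ s := Finset.dvd_prod_of_mem _ (Finset.mem_univ i)
    obtain ⟨k, hk⟩ := h2
    refine ⟨(c i).num * k, ?_⟩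
    rw [hk]
    push_cast
    have h6 : (c i) * (c i).den = (c i).num := Rat.mul_den_eq_num _
    rw [← mul_assoc, h6]
  choose b hb using h2
  refine ⟨s, hs0, fun i => if i ∈ A then b (Sum.inl i) else 0,
    fun j => if j ∈ Z then b (Sum.inr j) else 0, fun i hi => if_neg hi, fun j' hj' => if_neg hj',
    fun j' => ?_⟩
  have h3 := LinearMap.congr_fun hc (Pi.single j' 1)
  rw [LinearMap.sum_apply, Fintype.sum_sum_type] at h3
  simp only [LinearMap.smul_apply, smul_eq_mul, hL1, hL2, LinearMap.proj_apply] at h3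
  have e2 : ∀ i, ∑ j'', (Pi.single j' 1 : Fin r → ℚ) j'' * (v j'' i : ℚ) = v j' i := by
    intro i
    rw [Finset.sum_eq_single j'] <;> simp +contextual
  have e3 : ∑ x, c (Sum.inr x) * (if x ∈ Z then (Pi.single j' 1 : Fin r → ℚ) x else 0) =
      if j' ∈ Z then c (Sum.inr j') else 0 := by
    rw [Finset.sum_eq_single j']
    · split_ifs <;> simp
    · intro x _ hx
      rw [Pi.single_eq_of_ne hx]
      simp
    · simp
  have e4 : ∑ x, c (Sum.inl x) * (if x ∈ A then ∑ j'', (Pi.single j' 1 : Fin r → ℚ) j'' *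
      (v j'' x : ℚ) else 0) = ∑ x, (if x ∈ A then c (Sum.inl x) else 0) * (v j' x : ℚ) := by
    refine Finset.sum_congr rfl fun x _ => ?_
    rw [e2]
    split_ifs <;> simp
  rw [e3, e4] at h3
  have h4 : ((if j' = j then (s : ℤ) else 0 : ℤ) : ℚ) =
      ((∑ i, (if i ∈ A then b (Sum.inl i) else 0) * (v j' i : ℤ) +
        if j' ∈ Z then b (Sum.inr j') else 0 : ℤ) : ℚ) := by
    have e5 : ((if j' = j then (s : ℤ) else 0 : ℤ) : ℚ) = (Pi.single j' 1 : Fin r → ℚ) j * s := by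
      by_cases hj : j' = j
      · rw [if_pos hj, hj]
        simp
      · rw [if_neg hj, Pi.single_eq_of_ne (fun h => hj h.symm)]
        simp
    rw [e5, ← h3, add_mul, Finset.sum_mul]
    push_cast
    congr 1
    · refine Finset.sum_congr rfl fun i _ => ?_
      split_ifs
      · rw [hb]; ring
      · simp
    · split_ifs
      · rw [hb]
      · simp
  exact_mod_cast h4

theorem exG (v : Fin r → Fin N → ℕ) : ∃ G : ℕ, 0 < G ∧ Good v G := by
  classical
  have h : ∀ p : Finset (Fin N) × Finset (Fin r) × Fin r, ∃ G : ℕ, 0 < G ∧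
      ((∀ w : Fin r → ℚ, (∀ i ∈ p.1, ∑ j', w j' * (v j' i : ℚ) = 0) → (∀ j' ∈ p.2.1, w j' = 0) →
        w p.2.2 = 0) → ∃ (k : Fin N → ℤ) (k' : Fin r → ℤ), (∀ i, i ∉ p.1 → k i = 0) ∧
      (∀ j', j' ∉ p.2.1 → k' j' = 0) ∧
      ∀ j', (if j' = p.2.2 then (G : ℤ) else 0) = ∑ i, k i * (v j' i : ℤ) + k' j') := by
    intro p
    by_cases hp : ∀ w : Fin r → ℚ, (∀ i ∈ p.1, ∑ j', w j' * (v j' i : ℚ) = 0) →
      (∀ j' ∈ p.2.1, w j' = 0) → w p.2.2 = 0
    · obtain ⟨G, hG, h2⟩ := lat1 v p.1 p.2.1 p.2.2 hp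
      exact ⟨G, hG, fun _ => h2⟩
    · exact ⟨1, one_pos, fun h' => absurd h' hp⟩
  choose G hG hG' using h
  refine ⟨∏ p, G p, Finset.prod_pos fun p _ => hG p, fun A Z j hw => ?_⟩
  obtain ⟨k, k', h1, h2, h3⟩ := hG' (A, Z, j) hw
  obtain ⟨m, hm⟩ : G (A, Z, j) ∣ ∏ p, G p := Finset.dvd_prod_of_mem _ (Finset.mem_univ _)
  refine ⟨fun i => m * k i, fun j' => m * k' j', fun i hi => by simp [h1 i hi],
    fun j' hj' => by simp [h2 j' hj'], fun j' => ?_⟩
  rw [hm]
  have h4 := h3 j'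
  have h5 : (if j' = j then ((G (A, Z, j) * m : ℕ) : ℤ) else 0) =
      m * (if j' = j then (G (A, Z, j) : ℤ) else 0) := by
    split_ifs
    · push_cast; ring
    · simp
  rw [h5, h4, mul_add, Finset.mul_sum]
  congr 1
  exact Finset.sum_congr rfl fun i _ => by ring

end Pool.Agent.TH216.MF
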