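import Pool.Agent.TH216.MF.MotD
import Pool.Agent.W428.MOT.EShort

set_option autoImplicit false

/-! Motivic transfer: from the universal series to a ring with classes. -/

namespace Pool.Agent.TH216.MF

open Pool.Agent.W426.SM (gord ford IsRay)
open Pool.Agent.W428.MOT (geoR InRat cp)

section
variable {R : Type} [CommRing R] (u : Rˣ)

/-- the subalgebra -/
noncomputable def ratR (S : Set (ℤ × ℤ)) : Subalgebra R (PowerSeries R) :=
  Algebra.adjoin R ({PowerSeries.X} ∪ {g | ∃ p ∈ S, g = geoR u p.1 p.2})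

theorem geoR_mul (a b : ℤ) (hb : 0 < b) :
    (1 - PowerSeries.C ((u ^ a : Rˣ) : R) * PowerSeries.X ^ b.toNat) * geoR u a b = 1 := by
  unfold geoR
  refine PowerSeries.mul_invOfUnit _ 1 ?_
  have hb' : b.toNat ≠ 0 := by omega
  simp [hb']

theorem geoR_mem {S : Set (ℤ × ℤ)} {p : ℤ × ℤ} (hp : p ∈ S) : geoR u p.1 p.2 ∈ ratR u S :=
  Algebra.subset_adjoin (Or.inr ⟨p, hp, rfl⟩)

theorem XR_mem (S : Set (ℤ × ℤ)) : (PowerSeries.X : PowerSeries R) ∈ ratR u S :=
  Algebra.subset_adjoin (Or.inl rfl)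

theorem CR_mem (S : Set (ℤ × ℤ)) (a : R) : PowerSeries.C a ∈ ratR u S := by
  have := (ratR u S).algebraMap_mem a
  simpa [PowerSeries.algebraMap_apply] using this

theorem polyR_mem (S : Set (ℤ × ℤ)) (P : Polynomial R) : (P : PowerSeries R) ∈ ratR u S := by
  induction P using Polynomial.induction_on' with
  | add p q hp hq =>
    rw [Polynomial.coe_add]
    exact (ratR u S).add_mem hp hq
  | monomial n a =>
    rw [← Polynomial.C_mul_X_pow_eq_monomial, Polynomial.coe_mul, Polynomial.coe_C,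
      Polynomial.coe_pow, Polynomial.coe_X]
    exact (ratR u S).mul_mem (CR_mem u S a) ((ratR u S).pow_mem (XR_mem u S) n)

/-- `X ↦ 𝕃⁻¹` -/
noncomputable def evR : Polynomial ℤ →+* R :=
  Polynomial.eval₂RingHom (Int.castRingHom R) ((u⁻¹ : Rˣ) : R)

theorem evR_X : evR u Polynomial.X = ((u⁻¹ : Rˣ) : R) := by
  unfold evR
  simp

theorem evR_X_pow (d : ℕ) : evR u (Polynomial.X ^ d) = ((u ^ (-(d : ℤ)) : Rˣ) : R) := by
  rw [map_pow, evR_X, zpow_neg, zpow_natCast, ← inv_pow, Units.val_pow_eq_pow_val]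

theorem ratR_mem {r N : ℕ} {S : Set (ℤ × ℤ)} (v : Fin r → Fin N → ℕ)
    (l : List (Fin N → ℕ))
    (hl : ∀ a ∈ l, 0 < gord v a ∧ (-((∑ i, a i : ℕ) : ℤ), (gord v a : ℤ)) ∈ S) :
    ∀ f : PowerSeries (Polynomial ℤ), IsPol (f * (l.map (fac v)).prod) →
    PowerSeries.map (evR u) f ∈ ratR u S := by
  induction l with
  | nil =>
    rintro f ⟨P, hP⟩
    rw [List.map_nil, List.prod_nil, mul_one] at hP
    rw [hP, ← Polynomial.polynomial_map_coe]
    exact polyR_mem u S _
  | cons a l ih =>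
    rintro f hf
    rw [List.map_cons, List.prod_cons, ← mul_assoc] at hf
    have h1 := ih (fun b hb => hl b (List.mem_cons_of_mem _ hb)) _ hf
    have hX : PowerSeries.map (evR u) (PowerSeries.X ^ gord v a) = PowerSeries.X ^ gord v a := by
      rw [map_pow, PowerSeries.map_X]
    unfold fac at h1
    rw [map_mul, map_sub, map_one, map_mul, PowerSeries.map_C, evR_X_pow, hX] at h1
    obtain ⟨h2, h3⟩ := hl a List.mem_cons_self
    have h4 := geoR_mul u (-((∑ i, a i : ℕ) : ℤ)) (gord v a : ℤ) (by exact_mod_cast h2)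
    rw [Int.toNat_natCast] at h4
    have h5 := (ratR u S).mul_mem h1 (geoR_mem u (p := (-((∑ i, a i : ℕ) : ℤ), (gord v a : ℤ))) h3)
    rw [mul_assoc, h4, mul_one] at h5
    exact h5

variable {r N : ℕ}

lemma evR_pow (n : ℕ) : ((u⁻¹ : Rˣ) : R) ^ n * (u : R) ^ n = 1 := by
  rw [← mul_pow, Units.inv_mul, one_pow]

lemma evR_cf (v : Fin r → Fin N → ℕ) (J : Finset (Fin N)) (κ τ : Finset (Fin r)) :
    (u : R) ^ J.card * evR u (cf v J κ τ) = open Classical in if bas v J τ = κ then
      (-1) ^ (τ.card + κ.card) * ((u : R) - 1) ^ (mx v J κ - (frc v J τ + τ.card)) *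
        (u : R) ^ frc v J τ else 0 := by
  classical
  unfold cf
  split_ifs with h
  · have h1 := le_mx v J τ
    rw [h] at h1
    have h2 := bas_card v J τ
    rw [h] at h2
    have h3 := frc_le v J κ
    have h4 : mx v J κ = frc v J κ + κ.card := rfl
    rw [map_mul, map_mul, map_pow, map_pow, map_pow, map_neg, map_sub, map_one, evR_X]
    set E := mx v J κ - (frc v J τ + τ.card) with hE
    have e1 : mx v J κ - τ.card = E + frc v J τ := by omega
    obtain ⟨d, hd⟩ : ∃ d, J.card = (E + frc v J τ) + d := ⟨J.card - (E + frc v J τ), by omega⟩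
    rw [e1, hd, show E + frc v J τ + d - (E + frc v J τ) = d by omega, pow_add _ _ d,
      pow_add _ E]
    have h5 : (1 - ((u⁻¹ : Rˣ) : R)) ^ E * (u : R) ^ E = ((u : R) - 1) ^ E := by
      rw [← mul_pow, sub_mul, one_mul, Units.inv_mul]
    have h6 := evR_pow u d
    linear_combination ((-1) ^ (τ.card + κ.card) * (u : R) ^ frc v J τ *
      ((1 - ((u⁻¹ : Rˣ) : R)) ^ E * (u : R) ^ E)) * h6 +
      ((-1) ^ (τ.card + κ.card) * (u : R) ^ frc v J τ) * h5
  · rw [map_zero, mul_zero]

/-- the class formula -/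
noncomputable def FR (v : Fin r → Fin N → ℕ) (J : Finset (Fin N)) (b0 b1 : Finset (Fin r) → R) :
    PowerSeries R := ∑ τ, PowerSeries.C ((u : R) ^ frc v J τ) *
      (PowerSeries.C (b0 τ) * PowerSeries.map (evR u) (cser v J τ) +
        PowerSeries.C (b1 τ) * (PowerSeries.C ((u⁻¹ : Rˣ) : R) * PowerSeries.X *
          PowerSeries.map (evR u) (cser v J τ) * geoR u (-1) 1))

/-- **From classes with relations to rationality.** -/
theorem inRat_J {S : Set (ℤ × ℤ)} (hS1 : ((-1 : ℤ), (1 : ℤ)) ∈ S) (v : Fin r → Fin N → ℕ)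
    (J : Finset (Fin N)) (l : List (Fin N → ℕ))
    (hl : ∀ a ∈ l, 0 < gord v a ∧ (-((∑ i, a i : ℕ) : ℤ), (gord v a : ℤ)) ∈ S)
    (hG : ∀ κ, IsPol (Gd v J κ * (l.map (fac v)).prod)) (w : R)
    (Ad : Finset (Fin r) → Prop) (hAd : ∀ τ τ', τ ⊆ τ' → Ad τ' → Ad τ)
    (hAd0 : ∀ τ, ¬ Ad τ → cser v J τ = 0) (b0 b1 : Finset (Fin r) → R) (h00 : b0 ∅ = 0)
    (h10 : b1 ∅ = w)
    (hb0 : ∀ i ∈ J, ∀ j0, v j0 i = 1 → ∀ τ, (∀ j ∈ τ, v j i = 0) → Ad (insert j0 τ) →
      b0 (insert j0 τ) = w * ((u : R) - 1) ^ (J.card - frc v J (insert j0 τ) - 1) -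
        ((u : R) - 1) ^ (frc v J τ - frc v J (insert j0 τ) - 1) * b0 τ)
    (hb1 : ∀ i ∈ J, ∀ j0, v j0 i = 1 → ∀ τ, (∀ j ∈ τ, v j i = 0) → Ad (insert j0 τ) →
      b1 (insert j0 τ) = w * ((u : R) - 1) ^ (J.card - frc v J (insert j0 τ) - 1) -
        ((u : R) - 1) ^ (frc v J τ - frc v J (insert j0 τ) - 1) * b1 τ) :
    FR u v J b0 b1 ∈ ratR u S := by
  classical
  set Y : R := ((u⁻¹ : Rˣ) : R) with hY
  have huY : (u : R) * Y = 1 := Units.mul_inv u
  set c : Finset (Fin r) → R := fun τ => w * Y * ((u : R) - 1) ^ (J.card - frc v J τ) with hc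
  -- the homogeneous relations
  have hhom : ∀ b : Finset (Fin r) → R,
      (∀ i ∈ J, ∀ j0, v j0 i = 1 → ∀ τ, (∀ j ∈ τ, v j i = 0) → Ad (insert j0 τ) →
      b (insert j0 τ) = w * ((u : R) - 1) ^ (J.card - frc v J (insert j0 τ) - 1) -
        ((u : R) - 1) ^ (frc v J τ - frc v J (insert j0 τ) - 1) * b τ) →
      ∀ τ, Ad τ → b τ - c τ = (-1) ^ (τ.card + (bas v J τ).card) *
        ((u : R) - 1) ^ (mx v J (bas v J τ) - (frc v J τ + τ.card)) *
          (b (bas v J τ) - c (bas v J τ)) := by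
    intro b hb
    refine decomp (u : R) v J Ad hAd (fun τ => b τ - c τ) ?_
    intro i hi j0 hj0 τ hτ hA
    have h1 := free_step v J i hi j0 hj0 τ hτ
    have h2 := frc_le v J τ
    simp only [hc]
    rw [hb i hi j0 hj0 τ hτ hA]
    set m := J.card - frc v J (insert j0 τ) - 1 with hm
    set d := frc v J τ - frc v J (insert j0 τ) - 1 with hd
    have e1 : J.card - frc v J (insert j0 τ) = m + 1 := by omega
    have e2 : d + (J.card - frc v J τ) = m := by omega
    rw [e1, ← e2, pow_succ, pow_add]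
    linear_combination (-(w * ((u : R) - 1) ^ d * ((u : R) - 1) ^ (J.card - frc v J τ))) * huY
  have hh0 := hhom b0 hb0
  have hh1 := hhom b1 hb1
  set Cs : Finset (Fin r) → PowerSeries R := fun τ => PowerSeries.map (evR u) (cser v J τ)
    with hCs
  have hCs0 : ∀ τ, ¬ Ad τ → Cs τ = 0 := fun τ h => by
    simp only [hCs]
    rw [hAd0 τ h, map_zero]
  -- the images of the universal series
  have hPsi : ∀ κ, PowerSeries.C ((u : R) ^ J.card) * PowerSeries.map (evR u) (Psi v J κ) =
      ∑ τ, PowerSeries.C (if bas v J τ = κ then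
        (-1) ^ (τ.card + κ.card) * ((u : R) - 1) ^ (mx v J κ - (frc v J τ + τ.card)) *
          (u : R) ^ frc v J τ else 0) * Cs τ := by
    intro κ
    unfold Psi
    rw [map_sum, Finset.mul_sum]
    refine Finset.sum_congr rfl fun τ _ => ?_
    rw [map_mul, PowerSeries.map_C, ← mul_assoc, ← map_mul, evR_cf]
  have hOmg : PowerSeries.C ((u : R) ^ J.card) * PowerSeries.map (evR u) (Omg v J) =
      ∑ τ, PowerSeries.C ((u : R) ^ frc v J τ * ((u : R) - 1) ^ (J.card - frc v J τ)) *
        Cs τ := by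
    unfold Omg
    rw [map_sum, Finset.mul_sum]
    refine Finset.sum_congr rfl fun τ _ => ?_
    rw [map_mul, PowerSeries.map_C, ← mul_assoc, ← map_mul, map_pow, map_sub, map_one, evR_X]
    congr 2
    obtain ⟨d, hd⟩ : ∃ d, J.card = frc v J τ + d := ⟨J.card - frc v J τ, by
      have := frc_le v J τ
      omega⟩
    rw [hd, show frc v J τ + d - frc v J τ = d by omega, pow_add, mul_assoc, ← mul_pow, mul_sub,
      mul_one, Units.mul_inv]
  -- `B_κ`
  set B : Finset (Fin r) → PowerSeries R := fun κ =>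
    PowerSeries.C (b0 κ - c κ) * (1 - PowerSeries.C Y * PowerSeries.X) +
      PowerSeries.C (b1 κ - c κ) * (PowerSeries.C Y * PowerSeries.X) with hB
  have hgeo : (1 - PowerSeries.C Y * PowerSeries.X) * geoR u (-1) 1 = 1 := by
    have h1 := geoR_mul u (-1) 1 one_pos
    rw [zpow_neg_one] at h1
    have h2 : (1 : ℤ).toNat = 1 := rfl
    rw [h2, pow_one] at h1
    exact h1
  -- the total
  have htot : FR u v J b0 b1 * (1 - PowerSeries.C Y * PowerSeries.X) =
      PowerSeries.C ((u : R) ^ J.card) * (PowerSeries.C (w * Y) *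
        PowerSeries.map (evR u) (Omg v J) + ∑ κ, B κ * PowerSeries.map (evR u) (Psi v J κ)) := by
    rw [mul_add, Finset.mul_sum]
    have e1 : PowerSeries.C ((u : R) ^ J.card) * (PowerSeries.C (w * Y) *
        PowerSeries.map (evR u) (Omg v J)) = PowerSeries.C (w * Y) *
          ∑ τ, PowerSeries.C ((u : R) ^ frc v J τ * ((u : R) - 1) ^ (J.card - frc v J τ)) *
            Cs τ := by
      rw [← hOmg]
      ring
    have e2 : ∀ κ, PowerSeries.C ((u : R) ^ J.card) * (B κ *
        PowerSeries.map (evR u) (Psi v J κ)) = ∑ τ, B κ * (PowerSeries.C (if bas v J τ = κ then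
        (-1) ^ (τ.card + κ.card) * ((u : R) - 1) ^ (mx v J κ - (frc v J τ + τ.card)) *
          (u : R) ^ frc v J τ else 0) * Cs τ) := by
      intro κ
      rw [← Finset.mul_sum, ← hPsi κ]
      ring
    rw [e1, Finset.sum_congr rfl fun κ _ => e2 κ, Finset.sum_comm, Finset.mul_sum,
      ← Finset.sum_add_distrib]
    unfold FR
    rw [Finset.sum_mul]
    refine Finset.sum_congr rfl fun τ _ => ?_
    rw [Finset.sum_eq_single (bas v J τ)]
    · rw [if_pos rfl]
      change PowerSeries.C ((u : R) ^ frc v J τ) * (PowerSeries.C (b0 τ) * Cs τ +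
        PowerSeries.C (b1 τ) * (PowerSeries.C Y * PowerSeries.X * Cs τ * geoR u (-1) 1)) *
          (1 - PowerSeries.C Y * PowerSeries.X) = _
      by_cases hA : Ad τ
      · have h0 := hh0 τ hA
        have h1 := hh1 τ hA
        set s : R := (-1) ^ (τ.card + (bas v J τ).card) *
          ((u : R) - 1) ^ (mx v J (bas v J τ) - (frc v J τ + τ.card)) with hs
        have h0' : PowerSeries.C (b0 τ) = PowerSeries.C (c τ) +
            PowerSeries.C s * PowerSeries.C (b0 (bas v J τ) - c (bas v J τ)) := by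
          rw [← map_mul, ← h0, ← map_add]
          congr 1
          ring
        have h1' : PowerSeries.C (b1 τ) = PowerSeries.C (c τ) +
            PowerSeries.C s * PowerSeries.C (b1 (bas v J τ) - c (bas v J τ)) := by
          rw [← map_mul, ← h1, ← map_add]
          congr 1
          ring
        rw [h0', h1']
        have hcτ : PowerSeries.C (c τ) = PowerSeries.C (w * Y) *
            PowerSeries.C (((u : R) - 1) ^ (J.card - frc v J τ)) := by
          rw [← map_mul]
        rw [hcτ, map_mul PowerSeries.C s, map_mul PowerSeries.C ((u : R) ^ frc v J τ)]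
        simp only [hB]
        linear_combination (PowerSeries.C ((u : R) ^ frc v J τ) *
          (PowerSeries.C (w * Y) * PowerSeries.C (((u : R) - 1) ^ (J.card - frc v J τ)) +
            PowerSeries.C s * PowerSeries.C (b1 (bas v J τ) - c (bas v J τ))) *
            (PowerSeries.C Y * PowerSeries.X * Cs τ)) * hgeo
      · rw [hCs0 τ hA]
        ring
    · intro κ _ hκ
      rw [if_neg (Ne.symm hκ), map_zero, zero_mul, mul_zero]
    · intro h
      exact absurd (Finset.mem_univ _) h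
  -- the component of `∅`
  have hB0 : B ∅ = PowerSeries.C (w * Y) * (PowerSeries.X - 1) := by
    simp only [hB, hc, h00, h10]
    rw [frc_empty, Nat.sub_self, pow_zero, mul_one, zero_sub, map_neg, map_sub, map_mul]
    ring
  have htot2 : PowerSeries.C (w * Y) * PowerSeries.map (evR u) (Omg v J) +
      ∑ κ, B κ * PowerSeries.map (evR u) (Psi v J κ) =
      PowerSeries.C (w * Y) * PowerSeries.map (evR u) (Gd v J ∅) +
        ∑ κ ∈ Finset.univ.erase ∅, B κ * PowerSeries.map (evR u) (Gd v J κ) := by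
    rw [← Finset.add_sum_erase _ _ (Finset.mem_univ (∅ : Finset (Fin r))), hB0, ← add_assoc]
    congr 1
    · have e0 : PowerSeries.map (evR u) (Gd v J ∅) = (PowerSeries.X - 1) *
          PowerSeries.map (evR u) (Psi v J ∅) + PowerSeries.map (evR u) (Omg v J) := by
        unfold Gd
        rw [if_pos rfl, map_add, map_mul, map_sub, map_one, PowerSeries.map_X]
      rw [e0]
      ring
    · refine Finset.sum_congr rfl fun κ hκ => ?_
      unfold Gd
      rw [if_neg (Finset.ne_of_mem_erase hκ)]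
  have hmem : FR u v J b0 b1 * (1 - PowerSeries.C Y * PowerSeries.X) ∈ ratR u S := by
    rw [htot, htot2]
    have hBm : ∀ κ, B κ ∈ ratR u S := fun κ =>
      (ratR u S).add_mem ((ratR u S).mul_mem (CR_mem u S _) ((ratR u S).sub_mem
        (ratR u S).one_mem ((ratR u S).mul_mem (CR_mem u S _) (XR_mem u S))))
        ((ratR u S).mul_mem (CR_mem u S _) ((ratR u S).mul_mem (CR_mem u S _) (XR_mem u S)))
    have hGm : ∀ κ, PowerSeries.map (evR u) (Gd v J κ) ∈ ratR u S := fun κ =>
      ratR_mem u v l hl _ (hG κ)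
    exact (ratR u S).mul_mem (CR_mem u S _) ((ratR u S).add_mem
      ((ratR u S).mul_mem (CR_mem u S _) (hGm ∅))
      ((ratR u S).sum_mem fun κ _ => (ratR u S).mul_mem (hBm κ) (hGm κ)))
  have h5 := (ratR u S).mul_mem hmem (geoR_mem u (p := ((-1 : ℤ), (1 : ℤ))) hS1)
  rw [mul_assoc, hgeo, mul_one] at h5
  exact h5

end

end Pool.Agent.TH216.MF
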