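import Pool.Agent.TH216.MF.MotE
import Pool.Agent.W425.MM.Mot

set_option autoImplicit false

/-! Relations between the classes of the face polynomials. -/

namespace Pool.Agent.TH216.MC

open MvPolynomial
open Pool.Agent.W428.MOT Pool.Agent.W749.MT
open Pool.Agent.W375.MG (Good GB0 GB1 constr_W constr_GB1)

section
variable {F : Type} [Field F] {n r : ℕ}

theorem gbar_split (m : Fin r → Fin n → ℕ) (c : Fin r → F) (τ : Finset (Fin r)) (i : Fin n)
    (j0 : Fin r) (h1 : m j0 i = 1) (h0 : ∀ j ∈ τ, m j i = 0) (z : Fin n → F) :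
    gbar m c (insert j0 τ) z =
      (c j0 * ∏ k ∈ Finset.univ.erase i, z k ^ m j0 k) * z i + gbar m c τ z := by
  classical
  have hj : j0 ∉ τ := fun h => by
    have := h0 j0 h
    omega
  unfold gbar
  rw [Finset.sum_insert hj]
  congr 1
  rw [← Finset.mul_prod_erase Finset.univ _ (Finset.mem_univ i), h1, pow_one]
  ring

theorem gbar_update (m : Fin r → Fin n → ℕ) (c : Fin r → F) (τ : Finset (Fin r))
    (z w : Fin n → F) (h : ∀ i, (∃ j ∈ τ, m j i ≠ 0) → z i = w i) :
    gbar m c τ z = gbar m c τ w := by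
  unfold gbar
  refine Finset.sum_congr rfl fun j hj => ?_
  congr 1
  refine Finset.prod_congr rfl fun i _ => ?_
  by_cases hm : m j i = 0
  · rw [hm, pow_zero, pow_zero]
  · rw [h i ⟨j, hj, hm⟩]

end

variable {K : Type} [Field K] {n r : ℕ} {R : Type} [CommRing R]

/-- the sets -/
def ZS (W : Set (Pt K (Fin n))) (J T : Finset (Fin n)) (H : Set (Pt K (Option (Fin n)))) :
    Set (Pt K (Option (Fin n))) :=
  {z | (fun i => if i ∈ J then 0 else z (some i)) ∈ W ∧ (∀ i, z (some i) ≠ 0) ∧
    (∀ i ∈ T, z (some i) = 1) ∧ z ∈ H}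

theorem constr_base {W : Set (Pt K (Fin n))} (hW : Constr W) (J : Finset (Fin n)) :
    Constr {z : Pt K (Option (Fin n)) | (fun i => if i ∈ J then 0 else z (some i)) ∈ W} := by
  refine constr_W hW (fun (z : Pt K (Option (Fin n))) i => if i ∈ J then 0 else z (some i))
    fun i => ?_
  by_cases h : i ∈ J
  · simpa only [if_pos h] using IsPF.zero (K := K)
  · simpa only [if_neg h] using IsPF.coord (K := K) (some i)

theorem constr_ZS {W : Set (Pt K (Fin n))} (hW : Constr W) (J T : Finset (Fin n))
    {H : Set (Pt K (Option (Fin n)))} (hH : Constr H) : Constr (ZS W J T H) :=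
  Constr.and (constr_base hW J) (Constr.and
    (Constr.all fun _ => Constr.ne (IsPF.coord _) IsPF.zero) (Constr.and
    (Constr.ballFinset _ fun _ _ => Constr.eq (IsPF.coord _) IsPF.one) hH))

theorem ZS_norm (h1 : S_Free) (M : Meas K R) {W : Set (Pt K (Fin n))} (hW : Constr W)
    (J T T' : Finset (Fin n)) (hT : T ⊆ T') (hT' : T' ⊆ J) {H : Set (Pt K (Option (Fin n)))}
    (hH : Constr H)
    (hinv : ∀ z w : Pt K (Option (Fin n)), w none = z none → (∀ i, i ∉ T' → w (some i) = z (some i)) →
      z ∈ H → w ∈ H) :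
    M.χ _ (ZS W J T H) = M.χ _ (ZS W J T' H) * (M.L - 1) ^ (T'.card - T.card) := by
  classical
  set S : Set (Pt K (Option (Fin n))) :=
    {z | (fun i => if i ∈ J then 0 else z (some i)) ∈ W ∧ (∀ i, i ∉ T' \ T → z (some i) ≠ 0) ∧
      (∀ i ∈ T, z (some i) = 1) ∧ z ∈ H} with hS
  have hSc : Constr S := Constr.and (constr_base hW J) (Constr.and
    (Constr.all fun i => Constr.imp' fun _ => Constr.ne (IsPF.coord _) IsPF.zero) (Constr.and
    (Constr.ballFinset _ fun i _ => Constr.eq (IsPF.coord _) IsPF.one) hH))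
  have key := h1 M S ((T' \ T).map ⟨some, Option.some_injective _⟩) ∅ (fun _ => 1)
    (Finset.disjoint_empty_right _) hSc ?_
  · rw [Finset.card_map, Finset.card_sdiff_of_subset hT, Finset.card_empty, pow_zero, mul_one] at key
    have e1 : S ∩ {z | ∀ i ∈ (T' \ T).map ⟨some, Option.some_injective _⟩, z i ≠ 0} =
        ZS W J T H := by
      ext z
      simp only [Set.mem_inter_iff, hS, ZS, Set.mem_ofPred_eq, Finset.mem_map,
        Function.Embedding.coeFn_mk]
      constructor
      · rintro ⟨⟨a, b, c, d⟩, e⟩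
        refine ⟨a, fun i => ?_, c, d⟩
        by_cases hi : i ∈ T' \ T
        · exact e _ ⟨i, hi, rfl⟩
        · exact b i hi
      · rintro ⟨a, b, c, d⟩
        refine ⟨⟨a, fun i _ => b i, c, d⟩, ?_⟩
        rintro _ ⟨i, -, rfl⟩
        exact b i
    have e2 : S ∩ {z | ∀ i ∈ (T' \ T).map ⟨some, Option.some_injective _⟩ ∪ ∅,
        z i = algebraMap K _ (1 : K)} = ZS W J T' H := by
      ext z
      simp only [Set.mem_inter_iff, hS, ZS, Set.mem_ofPred_eq, Finset.mem_map, Finset.union_empty,
        Function.Embedding.coeFn_mk, map_one]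
      constructor
      · rintro ⟨⟨a, b, c, d⟩, e⟩
        refine ⟨a, fun i => ?_, fun i hi => ?_, d⟩
        · by_cases hi : i ∈ T' \ T
          · rw [e _ ⟨i, hi, rfl⟩]
            exact one_ne_zero
          · exact b i hi
        · by_cases hi' : i ∈ T
          · exact c i hi'
          · exact e _ ⟨i, Finset.mem_sdiff.2 ⟨hi, hi'⟩, rfl⟩
      · rintro ⟨a, b, c, d⟩
        refine ⟨⟨a, fun i _ => b i, fun i hi => c i (hT hi), d⟩, ?_⟩
        rintro _ ⟨i, hi, rfl⟩
        exact c i (Finset.mem_sdiff.1 hi).1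
    rw [e1, e2] at key
    exact key
  · intro z w hzw hz
    have h2 : ∀ i, i ∉ T' \ T → w (some i) = z (some i) := fun i hi => by
      refine hzw _ ?_ (Finset.notMem_empty _)
      intro h3
      rw [Finset.mem_map] at h3
      obtain ⟨k, hk, hki⟩ := h3
      exact hi ((Option.some_injective _ hki) ▸ hk)
    have h3 : w none = z none := by
      refine hzw _ ?_ (Finset.notMem_empty _)
      intro h3
      rw [Finset.mem_map] at h3
      obtain ⟨k, hk, hki⟩ := h3
      exact Option.some_ne_none _ hki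
    obtain ⟨a, b, c, d⟩ := hz
    refine ⟨?_, fun i hi => ?_, fun i hi => ?_, ?_⟩
    · have : (fun i => if i ∈ J then 0 else w (some i)) =
          fun i => if i ∈ J then 0 else z (some i) := by
        funext i
        by_cases hi : i ∈ J
        · rw [if_pos hi, if_pos hi]
        · rw [if_neg hi, if_neg hi, h2 i fun h => hi (hT' (Finset.mem_sdiff.1 h).1)]
      rw [this]
      exact a
    · rw [h2 i hi]
      exact b i hi
    · rw [h2 i fun h => (Finset.mem_sdiff.1 h).2 hi]
      exact c i hi
    · exact hinv z w h3 (fun i hi => h2 i fun h => hi (Finset.mem_sdiff.1 h).1) d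

theorem ZS_zero (M : Meas K R) {W : Set (Pt K (Fin n))} (hW : Constr W)
    (J T : Finset (Fin n)) (i : Fin n) (hi : i ∈ J) (hiT : i ∉ T)
    {H : Set (Pt K (Option (Fin n)))} (hH : Constr H)
    (hinv : ∀ z w : Pt K (Option (Fin n)), w none = z none → (∀ k, k ≠ i → w (some k) = z (some k)) →
      z ∈ H → w ∈ H) :
    M.χ _ {z : Pt K (Option (Fin n)) | (fun k => if k ∈ J then 0 else z (some k)) ∈ W ∧
      (∀ k, k ≠ i → z (some k) ≠ 0) ∧ (∀ k ∈ T, z (some k) = 1) ∧ z (some i) = 0 ∧ z ∈ H} =
      M.χ _ (ZS W J (insert i T) H) := by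
  classical
  have hbase : ∀ z w : Pt K (Option (Fin n)), (∀ k, k ≠ i → w (some k) = z (some k)) →
      (fun k => if k ∈ J then 0 else w (some k)) = fun k => if k ∈ J then 0 else z (some k) := by
    intro z w h
    funext k
    by_cases hk : k ∈ J
    · rw [if_pos hk, if_pos hk]
    · rw [if_neg hk, if_neg hk, h k fun h => hk (h ▸ hi)]
  have hup : ∀ (z : Pt K (Option (Fin n))) (a : AlgebraicClosure K) (k : Fin n), k ≠ i →
      Function.update z (some i) a (some k) = z (some k) := fun z a k hk =>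
    Function.update_of_ne (fun h => hk (Option.some_injective _ h)) _ _
  have hupn : ∀ (z : Pt K (Option (Fin n))) (a : AlgebraicClosure K),
      Function.update z (some i) a none = z none := fun z a =>
    Function.update_of_ne (fun h => Option.some_ne_none _ h.symm) _ _
  refine M.iso _ _ (Constr.and (constr_base hW J) (Constr.and
    (Constr.all fun k => Constr.imp' fun _ => Constr.ne (IsPF.coord _) IsPF.zero) (Constr.and
    (Constr.ballFinset _ fun k _ => Constr.eq (IsPF.coord _) IsPF.one)
      (Constr.and (Constr.eqz (IsPF.coord _)) hH)))) (constr_ZS hW J _ hH)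
    (fun z => Function.update z (some i) 1) (fun z => Function.update z (some i) 0)
    (regularOn_poly (fun k => IsPF_update _ _ IsPF.one) _)
    (regularOn_poly (fun k => IsPF_update _ _ IsPF.zero) _) ?_ ?_ ?_ ?_
  · rintro z ⟨a, b, c, d, e⟩
    refine ⟨?_, fun k => ?_, fun k hk => ?_, hinv _ _ (hupn z _) (fun k hk => hup z _ k hk) e⟩
    · rw [hbase z _ fun k hk => hup z _ k hk]
      exact a
    · beta_reduce
      by_cases hk : k = i
      · rw [hk, Function.update_self]
        exact one_ne_zero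
      · rw [hup z _ k hk]
        exact b k hk
    · beta_reduce
      by_cases hk' : k = i
      · rw [hk', Function.update_self]
      · rw [hup z _ k hk']
        exact c k ((Finset.mem_insert.1 hk).resolve_left hk')
  · rintro z ⟨a, b, c, e⟩
    refine ⟨?_, fun k hk => ?_, fun k hk => ?_, Function.update_self _ _ _,
      hinv _ _ (hupn z _) (fun k hk => hup z _ k hk) e⟩
    · rw [hbase z _ fun k hk => hup z _ k hk]
      exact a
    · beta_reduce
      rw [hup z _ k hk]
      exact b k
    · beta_reduce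
      rw [hup z _ k fun h => hiT (h ▸ hk)]
      exact c k (Finset.mem_insert_of_mem hk)
  · rintro z ⟨a, b, c, d, e⟩
    simp only [Function.update_idem]
    rw [← d, Function.update_eq_self]
  · rintro z ⟨a, b, c, e⟩
    simp only [Function.update_idem]
    rw [← c i (Finset.mem_insert_self _ _), Function.update_eq_self]

/-- the class of the graph -/
def XS (m : Fin r → Fin n → ℕ) (c : Fin r → K) (W : Set (Pt K (Fin n)))
    (E : Set (AlgebraicClosure K)) (J : Finset (Fin n))
    (d : Pt K (Option (Fin n)) → AlgebraicClosure K) (τ : Finset (Fin r)) :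
    Set (Pt K (Option (Fin n))) :=
  {z | gbar m (cb c) τ (fun i => z (some i)) = d z ∧ z none ∈ E}

theorem constr_XS (m : Fin r → Fin n → ℕ) (c : Fin r → K) {W : Set (Pt K (Fin n))}
    {E : Set (AlgebraicClosure K)} (hE : Good E) (J : Finset (Fin n))
    {d : Pt K (Option (Fin n)) → AlgebraicClosure K} (hd : IsPF d) (τ : Finset (Fin r)) :
    Constr (XS m c W E J d τ) :=
  Constr.and (Constr.eq (IsPF_gbar m c τ some) hd) (hE.constr _ (IsPF.coord none))

open Pool.Agent.TH216.MF (frc frc_le free_step)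

theorem X_step (h1 : S_Free) (h2 : S_Sub) (M : Meas K R) (m : Fin r → Fin n → ℕ) (c : Fin r → K)
    (hc : ∀ j, c j ≠ 0) {W : Set (Pt K (Fin n))} (hW : Constr W)
    {E : Set (AlgebraicClosure K)} (hE : Good E) (J : Finset (Fin n))
    {d : Pt K (Option (Fin n)) → AlgebraicClosure K} (hd : IsPF d)
    (hd' : ∀ z w : Pt K (Option (Fin n)), w none = z none → d w = d z)
    (i : Fin n) (hi : i ∈ J) (j0 : Fin r) (hj0 : m j0 i = 1) (τ : Finset (Fin r))
    (hτ : ∀ j ∈ τ, m j i = 0) :
    M.χ _ (ZS W J (free 0 m J (insert j0 τ)) (XS m c W E J d (insert j0 τ))) =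
      M.χ _ (ZS W J J {z | z none ∈ E}) * (M.L - 1) ^ (J.card - frc m J (insert j0 τ) - 1) -
        (M.L - 1) ^ (frc m J τ - frc m J (insert j0 τ) - 1) *
          M.χ _ (ZS W J (free 0 m J τ) (XS m c W E J d τ)) := by
  classical
  set T := free 0 m J (insert j0 τ) with hT
  have hmem : ∀ (σ : Finset (Fin r)) (k : Fin n), k ∈ free 0 m J σ ↔ k ∈ J ∧ ∀ j ∈ σ, m j k = 0 := by
    intro σ k
    unfold free
    rw [Finset.mem_filter]
    simp
  have hiT : i ∉ T := by
    rw [hT, hmem]
    rintro ⟨-, h⟩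
    have := h j0 (Finset.mem_insert_self _ _)
    omega
  have hTJ : insert i T ⊆ J := by
    intro k hk
    rcases Finset.mem_insert.1 hk with rfl | hk
    · exact hi
    · exact ((hmem _ k).1 hk).1
  have hTτ : insert i T ⊆ free 0 m J τ := by
    intro k hk
    rw [hmem]
    rcases Finset.mem_insert.1 hk with rfl | hk
    · exact ⟨hi, hτ⟩
    · exact ⟨((hmem _ k).1 hk).1, fun j hj => ((hmem _ k).1 hk).2 j (Finset.mem_insert_of_mem hj)⟩
  have hτJ : free 0 m J τ ⊆ J := fun k hk => ((hmem _ k).1 hk).1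
  have hcard : (insert i T).card = frc m J (insert j0 τ) + 1 := by
    rw [Finset.card_insert_of_notMem hiT]
    rfl
  set g : Pt K (Option (Fin n)) → AlgebraicClosure K := fun z => gbar m (cb c) τ (fun k => z (some k))
    with hg
  have hgPF : IsPF g := IsPF_gbar m c τ some
  have hginv : ∀ z w : Pt K (Option (Fin n)), (∀ k, k ∉ free 0 m J τ → w (some k) = z (some k)) →
      (∀ k, k ∉ J → w (some k) = z (some k)) → g w = g z := by
    intro z w hzw _
    refine gbar_update m (cb c) τ _ _ fun k hk => hzw k fun hk' => ?_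
    obtain ⟨j, hj, hjk⟩ := hk
    exact hjk (((hmem _ k).1 hk').2 j hj)
  -- the two pieces
  have hE0 : Constr {z : Pt K (Option (Fin n)) | z none ∈ E} := hE.constr _ (IsPF.coord none)
  have hH1 : Constr (XS m c W E J d τ) := constr_XS m c hE J hd τ
  have hH2 : Constr {z : Pt K (Option (Fin n)) | g z ≠ d z ∧ z none ∈ E} :=
    Constr.and (Constr.ne hgPF hd) hE0
  have hadd : M.χ _ (ZS W J (insert i T) {z | z none ∈ E}) =
      M.χ _ (ZS W J (insert i T) (XS m c W E J d τ)) +
        M.χ _ (ZS W J (insert i T) {z | g z ≠ d z ∧ z none ∈ E}) := by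
    rw [← M.add _ _ (constr_ZS hW J _ hH1) (constr_ZS hW J _ hH2)]
    · congr 1
      ext z
      simp only [ZS, XS, Set.mem_union, Set.mem_ofPred_eq]
      constructor
      · rintro ⟨a, b, c, e⟩
        by_cases h : g z = d z
        · exact Or.inl ⟨a, b, c, h, e⟩
        · exact Or.inr ⟨a, b, c, h, e⟩
      · rintro (⟨a, b, c, -, e⟩ | ⟨a, b, c, -, e⟩)
        · exact ⟨a, b, c, e⟩
        · exact ⟨a, b, c, e⟩
    · rw [Set.disjoint_left]
      rintro z ⟨-, -, -, h, -⟩ ⟨-, -, -, h', -⟩
      exact h' h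
  have hn1 := ZS_norm h1 M hW J (insert i T) J hTJ (Finset.Subset.refl _) hE0
    (fun z w hn _ hz => by
      change w none ∈ E
      rw [hn]
      exact hz)
  have hn2 := ZS_norm h1 M hW J (insert i T) (free 0 m J τ) hTτ hτJ hH1
    (fun z w hn hk hz => by
      refine ⟨?_, ?_⟩
      · rw [hd' z w hn]
        refine Eq.trans ?_ hz.1
        exact hginv z w hk fun k hk' => hk k fun h => hk' (hτJ h)
      · rw [hn]
        exact hz.2)
  -- the substitution
  set a : Pt K (Option (Fin n)) → AlgebraicClosure K := fun z =>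
    cb c j0 * ∏ k ∈ Finset.univ.erase i, z (some k) ^ m j0 k with ha
  have haPF : IsPF a := (IsPF_cb c j0).mul (IsPF.prod _ _ fun k _ => (IsPF.coord _).pow _)
  have hup : ∀ (z : Pt K (Option (Fin n))) (b : AlgebraicClosure K) (k : Fin n), k ≠ i →
      Function.update z (some i) b (some k) = z (some k) := fun z a k hk =>
    Function.update_of_ne (fun h => hk (Option.some_injective _ h)) _ _
  have hupn : ∀ (z : Pt K (Option (Fin n))) (b : AlgebraicClosure K),
      Function.update z (some i) b none = z none := fun z a =>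
    Function.update_of_ne (fun h => Option.some_ne_none _ h.symm) _ _
  have hbase : ∀ (z : Pt K (Option (Fin n))) (b : AlgebraicClosure K),
      (fun k => if k ∈ J then 0 else Function.update z (some i) b (some k)) =
        fun k => if k ∈ J then 0 else z (some k) := by
    intro z b
    funext k
    by_cases hk : k ∈ J
    · rw [if_pos hk, if_pos hk]
    · rw [if_neg hk, if_neg hk, hup z b k fun h => hk (h ▸ hi)]
  have hgup : ∀ (z : Pt K (Option (Fin n))) (b : AlgebraicClosure K),
      g (Function.update z (some i) b) = g z := by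
    intro z b
    refine gbar_update m (cb c) τ _ _ fun k hk => ?_
    refine hup z b k ?_
    rintro rfl
    obtain ⟨j, hj, hjk⟩ := hk
    exact hjk (hτ j hj)
  have hsub : M.χ _ (ZS W J T (XS m c W E J d (insert j0 τ))) =
      M.χ _ {z : Pt K (Option (Fin n)) | (fun k => if k ∈ J then 0 else z (some k)) ∈ W ∧
        (∀ k, k ≠ i → z (some k) ≠ 0) ∧ (∀ k ∈ T, z (some k) = 1) ∧ z (some i) = 0 ∧
          z ∈ {z : Pt K (Option (Fin n)) | g z ≠ d z ∧ z none ∈ E}} := by
    refine h2 M _ _ (some i) a (fun z => g z - d z) (constr_ZS hW J T (constr_XS m c hE J hd _))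
      (Constr.and (constr_base hW J) (Constr.and
        (Constr.all fun k => Constr.imp' fun _ => Constr.ne (IsPF.coord _) IsPF.zero) (Constr.and
        (Constr.ballFinset _ fun k _ => Constr.eq (IsPF.coord _) IsPF.one)
          (Constr.and (Constr.eqz (IsPF.coord _)) hH2)))) haPF (hgPF.sub hd) ?_ ?_ ?_ ?_ ?_
    · intro z w
      simp only [ha]
      congr 1
      refine Finset.prod_congr rfl fun k hk => ?_
      rw [hup z w k (Finset.ne_of_mem_erase hk)]
    · intro z w
      beta_reduce
      rw [hgup, hd' z _ (hupn z w)]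
    · rintro z ⟨-, h, -, -⟩
      refine mul_ne_zero ?_ (Finset.prod_ne_zero_iff.2 fun k _ => pow_ne_zero _ (h k))
      exact (map_ne_zero _).2 (hc j0)
    · rintro z ⟨-, h, -, -⟩
      refine mul_ne_zero ?_ (Finset.prod_ne_zero_iff.2 fun k hk =>
        pow_ne_zero _ (h k (Finset.ne_of_mem_erase hk)))
      exact (map_ne_zero _).2 (hc j0)
    · intro z haz
      have hsp : gbar m (cb c) (insert j0 τ) (fun k => z (some k)) = a z * z (some i) + g z :=
        gbar_split m (cb c) τ i j0 hj0 hτ _
      constructor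
      · rintro ⟨p1, p2, p3, p4, p5⟩
        rw [hsp] at p4
        refine ⟨?_, fun k hk => ?_, fun k hk => ?_, ?_, ?_, ?_⟩
        · rw [hbase]
          exact p1
        · rw [hup z _ k hk]
          exact p2 k
        · rw [hup z _ k fun h => hiT (h ▸ hk)]
          exact p3 k hk
        · rw [Function.update_self]
          linear_combination p4
        · rw [hgup, hd' z _ (hupn z _)]
          intro h
          rw [h] at p4
          have : a z * z (some i) = 0 := by linear_combination p4
          rcases mul_eq_zero.1 this with h' | h'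
          · exact haz h'
          · exact p2 i h'
        · rw [hupn]
          exact p5
      · rintro ⟨p1, p2, p3, p4, p5, p6⟩
        rw [hbase] at p1
        rw [Function.update_self] at p4
        rw [hgup, hd' z _ (hupn z _)] at p5
        rw [hupn] at p6
        refine ⟨p1, fun k => ?_, fun k hk => ?_, ?_, p6⟩
        · by_cases hk : k = i
          · rw [hk]
            intro h
            rw [h, mul_zero, zero_add] at p4
            exact p5 (sub_eq_zero.1 p4)
          · have := p2 k hk
            rwa [hup z _ k hk] at this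
        · have := p3 k hk
          rwa [hup z _ k fun h => hiT (h ▸ hk)] at this
        · rw [hsp]
          linear_combination p4
  rw [hsub, ZS_zero M hW J T i hi hiT hH2 (fun z w hn hk hz => by
    refine ⟨?_, ?_⟩
    · rw [hd' z w hn]
      have : g w = g z := by
        refine gbar_update m (cb c) τ _ _ fun k hk' => ?_
        refine hk k ?_
        rintro rfl
        obtain ⟨j, hj, hjk⟩ := hk'
        exact hjk (hτ j hj)
      rw [this]
      exact hz.1
    · rw [hn]
      exact hz.2)]
  rw [hcard] at hn1 hn2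
  have e1 : J.card - (frc m J (insert j0 τ) + 1) = J.card - frc m J (insert j0 τ) - 1 := by omega
  have e2 : (free 0 m J τ).card - (frc m J (insert j0 τ) + 1) =
      frc m J τ - frc m J (insert j0 τ) - 1 := by
    change frc m J τ - (frc m J (insert j0 τ) + 1) = _
    omega
  rw [e1] at hn1
  rw [e2] at hn2
  linear_combination hn1 - hn2 - hadd

theorem chi_GB1 (M : Meas K R) (m : Fin r → Fin n → ℕ) (c : Fin r → K)
    {W : Set (Pt K (Fin n))} {E : Set (AlgebraicClosure K)} (J : Finset (Fin n))
    (τ : Finset (Fin r)) :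
    M.χ _ (GB1 0 m c 1 W E J τ) = M.χ _ (ZS W J (free 0 m J τ) (XS m c W E J (fun _ => 0) τ)) := by
  congr 1
  ext z
  simp only [GB1, ZS, XS, Set.mem_ofPred_eq, Pi.zero_apply, pow_zero, Finset.prod_const_one, pow_one,
    one_mul]

theorem chi_GB0 (M : Meas K R) (m : Fin r → Fin n → ℕ) (c : Fin r → K)
    {W : Set (Pt K (Fin n))} (hW : Constr W) {E : Set (AlgebraicClosure K)} (hE : Good E)
    (J : Finset (Fin n)) (τ : Finset (Fin r)) :
    M.χ _ (GB0 0 m c 1 W E J τ) =
      M.χ _ (ZS W J (free 0 m J τ) (XS m c W E J (fun z => z none) τ)) := by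
  classical
  have hb : Constr {z : Pt K (Fin n) | (fun i => if i ∈ J then 0 else z i) ∈ W} := by
    refine constr_W hW (fun (z : Pt K (Fin n)) i => if i ∈ J then 0 else z i) fun i => ?_
    by_cases h : i ∈ J
    · simpa only [if_pos h] using IsPF.zero (K := K)
    · simpa only [if_neg h] using IsPF.coord (K := K) i
  have e0 : GB0 0 m c 1 W E J τ = {z | (fun i => if i ∈ J then 0 else z i) ∈ W ∧ (∀ i, z i ≠ 0) ∧
      (∀ i ∈ free 0 m J τ, z i = 1) ∧ gbar m (cb c) τ z ∈ E} := by
    ext z
    simp only [GB0, Set.mem_ofPred_eq, Pi.zero_apply, pow_zero, Finset.prod_const_one, pow_one,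
      one_mul]
  rw [e0]
  refine M.iso _ _ (Constr.and hb (Constr.and
    (Constr.all fun i => Constr.ne (IsPF.coord _) IsPF.zero) (Constr.and
    (Constr.ballFinset _ fun i _ => Constr.eq (IsPF.coord _) IsPF.one)
      (hE.constr _ (IsPF_gbar m c τ id))))) (constr_ZS hW J _ (constr_XS m c hE J (IsPF.coord none) τ))
    (fun z o => o.elim (gbar m (cb c) τ z) z) (fun z i => z (some i))
    (regularOn_poly (fun o => ?_) _) (regularOn_poly (fun i => IsPF.coord _) _) ?_ ?_ ?_ ?_
  · rcases o with _ | i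
    · exact IsPF_gbar m c τ id
    · exact IsPF.coord i
  · rintro z ⟨a, b, c, d⟩
    exact ⟨a, b, c, rfl, d⟩
  · rintro z ⟨a, b, c, d, e⟩
    refine ⟨a, b, c, ?_⟩
    beta_reduce
    rw [d]
    exact e
  · rintro z -
    rfl
  · rintro z ⟨a, b, c, d, e⟩
    funext o
    rcases o with _ | i
    · exact d
    · rfl

theorem b1_rel (h1 : S_Free) (h2 : S_Sub) (M : Meas K R) (m : Fin r → Fin n → ℕ) (c : Fin r → K)
    (hc : ∀ j, c j ≠ 0) {W : Set (Pt K (Fin n))} (hW : Constr W)
    {E : Set (AlgebraicClosure K)} (hE : Good E) (J : Finset (Fin n))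
    (i : Fin n) (hi : i ∈ J) (j0 : Fin r) (hj0 : m j0 i = 1) (τ : Finset (Fin r))
    (hτ : ∀ j ∈ τ, m j i = 0) :
    M.χ _ (GB1 0 m c 1 W E J (insert j0 τ)) =
      M.χ _ (GB1 0 m c 1 W E J ∅) * (M.L - 1) ^ (J.card - frc m J (insert j0 τ) - 1) -
        (M.L - 1) ^ (frc m J τ - frc m J (insert j0 τ) - 1) * M.χ _ (GB1 0 m c 1 W E J τ) := by
  have e1 : ZS W J (free 0 m J ∅) (XS m c W E J (fun _ => 0) ∅) = ZS W J J {z | z none ∈ E} := by
    ext z
    simp only [ZS, XS, Set.mem_ofPred_eq, free, gbar, Finset.sum_empty, Finset.notMem_empty,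
      Pi.zero_apply, true_and, false_implies, implies_true, Finset.filter_true]
  rw [chi_GB1, chi_GB1, chi_GB1, e1]
  exact X_step h1 h2 M m c hc hW hE J IsPF.zero (fun _ _ _ => rfl) i hi j0 hj0 τ hτ

theorem b0_rel (h1 : S_Free) (h2 : S_Sub) (M : Meas K R) (m : Fin r → Fin n → ℕ) (c : Fin r → K)
    (hc : ∀ j, c j ≠ 0) {W : Set (Pt K (Fin n))} (hW : Constr W)
    {E : Set (AlgebraicClosure K)} (hE : Good E) (J : Finset (Fin n))
    (i : Fin n) (hi : i ∈ J) (j0 : Fin r) (hj0 : m j0 i = 1) (τ : Finset (Fin r))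
    (hτ : ∀ j ∈ τ, m j i = 0) :
    M.χ _ (GB0 0 m c 1 W E J (insert j0 τ)) =
      M.χ _ (GB1 0 m c 1 W E J ∅) * (M.L - 1) ^ (J.card - frc m J (insert j0 τ) - 1) -
        (M.L - 1) ^ (frc m J τ - frc m J (insert j0 τ) - 1) * M.χ _ (GB0 0 m c 1 W E J τ) := by
  have e1 : ZS W J (free 0 m J ∅) (XS m c W E J (fun _ => 0) ∅) = ZS W J J {z | z none ∈ E} := by
    ext z
    simp only [ZS, XS, Set.mem_ofPred_eq, free, gbar, Finset.sum_empty, Finset.notMem_empty,
      Pi.zero_apply, true_and, false_implies, implies_true, Finset.filter_true]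
  rw [chi_GB0 M m c hW hE, chi_GB0 M m c hW hE, chi_GB1, e1]
  exact X_step h1 h2 M m c hc hW hE J (IsPF.coord none) (fun _ _ h => h) i hi j0 hj0 τ hτ

theorem b0_empty (M : Meas K R) (m : Fin r → Fin n → ℕ) (c : Fin r → K)
    {W : Set (Pt K (Fin n))} {E : Set (AlgebraicClosure K)} (hE : Good E)
    (J : Finset (Fin n)) : M.χ _ (GB0 0 m c 1 W E J ∅) = 0 := by
  have : GB0 0 m c 1 W E J ∅ = ∅ := by
    rw [Set.eq_empty_iff_forall_notMem]
    rintro z ⟨-, -, -, h⟩
    rw [show gbar m (cb c) ∅ z = 0 from Finset.sum_empty, pow_one, mul_zero] at h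
    exact hE.zero h
  rw [this]
  exact χ_empty M

end Pool.Agent.TH216.MC
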