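import Pool.Agent.TH216.MF.MotG
import Pool.Agent.W425.MM.StrongE

set_option autoImplicit false

/-! Relations between the equivariant classes of the face polynomials. -/

namespace Pool.Agent.TH216.MC

open MvPolynomial
open Pool.Agent.W428.MOT Pool.Agent.W749.MT Pool.Agent.W749.ME
open Pool.Agent.W605.MEInd (dact_gbar dact_prod ne_zero_of_pow)
open Pool.Agent.TH216.MF (frc frc_le free_step)

variable {k : Type} [Field k] {n r : ℕ} {R : Type} [CommRing R]

/-- the weights -/
def rw' (T : Finset (Fin n)) (u : Fin n → ℕ) (N : ℕ) : Option (Fin n) → ℤ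
  | none => N
  | some i => if i ∈ T then 0 else (u i : ℤ)

/-- the sets -/
def ZE (k : Type) [Field k] {n : ℕ} (T : Finset (Fin n)) (H : Set (Pt k (Option (Fin n)))) :
    Set (Pt k (Option (Fin n))) :=
  {z | (∀ i, z (some i) ≠ 0) ∧ (∀ i ∈ T, z (some i) = 1) ∧ z ∈ H}

/-- the standing data -/
structure Dat (m : Fin r → Fin n → ℕ) (c : Fin r → k) (J : Finset (Fin n)) (u : Fin n → ℕ)
    (N : ℕ) : Prop where
  adm : Adm J u
  pos : 0 < Pool.Agent.W426.SM.gord m u
  N_pos : 0 < N

theorem Dat.base {m : Fin r → Fin n → ℕ} {c : Fin r → k} {J : Finset (Fin n)} {u : Fin n → ℕ}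
    {N : ℕ} (h : Dat m c J u N) (z : Pt k (Option (Fin n))) :
    MvPolynomial.aeval (cbase (bb1 J) z) (sp 0 m c 1) = 0 := by
  refine base_bb1 0 m c 1 one_pos J u h.adm ?_ z
  have := h.pos
  unfold Pool.Agent.W426.SM.ford
  simpa using this

theorem Dat.inv {m : Fin r → Fin n → ℕ} {c : Fin r → k} {J : Finset (Fin n)} {u : Fin n → ℕ}
    {N : ℕ} (h : Dat m c J u N) (T : Finset (Fin n)) (i : Fin n) (j : Option (Fin n))
    (hj : bb1 J i = some j) : rw' T u N j = 0 := by
  unfold bb1 at hj
  split_ifs at hj with h0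
  rw [← Option.some.inj hj]
  have : u i = 0 := by
    by_contra h1
    exact h0 ((h.adm i).1 h1)
  simp [rw', this]

/-- stability under the roots of unity -/
def Stb (H : Set (Pt k (Option (Fin n)))) (ρ : Option (Fin n) → ℤ) (N : ℕ) : Prop :=
  ∀ l : AlgebraicClosure k, l ^ N = 1 → ∀ z ∈ H, dact ρ l z ∈ H

theorem valid_ZE {m : Fin r → Fin n → ℕ} {c : Fin r → k} {J : Finset (Fin n)} {u : Fin n → ℕ}
    {N : ℕ} (h : Dat m c J u N) (T : Finset (Fin n)) {H : Set (Pt k (Option (Fin n)))}
    (hH : Constr H) (hst : Stb H (rw' T u N) N) :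
    Valid (sp 0 m c 1) (ZE k T H) (rw' T u N) N (bb1 J) where
  constr := Constr.and (Constr.all fun _ => Constr.ne (IsPF.coord _) IsPF.zero) (Constr.and
    (Constr.ballFinset _ fun _ _ => Constr.eq (IsPF.coord _) IsPF.one) hH)
  pos := h.N_pos
  stable := fun l hl z hz => by
    have hl0 := ne_zero_of_pow h.N_pos hl
    refine ⟨fun i => mul_ne_zero (zpow_ne_zero _ hl0) (hz.1 i), fun i hi => ?_, hst l hl z hz.2.2⟩
    show l ^ (if i ∈ T then (0 : ℤ) else (u i : ℤ)) * z (some i) = 1
    rw [if_pos hi, zpow_zero, one_mul]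
    exact hz.2.1 i hi
  base := fun z _ => h.base z
  inv := h.inv T

theorem ZE_norm (h1 : S_EFree) {m : Fin r → Fin n → ℕ} {c : Fin r → k}
    (M : EMeas (sp 0 m c 1) R) {J : Finset (Fin n)} {u : Fin n → ℕ}
    {N : ℕ} (h : Dat m c J u N) (T T' : Finset (Fin n)) (hT : T ⊆ T') (hT' : T' ⊆ J)
    {H : Set (Pt k (Option (Fin n)))} (hH : Constr H) (hst : Stb H (rw' T u N) N)
    (hinv : ∀ z w : Pt k (Option (Fin n)), w none = z none →
      (∀ i, i ∉ T' → w (some i) = z (some i)) → z ∈ H → w ∈ H) :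
    M.χ _ (ZE k T H) (rw' T u N) N (bb1 J) =
      M.χ _ (ZE k T' H) (rw' T' u N) N (bb1 J) * (M.L - 1) ^ (T'.card - T.card) := by
  classical
  set F0 : Finset (Option (Fin n)) := (T' \ T).map ⟨some, Option.some_injective _⟩ with hF0
  have hmemF : ∀ i, some i ∈ F0 ↔ i ∈ T' \ T := by
    intro i
    rw [hF0, Finset.mem_map]
    constructor
    · rintro ⟨j, hj, hji⟩
      exact (Option.some_injective _ hji) ▸ hj
    · intro hi
      exact ⟨i, hi, rfl⟩
  have hnoneF : (none : Option (Fin n)) ∉ F0 := by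
    rw [hF0, Finset.mem_map]
    rintro ⟨j, -, hji⟩
    exact Option.some_ne_none _ hji
  set S : Set (Pt k (Option (Fin n))) :=
    {z | (∀ i, i ∉ T' \ T → z (some i) ≠ 0) ∧ (∀ i ∈ T, z (some i) = 1) ∧ z ∈ H} with hS
  have hSv : Valid (sp 0 m c 1) S (rw' T u N) N (bb1 J) :=
    { constr := Constr.and
        (Constr.all fun i => Constr.imp' fun _ => Constr.ne (IsPF.coord _) IsPF.zero) (Constr.and
        (Constr.ballFinset _ fun i _ => Constr.eq (IsPF.coord _) IsPF.one) hH)
      pos := h.N_pos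
      stable := fun l hl z hz => by
        have hl0 := ne_zero_of_pow h.N_pos hl
        refine ⟨fun i hi => mul_ne_zero (zpow_ne_zero _ hl0) (hz.1 i hi), fun i hi => ?_,
          hst l hl z hz.2.2⟩
        show l ^ (if i ∈ T then (0 : ℤ) else (u i : ℤ)) * z (some i) = 1
        rw [if_pos hi, zpow_zero, one_mul]
        exact hz.2.1 i hi
      base := fun z _ => h.base z
      inv := h.inv T }
  have key := h1 M S (rw' T u N) N (bb1 J) F0 ∅ (fun _ => 1) (Finset.disjoint_empty_right _) hSv
    ?_ ?_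
  · have hcard : F0.card = T'.card - T.card := by
      rw [hF0, Finset.card_map, Finset.card_sdiff_of_subset hT]
    rw [hcard, Finset.card_empty, pow_zero, mul_one] at key
    have e1 : S ∩ {z | ∀ i ∈ F0, z i ≠ 0} = ZE k T H := by
      ext z
      simp only [Set.mem_inter_iff, hS, ZE, Set.mem_ofPred_eq]
      constructor
      · rintro ⟨⟨b, c, d⟩, e⟩
        refine ⟨fun i => ?_, c, d⟩
        by_cases hi : i ∈ T' \ T
        · exact e _ ((hmemF i).2 hi)
        · exact b i hi
      · rintro ⟨b, c, d⟩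
        refine ⟨⟨fun i _ => b i, c, d⟩, ?_⟩
        intro o ho
        cases o with
        | none => exact absurd ho hnoneF
        | some i => exact b i
    have e2 : S ∩ {z | ∀ i ∈ F0 ∪ ∅, z i = algebraMap k _ (1 : k)} = ZE k T' H := by
      ext z
      simp only [Set.mem_inter_iff, hS, ZE, Set.mem_ofPred_eq, Finset.union_empty, map_one]
      constructor
      · rintro ⟨⟨b, c, d⟩, e⟩
        refine ⟨fun i => ?_, fun i hi => ?_, d⟩
        · by_cases hi : i ∈ T' \ T
          · rw [e _ ((hmemF i).2 hi)]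
            exact one_ne_zero
          · exact b i hi
        · by_cases hi' : i ∈ T
          · exact c i hi'
          · exact e _ ((hmemF i).2 (Finset.mem_sdiff.2 ⟨hi, hi'⟩))
      · rintro ⟨b, c, d⟩
        refine ⟨⟨fun i _ => b i, fun i hi => c i (hT hi), d⟩, ?_⟩
        intro o ho
        cases o with
        | none => exact absurd ho hnoneF
        | some i => exact c i (Finset.mem_sdiff.1 ((hmemF i).1 ho)).1
    have e3 : (fun o => if o ∈ F0 ∪ ∅ then 0 else rw' T u N o) = rw' T' u N := by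
      funext o
      rw [Finset.union_empty]
      cases o with
      | none =>
        rw [if_neg hnoneF]
        rfl
      | some i =>
        show (if some i ∈ F0 then 0 else (if i ∈ T then (0 : ℤ) else (u i : ℤ))) =
          if i ∈ T' then 0 else (u i : ℤ)
        by_cases hi : i ∈ T
        · rw [if_pos hi, if_pos (hT hi), ite_self]
        · rw [if_neg hi]
          by_cases hi' : i ∈ T'
          · rw [if_pos hi', if_pos ((hmemF i).2 (Finset.mem_sdiff.2 ⟨hi', hi⟩))]
          · rw [if_neg hi', if_neg fun h => hi' (Finset.mem_sdiff.1 ((hmemF i).1 h)).1]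
    rw [e1, e2, e3] at key
    exact key
  · intro i j hj
    refine ⟨?_, Finset.notMem_empty _⟩
    unfold bb1 at hj
    split_ifs at hj with h0
    rw [← Option.some.inj hj, hmemF]
    intro h2
    exact h0 (hT' (Finset.mem_sdiff.1 h2).1)
  · intro z w hzw hz
    have h2 : ∀ i, i ∉ T' \ T → w (some i) = z (some i) := fun i hi =>
      hzw _ (fun h => hi ((hmemF i).1 h)) (Finset.notMem_empty _)
    have h3 : w none = z none := hzw _ hnoneF (Finset.notMem_empty _)
    obtain ⟨b, c, d⟩ := hz
    refine ⟨fun i hi => ?_, fun i hi => ?_, ?_⟩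
    · rw [h2 i hi]
      exact b i hi
    · rw [h2 i fun h => (Finset.mem_sdiff.1 h).2 hi]
      exact c i hi
    · exact hinv z w h3 (fun i hi => h2 i fun h => hi (Finset.mem_sdiff.1 h).1) d

theorem ZE_zero {m : Fin r → Fin n → ℕ} {c : Fin r → k}
    (M : EMeas (sp 0 m c 1) R) {J : Finset (Fin n)} {u : Fin n → ℕ}
    {N : ℕ} (h : Dat m c J u N) (T : Finset (Fin n)) (i : Fin n) (hi : i ∈ J) (hiT : i ∉ T)
    (ρ : Option (Fin n) → ℤ) (hρ : ∀ o, o ≠ some i → ρ o = rw' T u N o)
    {H : Set (Pt k (Option (Fin n)))} (hH : Constr H) (hst : Stb H (rw' T u N) N)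
    (hinv : ∀ z w : Pt k (Option (Fin n)), w none = z none →
      (∀ k, k ≠ i → w (some k) = z (some k)) → z ∈ H → w ∈ H) :
    Valid (sp 0 m c 1) {z : Pt k (Option (Fin n)) | (∀ k, k ≠ i → z (some k) ≠ 0) ∧
      (∀ k ∈ T, z (some k) = 1) ∧ z (some i) = 0 ∧ z ∈ H} ρ N (bb1 J) ∧
    M.χ _ {z : Pt k (Option (Fin n)) | (∀ k, k ≠ i → z (some k) ≠ 0) ∧
      (∀ k ∈ T, z (some k) = 1) ∧ z (some i) = 0 ∧ z ∈ H} ρ N (bb1 J) =
      M.χ _ (ZE k (insert i T) H) (rw' (insert i T) u N) N (bb1 J) := by
  classical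
  have hup : ∀ (z : Pt k (Option (Fin n))) (a : AlgebraicClosure k) (k' : Fin n), k' ≠ i →
      Function.update z (some i) a (some k') = z (some k') := fun z a k' hk =>
    Function.update_of_ne (fun h => hk (Option.some_injective _ h)) _ _
  have hupn : ∀ (z : Pt k (Option (Fin n))) (a : AlgebraicClosure k),
      Function.update z (some i) a none = z none := fun z a =>
    Function.update_of_ne (fun h => Option.some_ne_none _ h.symm) _ _
  have hsome : ∀ k' : Fin n, k' ≠ i → (some k' : Option (Fin n)) ≠ some i := fun k' hk h =>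
    hk (Option.some_injective _ h)
  have hnone : (none : Option (Fin n)) ≠ some i := fun h => Option.some_ne_none _ h.symm
  -- the stability
  have hst' : ∀ l : AlgebraicClosure k, l ^ N = 1 → ∀ z ∈ H, dact ρ l z ∈ H := by
    intro l hl z hz
    refine hinv _ _ ?_ ?_ (hst l hl z hz)
    · show l ^ ρ none * z none = l ^ rw' T u N none * z none
      rw [hρ none hnone]
    · intro k' hk
      show l ^ ρ (some k') * z (some k') = l ^ rw' T u N (some k') * z (some k')
      rw [hρ _ (hsome k' hk)]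
  have hst2 : Stb H (rw' (insert i T) u N) N := by
    intro l hl z hz
    refine hinv _ _ ?_ ?_ (hst l hl z hz)
    · rfl
    · intro k' hk
      show l ^ (if k' ∈ insert i T then (0 : ℤ) else (u k' : ℤ)) * z (some k') =
        l ^ (if k' ∈ T then (0 : ℤ) else (u k' : ℤ)) * z (some k')
      have : k' ∈ insert i T ↔ k' ∈ T := by
        rw [Finset.mem_insert]
        exact ⟨fun h => h.resolve_left hk, Or.inr⟩
      simp only [this]
  have hv1 : Valid (sp 0 m c 1) {z : Pt k (Option (Fin n)) | (∀ k, k ≠ i → z (some k) ≠ 0) ∧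
      (∀ k ∈ T, z (some k) = 1) ∧ z (some i) = 0 ∧ z ∈ H} ρ N (bb1 J) :=
    { constr := Constr.and
        (Constr.all fun k => Constr.imp' fun _ => Constr.ne (IsPF.coord _) IsPF.zero) (Constr.and
        (Constr.ballFinset _ fun k _ => Constr.eq (IsPF.coord _) IsPF.one)
          (Constr.and (Constr.eqz (IsPF.coord _)) hH))
      pos := h.N_pos
      stable := fun l hl z hz => by
        have hl0 := ne_zero_of_pow h.N_pos hl
        refine ⟨fun k' hk => mul_ne_zero (zpow_ne_zero _ hl0) (hz.1 k' hk), fun k' hk => ?_, ?_,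
          hst' l hl z hz.2.2.2⟩
        · show l ^ ρ (some k') * z (some k') = 1
          rw [hρ _ (hsome k' fun h => hiT (h ▸ hk))]
          show l ^ (if k' ∈ T then (0 : ℤ) else (u k' : ℤ)) * z (some k') = 1
          rw [if_pos hk, zpow_zero, one_mul]
          exact hz.2.1 k' hk
        · show l ^ ρ (some i) * z (some i) = 0
          rw [hz.2.2.1, mul_zero]
      base := fun z _ => h.base z
      inv := fun i' j hj => by
        rw [hρ j ?_]
        · exact h.inv T i' j hj
        · rintro rfl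
          unfold bb1 at hj
          split_ifs at hj with h0
          rw [Option.some_injective _ (Option.some.inj hj)] at h0
          exact h0 hi }
  refine ⟨hv1, ?_⟩
  refine M.iso _ _ _ _ _ _ _ _ hv1 (valid_ZE h _ hH hst2)
    (fun z => Function.update z (some i) 1) (fun z => Function.update z (some i) 0)
    (regularOn_poly (fun k => IsPF_update _ _ IsPF.one) _)
    (regularOn_poly (fun k => IsPF_update _ _ IsPF.zero) _) ?_ ?_ ?_ ?_ ?_ ?_
  · rintro z ⟨b, c, d, e⟩
    refine ⟨fun k' => ?_, fun k' hk => ?_, hinv _ _ (hupn z _) (fun k hk => hup z _ k hk) e⟩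
    · beta_reduce
      by_cases hk : k' = i
      · rw [hk, Function.update_self]
        exact one_ne_zero
      · rw [hup z _ k' hk]
        exact b k' hk
    · beta_reduce
      by_cases hk' : k' = i
      · rw [hk', Function.update_self]
      · rw [hup z _ k' hk']
        exact c k' ((Finset.mem_insert.1 hk).resolve_left hk')
  · rintro z ⟨b, c, e⟩
    refine ⟨fun k' hk => ?_, fun k' hk => ?_, Function.update_self _ _ _,
      hinv _ _ (hupn z _) (fun k hk => hup z _ k hk) e⟩
    · beta_reduce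
      rw [hup z _ k' hk]
      exact b k'
    · beta_reduce
      rw [hup z _ k' fun h => hiT (h ▸ hk)]
      exact c k' (Finset.mem_insert_of_mem hk)
  · rintro z ⟨b, c, d, e⟩
    simp only [Function.update_idem]
    rw [← d, Function.update_eq_self]
  · rintro z ⟨b, c, e⟩
    simp only [Function.update_idem]
    rw [← c i (Finset.mem_insert_self _ _), Function.update_eq_self]
  · intro z _
    funext i'
    show (bb1 J i').elim 0 (Function.update z (some i) 1) = (bb1 J i').elim 0 z
    unfold bb1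
    by_cases h0 : i' ∈ J
    · rw [if_pos h0]
      rfl
    · rw [if_neg h0]
      exact hup z _ i' fun h => h0 (h ▸ hi)
  · intro l hl z _
    funext o
    by_cases ho : o = some i
    · rw [ho]
      beta_reduce
      rw [Function.update_self]
      show 1 = (l ^ N) ^ (if i ∈ insert i T then (0 : ℤ) else (u i : ℤ)) *
        Function.update z (some i) 1 (some i)
      rw [Function.update_self, if_pos (Finset.mem_insert_self _ _), zpow_zero, one_mul]
    · beta_reduce
      rw [Function.update_of_ne ho]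
      show (l ^ N) ^ ρ o * z o = (l ^ N) ^ rw' (insert i T) u N o * Function.update z (some i) 1 o
      rw [Function.update_of_ne ho, hρ o ho]
      congr 2
      cases o with
      | none => rfl
      | some k' =>
        have hk : k' ≠ i := fun h => ho (by rw [h])
        show (if k' ∈ T then (0 : ℤ) else (u k' : ℤ)) =
          if k' ∈ insert i T then (0 : ℤ) else (u k' : ℤ)
        have : k' ∈ insert i T ↔ k' ∈ T := by
          rw [Finset.mem_insert]
          exact ⟨fun h => h.resolve_left hk, Or.inr⟩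
        simp only [this]

/-- the equations -/
def XE (m : Fin r → Fin n → ℕ) (c : Fin r → k)
    (d : Pt k (Option (Fin n)) → AlgebraicClosure k) (τ : Finset (Fin r)) :
    Set (Pt k (Option (Fin n))) :=
  {z | gbar m (cb c) τ (fun i => z (some i)) = d z ∧ z none = 1}

theorem constr_XE (m : Fin r → Fin n → ℕ) (c : Fin r → k)
    {d : Pt k (Option (Fin n)) → AlgebraicClosure k} (hd : IsPF d) (τ : Finset (Fin r)) :
    Constr (XE m c d τ) :=
  Constr.and (Constr.eq (IsPF_gbar m c τ some) hd) (Constr.eq (IsPF.coord none) IsPF.one)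

/-- the weight of the equation -/
theorem dot_rw (m : Fin r → Fin n → ℕ) (u : Fin n → ℕ) (N : ℕ) (T : Finset (Fin n))
    (v : Fin n → ℕ) (hT : ∀ i ∈ T, v i = 0) :
    ∑ i, rw' T u N (some i) * (v i : ℤ) = ((∑ i, u i * v i : ℕ) : ℤ) := by
  push_cast
  refine Finset.sum_congr rfl fun i _ => ?_
  show (if i ∈ T then (0 : ℤ) else (u i : ℤ)) * (v i : ℤ) = _
  by_cases hi : i ∈ T
  · rw [if_pos hi, hT i hi, Nat.cast_zero, mul_zero, mul_zero]
  · rw [if_neg hi]

theorem gbar_wt (m : Fin r → Fin n → ℕ) (c : Fin r → k) (u : Fin n → ℕ) (N : ℕ)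
    (T : Finset (Fin n)) (τ : Finset (Fin r)) (hτ : ∀ j ∈ τ, ∑ i, u i * m j i =
      Pool.Agent.W426.SM.gord m u) (hT : ∀ i ∈ T, ∀ j ∈ τ, m j i = 0) (l : AlgebraicClosure k)
    (hl : l ≠ 0) (z : Pt k (Option (Fin n))) :
    gbar m (cb c) τ (fun i => dact (rw' T u N) l z (some i)) =
      l ^ (Pool.Agent.W426.SM.gord m u : ℤ) * gbar m (cb c) τ (fun i => z (some i)) := by
  refine dact_gbar (fun i => rw' T u N (some i)) l hl (fun i => z (some i)) m (cb c) τ _
    fun j hj => ?_
  rw [dot_rw m u N T (m j) fun i hi => hT i hi j hj, hτ j hj]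

theorem stb_XE (m : Fin r → Fin n → ℕ) (c : Fin r → k) (u : Fin n → ℕ) (N : ℕ) (hN : 0 < N)
    (T : Finset (Fin n)) (d : Pt k (Option (Fin n)) → AlgebraicClosure k)
    (hdw : ∀ l : AlgebraicClosure k, l ^ N = 1 → ∀ z, d (dact (rw' T u N) l z) =
      l ^ (Pool.Agent.W426.SM.gord m u : ℤ) * d z)
    (τ : Finset (Fin r)) (hτ : ∀ j ∈ τ, ∑ i, u i * m j i =
      Pool.Agent.W426.SM.gord m u) (hT : ∀ i ∈ T, ∀ j ∈ τ, m j i = 0) :
    Stb (XE m c d τ) (rw' T u N) N := by
  rintro l hl z ⟨h1, h2⟩
  have hl0 := ne_zero_of_pow hN hl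
  refine ⟨?_, ?_⟩
  · rw [gbar_wt m c u N T τ hτ hT l hl0 z, hdw l hl z, h1]
  · show l ^ (N : ℤ) * z none = 1
    rw [h2, zpow_natCast, hl, one_mul]

theorem XE_step (h1 : S_EFree) (h2 : S_ESub) {m : Fin r → Fin n → ℕ} {c : Fin r → k}
    (hc : ∀ j, c j ≠ 0) (M : EMeas (sp 0 m c 1) R) {J : Finset (Fin n)} {u : Fin n → ℕ}
    {N : ℕ} (h : Dat m c J u N)
    {d : Pt k (Option (Fin n)) → AlgebraicClosure k} (hd : IsPF d)
    (hd' : ∀ z w : Pt k (Option (Fin n)), w none = z none → d w = d z)
    (hdw : ∀ T : Finset (Fin n), ∀ l : AlgebraicClosure k, l ^ N = 1 → ∀ z,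
      d (dact (rw' T u N) l z) = l ^ (Pool.Agent.W426.SM.gord m u : ℤ) * d z)
    (i : Fin n) (hi : i ∈ J) (j0 : Fin r) (hj0 : m j0 i = 1) (τ : Finset (Fin r))
    (hτ : ∀ j ∈ τ, m j i = 0)
    (hτu : ∀ j ∈ insert j0 τ, ∑ i, u i * m j i = Pool.Agent.W426.SM.gord m u) :
    M.χ _ (ZE k (free 0 m J (insert j0 τ)) (XE m c d (insert j0 τ)))
        (rw' (free 0 m J (insert j0 τ)) u N) N (bb1 J) =
      M.χ _ (ZE k J {z | z none = 1}) (rw' J u N) N (bb1 J) *
          (M.L - 1) ^ (J.card - frc m J (insert j0 τ) - 1) -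
        (M.L - 1) ^ (frc m J τ - frc m J (insert j0 τ) - 1) *
          M.χ _ (ZE k (free 0 m J τ) (XE m c d τ)) (rw' (free 0 m J τ) u N) N (bb1 J) := by
  classical
  set T := free 0 m J (insert j0 τ) with hT
  have hmem : ∀ (σ : Finset (Fin r)) (k : Fin n), k ∈ free 0 m J σ ↔ k ∈ J ∧ ∀ j ∈ σ, m j k = 0 := by
    intro σ k
    unfold free
    rw [Finset.mem_filter]
    simp
  have hiT : i ∉ T := by
    rw [hT, hmem]
    rintro ⟨-, h⟩
    have := h j0 (Finset.mem_insert_self _ _)
    omega
  have hTJ : insert i T ⊆ J := by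
    intro k hk
    rcases Finset.mem_insert.1 hk with rfl | hk
    · exact hi
    · exact ((hmem _ k).1 hk).1
  have hTτ : insert i T ⊆ free 0 m J τ := by
    intro k hk
    rw [hmem]
    rcases Finset.mem_insert.1 hk with rfl | hk
    · exact ⟨hi, hτ⟩
    · exact ⟨((hmem _ k).1 hk).1, fun j hj => ((hmem _ k).1 hk).2 j (Finset.mem_insert_of_mem hj)⟩
  have hτJ : free 0 m J τ ⊆ J := fun k hk => ((hmem _ k).1 hk).1
  have hcard : (insert i T).card = frc m J (insert j0 τ) + 1 := by
    rw [Finset.card_insert_of_notMem hiT]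
    rfl
  have hTm : ∀ i ∈ T, ∀ j ∈ insert j0 τ, m j i = 0 := fun k hk j hj => ((hmem _ k).1 hk).2 j hj
  have hiTm : ∀ k ∈ insert i T, ∀ j ∈ τ, m j k = 0 := fun k hk j hj =>
    ((hmem _ k).1 (hTτ hk)).2 j hj
  have hTm' : ∀ k ∈ T, ∀ j ∈ τ, m j k = 0 := fun k hk j hj =>
    hTm k hk j (Finset.mem_insert_of_mem hj)
  have hτu' : ∀ j ∈ τ, ∑ i, u i * m j i = Pool.Agent.W426.SM.gord m u := fun j hj =>
    hτu j (Finset.mem_insert_of_mem hj)
  set g : Pt k (Option (Fin n)) → AlgebraicClosure k := fun z => gbar m (cb c) τ (fun k => z (some k))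
    with hg
  have hgPF : IsPF g := IsPF_gbar m c τ some
  have hginv : ∀ z w : Pt k (Option (Fin n)), (∀ k, k ∉ free 0 m J τ → w (some k) = z (some k)) →
      g w = g z := by
    intro z w hzw
    refine gbar_update m (cb c) τ _ _ fun k hk => hzw k fun hk' => ?_
    obtain ⟨j, hj, hjk⟩ := hk
    exact hjk (((hmem _ k).1 hk').2 j hj)
  have hgi : ∀ z w : Pt k (Option (Fin n)), (∀ k, k ≠ i → w (some k) = z (some k)) →
      g w = g z := by
    intro z w hzw
    refine gbar_update m (cb c) τ _ _ fun k hk => hzw k ?_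
    rintro rfl
    obtain ⟨j, hj, hjk⟩ := hk
    exact hjk (hτ j hj)
  -- the two pieces
  have hE0 : Constr {z : Pt k (Option (Fin n)) | z none = 1} := Constr.eq (IsPF.coord none) IsPF.one
  have hH1 : Constr (XE m c d τ) := constr_XE m c hd τ
  have hH2 : Constr {z : Pt k (Option (Fin n)) | g z ≠ d z ∧ z none = 1} :=
    Constr.and (Constr.ne hgPF hd) hE0
  have hsE : ∀ T', Stb {z : Pt k (Option (Fin n)) | z none = 1} (rw' T' u N) N := by
    intro T' l hl z hz
    show l ^ (N : ℤ) * z none = 1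
    rw [show z none = 1 from hz, zpow_natCast, hl, one_mul]
  have hs1 : ∀ T', (∀ k ∈ T', ∀ j ∈ τ, m j k = 0) → Stb (XE m c d τ) (rw' T' u N) N :=
    fun T' hT' => stb_XE m c u N h.N_pos T' d (hdw T') τ hτu' hT'
  have hs2 : ∀ T', (∀ k ∈ T', ∀ j ∈ τ, m j k = 0) →
      Stb {z : Pt k (Option (Fin n)) | g z ≠ d z ∧ z none = 1} (rw' T' u N) N := by
    intro T' hT' l hl z hz
    have hl0 := ne_zero_of_pow h.N_pos hl
    refine ⟨?_, hsE T' l hl z hz.2⟩
    show gbar m (cb c) τ (fun i => dact (rw' T' u N) l z (some i)) ≠ d (dact (rw' T' u N) l z)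
    rw [gbar_wt m c u N T' τ hτu' hT' l hl0 z, hdw T' l hl z]
    intro h'
    exact hz.1 (mul_left_cancel₀ (zpow_ne_zero _ hl0) h')
  have hadd : M.χ _ (ZE k (insert i T) {z | z none = 1}) (rw' (insert i T) u N) N (bb1 J) =
      M.χ _ (ZE k (insert i T) (XE m c d τ)) (rw' (insert i T) u N) N (bb1 J) +
        M.χ _ (ZE k (insert i T) {z | g z ≠ d z ∧ z none = 1}) (rw' (insert i T) u N) N
          (bb1 J) := by
    rw [← M.add _ _ _ _ _ (valid_ZE h _ hH1 (hs1 _ hiTm)) (valid_ZE h _ hH2 (hs2 _ hiTm))]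
    · congr 1
      ext z
      simp only [ZE, XE, Set.mem_union, Set.mem_ofPred_eq]
      constructor
      · rintro ⟨b, c, e⟩
        by_cases h : g z = d z
        · exact Or.inl ⟨b, c, h, e⟩
        · exact Or.inr ⟨b, c, h, e⟩
      · rintro (⟨b, c, -, e⟩ | ⟨b, c, -, e⟩)
        · exact ⟨b, c, e⟩
        · exact ⟨b, c, e⟩
    · rw [Set.disjoint_left]
      rintro z ⟨-, -, h, -⟩ ⟨-, -, h', -⟩
      exact h' h
  have hn1 := ZE_norm h1 M h (insert i T) J hTJ (Finset.Subset.refl _) hE0 (hsE _)
    (fun z w hn _ hz => by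
      change w none = 1
      rw [hn]
      exact hz)
  have hn2 := ZE_norm h1 M h (insert i T) (free 0 m J τ) hTτ hτJ hH1 (hs1 _ hiTm)
    (fun z w hn hk hz => by
      refine ⟨?_, ?_⟩
      · rw [hd' z w hn]
        refine Eq.trans ?_ hz.1
        exact hginv z w hk
      · rw [hn]
        exact hz.2)
  -- the substitution
  set a : Pt k (Option (Fin n)) → AlgebraicClosure k := fun z =>
    cb c j0 * ∏ k ∈ Finset.univ.erase i, z (some k) ^ m j0 k with ha
  have haPF : IsPF a := (IsPF_cb c j0).mul (IsPF.prod _ _ fun k _ => (IsPF.coord _).pow _)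
  have hup : ∀ (z : Pt k (Option (Fin n))) (b : AlgebraicClosure k) (k' : Fin n), k' ≠ i →
      Function.update z (some i) b (some k') = z (some k') := fun z a k hk =>
    Function.update_of_ne (fun h => hk (Option.some_injective _ h)) _ _
  have hupn : ∀ (z : Pt k (Option (Fin n))) (b : AlgebraicClosure k),
      Function.update z (some i) b none = z none := fun z a =>
    Function.update_of_ne (fun h => Option.some_ne_none _ h.symm) _ _
  have hgup : ∀ (z : Pt k (Option (Fin n))) (b : AlgebraicClosure k),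
      g (Function.update z (some i) b) = g z := fun z b => hgi z _ fun k' hk => hup z b k' hk
  set ρ : Option (Fin n) → ℤ := Function.update (rw' T u N) (some i)
    (Pool.Agent.W426.SM.gord m u : ℤ) with hρ
  have hρ1 : ∀ o, o ≠ some i → ρ o = rw' T u N o := fun o ho => Function.update_of_ne ho _ _
  have hρ2 : ρ (some i) = (Pool.Agent.W426.SM.gord m u : ℤ) := Function.update_self _ _ _
  obtain ⟨hval, hzero⟩ := ZE_zero M h T i hi hiT ρ hρ1 hH2 (hs2 _ hTm')
    (fun z w hn hk hz => by
      refine ⟨?_, ?_⟩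
      · rw [hd' z w hn, hgi z w hk]
        exact hz.1
      · rw [hn]
        exact hz.2)
  have hwt : ∑ k' ∈ Finset.univ.erase i, rw' T u N (some k') * (m j0 k' : ℤ) =
      ρ (some i) - rw' T u N (some i) := by
    have e1 := dot_rw m u N T (m j0) fun k' hk => hTm k' hk j0 (Finset.mem_insert_self _ _)
    rw [hτu j0 (Finset.mem_insert_self _ _),
      ← Finset.add_sum_erase _ _ (Finset.mem_univ i), hj0] at e1
    rw [hρ2, ← e1]
    push_cast
    ring
  have hsub : M.χ _ (ZE k T (XE m c d (insert j0 τ))) (rw' T u N) N (bb1 J) =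
      M.χ _ {z : Pt k (Option (Fin n)) | (∀ k, k ≠ i → z (some k) ≠ 0) ∧
        (∀ k ∈ T, z (some k) = 1) ∧ z (some i) = 0 ∧
          z ∈ {z : Pt k (Option (Fin n)) | g z ≠ d z ∧ z none = 1}} ρ N (bb1 J) := by
    refine h2 M _ _ _ _ N _ (some i) a (fun z => g z - d z) (valid_ZE h T (constr_XE m c hd _)
      (stb_XE m c u N h.N_pos T d (hdw T) _ hτu hTm)) hval hρ1 ?_ haPF (hgPF.sub hd) ?_ ?_ ?_ ?_ ?_ ?_ ?_
    · intro i' hj
      unfold bb1 at hj
      split_ifs at hj with h0
      rw [Option.some_injective _ (Option.some.inj hj)] at h0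
      exact h0 hi
    · intro z w
      simp only [ha]
      congr 1
      refine Finset.prod_congr rfl fun k' hk => ?_
      rw [hup z w k' (Finset.ne_of_mem_erase hk)]
    · intro z w
      beta_reduce
      rw [hgup, hd' z _ (hupn z w)]
    · intro l hl z
      have hl0 := ne_zero_of_pow h.N_pos hl
      simp only [ha, dact, mul_pow, Finset.prod_mul_distrib]
      rw [← hwt, Pool.Agent.W605.MEInd.zpow_sum' l hl0]
      have e2 : ∏ k' ∈ Finset.univ.erase i, (l ^ rw' T u N (some k')) ^ m j0 k' =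
          ∏ k' ∈ Finset.univ.erase i, l ^ (rw' T u N (some k') * (m j0 k' : ℤ)) :=
        Finset.prod_congr rfl fun k' _ => by rw [zpow_mul, zpow_natCast]
      rw [e2]
      ring
    · intro l hl z
      have hl0 := ne_zero_of_pow h.N_pos hl
      beta_reduce
      have e1 : g (dact (rw' T u N) l z) = l ^ (Pool.Agent.W426.SM.gord m u : ℤ) * g z :=
        gbar_wt m c u N T τ hτu' hTm' l hl0 z
      rw [e1, hdw T l hl z, hρ2]
      ring
    · rintro z ⟨h, -, -⟩
      refine mul_ne_zero ?_ (Finset.prod_ne_zero_iff.2 fun k _ => pow_ne_zero _ (h k))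
      exact (map_ne_zero _).2 (hc j0)
    · rintro z ⟨h, -, -⟩
      refine mul_ne_zero ?_ (Finset.prod_ne_zero_iff.2 fun k hk =>
        pow_ne_zero _ (h k (Finset.ne_of_mem_erase hk)))
      exact (map_ne_zero _).2 (hc j0)
    · intro z haz
      have hsp : gbar m (cb c) (insert j0 τ) (fun k => z (some k)) = a z * z (some i) + g z :=
        gbar_split m (cb c) τ i j0 hj0 hτ _
      constructor
      · rintro ⟨p2, p3, p4, p5⟩
        rw [hsp] at p4
        refine ⟨fun k hk => ?_, fun k hk => ?_, ?_, ?_, ?_⟩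
        · rw [hup z _ k hk]
          exact p2 k
        · rw [hup z _ k fun h => hiT (h ▸ hk)]
          exact p3 k hk
        · rw [Function.update_self]
          linear_combination p4
        · rw [hgup, hd' z _ (hupn z _)]
          intro h
          rw [h] at p4
          have : a z * z (some i) = 0 := by linear_combination p4
          rcases mul_eq_zero.1 this with h' | h'
          · exact haz h'
          · exact p2 i h'
        · rw [hupn]
          exact p5
      · rintro ⟨p2, p3, p4, p5, p6⟩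
        rw [Function.update_self] at p4
        rw [hgup, hd' z _ (hupn z _)] at p5
        rw [hupn] at p6
        refine ⟨fun k => ?_, fun k hk => ?_, ?_, p6⟩
        · by_cases hk : k = i
          · rw [hk]
            intro h
            rw [h, mul_zero, zero_add] at p4
            exact p5 (sub_eq_zero.1 p4)
          · have := p2 k hk
            rwa [hup z _ k hk] at this
        · have := p3 k hk
          rwa [hup z _ k fun h => hiT (h ▸ hk)] at this
        · rw [hsp]
          linear_combination p4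
  rw [hsub, hzero]
  rw [hcard] at hn1 hn2
  have e1 : J.card - (frc m J (insert j0 τ) + 1) = J.card - frc m J (insert j0 τ) - 1 := by omega
  have e2 : (free 0 m J τ).card - (frc m J (insert j0 τ) + 1) =
      frc m J τ - frc m J (insert j0 τ) - 1 := by
    change frc m J τ - (frc m J (insert j0 τ) + 1) = _
    omega
  rw [e1] at hn1
  rw [e2] at hn2
  linear_combination hn1 - hn2 - hadd

end Pool.Agent.TH216.MC
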