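import Pool.Agent.TH216.MF.MotH

set_option autoImplicit false

/-! The class of the jets, with given classes of the bases (adapted from
`Pool.Agent.W425.MM.EMot`). -/

namespace Pool.Agent.TH216.MC

open MvPolynomial
open Pool.Agent.W428.MOT Pool.Agent.W749.MT Pool.Agent.W749.ME
open Pool.Agent.W426.SM (gord ford IsRay face)
open Pool.Agent.W425.MM Pool.Agent.W425.MM.EMot
open Pool.Agent.W375.MT

theorem eSumP (h1 : S_EJet) (h2 : S_EShift) (h3 : S_ECond) (h4 : S_EStB1) (h5 : S_EStC1)
    {k : Type} [Field k] [CharZero k] {n r : ℕ} (A : Fin n → ℕ) (m : Fin r → Fin n → ℕ)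
    (c : Fin r → k) (e : ℕ) {R : Type} [CommRing R] (M : EMeas (sp A m c e) R)
    (hNon : Mot.NonG m c) (hr : 0 < r) (he : 0 < e) (Y : R) (hY : M.L * Y = 1)
    (b0 b1 : Finset (Fin n) → Finset (Fin r) → R)
    (hb : ∀ (J : Finset (Fin n)) (τ : Finset (Fin r)) (u : Fin n → ℕ), Adm J u → amin m u = τ →
      (0 < ford A m e u →
        M.χ _ (EB0 A m c e J τ) (bw A m J τ u) (ford A m e u) (bb J) = b0 J τ) ∧
      ∀ l, 1 ≤ l →
        M.χ _ (EB1 A m c e J τ) (bw1 A m J τ u l) (ford A m e u + e * l) (bb1 J) = b1 J τ)
    (N : ℕ) (hN : 1 ≤ N) :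
    M.χ _ (JetE (sp A m c e) N) (jw n N) N (jb n N) * Y ^ (n * N) =
      ∑ J : Finset (Fin n), ∑ τ : Finset (Fin r), M.L ^ (free A m J τ).card *
        (b0 J τ * Polynomial.eval₂ (Int.castRingHom R) Y (cp A m e J τ N N) +
          ∑ l ∈ Finset.Icc 1 N, if e * l ≤ N then
            b1 J τ * Y ^ l *
              Polynomial.eval₂ (Int.castRingHom R) Y (cp A m e J τ N (N - e * l)) else 0) := by
  classical
  set P := (Fintype.piFinset fun _ : Fin n => Finset.range (N + 2)) with hP
  have key : ∀ J : Finset (Fin n), ∀ u ∈ P.filter (Adm J),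
      M.χ (Fin n × Fin (2 * N + 1 + 1)) (stratE (sp A m c e) N u) (jw n (2 * N + 1)) N
        (jb n (2 * N + 1)) * Y ^ (n * (2 * N + 1)) =
      M.L ^ (free A m J (amin m u)).card * (b0 J (amin m u) *
        (if ford A m e u = N then
          Polynomial.eval₂ (Int.castRingHom R) Y (wt A m J (amin m u) N u) else 0) +
        ∑ l ∈ Finset.Icc 1 N, if e * l ≤ N then
          b1 J (amin m u) * Y ^ l *
            (if ford A m e u = N - e * l then
              Polynomial.eval₂ (Int.castRingHom R) Y (wt A m J (amin m u) N u) else 0)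
          else 0) := by
    intro J u hu
    rw [Finset.mem_filter, Fintype.mem_piFinset] at hu
    obtain ⟨hu1, hA⟩ := hu
    have hu' : ∀ i, u i ≤ N + 1 := by
      intro i
      have := Finset.mem_range.1 (hu1 i)
      omega
    rw [h2 M N hN u hu']
    have hV := yE_valid (sp A m c e) N hN u
    have hset : (Y0E k N u ∩ {y | ∀ j ≤ N, PowerSeries.coeff j
        (aeval (fun i => PowerSeries.X ^ u i * arc y i) (sp A m c e)) =
          if j = N then 1 else 0}) =
        Y0E k N u ∩ {y | ∃ l, ford A m e u + e * l = N ∧
          (∀ k < l, PowerSeries.coeff k (gser m (cb c) (del m u) (arc y)) = 0) ∧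
          (∏ i, y (i, 0) ^ A i) *
            (PowerSeries.coeff l (gser m (cb c) (del m u) (arc y))) ^ e = 1} := by
      ext y
      simp only [Set.mem_inter_iff, Set.mem_ofPred_eq]
      constructor
      · rintro ⟨ha, hb⟩
        exact ⟨ha, (h3 A m c e hr he N hN u hu' y ha).1 hb⟩
      · rintro ⟨ha, hb⟩
        exact ⟨ha, (h3 A m c e hr he N hN u hu' y ha).2 hb⟩
    rw [hset]
    rw [hset] at hV
    have hw := weight_eq A m J (amin m u) N u hu' M.L Y hY
    by_cases hex : ∃ l, ford A m e u + e * l = N
    · obtain ⟨l, hl⟩ := hex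
      have huniq : ∀ l', ford A m e u + e * l' = N → l' = l := by
        intro l' hl'
        have : e * l' = e * l := by omega
        exact Nat.eq_of_mul_eq_mul_left he this
      have hset2 : (Y0E k N u ∩ {y | ∃ l, ford A m e u + e * l = N ∧
          (∀ k < l, PowerSeries.coeff k (gser m (cb c) (del m u) (arc y)) = 0) ∧
          (∏ i, y (i, 0) ^ A i) *
            (PowerSeries.coeff l (gser m (cb c) (del m u) (arc y))) ^ e = 1}) =
          Y0E k N u ∩ {y | (∀ k < l, PowerSeries.coeff k (gser m (cb c) (del m u) (arc y)) = 0) ∧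
          (∏ i, y (i, 0) ^ A i) *
            (PowerSeries.coeff l (gser m (cb c) (del m u) (arc y))) ^ e = 1} := by
        ext y
        simp only [Set.mem_inter_iff, Set.mem_ofPred_eq]
        constructor
        · rintro ⟨ha, l', hl', hb⟩
          rw [huniq l' hl'] at hb
          exact ⟨ha, hb⟩
        · rintro ⟨ha, hb⟩
          exact ⟨ha, l, hl, hb⟩
      rw [hset2]
      rcases Nat.eq_zero_or_pos l with rfl | hlpos
      · have hN' : ford A m e u = N := by omega
        have h6 := h4 A m c e M hr he J N hN u hA hu' hN'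
        simp only [Nat.not_lt_zero, false_implies, implies_true, true_and]
        have h7 := (hb J (amin m u) u hA rfl).1 (by omega)
        rw [hN'] at h7
        rw [h6, h7, if_pos hN']
        have hz : (∑ l ∈ Finset.Icc 1 N, if e * l ≤ N then
          b1 J (amin m u) * Y ^ l *
            (if ford A m e u = N - e * l then
              Polynomial.eval₂ (Int.castRingHom R) Y (wt A m J (amin m u) N u) else 0)
          else 0) = 0 := by
          refine Finset.sum_eq_zero fun l hl1 => ?_
          rw [Finset.mem_Icc] at hl1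
          have hel : 0 < e * l := Nat.mul_pos he (by omega)
          split_ifs with h7 h8
          · exfalso
            omega
          · rw [mul_zero]
          · rfl
        rw [hz, add_zero]
        linear_combination (b0 J (amin m u)) * hw
      · have h6 := h5 A m c e M hNon hr he J N hN u hA hu' l hlpos hl
        have h7 := (hb J (amin m u) u hA rfl).2 l hlpos
        rw [hl] at h7
        rw [h7] at h6
        have hel : 0 < e * l := Nat.mul_pos he hlpos
        have hlN : l ≤ N := le_trans (Nat.le_mul_of_pos_left l he) (by omega)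
        rw [if_neg (by omega), mul_zero, zero_add]
        have hz : (∑ l ∈ Finset.Icc 1 N, if e * l ≤ N then
          b1 J (amin m u) * Y ^ l *
            (if ford A m e u = N - e * l then
              Polynomial.eval₂ (Int.castRingHom R) Y (wt A m J (amin m u) N u) else 0)
          else 0) = b1 J (amin m u) * Y ^ l *
              Polynomial.eval₂ (Int.castRingHom R) Y (wt A m J (amin m u) N u) := by
          rw [Finset.sum_eq_single l]
          · rw [if_pos (by omega), if_pos (by omega)]
          · intro l' _ hne
            split_ifs with h7 h8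
            · exact absurd (huniq l' (by omega)) hne
            · rw [mul_zero]
            · rfl
          · intro h9
            exact absurd (Finset.mem_Icc.2 ⟨hlpos, hlN⟩) h9
        rw [hz]
        have h10 : M.L ^ l * Y ^ l = 1 := by rw [← mul_pow, hY, one_pow]
        have h11 : M.χ _ (Y0E k N u ∩ {y |
            (∀ k < l, PowerSeries.coeff k (gser m (cb c) (del m u) (arc y)) = 0) ∧
            (∏ i, y (i, 0) ^ A i) *
              (PowerSeries.coeff l (gser m (cb c) (del m u) (arc y))) ^ e = 1})
              (yw (2 * N + 1) u) N (yb (2 * N + 1) u) =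
            (b1 J (amin m u) *
            (M.L - 1) ^ ((free A m J (amin m u)).filter fun i => u i ≤ N).card *
            M.L ^ ((free A m J (amin m u)).filter fun i => ¬ u i ≤ N).card *
            M.L ^ (∑ i, (2 * N + 1 - u i))) * Y ^ l := by
          rw [← h6, mul_assoc, h10, mul_one]
        rw [h11]
        linear_combination (b1 J (amin m u) * Y ^ l) * hw
    · have hset2 : (Y0E k N u ∩ {y | ∃ l, ford A m e u + e * l = N ∧
          (∀ k < l, PowerSeries.coeff k (gser m (cb c) (del m u) (arc y)) = 0) ∧
          (∏ i, y (i, 0) ^ A i) *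
            (PowerSeries.coeff l (gser m (cb c) (del m u) (arc y))) ^ e = 1}) = ∅ := by
        ext y
        simp only [Set.mem_inter_iff, Set.mem_ofPred_eq, Set.mem_empty_iff_false, iff_false]
        rintro ⟨-, l, hl, -⟩
        exact hex ⟨l, hl⟩
      rw [hset2, echi_empty M hV, zero_mul, if_neg (fun h => hex ⟨0, by simpa using h⟩), mul_zero,
        zero_add]
      have hz : (∑ l ∈ Finset.Icc 1 N, if e * l ≤ N then
        b1 J (amin m u) * Y ^ l *
          (if ford A m e u = N - e * l then
            Polynomial.eval₂ (Int.castRingHom R) Y (wt A m J (amin m u) N u) else 0)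
        else 0) = 0 := by
        refine Finset.sum_eq_zero fun l _ => ?_
        split_ifs with h7 h8
        · exact absurd ⟨l, by omega⟩ hex
        · rw [mul_zero]
        · rfl
      rw [hz, mul_zero]
  have hJet := h1 M N hN
  have e1 : M.χ _ (JetE (sp A m c e) N) (jw n N) N (jb n N) * Y ^ (n * N) =
      (M.χ (Fin n × Fin (N + 1)) (JetE (sp A m c e) N) (jw n N) N (jb n N) *
        M.L ^ (n * (N + 1))) * Y ^ (n * (2 * N + 1)) := by
    have h12 : M.L ^ (n * (N + 1)) * Y ^ (n * (2 * N + 1)) = Y ^ (n * N) := by
      have h13 : n * (2 * N + 1) = n * (N + 1) + n * N := by ring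
      rw [h13, pow_add, ← mul_assoc, ← mul_pow, hY, one_pow, one_mul]
    rw [mul_assoc, h12]
  rw [e1, hJet, Finset.sum_mul]
  rw [← Finset.sum_fiberwise P (fun u => (Finset.univ.filter fun i => u i ≠ 0 : Finset (Fin n)))]
  refine Finset.sum_congr rfl fun J _ => ?_
  have hfil : P.filter (fun u => (Finset.univ.filter fun i => u i ≠ 0 : Finset (Fin n)) = J) =
      P.filter (Adm J) := by
    refine Finset.filter_congr fun u _ => ?_
    constructor
    · intro h i
      rw [← h]
      simp
    · intro h
      ext i
      simp only [Finset.mem_filter, Finset.mem_univ, true_and]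
      exact h i
  rw [hfil, Finset.sum_congr rfl (key J)]
  rw [← Finset.sum_fiberwise (P.filter (Adm J)) (fun u => amin m u)]
  refine Finset.sum_congr rfl fun τ _ => ?_
  have e2 : ∀ u ∈ (P.filter (Adm J)).filter (fun u => amin m u = τ),
      (M.L ^ (free A m J (amin m u)).card * (b0 J (amin m u) *
        (if ford A m e u = N then
          Polynomial.eval₂ (Int.castRingHom R) Y (wt A m J (amin m u) N u) else 0) +
        ∑ l ∈ Finset.Icc 1 N, if e * l ≤ N then
          b1 J (amin m u) * Y ^ l *
            (if ford A m e u = N - e * l then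
              Polynomial.eval₂ (Int.castRingHom R) Y (wt A m J (amin m u) N u) else 0)
          else 0)) = M.L ^ (free A m J τ).card * (b0 J τ *
        (if ford A m e u = N then
          Polynomial.eval₂ (Int.castRingHom R) Y (wt A m J τ N u) else 0) +
        ∑ l ∈ Finset.Icc 1 N, if e * l ≤ N then
          b1 J τ * Y ^ l *
            (if ford A m e u = N - e * l then
              Polynomial.eval₂ (Int.castRingHom R) Y (wt A m J τ N u) else 0)
          else 0) := by
    intro u hu
    rw [(Finset.mem_filter.1 hu).2]
  rw [Finset.sum_congr rfl e2, ← Finset.mul_sum, Finset.sum_add_distrib, ← Finset.mul_sum,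
    Finset.sum_comm, ev_cp]
  congr 2
  refine Finset.sum_congr rfl fun l _ => ?_
  split_ifs with h7
  · rw [← Finset.mul_sum, ev_cp]
  · exact Finset.sum_const_zero

end Pool.Agent.TH216.MC
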