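import Pool.Agent.TH216.MF.MotI

set_option autoImplicit false

/-! Equivariant motivic zeta functions of nondegenerate polynomials without the bad rays. -/

namespace Pool.Agent.TH216.MC

open MvPolynomial
open Pool.Agent.W428.MOT Pool.Agent.W749.MT Pool.Agent.W749.ME
open Pool.Agent.W605.MEInd (dact_gbar dact_prod ne_zero_of_pow bw_m valid0)
open Pool.Agent.TH216.MF (frc frc_le free_step cser cf Psi Omg Gd fac IsPol KRelJ RecJ formal ratR
  inRat_J FR evR geoR_mul)
open Pool.Agent.W426.SM (gord ford IsRay face)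
open Pool.Agent.W425.MM
open Pool.Agent.W375.MT (echi_empty)

section
variable {k : Type} [Field k] {n r : ℕ} {R : Type} [CommRing R]

/-- the class of `XE` -/
def cX {m : Fin r → Fin n → ℕ} {c : Fin r → k} (M : EMeas (sp 0 m c 1) R) (J : Finset (Fin n))
    (d : Pt k (Option (Fin n)) → AlgebraicClosure k) (τ : Finset (Fin r)) (u : Fin n → ℕ)
    (N : ℕ) : R :=
  M.χ _ (ZE k (free 0 m J τ) (XE m c d τ)) (rw' (free 0 m J τ) u N) N (bb1 J)

theorem free_zero (m : Fin r → Fin n → ℕ) (J : Finset (Fin n)) (τ : Finset (Fin r)) (i : Fin n)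
    (hi : i ∈ free 0 m J τ) (j : Fin r) (hj : j ∈ τ) : m j i = 0 :=
  (Finset.mem_filter.1 hi).2.2 j hj

/-- independence of `u` -/
theorem cX_ind (hTw : S_ETw) {m : Fin r → Fin n → ℕ} {c : Fin r → k}
    (M : EMeas (sp 0 m c 1) R) {J : Finset (Fin n)} {u u' : Fin n → ℕ} {N N' : ℕ}
    (h : Dat m c J u N) (h' : Dat m c J u' N')
    {d : Pt k (Option (Fin n)) → AlgebraicClosure k} (hd : IsPF d) (τ : Finset (Fin r))
    (hτ : ∀ j ∈ τ, ∑ i, u i * m j i = gord m u) (hτ' : ∀ j ∈ τ, ∑ i, u' i * m j i = gord m u')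
    (hdw : ∀ l : AlgebraicClosure k, l ^ N = 1 → ∀ z,
      d (dact (rw' (free 0 m J τ) u N) l z) = l ^ (gord m u : ℤ) * d z)
    (hdw' : ∀ l : AlgebraicClosure k, l ^ N' = 1 → ∀ z,
      d (dact (rw' (free 0 m J τ) u' N') l z) = l ^ (gord m u' : ℤ) * d z)
    (hds : ∀ s : AlgebraicClosure k, s ≠ 0 → ∀ z, d (dact (fun o => (N' : ℤ) *
      rw' (free 0 m J τ) u N o - N * rw' (free 0 m J τ) u' N' o) s z) =
        s ^ ((N' : ℤ) * gord m u - N * gord m u') * d z) :
    cX M J d τ u N = cX M J d τ u' N' := by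
  have hfz := free_zero m J τ
  refine hTw M _ _ _ _ _ _
    (valid_ZE h _ (constr_XE m c hd τ) (stb_XE m c u N h.N_pos _ d hdw τ hτ hfz))
    (valid_ZE h' _ (constr_XE m c hd τ) (stb_XE m c u' N' h'.N_pos _ d hdw' τ hτ' hfz)) ?_ ?_
  · intro z hz o _
    cases o with
    | none =>
      rw [hz.2.2.2]
      exact one_ne_zero
    | some i => exact hz.1 i
  · rintro s hs z ⟨h1, h2, h3, h4⟩
    refine ⟨fun i => mul_ne_zero (zpow_ne_zero _ hs) (h1 i), fun i hi => ?_, ?_, ?_⟩
    · show s ^ ((N' : ℤ) * (if i ∈ free 0 m J τ then (0 : ℤ) else (u i : ℤ)) -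
        N * (if i ∈ free 0 m J τ then (0 : ℤ) else (u' i : ℤ))) * z (some i) = 1
      rw [if_pos hi, if_pos hi, mul_zero, mul_zero, sub_zero, zpow_zero, one_mul]
      exact h2 i hi
    · rw [hds s hs z, ← h3]
      refine dact_gbar (fun i => (N' : ℤ) * rw' (free 0 m J τ) u N (some i) -
        N * rw' (free 0 m J τ) u' N' (some i)) s hs (fun i => z (some i)) m (cb c) τ _
        fun j hj => ?_
      have e1 := dot_rw m u N (free 0 m J τ) (m j) fun i hi => hfz i hi j hj
      have e2 := dot_rw m u' N' (free 0 m J τ) (m j) fun i hi => hfz i hi j hj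
      rw [hτ j hj] at e1
      rw [hτ' j hj] at e2
      rw [← e1, ← e2, Finset.mul_sum, Finset.mul_sum, ← Finset.sum_sub_distrib]
      exact Finset.sum_congr rfl fun i _ => by ring
    · show s ^ ((N' : ℤ) * (N : ℤ) - N * (N' : ℤ)) * z none = 1
      rw [h4, mul_one, mul_comm, sub_self, zpow_zero]

theorem bw1_eq (m : Fin r → Fin n → ℕ) (J : Finset (Fin n)) (τ : Finset (Fin r)) (u : Fin n → ℕ)
    (l : ℕ) : bw1 0 m J τ u l = rw' (free 0 m J τ) u (gord m u + l) := by
  funext o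
  cases o with
  | none =>
    show (gord m u : ℤ) + l = ((gord m u + l : ℕ) : ℤ)
    push_cast
    rfl
  | some i => rfl

theorem EB1_eq (m : Fin r → Fin n → ℕ) (c : Fin r → k) (J : Finset (Fin n)) (τ : Finset (Fin r)) :
    EB1 0 m c 1 J τ = ZE k (free 0 m J τ) (XE m c (fun _ => 0) τ) := by
  ext z
  simp only [EB1, ZE, XE, Set.mem_ofPred_eq, Pi.zero_apply, pow_zero, Finset.prod_const_one,
    pow_one, one_mul]

theorem ford_eq (m : Fin r → Fin n → ℕ) (u : Fin n → ℕ) : ford 0 m 1 u = gord m u := by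
  unfold ford
  simp

theorem EB0_eq {m : Fin r → Fin n → ℕ} {c : Fin r → k}
    (M : EMeas (sp 0 m c 1) R) {J : Finset (Fin n)} {u : Fin n → ℕ} (hJ : Adm J u)
    (hg : 0 < gord m u) (τ : Finset (Fin r)) (hu : amin m u = τ) :
    M.χ _ (EB0 0 m c 1 J τ) (bw 0 m J τ u) (gord m u) (bb J) =
      cX M J (fun z => z none) τ u (gord m u) := by
  have hdat : Dat m c J u (gord m u) := ⟨hJ, hg, hg⟩
  have hτ : ∀ j ∈ τ, ∑ i, u i * m j i = gord m u := fun j hj => by
    rw [← hu] at hj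
    exact (mem_amin m u j).1 hj
  have hfz := free_zero m J τ
  have hdw : ∀ l : AlgebraicClosure k, l ^ gord m u = 1 → ∀ z : Pt k (Option (Fin n)),
      dact (rw' (free 0 m J τ) u (gord m u)) l z none = l ^ (gord m u : ℤ) * z none :=
    fun l _ z => rfl
  have hv0 := valid0 0 m c 1 one_pos J τ u hJ hu (by rw [ford_eq]; exact hg)
  rw [ford_eq] at hv0
  have hE0 : ∀ z : Pt k (Fin n), z ∈ EB0 0 m c 1 J τ ↔ (∀ i, z i ≠ 0) ∧
      (∀ i ∈ free 0 m J τ, z i = 1) ∧ gbar m (cb c) τ z = 1 := by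
    intro z
    simp only [EB0, Set.mem_ofPred_eq, Pi.zero_apply, pow_zero, Finset.prod_const_one,
      pow_one, one_mul]
  refine M.iso _ _ _ _ _ _ _ _ hv0
    (valid_ZE hdat _ (constr_XE m c (IsPF.coord none) τ)
      (stb_XE m c u _ hg _ (fun z => z none) hdw τ hτ hfz))
    (fun z o => o.elim (gbar m (cb c) τ z) z) (fun z i => z (some i))
    (regularOn_poly (fun o => ?_) _) (regularOn_poly (fun i => IsPF.coord _) _) ?_ ?_ ?_ ?_ ?_ ?_
  · rcases o with _ | i
    · exact IsPF_gbar m c τ id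
    · exact IsPF.coord i
  · intro z hz
    obtain ⟨h1, h2, h3⟩ := (hE0 z).1 hz
    exact ⟨h1, h2, rfl, h3⟩
  · rintro z ⟨h1, h2, h3, h4⟩
    refine (hE0 _).2 ⟨h1, h2, ?_⟩
    rw [← h4]
    exact h3
  · rintro z -
    rfl
  · rintro z ⟨h1, h2, h3, h4⟩
    funext o
    rcases o with _ | i
    · exact h3
    · rfl
  · intro z _
    funext i
    unfold cbase bb bb1
    split_ifs with h
    · rfl
    · rfl
  · intro l hl z hz
    have hl0 : l ≠ 0 := ne_zero_of_pow (Nat.mul_pos hg hg) hl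
    funext o
    rcases o with _ | i
    · show gbar m (cb c) τ (dact (bw 0 m J τ u) (l ^ gord m u) z) =
        (l ^ gord m u) ^ (gord m u : ℤ) * gbar m (cb c) τ z
      exact dact_gbar _ _ (pow_ne_zero _ hl0) z m (cb c) τ _ (bw_m 0 m J τ u hu)
    · rfl

/-- **The classes of the bases and their relations.** -/
theorem ex_classes (hTw : S_ETw) (hFree : S_EFree) (hSub : S_ESub) [CharZero k]
    {m : Fin r → Fin n → ℕ} {c : Fin r → k} (hc : ∀ j, c j ≠ 0) (hr : 0 < r)
    (M : EMeas (sp 0 m c 1) R) (J : Finset (Fin n)) :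
    ∃ (b0 b1 : Finset (Fin r) → R), b0 ∅ = 0 ∧
      (∀ (τ : Finset (Fin r)) (u : Fin n → ℕ), Adm J u → amin m u = τ →
      (0 < ford 0 m 1 u →
        M.χ _ (EB0 0 m c 1 J τ) (bw 0 m J τ u) (ford 0 m 1 u) (bb J) = b0 τ) ∧
      ∀ l, 1 ≤ l →
        M.χ _ (EB1 0 m c 1 J τ) (bw1 0 m J τ u l) (ford 0 m 1 u + 1 * l) (bb1 J) = b1 τ) ∧
      (∀ i ∈ J, ∀ j0, m j0 i = 1 → ∀ τ : Finset (Fin r), (∀ j ∈ τ, m j i = 0) →
        (∃ u : Fin n → ℕ, Adm J u ∧ insert j0 τ ⊆ amin m u) →
        b0 (insert j0 τ) = b1 ∅ * (M.L - 1) ^ (J.card - frc m J (insert j0 τ) - 1) -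
          (M.L - 1) ^ (frc m J τ - frc m J (insert j0 τ) - 1) * b0 τ ∧
        b1 (insert j0 τ) = b1 ∅ * (M.L - 1) ^ (J.card - frc m J (insert j0 τ) - 1) -
          (M.L - 1) ^ (frc m J τ - frc m J (insert j0 τ) - 1) * b1 τ) := by
  classical
  by_cases hJ : ∀ u : Fin n → ℕ, Adm J u → 0 < gord m u
  · -- positive
    let Ad : Finset (Fin r) → Prop := fun τ => ∃ u : Fin n → ℕ, Adm J u ∧ τ ⊆ amin m u
    have hchoice : ∀ τ, ∃ u : Fin n → ℕ, Ad τ → (Adm J u ∧ τ ⊆ amin m u) := by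
      intro τ
      by_cases h : Ad τ
      · obtain ⟨u, hu⟩ := h
        exact ⟨u, fun _ => hu⟩
      · exact ⟨0, fun h' => absurd h' h⟩
    choose U hU using hchoice
    have hmin : ∀ {τ : Finset (Fin r)} {u : Fin n → ℕ}, τ ⊆ amin m u →
        ∀ j ∈ τ, ∑ i, u i * m j i = gord m u := fun h j hj => (mem_amin m _ j).1 (h hj)
    -- independence for the two functions
    have ind1 : ∀ (τ : Finset (Fin r)) (u u' : Fin n → ℕ) (N N' : ℕ), Adm J u → Adm J u' →
        τ ⊆ amin m u → τ ⊆ amin m u' → 0 < N → 0 < N' →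
        cX M J (fun _ => 0) τ u N = cX M J (fun _ => 0) τ u' N' := by
      intro τ u u' N N' hu hu' hτ hτ' hN hN'
      refine cX_ind hTw M ⟨hu, hJ u hu, hN⟩ ⟨hu', hJ u' hu', hN'⟩ IsPF.zero τ (hmin hτ)
        (hmin hτ') ?_ ?_ ?_
      · intro l _ z
        rw [mul_zero]
      · intro l _ z
        rw [mul_zero]
      · intro l _ z
        rw [mul_zero]
    have ind0 : ∀ (τ : Finset (Fin r)) (u u' : Fin n → ℕ), Adm J u → Adm J u' →
        τ ⊆ amin m u → τ ⊆ amin m u' →
        cX M J (fun z => z none) τ u (gord m u) = cX M J (fun z => z none) τ u' (gord m u') := by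
      intro τ u u' hu hu' hτ hτ'
      refine cX_ind hTw M ⟨hu, hJ u hu, hJ u hu⟩ ⟨hu', hJ u' hu', hJ u' hu'⟩ (IsPF.coord none) τ
        (hmin hτ) (hmin hτ') ?_ ?_ ?_
      · intro l _ z
        rfl
      · intro l _ z
        rfl
      · intro l _ z
        rfl
    have hw : ∀ (u : Fin n → ℕ) (N : ℕ), cX M J (fun _ => 0) (∅ : Finset (Fin r)) u N =
        M.χ _ (ZE k J {z | z none = 1}) (rw' J u N) N (bb1 J) := by
      intro u N
      unfold cX
      have e1 : free 0 m J (∅ : Finset (Fin r)) = J := by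
        unfold free
        rw [Finset.filter_true_of_mem]
        intro i _
        exact ⟨rfl, fun j hj => absurd hj (Finset.notMem_empty _)⟩
      have e2 : XE m c (fun _ => 0) (∅ : Finset (Fin r)) = {z | z none = 1} := by
        ext z
        simp [XE, gbar]
      rw [e1, e2]
    have hemp : ∀ (u : Fin n → ℕ), Adm J u →
        cX M J (fun z => z none) (∅ : Finset (Fin r)) u (gord m u) = 0 := by
      intro u hu
      unfold cX
      have e2 : ZE k (free 0 m J (∅ : Finset (Fin r)))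
          (XE m c (fun z => z none) (∅ : Finset (Fin r))) = ∅ := by
        rw [Set.eq_empty_iff_forall_notMem]
        rintro z ⟨-, -, h1, h2⟩
        rw [show gbar m (cb c) ∅ (fun i => z (some i)) = 0 from Finset.sum_empty] at h1
        beta_reduce at h1
        rw [h2] at h1
        exact zero_ne_one h1
      rw [e2]
      refine echi_empty M (S := ZE k (free 0 m J (∅ : Finset (Fin r)))
          (XE m c (fun z => z none) (∅ : Finset (Fin r)))) ?_
      exact valid_ZE (c := c) ⟨hu, hJ u hu, hJ u hu⟩ _ (constr_XE m c (IsPF.coord none) _)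
        (stb_XE m c u _ (hJ u hu) _ (fun z => z none) (fun l _ z => rfl) _
          (fun j hj => absurd hj (Finset.notMem_empty _)) (free_zero m J _))
    refine ⟨fun τ => if Ad τ then cX M J (fun z => z none) τ (U τ) (gord m (U τ)) else 0,
      fun τ => if Ad τ then cX M J (fun _ => 0) τ (U τ) (gord m (U τ)) else 0, ?_, ?_, ?_⟩
    · beta_reduce
      by_cases h : Ad ∅
      · rw [if_pos h]
        exact hemp _ (hU ∅ h).1
      · rw [if_neg h]
    · intro τ u hu hτ
      have hA : Ad τ := ⟨u, hu, by rw [hτ]⟩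
      obtain ⟨hU1, hU2⟩ := hU τ hA
      refine ⟨fun _ => ?_, fun l hl => ?_⟩
      · beta_reduce
        rw [if_pos hA, ford_eq, EB0_eq M hu (hJ u hu) τ hτ]
        exact ind0 τ u (U τ) hu hU1 (by rw [hτ]) hU2
      · beta_reduce
        rw [if_pos hA, ford_eq, EB1_eq, bw1_eq, one_mul]
        exact ind1 τ u (U τ) _ _ hu hU1 (by rw [hτ]) hU2 (by omega) (hJ _ hU1)
    · intro i hi j0 hj0 τ hτ hA'
      have hA : Ad (insert j0 τ) := hA'
      obtain ⟨hU1, hU2⟩ := hU _ hA
      set u := U (insert j0 τ) with hu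
      have hg := hJ u hU1
      have hτA : Ad τ := ⟨u, hU1, (Finset.subset_insert _ _).trans hU2⟩
      have hEA : Ad ∅ := ⟨u, hU1, Finset.empty_subset _⟩
      obtain ⟨hV1, hV2⟩ := hU τ hτA
      obtain ⟨hW1, hW2⟩ := hU ∅ hEA
      have hdat : Dat m c J u (gord m u) := ⟨hU1, hg, hg⟩
      beta_reduce
      rw [if_pos hA, if_pos hτA, if_pos hEA, if_pos hA, if_pos hτA,
        ind1 ∅ (U ∅) u (gord m (U ∅)) (gord m u) hW1 hU1 hW2 (Finset.empty_subset _) (hJ _ hW1) hg,
        hw, ind0 τ (U τ) u hV1 hU1 hV2 ((Finset.subset_insert _ _).trans hU2),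
        ind1 τ (U τ) u (gord m (U τ)) (gord m u) hV1 hU1 hV2
          ((Finset.subset_insert _ _).trans hU2) (hJ _ hV1) hg]
      refine ⟨?_, ?_⟩
      · exact XE_step hFree hSub hc M hdat (IsPF.coord none) (fun _ _ h => h)
          (fun T l _ z => rfl) i hi j0 hj0 τ hτ (hmin hU2)
      · exact XE_step hFree hSub hc M hdat IsPF.zero (fun _ _ _ => rfl)
          (fun T l _ z => by rw [mul_zero]) i hi j0 hj0 τ hτ (hmin hU2)
  · -- not positive
    push Not at hJ
    obtain ⟨u1, hu1, hg1⟩ := hJ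
    have hg1' : gord m u1 = 0 := Nat.le_zero.1 hg1
    obtain ⟨j1, hj1⟩ := amin_nonempty m u1 hr
    have hzero : ∀ i ∈ J, m j1 i = 0 := by
      intro i hi
      have h1 := (mem_amin m u1 j1).1 hj1
      rw [hg1'] at h1
      have h2 := Finset.sum_eq_zero_iff.1 h1 i (Finset.mem_univ i)
      rcases Nat.mul_eq_zero.1 h2 with h3 | h3
      · exact absurd h3 ((hu1 i).2 hi)
      · exact h3
    have hall : ∀ u : Fin n → ℕ, Adm J u → gord m u = 0 := by
      intro u hu
      have h1 := Pool.Agent.W605.MEInd.gord_le m u j1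
      have h2 : ∑ i, u i * m j1 i = 0 := by
        refine Finset.sum_eq_zero fun i _ => ?_
        by_cases hi : i ∈ J
        · rw [hzero i hi, mul_zero]
        · have : u i = 0 := by
            by_contra h
            exact hi ((hu i).1 h)
          rw [this, zero_mul]
      omega
    have hind := EMot.eInd hTw 0 m c 1 M one_pos J
    choose b0' b1' hb using hind
    refine ⟨fun _ => 0, b1', rfl, fun τ u hu hτ => ⟨fun hf => ?_, fun l hl => ?_⟩, ?_⟩
    · exfalso
      rw [ford_eq, hall u hu] at hf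
      exact lt_irrefl _ hf
    · exact (hb τ u hu hτ).2 l hl
    · rintro i hi j0 hj0 τ hτ ⟨u, hu, hsub⟩
      exfalso
      have h1 := (mem_amin m u j0).1 (hsub (Finset.mem_insert_self _ _))
      rw [hall u hu] at h1
      have h2 := Finset.sum_eq_zero_iff.1 h1 i (Finset.mem_univ i)
      rw [hj0, mul_one] at h2
      exact (hu i).2 hi h2

end

end Pool.Agent.TH216.MC
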