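import Pool.Agent.TH216.MF.MotJ

set_option autoImplicit false

/-! Equivariant motivic zeta functions of nondegenerate polynomials without the bad rays. -/

namespace Pool.Agent.TH216.MC

open MvPolynomial
open Pool.Agent.W428.MOT Pool.Agent.W749.MT Pool.Agent.W749.ME
open Pool.Agent.TH216.MF (frc frc_le free_step cser cf Psi Omg Gd fac IsPol KRelJ RecJ formal ratR
  inRat_J FR evR geoR_mul)
open Pool.Agent.W426.SM (gord ford IsRay face)
open Pool.Agent.W425.MM
open Pool.Agent.W63.MEFin (mapEMeas)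

theorem cser_zero {n r : ℕ} (m : Fin r → Fin n → ℕ) (J : Finset (Fin n)) (τ : Finset (Fin r))
    (h : ¬ ∃ u : Fin n → ℕ, Adm J u ∧ τ ⊆ amin m u) : cser m J τ = 0 := by
  ext1 M
  unfold cser
  rw [PowerSeries.coeff_mk, map_zero]
  unfold cp
  refine Finset.sum_eq_zero fun u hu => ?_
  exfalso
  obtain ⟨-, h1, h2, -⟩ := Finset.mem_filter.1 hu
  exact h ⟨u, h1, by rw [h2]⟩

/-- **Equivariant motivic zeta functions of a nondegenerate polynomial: only the rays which are not
bad.** -/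
theorem efin_bad {n r : ℕ} (m : Fin r → Fin n → ℕ) (hr0 : 0 < r) (Bad : ℚ → Prop)
    (hB : ∀ J : Finset (Fin n), ∀ q : ℕ, 2 ≤ q → ∀ e : Finset (Fin r) → ℂ, KRelJ q m J e →
      ∀ T0 : ℂ, T0 ≠ 0 → ∀ σ : ℚ, Bad σ → Real.log ‖T0‖ / Real.log q = (σ : ℝ) →
      RecJ q m e J T0) :
    ∃ S : Finset (ℤ × ℤ),
      (∀ p ∈ S, p = (-1, 1) ∨ ∃ a : Fin n → ℕ, IsRay m a ∧ 0 < gord m a ∧
        ¬ Bad (((∑ i, a i : ℕ) : ℚ) / gord m a) ∧
        p = (-((∑ i, a i : ℕ) : ℤ), (gord m a : ℤ))) ∧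
      ∀ (k : Type) [Field k] [CharZero k] (c : Fin r → k), Mot.NonG m c → (∀ j, c j ≠ 0) →
        InRat (LuMu (sp 0 m c 1)) S (zetaE (sp 0 m c 1)) := by
  classical
  have h1 : S_EK0 := Pool.Agent.W358.ME.EK0.main
  have h5 : S_CP1 := Pool.Agent.W346.MTCp1.main
  have hFree : S_EFree := Pool.Agent.W230.ME.Free.main
  have hSub : S_ESub := Pool.Agent.W366.MESub.main
  have hTay : S_Tay := Pool.Agent.W417.MT.Tay.main
  have hTw : S_ETw := Pool.Agent.W578.ME.etw
  choose l hl hG using fun J : Finset (Fin n) => formal hr0 m J Bad (hB J)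
  set S : Finset (ℤ × ℤ) := insert (-1, 1) (Finset.univ.biUnion fun J : Finset (Fin n) =>
    (l J).toFinset.image fun a => (-((∑ i, a i : ℕ) : ℤ), (gord m a : ℤ))) with hS
  have hS1 : ((-1 : ℤ), (1 : ℤ)) ∈ S := Finset.mem_insert_self _ _
  have hS2 : ∀ J, ∀ a ∈ l J, (-((∑ i, a i : ℕ) : ℤ), (gord m a : ℤ)) ∈ S :=
    fun J a ha => Finset.mem_insert_of_mem (Finset.mem_biUnion.2 ⟨J, Finset.mem_univ _,
      Finset.mem_image.2 ⟨a, List.mem_toFinset.2 ha, rfl⟩⟩)
  refine ⟨S, fun p hp => ?_, ?_⟩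
  · rcases Finset.mem_insert.1 hp with rfl | hp
    · exact Or.inl rfl
    · right
      obtain ⟨J, -, hp⟩ := Finset.mem_biUnion.1 hp
      obtain ⟨a, ha, rfl⟩ := Finset.mem_image.1 hp
      obtain ⟨ha1, ha2, ha3⟩ := hl J a (List.mem_toFinset.1 ha)
      exact ⟨a, ha1, ha2, ha3, rfl⟩
  · intro k _ _ c hNon hc
    set f : MvPolynomial (Fin n) k := sp 0 m c 1 with hfdef
    obtain ⟨M₀, hL₀, hM₀⟩ := h1 k f
    set M : EMeas (sp 0 m c 1) (MKMu f) := mapEMeas M₀ (algebraMap (K0Mu f) (MKMu f)) with hM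
    set Y : MKMu f := (((LuMu f)⁻¹ : (MKMu f)ˣ) : MKMu f) with hY
    have hML : M.L = ((LuMu f : (MKMu f)ˣ) : MKMu f) := by
      change algebraMap (K0Mu f) (MKMu f) M₀.L = _
      rw [hL₀]
      rfl
    have hL : M.L * Y = 1 := by rw [hML, Units.mul_inv]
    choose b0 b1 hb00 hb hrel using fun J : Finset (Fin n) =>
      ex_classes hTw hFree hSub hc hr0 M J
    have hsum := eSumP
      (Pool.Agent.W375.MT.EJet.main hFree) Pool.Agent.W375.MT.EShift.main
      (Pool.Agent.W375.MT.ECond.main Pool.Agent.W440.MT.ord)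
      (EMot.eStB hFree hTay) (EMot.eStC hFree hSub hTay) 0 m c 1 M hNon hr0 one_pos Y hL b0 b1
      hb
    -- the series
    set C : Finset (Fin n) → Finset (Fin r) → PowerSeries (MKMu f) := fun J τ =>
      PowerSeries.map (evR (LuMu f)) (cser m J τ) with hCdef
    have hCc : ∀ J τ N, PowerSeries.coeff N (C J τ) =
        Polynomial.eval₂ (Int.castRingHom (MKMu f)) Y (cp 0 m 1 J τ N N) := fun J τ N => by
      simp only [hCdef, cser]
      rw [PowerSeries.coeff_map, PowerSeries.coeff_mk]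
      rfl
    set D : Finset (Fin n) → Finset (Fin r) → PowerSeries (MKMu f) := fun J τ =>
      PowerSeries.mk fun N => ∑ l ∈ Finset.Icc 1 N,
        if 1 * l ≤ N then Y ^ l * PowerSeries.coeff (N - 1 * l) (C J τ) else 0
      with hDdef
    have hD : ∀ J τ, D J τ = PowerSeries.C Y * PowerSeries.X * C J τ * geoR (LuMu f) (-1) 1 := by
      intro J τ
      have h6 := Pool.Agent.W63.MTFin.geo_sum Y (fun N => PowerSeries.coeff N (C J τ)) 1 one_pos
      have h7 := geoR_mul (LuMu f) (-1) 1 one_pos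
      rw [show (1 : ℤ).toNat = 1 from rfl, zpow_neg_one] at h7
      have h9 : PowerSeries.mk (fun N => PowerSeries.coeff N (C J τ)) = C J τ := by
        ext N
        rw [PowerSeries.coeff_mk]
      rw [h9] at h6
      have h10 : D J τ * ((1 - PowerSeries.C Y * PowerSeries.X ^ 1) * geoR (LuMu f) (-1) 1) =
          PowerSeries.C Y * PowerSeries.X ^ 1 * C J τ * geoR (LuMu f) (-1) 1 := by
        rw [← h6, mul_assoc]
      rw [h7, mul_one, pow_one] at h10
      exact h10
    set F : PowerSeries (MKMu f) := ∑ J : Finset (Fin n), FR (LuMu f) m J (b0 J) (b1 J) with hF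
    have hFmem : F ∈ ratRingMu f S := by
      refine (ratRingMu f S).sum_mem fun J _ => ?_
      refine inRat_J (LuMu f) hS1 m J (l J) (fun a ha => ⟨(hl J a ha).2.1, hS2 J a ha⟩) (hG J)
        (b1 J ∅) (fun τ => ∃ u : Fin n → ℕ, Adm J u ∧ τ ⊆ amin m u)
        (fun τ τ' hs h => ?_) (fun τ h => cser_zero m J τ h) (b0 J) (b1 J) (hb00 J) rfl ?_ ?_
      · obtain ⟨u, hu1, hu2⟩ := h
        exact ⟨u, hu1, hs.trans hu2⟩
      · intro i hi j0 hj0 τ hτ hA
        rw [← hML]
        exact (hrel J i hi j0 hj0 τ hτ hA).1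
      · intro i hi j0 hj0 τ hτ hA
        rw [← hML]
        exact (hrel J i hi j0 hj0 τ hτ hA).2
    have hz : zetaMu f = F - PowerSeries.C (PowerSeries.coeff 0 F) := by
      ext N
      by_cases hN : N = 0
      · subst hN
        rw [zetaMu, PowerSeries.coeff_mk, dif_neg (lt_irrefl 0), map_sub, PowerSeries.coeff_C,
          if_pos rfl, sub_self]
      · have hN' : 0 < N := Nat.pos_of_ne_zero hN
        rw [zetaMu, PowerSeries.coeff_mk, dif_pos hN', map_sub, PowerSeries.coeff_C, if_neg hN,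
          sub_zero]
        have h6 := hsum N hN'
        have h7 : algebraMap (K0Mu f) (MKMu f) (K0Mu.mk (diagVar (jetValid f N hN'))) *
            (((LuMu f) ^ (-((n * N : ℕ) : ℤ)) : (MKMu f)ˣ) : MKMu f) =
            M.χ _ (JetE f N) (jw n N) N (jb n N) * Y ^ (n * N) := by
          rw [zpow_neg, zpow_natCast, ← inv_pow, Units.val_pow_eq_pow_val, ← hM₀]
          rfl
        rw [h7, h6, hF, map_sum]
        refine Finset.sum_congr rfl fun J _ => ?_
        unfold FR
        rw [map_sum]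
        refine Finset.sum_congr rfl fun τ _ => ?_
        change _ = PowerSeries.coeff N (PowerSeries.C (((LuMu f : (MKMu f)ˣ) : MKMu f) ^ frc m J τ) *
          (PowerSeries.C (b0 J τ) * C J τ + PowerSeries.C (b1 J τ) *
            (PowerSeries.C Y * PowerSeries.X * C J τ * geoR (LuMu f) (-1) 1)))
        rw [← hD, ← hML, PowerSeries.coeff_C_mul, map_add, PowerSeries.coeff_C_mul,
          PowerSeries.coeff_C_mul, hCc, hDdef, PowerSeries.coeff_mk, Finset.mul_sum]
        congr 2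
        refine Finset.sum_congr rfl fun i _ => ?_
        split_ifs with hi
        · rw [hCc, h5 0 m 1 J τ hr0 one_pos N (N - 1 * i) (Nat.sub_le _ _), mul_assoc]
        · rw [mul_zero]
    show zetaMu f ∈ ratRingMu f S
    rw [hz]
    exact (ratRingMu f S).sub_mem hFmem (Pool.Agent.W63.MEFin.C_mem _ _)

end Pool.Agent.TH216.MC
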