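import Mathlib

set_option autoImplicit false

/-! Exponentials and logarithms of nilpotent elements. -/

namespace Pool.Agent.TH216.MF

open IsNilpotent Finset

variable {A : Type*} [CommRing A] [Algebra ℚ A]

lemma exp_exp {Y : A} (h : IsNilpotent Y) : ∃ w, exp Y = 1 + Y * (1 + Y * w) := by
  obtain ⟨K, hK⟩ := h
  have hK2 : Y ^ (K + 2) = 0 := by rw [pow_add, hK, zero_mul]
  refine ⟨∑ i ∈ range K, ((i + 2).factorial : ℚ)⁻¹ • Y ^ i, ?_⟩
  rw [exp_eq_sum hK2, Finset.sum_range_succ', Finset.sum_range_succ']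
  have h1 : ∑ k ∈ range K, (((k + 1 + 1).factorial : ℕ) : ℚ)⁻¹ • Y ^ (k + 1 + 1) =
      Y * (Y * ∑ i ∈ range K, ((i + 2).factorial : ℚ)⁻¹ • Y ^ i) := by
    rw [Finset.mul_sum, Finset.mul_sum]
    refine Finset.sum_congr rfl fun i _ => ?_
    rw [mul_smul_comm, mul_smul_comm]
    congr 1
    ring
  rw [h1]
  simp
  ring

lemma exp_unit {Y : A} (h : IsNilpotent Y) : ∃ u, IsUnit u ∧ exp Y = 1 + Y * u := by
  obtain ⟨w, hw⟩ := exp_exp h
  refine ⟨1 + Y * w, ?_, hw⟩
  apply IsNilpotent.isUnit_one_add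
  exact (Commute.all Y w).isNilpotent_mul_right h

lemma log_step {n : A} (hn : IsNilpotent n) (m : ℕ) :
    ∃ Y c d, Y = n * c ∧ exp Y = 1 + n + n ^ (m + 1) * d := by
  induction m with
  | zero =>
    refine ⟨0, 0, -1, by simp, ?_⟩
    rw [exp_zero]
    ring
  | succ m ih =>
    obtain ⟨Y, c, d, hY, hd⟩ := ih
    have hYn : IsNilpotent Y := by
      rw [hY]
      exact (Commute.all n c).isNilpotent_mul_right hn
    have hZn : IsNilpotent (-(n ^ (m + 1) * d)) := by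
      refine IsNilpotent.neg ?_
      refine (Commute.all _ d).isNilpotent_mul_right ?_
      exact hn.pow_of_pos (Nat.succ_ne_zero m)
    obtain ⟨w, hw⟩ := exp_exp hZn
    refine ⟨Y + -(n ^ (m + 1) * d), c - n ^ m * d,
      - d - n ^ m * d * d + (1 + n + n ^ (m + 1) * d) * (n ^ m * d * d * w), ?_, ?_⟩
    · rw [hY]
      ring
    · rw [exp_add_of_commute (Commute.all _ _) hYn hZn, hw, hd]
      ring

/-- Existence of logarithms. -/
lemma exists_log {n : A} (hn : IsNilpotent n) : ∃ Y c, Y = n * c ∧ exp Y = 1 + n := by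
  obtain ⟨K, hK⟩ := hn
  obtain ⟨Y, c, d, hY, hd⟩ := log_step ⟨K, hK⟩ K
  refine ⟨Y, c, hY, ?_⟩
  rw [hd, _root_.pow_succ, hK]
  ring

lemma exp_sum {ι : Type*} (s : Finset ι) (Y : ι → A) (h : ∀ i ∈ s, IsNilpotent (Y i)) :
    IsNilpotent (∑ i ∈ s, Y i) ∧ exp (∑ i ∈ s, Y i) = ∏ i ∈ s, exp (Y i) := by
  classical
  induction s using Finset.induction_on with
  | empty => simp
  | insert a s ha ih =>
    obtain ⟨h1, h2⟩ := ih fun i hi => h i (Finset.mem_insert_of_mem hi)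
    have h3 := h a (Finset.mem_insert_self _ _)
    rw [Finset.sum_insert ha, Finset.prod_insert ha]
    refine ⟨(Commute.all _ _).isNilpotent_add h3 h1, ?_⟩
    rw [exp_add_of_commute (Commute.all _ _) h3 h1, h2]

lemma exp_nsmul {Y : A} (h : IsNilpotent Y) (n : ℕ) :
    IsNilpotent ((n : A) * Y) ∧ exp ((n : A) * Y) = exp Y ^ n := by
  obtain ⟨h1, h2⟩ := exp_sum (Finset.range n) (fun _ => Y) fun _ _ => h
  rw [Finset.sum_const, Finset.card_range, nsmul_eq_mul] at h1 h2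
  rw [Finset.prod_const, Finset.card_range] at h2
  exact ⟨h1, h2⟩

end Pool.Agent.TH216.MF
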