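import Pool.Agent.TH216.MF.Act1

set_option autoImplicit false

/-! Partial fractions. -/

namespace Pool.Agent.TH216.MF

open MvPolynomial

lemma d1_eq (q G M : ℕ) (hq : 2 ≤ q) : ∃ κ : ℂ, κ ≠ 0 ∧ d1 q G M = Polynomial.C κ *
    ∏ m ∈ Finset.range M, (Polynomial.X ^ G - Polynomial.C ((q : ℂ) ^ ((m + 1) * G))) := by
  have hq0 : (q : ℂ) ≠ 0 := by
    have : q ≠ 0 := by omega
    exact_mod_cast this
  refine ⟨∏ m ∈ Finset.range M, (-((q : ℂ)⁻¹ ^ ((m + 1) * G))),
    Finset.prod_ne_zero_iff.2 fun m _ => neg_ne_zero.2 (pow_ne_zero _ (inv_ne_zero hq0)), ?_⟩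
  unfold d1
  rw [map_prod, ← Finset.prod_mul_distrib]
  refine Finset.prod_congr rfl fun m _ => ?_
  rw [mul_sub, ← map_mul]
  have h : -((q : ℂ)⁻¹ ^ ((m + 1) * G)) * (q : ℂ) ^ ((m + 1) * G) = -1 := by
    rw [neg_mul, ← mul_pow, inv_mul_cancel₀ hq0, one_pow]
  rw [h, map_neg, map_neg, map_one]
  ring

lemma sep (q G M : ℕ) (hq : 2 ≤ q) (hG : 0 < G) :
    ((Polynomial.X - Polynomial.C 1) * d1 q G M).Separable := by
  classical
  have hq0 : (q : ℂ) ≠ 0 := by
    have : q ≠ 0 := by omega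
    exact_mod_cast this
  have h1 : (∏ m ∈ Finset.range (M + 1),
      (Polynomial.X ^ G - Polynomial.C ((q : ℂ) ^ (m * G)) : Polynomial ℂ)).Separable := by
    apply Polynomial.separable_prod'
    · intro a _ b _ hab
      have hne : (q : ℂ) ^ (b * G) - (q : ℂ) ^ (a * G) ≠ 0 := by
        rw [sub_ne_zero]
        intro h
        have h2 : q ^ (b * G) = q ^ (a * G) := by exact_mod_cast h
        have h3 := Nat.pow_right_injective hq h2
        exact hab (Nat.eq_of_mul_eq_mul_right hG h3.symm)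
      refine ⟨Polynomial.C ((q : ℂ) ^ (b * G) - (q : ℂ) ^ (a * G))⁻¹,
        -Polynomial.C ((q : ℂ) ^ (b * G) - (q : ℂ) ^ (a * G))⁻¹, ?_⟩
      have h4 : Polynomial.C ((q : ℂ) ^ (b * G) - (q : ℂ) ^ (a * G))⁻¹ *
          (Polynomial.C ((q : ℂ) ^ (b * G)) - Polynomial.C ((q : ℂ) ^ (a * G))) =
          (1 : Polynomial ℂ) := by
        rw [← map_sub, ← map_mul, inv_mul_cancel₀ hne, map_one]
      linear_combination h4
    · intro m _
      apply Polynomial.separable_X_pow_sub_C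
      · exact_mod_cast hG.ne'
      · exact pow_ne_zero _ hq0
  obtain ⟨κ, hκ, hd⟩ := d1_eq q G M hq
  have h2 : (Polynomial.X - Polynomial.C 1) * d1 q G M ∣ Polynomial.C κ *
      ∏ m ∈ Finset.range (M + 1),
        (Polynomial.X ^ G - Polynomial.C ((q : ℂ) ^ (m * G)) : Polynomial ℂ) := by
    rw [Finset.prod_range_succ', hd]
    have h3 : (Polynomial.X - Polynomial.C 1 : Polynomial ℂ) ∣
        Polynomial.X ^ G - Polynomial.C ((q : ℂ) ^ (0 * G)) := by
      rw [Polynomial.dvd_iff_isRoot]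
      simp
    obtain ⟨w, hw⟩ := h3
    exact ⟨w, by rw [hw]; ring⟩
  have h3 : (Polynomial.C κ * ∏ m ∈ Finset.range (M + 1),
      (Polynomial.X ^ G - Polynomial.C ((q : ℂ) ^ (m * G)) : Polynomial ℂ)).Separable := by
    refine Polynomial.Separable.mul (Polynomial.separable_C κ |>.2 (isUnit_iff_ne_zero.2 hκ)) h1 ?_
    refine ⟨Polynomial.C κ⁻¹, 0, ?_⟩
    rw [← map_mul, inv_mul_cancel₀ hκ, map_one, zero_mul, add_zero]
  exact h3.of_dvd h2

lemma d1_ne (q G M : ℕ) (hq : 2 ≤ q) (hG : 0 < G) : d1 q G M ≠ 0 := by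
  intro h
  have h1 := sep q G M hq hG
  rw [h, mul_zero] at h1
  exact Polynomial.not_separable_zero h1

theorem pf (q G M : ℕ) (hq : 2 ≤ q) (hG : 0 < G) : ∃ (Rt : Finset ℂ) (c : ℂ → ℂ),
    (∀ ρ ∈ Rt, ((Polynomial.X - Polynomial.C 1) * d1 q G M).eval ρ = 0) ∧
    act1 (d1 q G M) (∑ ρ ∈ Rt, c ρ • H1 ρ) = H1 1 := by
  classical
  set D : Polynomial ℂ := (Polynomial.X - Polynomial.C 1) * d1 q G M with hD
  have hD0 : D ≠ 0 := mul_ne_zero (Polynomial.X_sub_C_ne_zero 1) (d1_ne q G M hq hG)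
  have hnd : D.roots.Nodup := Polynomial.nodup_roots (sep q G M hq hG)
  set Rt : Finset ℂ := D.roots.toFinset with hRt
  have hprod : D = Polynomial.C D.leadingCoeff * ∏ ρ ∈ Rt, (Polynomial.X - Polynomial.C ρ) := by
    have h1 := (IsAlgClosed.splits D).eq_prod_roots
    conv_lhs => rw [h1]
    congr 1
    rw [hRt, Finset.prod, Multiset.toFinset_val, hnd.dedup]
  have hne : Rt.Nonempty := by
    refine ⟨1, ?_⟩
    rw [hRt, Multiset.mem_toFinset, Polynomial.mem_roots hD0, Polynomial.IsRoot, hD]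
    simp
  obtain ⟨c, hc⟩ := lagr Rt hne
  have hl : D.leadingCoeff ≠ 0 := Polynomial.leadingCoeff_ne_zero.2 hD0
  refine ⟨Rt, fun ρ => D.leadingCoeff⁻¹ * c ρ, ?_, ?_⟩
  · intro ρ hρ
    rw [hRt, Multiset.mem_toFinset, Polynomial.mem_roots hD0] at hρ
    exact hρ
  · have h1 : ∑ ρ ∈ Rt, (D.leadingCoeff⁻¹ * c ρ) • H1 ρ =
        D.leadingCoeff⁻¹ • ∑ ρ ∈ Rt, c ρ • H1 ρ := by
      rw [Finset.smul_sum]
      exact Finset.sum_congr rfl fun ρ _ => by rw [smul_smul]
    set Φ : ℤ → ℂ := ∑ ρ ∈ Rt, (D.leadingCoeff⁻¹ * c ρ) • H1 ρ with hΦ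
    have h2 : act1 D Φ = del := by
      rw [h1, hprod, act1_mul, map_smul, hc]
      have h3 : act1 (Polynomial.C D.leadingCoeff) (D.leadingCoeff⁻¹ • del) =
          D.leadingCoeff • (D.leadingCoeff⁻¹ • del) := by
        unfold act1
        rw [Polynomial.aeval_C]
        rfl
      rw [← hprod, h3, smul_smul, mul_inv_cancel₀ hl, one_smul]
    have h3 : act1 (Polynomial.X - Polynomial.C 1) (act1 (d1 q G M) Φ - H1 1) = 0 := by
      rw [map_sub, ← act1_mul, ← hD, h2, act1_X_sub, sub_self]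
    set u : ℤ → ℂ := act1 (d1 q G M) Φ - H1 1 with hu
    have h4 : ∀ n, u (n + 1) = u n := by
      intro n
      have h5 := congrFun h3 n
      rw [act1_X_sub_apply] at h5
      have h7 : u (n + 1) - 1 * u n = 0 := h5
      linear_combination h7
    have hΦn : ∀ n, n < 0 → Φ n = 0 := by
      intro n hn
      rw [hΦ, Finset.sum_apply]
      refine Finset.sum_eq_zero fun ρ _ => ?_
      rw [Pi.smul_apply, H1_neg ρ n hn, smul_zero]
    have h5 : ∀ n : ℤ, n + (d1 q G M).natDegree < 0 → u n = 0 := by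
      intro n hn
      rw [hu, Pi.sub_apply, act1_neg _ _ hΦn n hn, H1_neg _ _ (by omega), sub_zero]
    have h6 : ∀ (k : ℕ) n, u (n + k) = u n := by
      intro k
      induction k with
      | zero => intro n; simp
      | succ k ih =>
        intro n
        rw [← ih n, ← h4 (n + k)]
        congr 1
        push_cast
        ring
    have h7 : u = 0 := by
      funext n
      have h8 := h6 (n + (d1 q G M).natDegree + 1).toNat
        (n - ((n + (d1 q G M).natDegree + 1).toNat : ℕ))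
      rw [sub_add_cancel] at h8
      rw [h8]
      apply h5
      have := Int.self_le_toNat (n + (d1 q G M).natDegree + 1)
      omega
    rw [hu] at h7
    exact sub_eq_zero.1 h7

end Pool.Agent.TH216.MF
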