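import Mathlib

set_option autoImplicit false

/-! Regularised values of power series at `(1, …, 1)`. -/

namespace Pool.Agent.TH216.MF

open MvPolynomial

variable {N : ℕ}


/-- evaluation at `(1, …, 1)` -/
noncomputable def ev1 : MvPolynomial (Fin N) ℂ →+* ℂ := eval (fun _ => 1)

/-- The power series is a quotient of polynomials, regular at `(1, …, 1)` with value `c`. -/
def HasReg (φ : MvPowerSeries (Fin N) ℂ) (c : ℂ) : Prop :=
  ∃ σ P : MvPolynomial (Fin N) ℂ, ev1 σ ≠ 0 ∧ (σ : MvPowerSeries (Fin N) ℂ) * φ = P ∧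
    ev1 P = c * ev1 σ

/-- regular -/
def Reg (φ : MvPowerSeries (Fin N) ℂ) : Prop := ∃ c, HasReg φ c

lemma HasReg.unique {φ : MvPowerSeries (Fin N) ℂ} {c d : ℂ} (h : HasReg φ c) (h' : HasReg φ d) :
    c = d := by
  obtain ⟨σ, P, h1, h2, h3⟩ := h
  obtain ⟨σ', P', h1', h2', h3'⟩ := h'
  have h4 : σ' * P = σ * P' := by
    apply MvPolynomial.coe_injective
    rw [MvPolynomial.coe_mul, MvPolynomial.coe_mul, ← h2, ← h2']
    ring
  have h5 := congrArg ev1 h4
  rw [map_mul, map_mul, h3, h3'] at h5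
  have h6 : ev1 σ * ev1 σ' ≠ 0 := mul_ne_zero h1 h1'
  apply mul_left_cancel₀ h6
  linear_combination h5

lemma HasReg.zero : HasReg (0 : MvPowerSeries (Fin N) ℂ) 0 :=
  ⟨1, 0, by simp [ev1], by simp, by simp⟩

lemma HasReg.add {φ ψ : MvPowerSeries (Fin N) ℂ} {c d : ℂ} (h : HasReg φ c) (h' : HasReg ψ d) :
    HasReg (φ + ψ) (c + d) := by
  obtain ⟨σ, P, h1, h2, h3⟩ := h
  obtain ⟨σ', P', h1', h2', h3'⟩ := h'
  refine ⟨σ * σ', σ' * P + σ * P', ?_, ?_, ?_⟩
  · rw [map_mul]
    exact mul_ne_zero h1 h1'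
  · rw [MvPolynomial.coe_mul, MvPolynomial.coe_add, MvPolynomial.coe_mul, MvPolynomial.coe_mul,
      ← h2, ← h2']
    ring
  · rw [map_add, map_mul, map_mul, map_mul, h3, h3']
    ring

lemma HasReg.smul {φ : MvPowerSeries (Fin N) ℂ} {c : ℂ} (a : ℂ) (h : HasReg φ c) :
    HasReg (a • φ) (a * c) := by
  obtain ⟨σ, P, h1, h2, h3⟩ := h
  refine ⟨σ, C a * P, h1, ?_, ?_⟩
  · rw [MvPolynomial.coe_mul, ← h2, MvPolynomial.coe_C, mul_smul_comm,
      MvPowerSeries.smul_eq_C_mul]
  · rw [map_mul, h3]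
    simp [ev1]
    ring

lemma HasReg.sum {ι : Type*} (s : Finset ι) (φ : ι → MvPowerSeries (Fin N) ℂ) (c : ι → ℂ)
    (h : ∀ i ∈ s, HasReg (φ i) (c i)) : HasReg (∑ i ∈ s, φ i) (∑ i ∈ s, c i) := by
  classical
  induction s using Finset.induction_on with
  | empty => simpa using HasReg.zero
  | insert a s ha ih =>
    rw [Finset.sum_insert ha, Finset.sum_insert ha]
    exact (h a (Finset.mem_insert_self _ _)).add
      (ih fun i hi => h i (Finset.mem_insert_of_mem hi))

/-- Stokes -/
lemma HasReg.stokes {φ φ' φ0 : MvPowerSeries (Fin N) ℂ} {c : ℂ} (i : Fin N) (h : Reg φ)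
    (h0 : HasReg φ0 c)
    (he : (MvPowerSeries.X i) * φ' = (MvPowerSeries.X i - 1) * φ + φ0) : HasReg φ' c := by
  obtain ⟨_, σ, P, h1, h2, h3⟩ := h
  obtain ⟨σ', P', h1', h2', h3'⟩ := h0
  refine ⟨σ * σ' * X i, (X i - 1) * (σ' * P) + σ * P', ?_, ?_, ?_⟩
  · rw [map_mul, map_mul]
    refine mul_ne_zero (mul_ne_zero h1 h1') ?_
    simp [ev1]
  · have e1 : ((X i - 1 : MvPolynomial (Fin N) ℂ) : MvPowerSeries (Fin N) ℂ) =
        MvPowerSeries.X i - 1 := by
      have h5 : ((X i - 1 + 1 : MvPolynomial (Fin N) ℂ) : MvPowerSeries (Fin N) ℂ) =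
          ((X i - 1 : MvPolynomial (Fin N) ℂ) : MvPowerSeries (Fin N) ℂ) + 1 := by
        rw [MvPolynomial.coe_add, MvPolynomial.coe_one]
      rw [sub_add_cancel, MvPolynomial.coe_X] at h5
      rw [h5]
      ring
    rw [MvPolynomial.coe_mul, MvPolynomial.coe_mul, MvPolynomial.coe_add, MvPolynomial.coe_mul,
      MvPolynomial.coe_mul, MvPolynomial.coe_mul, ← h2, ← h2', MvPolynomial.coe_X, e1]
    linear_combination ((σ : MvPowerSeries (Fin N) ℂ) * (σ' : MvPowerSeries (Fin N) ℂ)) * he
  · rw [map_add, map_mul, map_mul, map_mul, map_mul, map_mul, h3']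
    simp [ev1]
    ring

lemma coeff_lin_mul (a : Fin N) (θ : ℂ) (ψ : MvPowerSeries (Fin N) ℂ) (x : Fin N →₀ ℕ) :
    MvPowerSeries.coeff x (((1 - C θ * X a : MvPolynomial (Fin N) ℂ) :
      MvPowerSeries (Fin N) ℂ) * ψ) = MvPowerSeries.coeff x ψ -
      if Finsupp.single a 1 ≤ x then θ * MvPowerSeries.coeff (x - Finsupp.single a 1) ψ else 0 := by
  have e1 : ((1 - C θ * X a : MvPolynomial (Fin N) ℂ) : MvPowerSeries (Fin N) ℂ) =
      1 - MvPowerSeries.monomial (Finsupp.single a 1) θ := by
    have h5 : ((1 - C θ * X a + C θ * X a : MvPolynomial (Fin N) ℂ) : MvPowerSeries (Fin N) ℂ) =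
        ((1 - C θ * X a : MvPolynomial (Fin N) ℂ) : MvPowerSeries (Fin N) ℂ) +
          MvPowerSeries.monomial (Finsupp.single a 1) θ := by
      rw [MvPolynomial.coe_add]
      congr 1
      rw [C_mul_X_eq_monomial, MvPolynomial.coe_monomial]
    rw [sub_add_cancel, MvPolynomial.coe_one] at h5
    rw [h5]
    ring
  rw [e1, sub_mul, one_mul, map_sub, MvPowerSeries.coeff_monomial_mul]

/-- a finitely supported power series is a polynomial -/
lemma exists_poly (φ : MvPowerSeries (Fin N) ℂ) (K : Fin N → ℕ)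
    (h : ∀ i x, K i < x i → MvPowerSeries.coeff x φ = 0) :
    ∃ P : MvPolynomial (Fin N) ℂ, φ = P := by
  classical
  let s : Finset (Fin N →₀ ℕ) := Finset.Iic (Finsupp.equivFunOnFinite.symm K)
  refine ⟨∑ x ∈ s, monomial x (MvPowerSeries.coeff x φ), ?_⟩
  ext x
  rw [MvPolynomial.coeff_coe, coeff_sum]
  simp only [coeff_monomial]
  rw [Finset.sum_ite_eq']
  split_ifs with hx
  · rfl
  · have h1 : ∃ i, K i < x i := by
      by_contra hc
      push Not at hc
      apply hx
      rw [Finset.mem_Iic]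
      intro i
      simpa using hc i
    obtain ⟨i, hi⟩ := h1
    exact h i x hi

/-- Recurrences imply regularity. -/
lemma reg_of_rec (φ : MvPowerSeries (Fin N) ℂ) (θ : Fin N → ℂ) (K : Fin N → ℕ)
    (hθ : ∀ i, θ i ≠ 1) (h : ∀ i x, K i ≤ x i →
      MvPowerSeries.coeff (x + Finsupp.single i 1) φ = θ i * MvPowerSeries.coeff x φ) :
    Reg φ := by
  classical
  have key : ∀ s : Finset (Fin N), ∃ σ : MvPolynomial (Fin N) ℂ, ev1 σ ≠ 0 ∧
      (∀ i ∈ s, ∀ x, K i < x i → MvPowerSeries.coeff x ((σ : MvPowerSeries (Fin N) ℂ) * φ) = 0) ∧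
      ∀ i, i ∉ s → ∀ x, K i ≤ x i →
        MvPowerSeries.coeff (x + Finsupp.single i 1) ((σ : MvPowerSeries (Fin N) ℂ) * φ) =
          θ i * MvPowerSeries.coeff x ((σ : MvPowerSeries (Fin N) ℂ) * φ) := by
    intro s
    induction s using Finset.induction_on with
    | empty =>
      refine ⟨1, by simp [ev1], fun i hi => absurd hi (Finset.notMem_empty _), ?_⟩
      intro i _ x hx
      rw [MvPolynomial.coe_one, one_mul]
      exact h i x hx
    | insert a s ha ih =>
      obtain ⟨σ, h1, h2, h3⟩ := ih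
      refine ⟨(1 - C (θ a) * X a) * σ, ?_, ?_, ?_⟩
      · rw [map_mul]
        refine mul_ne_zero ?_ h1
        simp only [ev1, map_sub, map_one, map_mul, eval_C, eval_X, mul_one]
        exact sub_ne_zero.2 fun h => hθ a h.symm
      · intro i hi x hx
        rw [MvPolynomial.coe_mul, mul_assoc, coeff_lin_mul]
        rcases Finset.mem_insert.1 hi with rfl | hi
        · have h5 : Finsupp.single i 1 ≤ x := by
            rw [Finsupp.single_le_iff]
            omega
          rw [if_pos h5]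
          have h6 := h3 i ha (x - Finsupp.single i 1) (by
            rw [Finsupp.tsub_apply, Finsupp.single_eq_same]
            omega)
          rw [tsub_add_cancel_of_le h5] at h6
          rw [h6, sub_self]
        · have hia : i ≠ a := fun h => ha (h ▸ hi)
          rw [h2 i hi x hx]
          split_ifs
          · rw [h2 i hi]
            · simp
            · rw [Finsupp.tsub_apply, Finsupp.single_eq_of_ne hia]
              omega
          · simp
      · intro i hi x hx
        have hia : i ≠ a := fun h => hi (h ▸ Finset.mem_insert_self _ _)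
        have his : i ∉ s := fun h => hi (Finset.mem_insert_of_mem h)
        rw [MvPolynomial.coe_mul, mul_assoc, coeff_lin_mul, coeff_lin_mul, h3 i his x hx]
        have h5 : Finsupp.single a 1 ≤ x + Finsupp.single i 1 ↔ Finsupp.single a 1 ≤ x := by
          rw [Finsupp.single_le_iff, Finsupp.single_le_iff, Finsupp.add_apply,
            Finsupp.single_eq_of_ne (Ne.symm hia), add_zero]
        by_cases h6 : Finsupp.single a 1 ≤ x
        · rw [if_pos h6, if_pos (h5.2 h6)]
          have h7 : x + Finsupp.single i 1 - Finsupp.single a 1 =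
              (x - Finsupp.single a 1) + Finsupp.single i 1 := by
            rw [tsub_add_eq_add_tsub h6]
          rw [h7, h3 i his]
          · ring
          · rw [Finsupp.tsub_apply, Finsupp.single_eq_of_ne hia]
            omega
        · rw [if_neg h6, if_neg fun h => h6 (h5.1 h)]
          ring
  obtain ⟨σ, h1, h2, _⟩ := key Finset.univ
  obtain ⟨P, hP⟩ := exists_poly ((σ : MvPowerSeries (Fin N) ℂ) * φ) K
    fun i x hx => h2 i (Finset.mem_univ i) x hx
  refine ⟨ev1 P / ev1 σ, σ, P, h1, hP, ?_⟩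
  rw [div_mul_cancel₀ _ h1]

/-- the regularised value is the sum -/
lemma HasReg.hasSum {φ : MvPowerSeries (Fin N) ℂ} {c : ℂ} (h : HasReg φ c)
    (hs : Summable fun x => MvPowerSeries.coeff x φ) :
    ∑' x, MvPowerSeries.coeff x φ = c := by
  classical
  obtain ⟨σ, P, h1, h2, h3⟩ := h
  have key : ∀ σ : MvPolynomial (Fin N) ℂ,
      HasSum (fun x => MvPowerSeries.coeff x ((σ : MvPowerSeries (Fin N) ℂ) * φ))
        (ev1 σ * ∑' x, MvPowerSeries.coeff x φ) := by
    intro σ
    induction σ using MvPolynomial.induction_on' with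
    | monomial n a =>
      have h4 : (ev1 (monomial n a)) = a := by
        simp [ev1, eval_monomial]
      rw [h4, MvPolynomial.coe_monomial]
      have h5 : HasSum (fun x : Fin N →₀ ℕ => MvPowerSeries.coeff (n + x)
          (MvPowerSeries.monomial n a * φ)) (a * ∑' x, MvPowerSeries.coeff x φ) := by
        simp only [MvPowerSeries.coeff_add_monomial_mul]
        exact hs.hasSum.mul_left a
      have h6 : Function.Injective (fun x : Fin N →₀ ℕ => n + x) := add_right_injective n
      refine (h6.hasSum_iff ?_).1 h5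
      intro x hx
      rw [MvPowerSeries.coeff_monomial_mul, if_neg]
      intro h7
      apply hx
      exact ⟨x - n, by simp [add_tsub_cancel_of_le h7]⟩
    | add p q hp hq =>
      have h4 := hp.add hq
      rw [map_add, add_mul, MvPolynomial.coe_add, add_mul]
      simp only [map_add]
      exact h4
  have h4 := key σ
  rw [h2] at h4
  have h5 : HasSum (fun x => MvPowerSeries.coeff x (P : MvPowerSeries (Fin N) ℂ)) (ev1 P) := by
    have h6 : ev1 P = ∑ x ∈ P.support, MvPowerSeries.coeff x (P : MvPowerSeries (Fin N) ℂ) := by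
      simp only [MvPolynomial.coeff_coe]
      unfold ev1
      rw [eval_eq]
      simp
    rw [h6]
    apply hasSum_sum_of_ne_finset_zero
    intro x hx
    rw [MvPolynomial.coeff_coe]
    exact notMem_support_iff.1 hx
  have h6 := h4.unique h5
  rw [h3] at h6
  apply mul_left_cancel₀ h1
  rw [h6]
  ring

end Pool.Agent.TH216.MF
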