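import Pool.Agent.TH216.MF.ExX
import Pool.Agent.TH216.MF.Nil

set_option autoImplicit false
set_option linter.unusedSectionVars false
set_option linter.unusedSimpArgs false

/-! Step A: transfer of the relation to the multiplicative setting, in a local Artinian ring. -/

namespace Pool.Agent.TH216.MF

open MvPolynomial Pool.Agent.H628R4.TZ Pool.Agent.W425.SM

variable {r N : ℕ}

section
variable {A : Type*} [CommRing A] [Algebra ℂ A] [Algebra ℚ A]

lemma unit_add {a : ℂ} (ha : a ≠ 0) {n : A} (hn : IsNilpotent n) :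
    IsUnit (algebraMap ℂ A a + n) := by
  have h1 : IsUnit (algebraMap ℂ A a) := (isUnit_iff_ne_zero.2 ha).map _
  exact hn.isUnit_add_left_of_commute h1 (Commute.all _ _)

lemma nil_aeval (ts : Fin r → ℂ) (t : Fin r → A)
    (ht : ∀ j, IsNilpotent (t j - algebraMap ℂ A (ts j))) (g : MvPolynomial (Fin r) ℂ) :
    IsNilpotent (aeval t g - algebraMap ℂ A (aeval ts g)) := by
  induction g using MvPolynomial.induction_on with
  | C a => simp [algHom_C]
  | add p q hp hq =>
    rw [map_add, map_add, map_add, add_sub_add_comm]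
    exact (Commute.all _ _).isNilpotent_add hp hq
  | mul_X p n hp =>
    rw [map_mul, map_mul, aeval_X, aeval_X, map_mul]
    have e : aeval t p * t n - algebraMap ℂ A (aeval ts p) * algebraMap ℂ A (ts n) =
        (aeval t p - algebraMap ℂ A (aeval ts p)) * t n +
          (t n - algebraMap ℂ A (ts n)) * algebraMap ℂ A (aeval ts p) := by ring
    rw [e]
    exact (Commute.all _ _).isNilpotent_add ((Commute.all _ _).isNilpotent_mul_right hp)
      ((Commute.all _ _).isNilpotent_mul_right (ht n))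

lemma unit_aeval (ts : Fin r → ℂ) (t : Fin r → A)
    (ht : ∀ j, IsNilpotent (t j - algebraMap ℂ A (ts j))) (g : MvPolynomial (Fin r) ℂ)
    (hg : aeval ts g ≠ 0) : IsUnit (aeval t g) := by
  have h := unit_add hg (nil_aeval ts t ht g)
  rwa [add_sub_cancel] at h

lemma aeval_el (v : Fin r → Fin N → ℕ) (i : Fin N) (x : Fin r → A) :
    aeval x (el v i) = 1 + ∑ j, (v j i : A) * x j := by
  unfold el Lf
  rw [map_add, map_one, map_sum]
  congr 1
  refine Finset.sum_congr rfl fun j _ => ?_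
  simp [algHom_C]

lemma aeval_dm (M : ℕ) (j : Fin r) (x : Fin r → A) :
    aeval x (dm M j) = ∏ m ∈ Finset.range M, (x j + ((m + 1 : ℕ) : A)) := by
  unfold dm
  rw [map_prod]
  refine Finset.prod_congr rfl fun m _ => ?_
  simp [algHom_C]

lemma aeval_dj (q G M : ℕ) (j : Fin r) (x : Fin r → A) :
    aeval x (dj q G M j) = ∏ m ∈ Finset.range M,
      (1 - algebraMap ℂ A ((q : ℂ)⁻¹ ^ ((m + 1) * G)) * x j ^ G) := by
  unfold dj d1
  rw [← Polynomial.aeval_algHom_apply, aeval_X, map_prod]
  refine Finset.prod_congr rfl fun m _ => ?_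
  simp only [map_sub, map_one, map_mul, Polynomial.aeval_C, map_pow, Polynomial.aeval_X]

/-- The local statement. -/
theorem stepA (q : ℕ) (hq : 2 ≤ q) (v : Fin r → Fin N → ℕ) (G : ℕ) (hG : Good v G)
    (M n n0 : ℕ) (c : Fin n → Fin r → ℤ) (B : Fin n → Finset (Fin N))
    (Q : Fin n → MvPolynomial (Fin r) ℂ) (c0 : Fin n0 → Fin r → ℤ)
    (Q0 : Fin n0 → MvPolynomial (Fin r) ℂ) (p : Polynomial ℂ)
    (hrel : Polynomial.aeval (∑ j, X j : MvPolynomial (Fin r) ℂ) p * ∏ j, dm M j =
      ∑ k, (∏ i ∈ B k, el v i) * ((∏ j, if c k j < 0 then X j * dm M j else 1) * Q k) +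
      ∑ k, (∏ j, if c0 k j < 0 then X j * dm M j else 1) * Q0 k)
    (I : Ideal (MvPolynomial (Fin r) ℂ)) (hI1 : ∀ k, gen1 q v G M (c k) (B k) ∈ I)
    (hI0 : ∀ k, gen1 q v G M (c0 k) ∅ ∈ I)
    (ts : Fin r → ℂ) (hts : ∀ j, ts j ≠ 0)
    (hp : p.eval ((-Real.log ‖∏ j, ts j‖ / Real.log q : ℝ) : ℂ) ≠ 0)
    (t : Fin r → A) (ht : ∀ j, IsNilpotent (t j - algebraMap ℂ A (ts j))) :
    aeval t (∏ j, dj q G M j) ∈ I.map (aeval t : MvPolynomial (Fin r) ℂ →ₐ[ℂ] A) := by
  classical
  obtain ⟨X0, hX1, hX2, hX3, hX4⟩ := exX q hq v G hG M ts hts p hp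
  have hq1 : (1 : ℝ) < q := by exact_mod_cast (by omega : 1 < q)
  have hlog : Real.log q ≠ 0 := (Real.log_pos hq1).ne'
  have hq0 : (q : ℂ) ≠ 0 := by
    have : q ≠ 0 := by omega
    exact_mod_cast this
  set lam : ℂ := (Real.log q : ℂ) with hlam
  have hlam0 : lam ≠ 0 := by
    rw [hlam]
    exact_mod_cast hlog
  -- logarithms
  have h1 : ∀ j, ∃ Y : A, IsNilpotent Y ∧ t j = algebraMap ℂ A (ts j) * IsNilpotent.exp Y := by
    intro j
    have hn : IsNilpotent (algebraMap ℂ A (ts j)⁻¹ * (t j - algebraMap ℂ A (ts j))) :=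
      (Commute.all _ _).isNilpotent_mul_left (ht j)
    obtain ⟨Y, c, hY, hYe⟩ := exists_log hn
    refine ⟨Y, ?_, ?_⟩
    · rw [hY]
      exact (Commute.all _ _).isNilpotent_mul_right hn
    · rw [hYe, mul_add, mul_one, ← mul_assoc, ← map_mul, mul_inv_cancel₀ (hts j), map_one, one_mul]
      ring
  choose Y hYn hYt using h1
  set x : Fin r → A := fun j => algebraMap ℂ A (X0 j) - algebraMap ℂ A lam⁻¹ * Y j with hx
  have hxn : ∀ j, IsNilpotent (x j - algebraMap ℂ A (X0 j)) := by
    intro j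
    rw [hx]
    have e : algebraMap ℂ A (X0 j) - algebraMap ℂ A lam⁻¹ * Y j - algebraMap ℂ A (X0 j) =
        -(algebraMap ℂ A lam⁻¹ * Y j) := by ring
    simp only [e]
    exact ((Commute.all _ _).isNilpotent_mul_left (hYn j)).neg
  -- `el`
  have hel : ∀ i, aeval t (elm q v i) ∣ aeval x (el v i) := by
    intro i
    by_cases hi : aeval ts (elm q v i) = 0
    · -- both are unit multiples of `S`
      have hYn' : ∀ j, IsNilpotent ((v j i : A) * Y j) := fun j => (exp_nsmul (hYn j) (v j i)).1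
      obtain ⟨hS, hSe⟩ := exp_sum Finset.univ (fun j => (v j i : A) * Y j) fun j _ => hYn' j
      obtain ⟨u, hu, hue⟩ := exp_unit hS
      set S : A := ∑ j, (v j i : A) * Y j with hSd
      have h2 : aeval t (elm q v i) = - (S * u) := by
        unfold elm
        rw [map_sub, map_one, map_mul, map_prod, aeval_C]
        have h3 : ∏ j, aeval t ((X j : MvPolynomial (Fin r) ℂ) ^ v j i) =
            algebraMap ℂ A (∏ j, ts j ^ v j i) * IsNilpotent.exp S := by
          rw [hSe, map_prod, ← Finset.prod_mul_distrib]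
          refine Finset.prod_congr rfl fun j _ => ?_
          rw [map_pow, aeval_X, hYt j, mul_pow, map_pow, (exp_nsmul (hYn j) (v j i)).2]
        rw [h3, (norm_rel q hq v ts i hts hi).1, ← mul_assoc, ← map_mul, inv_mul_cancel₀ hq0,
          map_one, one_mul, hue]
        ring
      have h4 : aeval x (el v i) = - (algebraMap ℂ A lam⁻¹ * S) := by
        rw [aeval_el]
        have h5 : ∑ j, (v j i : A) * x j = algebraMap ℂ A (∑ j, (v j i : ℂ) * X0 j) -
            algebraMap ℂ A lam⁻¹ * S := by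
          rw [map_sum, hSd, Finset.mul_sum, ← Finset.sum_sub_distrib]
          refine Finset.sum_congr rfl fun j _ => ?_
          rw [hx, map_mul, map_natCast]
          ring
        rw [h5, ← add_sub_assoc, ← map_one (algebraMap ℂ A), ← map_add, hX1 i hi, map_zero]
        ring
      rw [h2, h4, neg_dvd, dvd_neg]
      obtain ⟨w, hw⟩ := hu.exists_right_inv
      refine ⟨w * algebraMap ℂ A lam⁻¹, ?_⟩
      calc algebraMap ℂ A lam⁻¹ * S = (u * w) * (algebraMap ℂ A lam⁻¹ * S) := by rw [hw, one_mul]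
        _ = S * u * (w * algebraMap ℂ A lam⁻¹) := by ring
    · exact (unit_aeval ts t ht _ hi).dvd
  -- `dm`
  have hdm : ∀ j, aeval x (dm M j) ∣ aeval t (dj q G M j) := by
    intro j
    rw [aeval_dm, aeval_dj]
    refine Finset.prod_dvd_prod_of_dvd _ _ fun m hm => ?_
    by_cases h2 : X0 j + ((m + 1 : ℕ) : ℂ) = 0
    · obtain ⟨hY1, hY2⟩ := exp_nsmul (hYn j) G
      obtain ⟨u, hu, hue⟩ := exp_unit hY1
      have h3 := hX4 j m hm h2
      have h4 : 1 - algebraMap ℂ A ((q : ℂ)⁻¹ ^ ((m + 1) * G)) * t j ^ G =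
          - ((G : A) * Y j * u) := by
        rw [hYt j, mul_pow, ← map_pow, ← mul_assoc, ← map_mul, h3, map_one, one_mul, ← hY2, hue]
        ring
      have h5 : x j + ((m + 1 : ℕ) : A) = - (algebraMap ℂ A lam⁻¹ * Y j) := by
        have h6 : (((m + 1 : ℕ) : A)) = algebraMap ℂ A ((m + 1 : ℕ) : ℂ) := (map_natCast _ _).symm
        rw [hx, h6]
        have h7 := congrArg (algebraMap ℂ A) h2
        rw [map_add, map_zero] at h7
        linear_combination h7
      rw [h4, h5, neg_dvd, dvd_neg]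
      refine ⟨algebraMap ℂ A lam * (G : A) * u, ?_⟩
      have h8 : algebraMap ℂ A lam⁻¹ * algebraMap ℂ A lam = 1 := by
        rw [← map_mul, inv_mul_cancel₀ hlam0, map_one]
      linear_combination (-(G : A) * Y j * u) * h8
    · refine IsUnit.dvd ?_
      have h3 := unit_add (A := A) h2 (hxn j)
      have e : algebraMap ℂ A (X0 j + ((m + 1 : ℕ) : ℂ)) + (x j - algebraMap ℂ A (X0 j)) =
          x j + ((m + 1 : ℕ) : A) := by
        rw [map_add, map_natCast]
        ring
      rwa [e] at h3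
  -- `X_j`
  have hXj : ∀ j, (1 - t j) ∣ x j := by
    intro j
    by_cases h2 : ts j = 1
    · obtain ⟨u, hu, hue⟩ := exp_unit (hYn j)
      have h3 : 1 - t j = - (Y j * u) := by
        rw [hYt j, h2, map_one, one_mul, hue]
        ring
      have h4 : x j = - (algebraMap ℂ A lam⁻¹ * Y j) := by
        rw [hx]
        simp only
        rw [hX2 j h2, map_zero, zero_sub]
      rw [h3, h4, neg_dvd, dvd_neg]
      obtain ⟨w, hw⟩ := hu.exists_right_inv
      refine ⟨w * algebraMap ℂ A lam⁻¹, ?_⟩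
      calc algebraMap ℂ A lam⁻¹ * Y j = (u * w) * (algebraMap ℂ A lam⁻¹ * Y j) := by
            rw [hw, one_mul]
        _ = Y j * u * (w * algebraMap ℂ A lam⁻¹) := by ring
    · refine IsUnit.dvd ?_
      have h3 : (1 : ℂ) - ts j ≠ 0 := sub_ne_zero.2 fun h => h2 h.symm
      have h4 := unit_add (A := A) h3 (ht j).neg
      have e : algebraMap ℂ A (1 - ts j) + -(t j - algebraMap ℂ A (ts j)) = 1 - t j := by
        rw [map_sub, map_one]
        ring
      rwa [e] at h4
  choose z hz using hdm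
  -- the relation
  have hR := congrArg (aeval x) hrel
  rw [map_mul, map_add, map_sum, map_sum, ← Polynomial.aeval_algHom_apply, map_sum] at hR
  simp only [aeval_X] at hR
  -- the unit
  have hU : IsUnit (Polynomial.aeval (∑ j, x j) p) := by
    have h2 : aeval X0 (Polynomial.aeval (∑ j, X j : MvPolynomial (Fin r) ℂ) p) ≠ 0 := by
      rw [← Polynomial.aeval_algHom_apply, map_sum]
      simp only [aeval_X]
      rw [Polynomial.coe_aeval_eq_eval]
      exact hX3
    have h3 := unit_aeval X0 x hxn _ h2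
    rw [← Polynomial.aeval_algHom_apply, map_sum] at h3
    simp only [aeval_X] at h3
    exact h3
  -- membership of the terms
  have hterm : ∀ (c : Fin r → ℤ) (B : Finset (Fin N)) (Q : MvPolynomial (Fin r) ℂ),
      gen1 q v G M c B ∈ I →
      aeval x ((∏ i ∈ B, el v i) * ((∏ j, if c j < 0 then X j * dm M j else 1) * Q)) * ∏ j, z j ∈
        I.map (aeval t : MvPolynomial (Fin r) ℂ →ₐ[ℂ] A) := by
    intro c B Q hg
    have h2 := Ideal.mem_map_of_mem (aeval t : MvPolynomial (Fin r) ℂ →ₐ[ℂ] A) hg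
    refine Ideal.mem_of_dvd _ ?_ h2
    unfold gen1
    rw [map_mul, map_mul, map_mul, map_prod, map_prod, map_prod, map_prod]
    have h3 : ∏ i ∈ B, aeval t (elm q v i) ∣ ∏ i ∈ B, aeval x (el v i) :=
      Finset.prod_dvd_prod_of_dvd _ _ fun i _ => hel i
    have h4 : ∏ j, aeval t (if c j < 0 then (1 - X j) * dj q G M j else 1) ∣
        (∏ j, aeval x (if c j < 0 then X j * dm M j else 1)) * ∏ j, z j := by
      rw [← Finset.prod_mul_distrib]
      refine Finset.prod_dvd_prod_of_dvd _ _ fun j _ => ?_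
      split_ifs with hj
      · rw [map_mul, map_mul, map_sub, map_one, aeval_X, aeval_X, mul_assoc, ← hz j]
        exact mul_dvd_mul_right (hXj j) _
      · rw [map_one]
        exact one_dvd _
    have h5 := mul_dvd_mul h3 h4
    refine h5.trans ⟨aeval x Q, ?_⟩
    ring
  have h2 : Polynomial.aeval (∑ j, x j) p * aeval t (∏ j, dj q G M j) ∈
      I.map (aeval t : MvPolynomial (Fin r) ℂ →ₐ[ℂ] A) := by
    have h3 : Polynomial.aeval (∑ j, x j) p * aeval t (∏ j, dj q G M j) =
        (∑ k, aeval x ((∏ i ∈ B k, el v i) *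
          ((∏ j, if c k j < 0 then X j * dm M j else 1) * Q k))) * ∏ j, z j +
        (∑ k, aeval x ((∏ j, if c0 k j < 0 then X j * dm M j else 1) * Q0 k)) * ∏ j, z j := by
      rw [← add_mul, ← hR, map_prod, map_prod, mul_assoc, ← Finset.prod_mul_distrib]
      congr 1
      exact Finset.prod_congr rfl fun j _ => hz j
    rw [h3, Finset.sum_mul, Finset.sum_mul]
    refine Ideal.add_mem _ (Ideal.sum_mem _ fun k _ => hterm _ _ _ (hI1 k))
      (Ideal.sum_mem _ fun k _ => ?_)
    have h4 := hterm (c0 k) ∅ (Q0 k) (hI0 k)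
    rw [Finset.prod_empty, one_mul] at h4
    exact h4
  exact (Ideal.unit_mul_mem_iff_mem _ hU).1 h2

end

end Pool.Agent.TH216.MF
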